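import Mathlib

set_option autoImplicit false

/-! # Gaps between the square roots of consecutive primes -/

namespace Pool.Agent.T2h81.LD

/-- `x` lies between the square roots of two consecutive primes, at distance more than `t` from both -/
def InGap (x t : ℝ) : Prop :=
  ∃ n : ℕ, Real.sqrt (Nat.nth Nat.Prime n) + t < x ∧ x + t < Real.sqrt (Nat.nth Nat.Prime (n + 1))

lemma inGap_of_far (x t : ℝ) (hx : 2 ≤ x) (ht : 0 ≤ t)
    (h : ∀ q : ℕ, q.Prime → t < |Real.sqrt q - x|) : InGap x t := by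
  obtain ⟨N, hN⟩ : ∃ N : ℕ, N = ⌊x ^ 2⌋₊ := ⟨_, rfl⟩
  have hx0 : 0 ≤ x := by linarith
  have hN2 : 2 ≤ N := by
    rw [hN]
    apply Nat.le_floor
    push_cast
    nlinarith
  have hc1 : 1 ≤ Nat.count Nat.Prime (N + 1) := by
    have h1 : Nat.count Nat.Prime 3 = 1 := by decide
    rw [← h1]
    exact Nat.count_monotone _ (by omega)
  obtain ⟨n, hn⟩ : ∃ n, Nat.count Nat.Prime (N + 1) = n + 1 := ⟨_, (Nat.sub_add_cancel hc1).symm⟩
  have h1 : Nat.nth Nat.Prime n < N + 1 := Nat.nth_lt_of_lt_count (by omega)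
  have h2 : N + 1 ≤ Nat.nth Nat.Prime (n + 1) := by
    rw [← hn]
    exact Nat.le_nth_count Nat.infinite_setOfPred_prime _
  have hp1 : (Nat.nth Nat.Prime n).Prime := Nat.prime_nth_prime n
  have hp2 : (Nat.nth Nat.Prime (n + 1)).Prime := Nat.prime_nth_prime (n + 1)
  refine ⟨n, ?_, ?_⟩
  · have h3 : Real.sqrt (Nat.nth Nat.Prime n) ≤ x := by
      apply Real.sqrt_le_left hx0 |>.2
      have h4 : ((Nat.nth Nat.Prime n : ℕ) : ℝ) ≤ N := by exact_mod_cast Nat.lt_succ_iff.1 h1
      refine h4.trans ?_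
      rw [hN]
      exact Nat.floor_le (by positivity)
    have h5 := h _ hp1
    rw [abs_sub_comm, abs_of_nonneg (by linarith)] at h5
    linarith
  · have h3 : x ≤ Real.sqrt (Nat.nth Nat.Prime (n + 1)) := by
      apply Real.le_sqrt_of_sq_le
      have h4 : ((N + 1 : ℕ) : ℝ) ≤ (Nat.nth Nat.Prime (n + 1) : ℕ) := by exact_mod_cast h2
      have h5 := (Nat.lt_floor_add_one (x ^ 2)).le
      rw [← hN] at h5
      push_cast at h4
      linarith
    have h5 := h _ hp2
    rw [abs_of_nonneg (by linarith)] at h5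
    linarith

end Pool.Agent.T2h81.LD
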