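import Pool.Agent.T2h81.LD.M3
import Pool.Agent.H498R2.KlWeil

set_option autoImplicit false
set_option linter.unusedSectionVars false
set_option linter.unusedVariables false
set_option maxHeartbeats 4000000

/-! # Families of classes modulo a prime with small Fourier coefficients: examples -/

namespace Pool.Agent.T2h81.LD

open Finset Filter
open Pool.Agent.N825.FC (bilin roots sub_sum)
open Pool.Agent.W147.PS (ev_pow)

open scoped Classical

lemma le_of_sq_le_sq' {x y : ℝ} (h : x ^ 2 ≤ y ^ 2) (hy : 0 ≤ y) : x ≤ y :=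
  abs_le_of_sq_le_sq' h hy |>.2

/-- products of two sets -/
theorem bias_products (r : ℕ) (hr : 1 ≤ r) (ε : ℝ) (hε : 0 < ε) (hε1 : ε ≤ 1) :
    ∃ P₀ : ℝ, ∀ (P : ℕ) [Fact P.Prime], P₀ ≤ P →
    ∀ A B : Finset (ZMod P), (P : ℝ) ^ (1 + ε) ≤ A.card * B.card →
    ∀ G K : Fin r → ZMod P → ZMod P, ∀ k : Fin r → ZMod P, k ≠ 0 →
    ‖∑ w ∈ A ×ˢ B, (ZMod.stdAddChar (∑ j, k j *
      (w.1 * w.2 ^ ((j : ℕ) + 1) + G j w.1 + K j w.2)) : ℂ)‖ ≤
      (A ×ˢ B).card * (P : ℝ) ^ (-(ε / 4)) := by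
  obtain ⟨P₁, hP₁⟩ := eventually_atTop.1 ((eventually_ge_atTop (1 : ℝ)).and
    (ev_pow 1 (1 + ε / 2) r (by linarith)))
  refine ⟨P₁, ?_⟩
  intro P _ hP A B hAB G K k hk
  obtain ⟨hP1, hPr⟩ := hP₁ P hP
  have hP0 : (0 : ℝ) < P := by linarith
  have hAB0 : (0 : ℝ) < A.card * B.card := lt_of_lt_of_le (Real.rpow_pos_of_pos hP0 _) hAB
  have h1 := bilin (P := P) A B (fun b => ∑ j, k j * b ^ ((j : ℕ) + 1))
    (fun a => ZMod.stdAddChar (∑ j, k j * G j a)) (fun b => ZMod.stdAddChar (∑ j, k j * K j b))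
    (fun a => (AddChar.norm_apply _ _).le) (fun b => (AddChar.norm_apply _ _).le) r
    (fun y => roots r k hk B y)
  have h2 : ∑ w ∈ A ×ˢ B, (ZMod.stdAddChar (∑ j, k j *
      (w.1 * w.2 ^ ((j : ℕ) + 1) + G j w.1 + K j w.2)) : ℂ) =
      ∑ a ∈ A, ∑ b ∈ B, ZMod.stdAddChar (∑ j, k j * G j a) *
        (ZMod.stdAddChar (a * ∑ j, k j * b ^ ((j : ℕ) + 1)) *
          ZMod.stdAddChar (∑ j, k j * K j b)) := by
    rw [sum_product]
    refine sum_congr rfl fun a _ => sum_congr rfl fun b _ => ?_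
    rw [← AddChar.map_add_eq_mul, ← AddChar.map_add_eq_mul]
    congr 1
    rw [mul_sum, ← sum_add_distrib, ← sum_add_distrib]
    exact sum_congr rfl fun j _ => by ring
  rw [h2]
  refine le_of_sq_le_sq' ?_ (by positivity)
  refine h1.trans ?_
  rw [card_product]
  push_cast
  rw [Real.rpow_one] at hPr
  have h3 : (r : ℝ) * P ≤ (A.card * B.card) * (P : ℝ) ^ (-(ε / 2)) := by
    calc (r : ℝ) * P ≤ (P : ℝ) ^ (1 + ε / 2) := hPr
      _ = (P : ℝ) ^ (1 + ε) * (P : ℝ) ^ (-(ε / 2)) := by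
          rw [← Real.rpow_add hP0]; congr 1; ring
      _ ≤ _ := mul_le_mul_of_nonneg_right hAB (by positivity)
  have h4 : ((P : ℝ) ^ (-(ε / 4))) ^ 2 = (P : ℝ) ^ (-(ε / 2)) := by
    rw [← Real.rpow_natCast, ← Real.rpow_mul hP0.le]
    congr 1
    push_cast
    ring
  calc (A.card : ℝ) * (P * (r * B.card)) = (A.card * B.card) * (r * P) := by ring
    _ ≤ (A.card * B.card) * ((A.card * B.card) * (P : ℝ) ^ (-(ε / 2))) :=
        mul_le_mul_of_nonneg_left h3 hAB0.le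
    _ = (A.card * B.card * (P : ℝ) ^ (-(ε / 4))) ^ 2 := by
        rw [mul_pow, h4]; ring

/-- cosets of subgroups -/
theorem bias_cosets (ε : ℝ) (hε : 0 < ε) (hε1 : ε ≤ 1) :
    ∃ P₀ : ℝ, ∀ (P : ℕ) [Fact P.Prime], P₀ ≤ P →
    ∀ (H : Subgroup (ZMod P)ˣ) (s : Finset (ZMod P)ˣ), (∀ h, h ∈ s ↔ h ∈ H) →
    (P : ℝ) ^ (3 / 8 + ε) ≤ s.card → ∀ x : ZMod P, x ≠ 0 → ∀ k : Fin 1 → ZMod P, k ≠ 0 →
    ‖∑ h ∈ s, (ZMod.stdAddChar (∑ j : Fin 1, k j * (x * (h : ZMod P))) : ℂ)‖ ≤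
      s.card * (P : ℝ) ^ (-(ε / 4)) := by
  classical
  obtain ⟨P₁, hP₁⟩ := eventually_atTop.1 ((eventually_ge_atTop (1 : ℝ)).and
    (ev_pow (1 + 2 * ε) (1 + 8 * ε / 3) 64 (by linarith)))
  refine ⟨P₁, ?_⟩
  intro P _ hP H s hs hcard x hx k hk
  obtain ⟨hP1, hP64⟩ := hP₁ P hP
  have hP0 : (0 : ℝ) < P := by linarith
  have hs0 : (0 : ℝ) < s.card := lt_of_lt_of_le (Real.rpow_pos_of_pos hP0 _) hcard
  have hne : s.Nonempty := by
    rw [← card_pos]
    exact_mod_cast hs0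
  have hk0 : k 0 ≠ 0 := by
    intro h0
    apply hk
    funext j
    rw [Subsingleton.elim j 0, h0]
    rfl
  set S : Finset (ZMod P) := s.image fun h : (ZMod P)ˣ => (h : ZMod P) with hSdef
  have hScard : S.card = s.card := card_image_of_injective _ Units.val_injective
  have hS : ∀ x, x ∈ S ↔ ∃ h ∈ H, ((h : (ZMod P)ˣ) : ZMod P) = x := by
    intro x
    rw [hSdef, mem_image]
    simp only [hs]
  have hcard1 : 1 ≤ s.card := hne.card_pos
  obtain ⟨b1, b2⟩ := sub_sum H S hS s.card hScard hcard1 (k 0 * x) (mul_ne_zero hk0 hx)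
  have h2 : ∑ h ∈ s, (ZMod.stdAddChar (∑ j : Fin 1, k j * (x * (h : ZMod P))) : ℂ) =
      ∑ y ∈ S, (ZMod.stdAddChar (k 0 * x * y) : ℂ) := by
    rw [hSdef, sum_image (fun a _ b _ hab => Units.val_injective hab)]
    refine sum_congr rfl fun h _ => ?_
    rw [Fin.sum_univ_one, mul_assoc]
  rw [h2]
  set F : ℝ := ‖∑ y ∈ S, (ZMod.stdAddChar (k 0 * x * y) : ℂ)‖ with hF
  have hF0 : 0 ≤ F := norm_nonneg _
  rcases lt_or_ge (s.card ^ 4) (P ^ 3) with hlt | hge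
  · have h3 := b2 hlt
    have h4 : F ^ 8 ≤ (s.card * (P : ℝ) ^ (-(ε / 4))) ^ 8 := by
      refine h3.trans ?_
      have e1 : ((P : ℝ) ^ (-(ε / 4))) ^ 8 = (P : ℝ) ^ (-(2 * ε)) := by
        rw [← Real.rpow_natCast, ← Real.rpow_mul hP0.le]
        congr 1
        push_cast
        ring
      have e2 : ((s.card : ℝ) ^ (8 / 3 : ℝ)) ^ 2 * (s.card : ℝ) ^ (8 / 3 : ℝ) =
          (s.card : ℝ) ^ 8 := by
        rw [← Real.rpow_natCast ((s.card : ℝ) ^ (8 / 3 : ℝ)), ← Real.rpow_mul hs0.le,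
          ← Real.rpow_add hs0, ← Real.rpow_natCast (s.card : ℝ)]
        congr 1
        push_cast
        ring
      have e3 : (P : ℝ) ^ (1 + 8 * ε / 3) ≤ (s.card : ℝ) ^ (8 / 3 : ℝ) := by
        calc (P : ℝ) ^ (1 + 8 * ε / 3) = ((P : ℝ) ^ (3 / 8 + ε)) ^ (8 / 3 : ℝ) := by
              rw [← Real.rpow_mul hP0.le]; congr 1; ring
          _ ≤ _ := Real.rpow_le_rpow (by positivity) hcard (by norm_num)
      have e4 : (P : ℝ) ^ (1 + 2 * ε) * (P : ℝ) ^ (-(2 * ε)) = P := by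
        rw [← Real.rpow_add hP0]
        have : 1 + 2 * ε + -(2 * ε) = 1 := by ring
        rw [this, Real.rpow_one]
      have e5 : 64 * (P : ℝ) ≤ (s.card : ℝ) ^ (8 / 3 : ℝ) * (P : ℝ) ^ (-(2 * ε)) := by
        calc 64 * (P : ℝ) = (64 * (P : ℝ) ^ (1 + 2 * ε)) * (P : ℝ) ^ (-(2 * ε)) := by
              rw [mul_assoc, e4]
          _ ≤ _ := mul_le_mul_of_nonneg_right (hP64.trans e3) (by positivity)
      calc (P : ℝ) * (8 * (s.card : ℝ) ^ (8 / 3 : ℝ)) ^ 2 =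
          ((s.card : ℝ) ^ (8 / 3 : ℝ)) ^ 2 * (64 * P) := by ring
        _ ≤ ((s.card : ℝ) ^ (8 / 3 : ℝ)) ^ 2 *
            ((s.card : ℝ) ^ (8 / 3 : ℝ) * (P : ℝ) ^ (-(2 * ε))) :=
            mul_le_mul_of_nonneg_left e5 (by positivity)
        _ = (s.card * (P : ℝ) ^ (-(ε / 4))) ^ 8 := by
            rw [← mul_assoc, e2, mul_pow, e1]
    exact (pow_le_pow_iff_left₀ hF0 (by positivity) (by norm_num)).1 h4
  · have h3 : (P : ℝ) ≤ (s.card * (P : ℝ) ^ (-(ε / 4))) ^ 2 := by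
      have e1 : ((P : ℝ) ^ (-(ε / 4))) ^ 2 = (P : ℝ) ^ (-(ε / 2)) := by
        rw [← Real.rpow_natCast, ← Real.rpow_mul hP0.le]
        congr 1
        push_cast
        ring
      have e2 : (P : ℝ) ^ (3 / 2 : ℝ) ≤ (s.card : ℝ) ^ 2 := by
        have h4 : ((P : ℝ) ^ 3) ≤ (s.card : ℝ) ^ 4 := by exact_mod_cast hge
        have h5 : ((P : ℝ) ^ (3 / 2 : ℝ)) ^ 2 ≤ ((s.card : ℝ) ^ 2) ^ 2 := by
          rw [← Real.rpow_natCast ((P : ℝ) ^ (3 / 2 : ℝ)), ← Real.rpow_mul hP0.le]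
          calc (P : ℝ) ^ (3 / 2 * ((2 : ℕ) : ℝ)) = (P : ℝ) ^ 3 := by
                rw [← Real.rpow_natCast]; congr 1; norm_num
            _ ≤ (s.card : ℝ) ^ 4 := h4
            _ = _ := by ring
        exact (pow_le_pow_iff_left₀ (by positivity) (by positivity) (by norm_num)).1 h5
      calc (P : ℝ) = (P : ℝ) ^ (1 : ℝ) := (Real.rpow_one _).symm
        _ ≤ (P : ℝ) ^ (3 / 2 + -(ε / 2)) := Real.rpow_le_rpow_of_exponent_le hP1 (by linarith)
        _ = (P : ℝ) ^ (3 / 2 : ℝ) * (P : ℝ) ^ (-(ε / 2)) := Real.rpow_add hP0 _ _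
        _ ≤ (s.card : ℝ) ^ 2 * (P : ℝ) ^ (-(ε / 2)) :=
            mul_le_mul_of_nonneg_right e2 (by positivity)
        _ = _ := by rw [mul_pow, e1]
    exact (pow_le_pow_iff_left₀ hF0 (by positivity) (by norm_num)).1 (b1.trans h3)

/-- a complete sum with a linear term and an inverse -/
theorem kl_bound (P : ℕ) [Fact P.Prime] (hP : P ≠ 2) (a b : ZMod P) (hab : a ≠ 0 ∨ b ≠ 0) :
    ‖∑ x : ZMod P, (ZMod.stdAddChar (a * x + b * x⁻¹) : ℂ)‖ ≤ 3 * Real.sqrt P := by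
  have hPr : P.Prime := Fact.out
  have hP1 : (1 : ℝ) ≤ Real.sqrt P := by
    rw [Real.one_le_sqrt]
    exact_mod_cast hPr.one_lt.le
  have hchar : ringChar (ZMod P) ≠ 2 := by
    rw [ZMod.ringChar_zmod_n]; exact hP
  have hlin : ∀ c : ZMod P, c ≠ 0 → ∑ x : ZMod P, (ZMod.stdAddChar (c * x) : ℂ) = 0 := by
    intro c hc
    have h2 := AddChar.sum_mulShift (R := ZMod P) (R' := ℂ) (ψ := ZMod.stdAddChar)
      c (ZMod.isPrimitive_stdAddChar P)
    rw [if_neg hc] at h2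
    rw [Nat.cast_zero] at h2
    rw [← h2]
    exact sum_congr rfl fun x _ => by rw [mul_comm]
  by_cases ha : a = 0
  · subst ha
    have hb : b ≠ 0 := by
      rcases hab with h | h
      · exact absurd rfl h
      · exact h
    have h1 : ∑ x : ZMod P, (ZMod.stdAddChar (0 * x + b * x⁻¹) : ℂ) = 0 := by
      rw [← hlin b hb]
      exact Fintype.sum_equiv (Equiv.inv (ZMod P)) _ _ fun x => by
        rw [zero_mul, zero_add, Equiv.inv_apply]
    rw [h1, norm_zero]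
    positivity
  · by_cases hb : b = 0
    · subst hb
      have h1 : ∑ x : ZMod P, (ZMod.stdAddChar (a * x + 0 * x⁻¹) : ℂ) = 0 := by
        rw [← hlin a ha]
        exact sum_congr rfl fun x _ => by rw [zero_mul, add_zero]
      rw [h1, norm_zero]
      positivity
    · have h1 := Pool.Agent.H498R2.Kl.kloosterman_le hchar (ZMod.isPrimitive_stdAddChar P) ha hb
      rw [ZMod.card] at h1
      have h2 : ∑ x : ZMod P, (ZMod.stdAddChar (a * x + b * x⁻¹) : ℂ) =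
          1 + ∑ x : ZMod P, (if x = 0 then (0 : ℂ) else ZMod.stdAddChar (a * x + b * x⁻¹)) := by
        rw [← Finset.add_sum_erase univ _ (Finset.mem_univ (0 : ZMod P)),
          ← Finset.add_sum_erase univ (fun x : ZMod P => if x = 0 then (0 : ℂ) else
            ZMod.stdAddChar (a * x + b * x⁻¹)) (Finset.mem_univ (0 : ZMod P))]
        rw [if_pos rfl, zero_add, mul_zero, inv_zero, mul_zero, add_zero, AddChar.map_zero_eq_one]
        congr 1
        exact sum_congr rfl fun x hx => by rw [if_neg (Finset.ne_of_mem_erase hx)]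
      rw [h2]
      refine (norm_add_le _ _).trans ?_
      rw [norm_one]
      linarith

end Pool.Agent.T2h81.LD
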