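import Pool.Agent.T2h81.RF.FRC5_Cov5
import Pool.Agent.Y961.JR.Count

set_option autoImplicit false
set_option linter.unusedSectionVars false
set_option linter.unusedVariables false
set_option maxHeartbeats 4000000

/-! # The Brun-Hooley majorants for the primes in an interval, general densities -/

namespace Pool.Agent.T2h81.LD

open Finset Filter Pool.Agent.H256R2.SC Pool.Agent.Y831.RC Pool.Agent.T2h81.RF

open scoped Classical

theorem BHyp_G : ∃ C₁ : ℝ, 0 < C₁ ∧ ∀ (w y : ℝ) (b₀ : ℕ) (m τ : ℝ) (κ : Type) [Fintype κ]
    [DecidableEq κ], 2 ≤ w → C₁ ≤ Real.log w → w ≤ y → Even b₀ →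
    2 * (Fintype.card κ : ℝ) ≤ w → 0 ≤ m → τ ≤ 1 → m * (1 / 3) ^ b₀ ≤ Real.exp (-130) * τ →
    ∀ g : Fin (PS w y ∅).card → ℝ, (∀ i, 0 ≤ g i) →
    (∀ i, g i ≤ 1 / ((emb (PS w y ∅) i : ℕ) : ℝ)) →
    ∃ R : κ → Col (PS w y ∅).card κ → ℝ,
      BHyp g R m τ ∧
      ∀ k, Lw (Real.exp (Real.log y * (2 * b₀ + 4))) (R k) := by
  obtain ⟨CR, hCR0, hSR⟩ := sum_ratio
  refine ⟨4 * CR + 1, by positivity, ?_⟩
  intro w y b₀ m τ κ _ _ hw2 hw hwy hb₀ huw hm0 hτ1 hmτ
  have hy0 : 0 < y := by linarith
  have hlw : 0 < Real.log w := by linarith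
  have hlwy : Real.log w ≤ Real.log y := Real.log_le_log (by linarith) hwy
  have hly : 0 < Real.log y := by linarith
  set PP : Finset ℕ := PS w y ∅ with hPP
  intro g hg0 hgle
  have hmem : ∀ i, emb PP i ∈ PS w y ∅ := fun i => emb_mem PP i
  have hPm : ∀ i, (emb PP i).Prime ∧ w < ((emb PP i : ℕ):ℝ) ∧ ((emb PP i : ℕ):ℝ) ≤ y :=
    fun i => PS_mem hy0.le (hmem i)
  have hP0 : ∀ i, 0 < ((emb PP i : ℕ):ℝ) := fun i => by linarith [(hPm i).2.1]
  have hgu : ∀ i, (Fintype.card κ : ℝ) * g i ≤ 1 / 2 := fun i => by
    refine (mul_le_mul_of_nonneg_left (hgle i) (Nat.cast_nonneg _)).trans ?_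
    rw [mul_one_div, div_le_div_iff₀ (hP0 i) (by norm_num)]
    have := (hPm i).2.1.le
    linarith
  have hwt : ∀ i (c : Option κ), 0 ≤ wt (g i) c := fun i c =>
    wt_nonneg (hg0 i) (by linarith [hgu i]) c
  set bl : Fin PP.card → ℕ := fun i => blk y (emb PP i) with hbl
  set B : ℕ := Nat.log 2 ⌊Real.log y / Real.log w⌋₊ + 1 with hB
  have hblB : ∀ i, bl i < B := by
    intro i
    simp only [hbl, hB]
    unfold blk
    apply Nat.lt_succ_of_le
    apply Nat.log_mono_right
    apply Nat.floor_le_floor
    apply div_le_div_of_nonneg_left hly.le hlw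
    exact Real.log_le_log (by linarith) (hPm i).2.1.le
  set M : ℕ → ℕ := fun j => b₀ + 2 * j with hM
  have hMe : ∀ j, Even (M j) := fun j => hb₀.add (even_two_mul j)
  -- the masses of the sub-blocks
  have hmass : ∀ j, ∑ i with bl i = j, g i ≤ 1 := by
    intro j
    rcases (univ.filter (fun i => bl i = j)).eq_empty_or_nonempty with he | ⟨i₀, hi₀⟩
    · rw [he]
      simp
    · rw [Finset.mem_filter] at hi₀
      set a : ℝ := max w (Real.exp (Real.log y / 2 ^ (j + 1))) with ha
      set b : ℝ := Real.exp (Real.log y / 2 ^ j) with hb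
      have hspec : ∀ i, bl i = j → a ≤ ((emb PP i : ℕ):ℝ) ∧ (a < ((emb PP i : ℕ):ℝ)) ∧
          ((emb PP i : ℕ):ℝ) ≤ b := by
        intro i hi
        obtain ⟨e1, e2, e3⟩ := blk_spec hw2 (hmem i)
        have hi' : blk y (emb PP i) = j := hi
        rw [hi'] at e1 e2
        have e4 : a < ((emb PP i : ℕ):ℝ) := by
          rw [ha]
          apply max_lt (hPm i).2.1
          rw [← Real.lt_log_iff_exp_lt (hP0 i)]
          exact e2
        refine ⟨e4.le, e4, ?_⟩
        rw [hb, ← Real.log_le_iff_le_exp (hP0 i)]
        exact e1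
      have ha2 : 2 ≤ a := hw2.trans (le_max_left _ _)
      have hab : a ≤ b := (hspec i₀ hi₀.2).1.trans (hspec i₀ hi₀.2).2.2
      have h1 := hSR a b ha2 hab
      have h2 : ∑ i with bl i = j, g i ≤
          ∑ p ∈ (Finset.Ioc ⌊a⌋₊ ⌊b⌋₊).filter Nat.Prime, (1 : ℝ) / p := by
        have e1 : ∑ i with bl i = j, g i ≤
            ∑ p ∈ (univ.filter (fun i => bl i = j)).map (emb PP), (1 : ℝ) / p := by
          rw [Finset.sum_map]
          exact Finset.sum_le_sum fun i _ => hgle i
        refine e1.trans ?_
        apply Finset.sum_le_sum_of_subset_of_nonneg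
        · intro p hp
          rw [Finset.mem_map] at hp
          obtain ⟨i, hi, rfl⟩ := hp
          rw [Finset.mem_filter] at hi
          obtain ⟨_, e3, e4⟩ := hspec i hi.2
          rw [Finset.mem_filter, Finset.mem_Ioc]
          refine ⟨⟨(Nat.floor_lt (by linarith)).2 e3, Nat.le_floor e4⟩, (hPm i).1⟩
        · intro p _ _
          positivity
      have hla : Real.log w ≤ Real.log a := Real.log_le_log (by linarith) (le_max_left _ _)
      have hla0 : 0 < Real.log a := by linarith
      have hla2 : Real.log y / 2 ^ (j + 1) ≤ Real.log a := by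
        rw [← Real.log_exp (Real.log y / 2 ^ (j + 1))]
        exact Real.log_le_log (Real.exp_pos _) (le_max_right _ _)
      have hlb : Real.log b = Real.log y / 2 ^ j := Real.log_exp _
      have h3 : Real.log (Real.log b / Real.log a) ≤ 3 / 4 := by
        have e1 : Real.log b / Real.log a ≤ 2 := by
          rw [div_le_iff₀ hla0, hlb]
          rw [pow_succ] at hla2
          have e2 : Real.log y / (2 ^ j * 2) = Real.log y / 2 ^ j / 2 := by field_simp
          rw [e2] at hla2
          linarith
        have e2 : 0 < Real.log b / Real.log a := by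
          rw [hlb]; positivity
        refine (Real.log_le_log e2 e1).trans ?_
        have := Real.log_two_lt_d9
        linarith
      have h4 : CR / Real.log a ≤ 1 / 4 := by
        rw [div_le_iff₀ hla0]
        linarith
      linarith
  refine ⟨fun k => BHk bl B M k, ⟨fun k x => BHk_nonneg bl B M hMe k x,
    fun k x hx => BHk_one bl B M k x hx, ?_⟩, ?_⟩
  · intro K hK a ha
    have h1 := BH_up hg0 hwt hgu bl B hblB M hMe K a ha
    refine h1.trans ?_
    have hρ : 0 ≤ rho g K.card := rho_nonneg hg0 hgu (Finset.card_le_univ K)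
    rw [mul_comm]
    apply mul_le_mul_of_nonneg_right _ hρ
    set q : ℝ := (1 / 3) ^ b₀ * Real.exp 128 with hq
    have hq0 : 0 ≤ q := by positivity
    have h2 : ∏ j ∈ range B, (1 + (1 / 3 : ℝ) ^ (M j) *
        Real.exp (128 * ∑ i with bl i = j, g i)) ≤ Real.exp (2 * q) := by
      calc ∏ j ∈ range B, (1 + (1 / 3 : ℝ) ^ (M j) * Real.exp (128 * ∑ i with bl i = j, g i))
          ≤ ∏ j ∈ range B, Real.exp (q * (1 / 9) ^ j) := by
            apply Finset.prod_le_prod
            · intro j _
              positivity
            · intro j _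
              have e1 : Real.exp (128 * ∑ i with bl i = j, g i) ≤ Real.exp 128 := by
                apply Real.exp_le_exp.2
                linarith [hmass j]
              have e2 : (1 / 3 : ℝ) ^ (M j) = (1 / 3) ^ b₀ * (1 / 9) ^ j := by
                simp only [hM]
                rw [pow_add, pow_mul]
                norm_num
              have e3 : (1 / 3 : ℝ) ^ (M j) * Real.exp (128 * ∑ i with bl i = j, g i) ≤
                  q * (1 / 9) ^ j := by
                rw [e2, hq]
                calc (1 / 3 : ℝ) ^ b₀ * (1 / 9) ^ j * Real.exp (128 * ∑ i with bl i = j, g i)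
                    ≤ (1 / 3 : ℝ) ^ b₀ * (1 / 9) ^ j * Real.exp 128 :=
                      mul_le_mul_of_nonneg_left e1 (by positivity)
                  _ = _ := by ring
              have e4 := Real.add_one_le_exp (q * (1 / 9 : ℝ) ^ j)
              linarith
        _ = Real.exp (q * ∑ j ∈ range B, (1 / 9 : ℝ) ^ j) := by
            rw [← Real.exp_sum, ← Finset.mul_sum]
        _ ≤ Real.exp (2 * q) := by
            apply Real.exp_le_exp.2
            have := geo_b B
            nlinarith
    have h3 : (∏ j ∈ range B, (1 + (1 / 3 : ℝ) ^ (M j) *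
        Real.exp (128 * ∑ i with bl i = j, g i))) ^ K.card ≤ Real.exp (2 * q * m) := by
      calc (∏ j ∈ range B, (1 + (1 / 3 : ℝ) ^ (M j) *
          Real.exp (128 * ∑ i with bl i = j, g i))) ^ K.card ≤ (Real.exp (2 * q)) ^ K.card := by
            apply pow_le_pow_left₀ _ h2
            apply Finset.prod_nonneg
            intro j _
            positivity
        _ = Real.exp (K.card * (2 * q)) := by rw [← Real.exp_nat_mul]
        _ ≤ Real.exp (2 * q * m) := by
            apply Real.exp_le_exp.2
            nlinarith
    refine h3.trans ?_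
    have h5 : 2 * q * m ≤ τ / 2 := by
      have e1 : q * m = Real.exp 128 * (m * (1 / 3) ^ b₀) := by rw [hq]; ring
      have e2 : Real.exp 128 * (m * (1 / 3) ^ b₀) ≤ Real.exp 128 * (Real.exp (-130) * τ) :=
        mul_le_mul_of_nonneg_left hmτ (Real.exp_pos _).le
      have e3 : Real.exp 128 * (Real.exp (-130) * τ) = Real.exp (-2) * τ := by
        rw [← mul_assoc, ← Real.exp_add]
        norm_num
      have hτ0 : 0 ≤ τ := by
        have : 0 ≤ Real.exp (-130) * τ := le_trans (by positivity) hmτ
        by_contra hc
        push Not at hc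
        have := Real.exp_pos (-130)
        nlinarith
      have e4 : Real.exp (-2) ≤ 1 / 4 := by
        have h1 := Real.add_one_le_exp (1:ℝ)
        have h2 : Real.exp (-2) * Real.exp 2 = 1 := by rw [← Real.exp_add]; norm_num
        have h3 : Real.exp 2 = Real.exp 1 * Real.exp 1 := by rw [← Real.exp_add]; norm_num
        have h4 := Real.exp_pos (-2)
        have h5 : 4 ≤ Real.exp 2 := by
          rw [h3]
          nlinarith
        have h6 : Real.exp (-2) * 4 ≤ Real.exp (-2) * Real.exp 2 :=
          mul_le_mul_of_nonneg_left h5 h4.le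
        linarith
      nlinarith
    have h6 : 0 ≤ 2 * q * m := by positivity
    have h7 : Real.exp (2 * q * m) ≤ 1 + 2 * (2 * q * m) := by
      have hx1 : |2 * q * m| ≤ 1 := by
        rw [abs_of_nonneg h6]
        linarith
      have e1 := Real.abs_exp_sub_one_le hx1
      have e2 := (abs_le.1 e1).2
      rw [abs_of_nonneg h6] at e2
      linarith
    linarith
  · intro k
    refine Lw_mono ?_ (Lw_BHk bl B M k)
    calc ∏ j ∈ range B, (((univ.filter (fun i => bl i = j)).card : ℝ) + 1) ^ (M j)
        ≤ ∏ j ∈ range B, Real.exp (Real.log y * ((b₀ + 2 * j) / 2 ^ j)) := by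
          apply Finset.prod_le_prod
          · intro j _
            positivity
          · intro j _
            set b : ℝ := Real.exp (Real.log y / 2 ^ j) with hb
            have hb1 : 1 ≤ b := Real.one_le_exp (by positivity)
            have e1 : ((univ.filter (fun i => bl i = j)).card : ℝ) + 1 ≤ b := by
              have e2 : (univ.filter (fun i => bl i = j)).card ≤ (PS w b ∅).card := by
                rw [← Finset.card_map (emb PP)]
                apply Finset.card_le_card
                intro p hp
                rw [Finset.mem_map] at hp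
                obtain ⟨i, hi, rfl⟩ := hp
                rw [Finset.mem_filter] at hi
                obtain ⟨e3, e4, e5⟩ := blk_spec hw2 (hmem i)
                have hi' : blk y (emb PP i) = j := hi.2
                rw [hi'] at e3
                have e6 : ((emb PP i : ℕ):ℝ) ≤ b := by
                  rw [hb, ← Real.log_le_iff_le_exp (hP0 i)]
                  exact e3
                unfold PS
                rw [Finset.mem_filter, Finset.mem_Icc]
                exact ⟨⟨(hPm i).1.one_le, Nat.le_floor e6⟩, (hPm i).1, (hPm i).2.1, by simp⟩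
              have e7 := card_PS w b hb1
              have e8 : ((univ.filter (fun i => bl i = j)).card : ℝ) ≤ (PS w b ∅).card := by
                exact_mod_cast e2
              linarith
            calc (((univ.filter (fun i => bl i = j)).card : ℝ) + 1) ^ (M j) ≤ b ^ (M j) :=
                  pow_le_pow_left₀ (by positivity) e1 _
              _ = Real.exp (Real.log y * ((b₀ + 2 * j) / 2 ^ j)) := by
                  rw [hb, ← Real.exp_nat_mul]
                  congr 1
                  simp only [hM]
                  push_cast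
                  ring
      _ = Real.exp (Real.log y * ∑ j ∈ range B, ((b₀ : ℝ) + 2 * j) / 2 ^ j) := by
          rw [← Real.exp_sum, ← Finset.mul_sum]
      _ ≤ Real.exp (Real.log y * (2 * b₀ + 4)) := by
          apply Real.exp_le_exp.2
          apply mul_le_mul_of_nonneg_left _ hly.le
          rw [geo_a]
          have : (0:ℝ) ≤ (2 * (b₀:ℝ) + 4 * B + 4) / 2 ^ B := by positivity
          linarith

end Pool.Agent.T2h81.LD
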