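import Pool.Agent.T2h81.LD.G10
import Pool.Agent.Y961.JR.Bounds

set_option autoImplicit false
set_option linter.unusedSectionVars false
set_option linter.unusedVariables false
set_option maxHeartbeats 4000000

/-! # The criterion at the scale of a power of `M`, and in terms of exponential sums -/

namespace Pool.Agent.T2h81.LD

open Finset Filter
open Pool.Agent.H469R2.NK (e norm_e e_add)
open Pool.Agent.Y961.JR (discJ ev_bounds)

open scoped Classical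

lemma ev_aux (θ : ℝ) (h0 : 0 < θ) : ∀ᶠ M : ℝ in atTop, 1 ≤ Real.log M ∧
    Real.log M ≤ (θ * Real.log M) ^ 2 ∧ (M ^ θ) ^ (1 / 10 : ℝ) + (Real.log M) ^ 2 < M ^ θ := by
  have t1 : ∀ᶠ L : ℝ in atTop, 1 ≤ L ∧ L ≤ (θ * L) ^ 2 := by
    filter_upwards [eventually_ge_atTop (1:ℝ), eventually_ge_atTop (1 / θ ^ 2)] with L h1 h2
    refine ⟨h1, ?_⟩
    have h3 : 1 ≤ L * θ ^ 2 := by
      rw [div_le_iff₀ (by positivity)] at h2
      exact h2
    nlinarith
  have t2 : ∀ᶠ M : ℝ in atTop, (Real.log M) ^ 2 ≤ M ^ θ / 4 := by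
    have h3 : (fun x : ℝ => (Real.log x) ^ (2 : ℝ)) =o[atTop] fun x : ℝ => x ^ θ :=
      isLittleO_log_rpow_rpow_atTop 2 h0
    have h4 := h3.bound (show (0:ℝ) < 1 / 4 by norm_num)
    filter_upwards [h4, eventually_ge_atTop (1:ℝ)] with M h5 h6
    rw [Real.norm_of_nonneg (Real.rpow_nonneg (Real.log_nonneg h6) _),
      Real.norm_of_nonneg (Real.rpow_nonneg (by linarith) _)] at h5
    have h7 : Real.log M ^ (2:ℝ) = Real.log M ^ 2 := by norm_num
    rw [h7] at h5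
    linarith
  have t3 : ∀ᶠ M : ℝ in atTop, 4 < (M ^ θ) ^ (9 / 10 : ℝ) :=
    ((tendsto_rpow_atTop (show (0 : ℝ) < 9 / 10 by norm_num)).comp
      (tendsto_rpow_atTop h0)).eventually_gt_atTop 4
  filter_upwards [Real.tendsto_log_atTop.eventually t1, t2, t3, eventually_ge_atTop (1:ℝ)] with
    M h1 h2 h3 h4
  refine ⟨h1.1, h1.2, ?_⟩
  have h5 : 0 < M ^ θ := Real.rpow_pos_of_pos (by linarith) _
  have h6 : M ^ θ = (M ^ θ) ^ (9 / 10 : ℝ) * (M ^ θ) ^ (1 / 10 : ℝ) := by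
    rw [← Real.rpow_add h5]; norm_num
  have h7 : 0 < (M ^ θ) ^ (1 / 10 : ℝ) := Real.rpow_pos_of_pos h5 _
  have h8 : 4 * (M ^ θ) ^ (1 / 10 : ℝ) < M ^ θ := by
    calc 4 * (M ^ θ) ^ (1 / 10 : ℝ) < (M ^ θ) ^ (9 / 10 : ℝ) * (M ^ θ) ^ (1 / 10 : ℝ) :=
          mul_lt_mul_of_pos_right h3 h7
      _ = _ := h6.symm
  linarith

/-- the criterion for vectors of integers at the scale of a power of `M` -/
theorem ld_scaled (r : ℕ) (hr : 1 ≤ r) (θ : ℝ) (h0 : 0 < θ) (h1 : θ ≤ 1) : ∃ C : ℝ, 1 ≤ C ∧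
    ∀ᶠ M : ℝ in atTop, ∀ lam : ℝ, 1 ≤ lam → Real.exp (C * lam) ≤ Real.log M →
    ∀ (ι : Type) (s : Finset ι) (v : ι → Fin r → ℤ),
    (∀ q : ℕ, 1 ≤ q → (q : ℝ) ≤ (M ^ θ) ^ (2 / 5 : ℝ) →
      ∀ ρ : Fin r → ℤ, |((s.filter (fun i => ∀ j, (q : ℤ) ∣ v i j - ρ j)).card : ℝ) -
        s.card / (q : ℝ) ^ r| ≤ s.card * (M ^ θ) ^ (-(2 * (r : ℝ)))) →
    (s.card : ℝ) * Real.exp (-Real.exp (C * lam)) ≤
      ((s.filter (fun i => ∀ j, ∀ a : ℝ, M ^ θ ≤ |a| → |a - v i j| ≤ 1 → ∀ q : ℕ, q.Prime →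
        lam * Real.log M < |(q : ℝ) - a|)).card : ℝ) := by
  obtain ⟨C, X₀, hC, hX₀, hld⟩ := ld_main r hr
  refine ⟨4 * C / θ, ?_, ?_⟩
  · rw [le_div_iff₀ h0]; linarith
  filter_upwards [ev_aux θ h0, (tendsto_rpow_atTop h0).eventually_ge_atTop X₀,
    eventually_ge_atTop (1:ℝ)] with M hM hMX hM1
  obtain ⟨m1, m2, m3⟩ := hM
  intro lam hlam hlamM ι s v hdist
  have hM0 : 0 < M := by linarith
  have hX0 : 0 < M ^ θ := Real.rpow_pos_of_pos hM0 _
  have hlogX : Real.log (M ^ θ) = θ * Real.log M := Real.log_rpow hM0 θ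
  have hCl : 4 * C / θ * lam = 2 * (C * (2 * lam / θ)) := by ring
  have hsq : Real.exp (4 * C / θ * lam) = Real.exp (C * (2 * lam / θ)) ^ 2 := by
    rw [hCl, two_mul, Real.exp_add, sq]
  have hlam' : 1 ≤ 2 * lam / θ := by
    rw [le_div_iff₀ h0]; linarith
  have hlM : lam ≤ Real.log M := by
    refine le_trans ?_ hlamM
    have h2 := Real.add_one_le_exp (4 * C / θ * lam)
    have h3 : 1 ≤ 4 * C / θ := by rw [le_div_iff₀ h0]; linarith
    have h4 : 1 * lam ≤ 4 * C / θ * lam := mul_le_mul_of_nonneg_right h3 (by linarith)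
    linarith
  have hle : Real.exp (C * (2 * lam / θ)) ≤ Real.log (M ^ θ) := by
    rw [hlogX]
    apply (pow_le_pow_iff_left₀ (Real.exp_pos _).le (by positivity) two_ne_zero).1
    rw [← hsq]
    exact hlamM.trans m2
  have key := hld (M ^ θ) (2 * lam / θ) hMX hlam' hle ι s v hdist
  have hexp : Real.exp (-Real.exp (4 * C / θ * lam)) ≤ Real.exp (-Real.exp (C * (2 * lam / θ))) := by
    apply Real.exp_le_exp.2
    apply neg_le_neg
    rw [hsq]
    have : 1 ≤ Real.exp (C * (2 * lam / θ)) := Real.one_le_exp (by positivity)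
    nlinarith
  refine (mul_le_mul_of_nonneg_left hexp (Nat.cast_nonneg _)).trans (key.trans ?_)
  rw [Nat.cast_le]
  apply Finset.card_le_card
  intro i hi
  rw [Finset.mem_filter] at hi ⊢
  refine ⟨hi.1, ?_⟩
  intro j a ha hav q hq
  by_contra hcon
  push Not at hcon
  have e1 : |((q : ℤ) : ℝ) - v i j| ≤ 2 * lam / θ * Real.log (M ^ θ) := by
    have e2 : 2 * lam / θ * Real.log (M ^ θ) = 2 * lam * Real.log M := by
      rw [hlogX]; field_simp
    rw [e2]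
    have e3 : |((q : ℤ) : ℝ) - v i j| ≤ |(q : ℝ) - a| + |a - v i j| := by
      have : ((q : ℤ) : ℝ) - v i j = ((q : ℝ) - a) + (a - v i j) := by push_cast; ring
      rw [this]
      exact abs_add_le _ _
    have e4 : 1 ≤ lam * Real.log M := by nlinarith
    linarith
  obtain ⟨p, hp, hpX, hpd⟩ := hi.2 j q e1
  have h6 : p = q := (Nat.prime_dvd_prime_iff_eq hp hq).mp (by exact_mod_cast hpd)
  rw [h6] at hpX
  have h7 : (M ^ θ) ^ (1 / (10 * (2 * lam / θ))) ≤ (M ^ θ) ^ (1 / 10 : ℝ) := by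
    apply Real.rpow_le_rpow_of_exponent_le (Real.one_le_rpow hM1 h0.le)
    apply one_div_le_one_div_of_le (by norm_num)
    linarith
  have h8 : |a| ≤ (q : ℝ) + |(q : ℝ) - a| := by
    have := abs_sub_abs_le_abs_sub a (q : ℝ)
    rw [abs_sub_comm a (q : ℝ), Nat.abs_cast] at this
    linarith
  have h9 : lam * Real.log M ≤ (Real.log M) ^ 2 := by nlinarith
  linarith

end Pool.Agent.T2h81.LD
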