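import Pool.Agent.T2h81.LD.G11

set_option autoImplicit false
set_option linter.unusedSectionVars false
set_option linter.unusedVariables false
set_option maxHeartbeats 4000000

/-! # The criterion in terms of exponential sums -/

namespace Pool.Agent.T2h81.LD

open Finset Filter
open Pool.Agent.H469R2.NK (e norm_e e_add)
open Pool.Agent.Y961.JR (discJ ev_bounds)

open scoped Classical

/-- A finite family of vectors of real numbers whose exponential sums at the small rational vectors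
save a power of `M`: a positive proportion of the members has no primes at distance `lam log M`. -/
theorem crit_ldJ (r : ℕ) (hr : 1 ≤ r) (η : ℝ) (h0 : 0 < η) (h1 : η ≤ 1) :
    ∃ C : ℝ, 1 ≤ C ∧ ∀ᶠ M : ℝ in atTop, ∀ lam : ℝ, 1 ≤ lam → Real.exp (C * lam) ≤ Real.log M →
    ∀ (ι : Type) (s : Finset ι) (a : ι → Fin r → ℝ), (∀ i ∈ s, ∀ j, M ^ η ≤ a i j) →
    (∀ q : ℕ, 1 ≤ q → (q : ℝ) ≤ M ^ η → ∀ h : Fin r → ℤ, h ≠ 0 → (∀ j, |(h j : ℝ)| ≤ M ^ η) →
      ‖∑ i ∈ s, e (∑ j, (h j : ℝ) * (a i j / q))‖ ≤ s.card * M ^ (-η)) →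
    (s.card : ℝ) * Real.exp (-Real.exp (C * lam)) ≤
      ((s.filter (fun i => ∀ j, ∀ q : ℕ, q.Prime →
        lam * Real.log M < |(q : ℝ) - a i j|)).card : ℝ) := by
  have hr1 : (1 : ℝ) ≤ r := by exact_mod_cast hr
  set θ : ℝ := η / (20 * (r : ℝ) ^ 2) with hθ
  have hr2 : (1 : ℝ) ≤ (r : ℝ) ^ 2 := one_le_pow₀ hr1
  have hθ0 : 0 < θ := by positivity
  have hθη : θ ≤ η := div_le_self h0.le (by linarith)
  have hθ1 : θ ≤ 1 := hθη.trans h1
  obtain ⟨C, hC, hcr⟩ := ld_scaled r hr θ hθ0 hθ1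
  obtain ⟨X₂, h2⟩ := eventually_atTop.mp (ev_bounds r r hr le_rfl)
  refine ⟨C, hC, ?_⟩
  filter_upwards [hcr, (tendsto_rpow_atTop hθ0).eventually_ge_atTop X₂,
    eventually_ge_atTop (1 : ℝ)] with M hM hMX hM1
  intro lam hlam hlamM ι s a ha hE
  obtain ⟨b1, b2⟩ := h2 (M ^ θ) hMX
  have hM0 : 0 < M := by linarith
  have hX0 : 0 < M ^ θ := Real.rpow_pos_of_pos hM0 _
  have hmono : ∀ x y : ℝ, x ≤ y → M ^ x ≤ M ^ y := fun x y h =>
    Real.rpow_le_rpow_of_exponent_le hM1 h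
  have hexp : (M ^ θ) ^ (-(20 * (r : ℝ) ^ 2)) = M ^ (-η) := by
    rw [← Real.rpow_mul hM0.le]
    congr 1
    rw [hθ]
    field_simp
  refine (hM lam hlam hlamM ι s (fun i j => ⌊a i j⌋) ?_).trans ?_
  · intro q hq hqX ρ
    obtain ⟨k1, k2, k3, k4⟩ := b2 q hq hqX s.card (Nat.cast_nonneg _)
    rw [hexp] at k4
    have hd := discJ hr s a ⌈(M ^ θ) ^ (3 * r)⌉₊ q k1 hq k2 (s.card * M ^ (-η))
      (by positivity) (fun h hh hh2 => hE q hq (by
        refine hqX.trans ?_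
        rw [← Real.rpow_mul hM0.le]
        apply hmono
        linarith) h hh (fun j => by
        have h5 : ((h j).natAbs : ℝ) < ((⌈(M ^ θ) ^ (3 * r)⌉₊ : ℕ) : ℝ) ^ 3 := by
          exact_mod_cast hh2 j
        have h6 : |(h j : ℝ)| = ((h j).natAbs : ℝ) := by
          rw [Nat.cast_natAbs]; push_cast; rfl
        rw [h6]
        refine (h5.le.trans k3).trans ?_
        rw [← Real.rpow_natCast, ← Real.rpow_mul hM0.le]
        apply hmono
        push_cast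
        have e1 : θ * (10 * (r : ℝ)) * (2 * r) = η := by rw [hθ]; field_simp; norm_num
        have e2 : 0 ≤ θ * (10 * (r : ℝ)) := by positivity
        nlinarith)) ρ
    refine hd.trans (k4.trans ?_)
    have : 0 ≤ (s.card : ℝ) * (M ^ θ) ^ (-(2 * (r : ℝ))) := by positivity
    linarith
  · rw [Nat.cast_le]
    apply Finset.card_le_card
    intro i hi
    rw [Finset.mem_filter] at hi ⊢
    refine ⟨hi.1, fun j q hq => hi.2 j (a i j) ?_ ?_ q hq⟩
    · exact ((hmono _ _ hθη).trans (ha i hi.1 j)).trans (le_abs_self _)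
    · have h6 := Int.fract_nonneg (a i j)
      have h7 := Int.fract_lt_one (a i j)
      have h8 : (⌊a i j⌋ : ℝ) + Int.fract (a i j) = a i j := Int.floor_add_fract _
      rw [abs_le]
      constructor <;> linarith

/-- The same for vectors of real numbers together with an integer. -/
theorem crit_ld1J (r : ℕ) (hr : 1 ≤ r) (η : ℝ) (h0 : 0 < η) (h1 : η ≤ 1) :
    ∃ C : ℝ, 1 ≤ C ∧ ∀ᶠ M : ℝ in atTop, ∀ lam : ℝ, 1 ≤ lam → Real.exp (C * lam) ≤ Real.log M →
    ∀ (ι : Type) (s : Finset ι) (u : ι → ℤ) (a : ι → Fin r → ℝ),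
    (∀ i ∈ s, M ^ η ≤ (u i : ℝ)) → (∀ i ∈ s, ∀ j, M ^ η ≤ a i j) →
    (∀ q : ℕ, 1 ≤ q → (q : ℝ) ≤ M ^ η → ∀ b : ℤ,
      |((s.filter (fun i => (q : ℤ) ∣ u i - b)).card : ℝ) - s.card / q| ≤ s.card * M ^ (-η) ∧
      ∀ h : Fin r → ℤ, h ≠ 0 → (∀ j, |(h j : ℝ)| ≤ M ^ η) →
      ‖∑ i ∈ s.filter (fun i => (q : ℤ) ∣ u i - b), e (∑ j, (h j : ℝ) * (a i j / q))‖ ≤
        s.card * M ^ (-η)) →
    (s.card : ℝ) * Real.exp (-Real.exp (C * lam)) ≤
      ((s.filter (fun i => (∀ q : ℕ, q.Prime → lam * Real.log M < |(q : ℝ) - u i|) ∧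
        ∀ j, ∀ q : ℕ, q.Prime → lam * Real.log M < |(q : ℝ) - a i j|)).card : ℝ) := by
  have hr1 : (1 : ℝ) ≤ r := by exact_mod_cast hr
  set θ : ℝ := η / (20 * ((r : ℝ) + 1) ^ 2) with hθ
  have hr2 : (1 : ℝ) ≤ ((r : ℝ) + 1) ^ 2 := one_le_pow₀ (by linarith)
  have hθ0 : 0 < θ := by positivity
  have hθη : θ ≤ η := div_le_self h0.le (by linarith)
  have hθ1 : θ ≤ 1 := hθη.trans h1
  obtain ⟨C, hC, hcr⟩ := ld_scaled (r + 1) (by omega) θ hθ0 hθ1
  obtain ⟨X₂, h2⟩ := eventually_atTop.mp (ev_bounds r (r + 1) hr (by omega))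
  refine ⟨C, hC, ?_⟩
  filter_upwards [hcr, (tendsto_rpow_atTop hθ0).eventually_ge_atTop X₂,
    eventually_ge_atTop (1 : ℝ)] with M hM hMX hM1
  intro lam hlam hlamM ι s u a hu ha hE
  obtain ⟨b1, b2⟩ := h2 (M ^ θ) hMX
  have hM0 : 0 < M := by linarith
  have hX0 : 0 < M ^ θ := Real.rpow_pos_of_pos hM0 _
  have hmono : ∀ x y : ℝ, x ≤ y → M ^ x ≤ M ^ y := fun x y h =>
    Real.rpow_le_rpow_of_exponent_le hM1 h
  have hcast : (((r + 1 : ℕ) : ℝ)) = (r : ℝ) + 1 := by push_cast; rfl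
  have hexp : (M ^ θ) ^ (-(20 * ((r : ℝ) + 1) ^ 2)) = M ^ (-η) := by
    rw [← Real.rpow_mul hM0.le]
    congr 1
    rw [hθ]
    field_simp
  refine (hM lam hlam hlamM ι s (fun i => Fin.cons (u i) (fun j => ⌊a i j⌋)) ?_).trans ?_
  · intro q hq hqX ρ
    have hq0 : (0 : ℝ) < q := by exact_mod_cast hq
    have hq1 : (1 : ℝ) ≤ q := by exact_mod_cast hq
    obtain ⟨k1, k2, k3, k4⟩ := b2 q hq hqX s.card (Nat.cast_nonneg _)
    have hqM : (q : ℝ) ≤ M ^ η := by
      refine hqX.trans ?_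
      rw [← Real.rpow_mul hM0.le]
      apply hmono
      linarith
    obtain ⟨g1, g2⟩ := hE q hq hqM (ρ 0)
    set s' := s.filter (fun i => (q : ℤ) ∣ u i - ρ 0) with hs'
    rw [hcast, hexp] at k4
    have hd := discJ hr s' a ⌈(M ^ θ) ^ (3 * (r + 1))⌉₊ q k1 hq k2
      (s.card * M ^ (-η))
      (by positivity) (fun h hh hh2 => g2 h hh (fun j => by
        have h5 : ((h j).natAbs : ℝ) < ((⌈(M ^ θ) ^ (3 * (r + 1))⌉₊ : ℕ) : ℝ) ^ 3 := by
          exact_mod_cast hh2 j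
        have h6 : |(h j : ℝ)| = ((h j).natAbs : ℝ) := by
          rw [Nat.cast_natAbs]; push_cast; rfl
        rw [h6]
        refine (h5.le.trans k3).trans ?_
        rw [← Real.rpow_natCast, ← Real.rpow_mul hM0.le]
        apply hmono
        push_cast
        have e1 : θ * (10 * ((r : ℝ) + 1)) * (2 * (r + 1)) = η := by
          rw [hθ]; field_simp; norm_num
        have e2 : 0 ≤ θ * (10 * ((r : ℝ) + 1)) := by positivity
        nlinarith)) (fun j => ρ j.succ)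
    have hfil : (s.filter (fun i => ∀ j, (q : ℤ) ∣
        (Fin.cons (u i) (fun j => ⌊a i j⌋) : Fin (r + 1) → ℤ) j - ρ j)) =
        s'.filter (fun i => ∀ j : Fin r, (q : ℤ) ∣ ⌊a i j⌋ - ρ j.succ) := by
      rw [hs', Finset.filter_filter]
      apply Finset.filter_congr
      intro i _
      rw [Fin.forall_fin_succ]
      simp only [Fin.cons_zero, Fin.cons_succ]
    rw [hfil]
    have hcard : (s'.card : ℝ) ≤ s.card := by
      exact_mod_cast Finset.card_filter_le _ _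
    have t1 : (q : ℝ) ^ r * ((3 * (r : ℝ) + 4) * s'.card / (⌈(M ^ θ) ^ (3 * (r + 1))⌉₊ : ℕ) +
        ((⌈(M ^ θ) ^ (3 * (r + 1))⌉₊ : ℕ) : ℝ) ^ (3 * r) *
          (s.card * M ^ (-η))) ≤
        s.card * (M ^ θ) ^ (-(2 * ((r : ℝ) + 1))) / 2 := by
      refine le_trans ?_ k4
      gcongr
    have t2 : |(s'.card : ℝ) / (q : ℝ) ^ r - s.card / (q : ℝ) ^ (r + 1)| ≤
        s.card * (M ^ θ) ^ (-(2 * ((r : ℝ) + 1))) / 2 := by
      have e1 : (s'.card : ℝ) / (q : ℝ) ^ r - s.card / (q : ℝ) ^ (r + 1) =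
          (s'.card - s.card / q) / (q : ℝ) ^ r := by
        rw [pow_succ]
        field_simp
      have hqr : 1 ≤ (q : ℝ) ^ r := one_le_pow₀ hq1
      rw [e1, abs_div, abs_of_pos (show (0 : ℝ) < (q : ℝ) ^ r by positivity)]
      refine (div_le_self (abs_nonneg _) hqr).trans (g1.trans ?_)
      rw [mul_div_assoc, ← hexp]
      apply mul_le_mul_of_nonneg_left _ (Nat.cast_nonneg _)
      calc (M ^ θ) ^ (-(20 * ((r : ℝ) + 1) ^ 2)) ≤ (M ^ θ) ^ (-(2 * ((r : ℝ) + 1)) + (-1)) := by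
            apply Real.rpow_le_rpow_of_exponent_le (by linarith)
            nlinarith
        _ = (M ^ θ) ^ (-(2 * ((r : ℝ) + 1))) * (M ^ θ) ^ (-1 : ℝ) := Real.rpow_add hX0 _ _
        _ ≤ (M ^ θ) ^ (-(2 * ((r : ℝ) + 1))) * (1 / 2) := by
            apply mul_le_mul_of_nonneg_left _ (Real.rpow_nonneg hX0.le _)
            rw [Real.rpow_neg_one, ← one_div]
            exact one_div_le_one_div_of_le (by norm_num) (by linarith)
        _ = _ := by ring
    rw [hcast]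
    have t3 := hd.trans t1
    have t4 := abs_le.mp t3
    have t5 := abs_le.mp t2
    rw [abs_le]
    constructor <;> linarith [t4.1, t4.2, t5.1, t5.2]
  · rw [Nat.cast_le]
    apply Finset.card_le_card
    intro i hi
    rw [Finset.mem_filter] at hi ⊢
    refine ⟨hi.1, fun q hq => hi.2 0 (u i) ?_ ?_ q hq, fun j q hq => hi.2 j.succ (a i j) ?_ ?_ q hq⟩
    · exact ((hmono _ _ hθη).trans (hu i hi.1)).trans (le_abs_self _)
    · rw [Fin.cons_zero, sub_self, abs_zero]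
      exact zero_le_one
    · exact ((hmono _ _ hθη).trans (ha i hi.1 j)).trans (le_abs_self _)
    · rw [Fin.cons_succ]
      have h6 := Int.fract_nonneg (a i j)
      have h7 := Int.fract_lt_one (a i j)
      have h8 : (⌊a i j⌋ : ℝ) + Int.fract (a i j) = a i j := Int.floor_add_fract _
      rw [abs_le]
      constructor <;> linarith

end Pool.Agent.T2h81.LD
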