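import Pool.Agent.T2h81.LD.G11

set_option autoImplicit false
set_option linter.unusedSectionVars false
set_option linter.unusedVariables false
set_option maxHeartbeats 4000000

/-! # The criterion for vectors of integers, final form -/

namespace Pool.Agent.T2h81.LD

open Finset Filter

open scoped Classical

/-- few members have a small coordinate -/
theorem small_count {r : ℕ} (ι : Type) (s : Finset ι) (v : ι → Fin r → ℤ) (j₀ : Fin r) (T q : ℕ)
    (hq : 1 ≤ q) (E : ℝ)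
    (hE : ∀ ρ : Fin r → ℤ, ((s.filter (fun i => ∀ j, (q : ℤ) ∣ v i j - ρ j)).card : ℝ) ≤ E) :
    ((s.filter (fun i => |v i j₀| ≤ (T : ℤ))).card : ℝ) ≤ (2 * T + 1) * ((q : ℝ) ^ (r - 1) * E) := by
  have hq0 : (0 : ℤ) < q := by exact_mod_cast hq
  set D : ℤ → Finset (Fin r → ℤ) := fun t =>
    Fintype.piFinset (fun j : Fin r => if j = j₀ then ({t % (q : ℤ)} : Finset ℤ) else Ico 0 (q : ℤ))
    with hD
  have hDc : ∀ t, ((D t).card : ℝ) = (q : ℝ) ^ (r - 1) := by
    intro t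
    rw [hD]
    simp only
    rw [Fintype.card_piFinset]
    have h1 : ∀ j' : Fin r, (if j' = j₀ then ({t % (q : ℤ)} : Finset ℤ) else Ico 0 (q : ℤ)).card =
        if j' = j₀ then 1 else q := by
      intro j'
      split_ifs
      · exact Finset.card_singleton _
      · rw [Int.card_Ico]
        simp
    rw [Finset.prod_congr rfl fun j' _ => h1 j', Finset.prod_ite, Finset.prod_const, Finset.prod_const,
      Finset.filter_ne', Finset.card_erase_of_mem (Finset.mem_univ _), Finset.card_univ,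
      Fintype.card_fin, one_pow, one_mul]
    push_cast
    rfl
  have hsub : s.filter (fun i => |v i j₀| ≤ (T : ℤ)) ⊆
      (Icc (-(T : ℤ)) T).biUnion (fun t => (D t).biUnion (fun ρ =>
        s.filter (fun i => ∀ j, (q : ℤ) ∣ v i j - ρ j))) := by
    intro i hi
    rw [Finset.mem_filter] at hi
    rw [Finset.mem_biUnion]
    refine ⟨v i j₀, Finset.mem_Icc.2 (abs_le.1 hi.2), ?_⟩
    rw [Finset.mem_biUnion]
    refine ⟨fun j => v i j % (q : ℤ), ?_, ?_⟩
    · rw [hD]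
      simp only
      rw [Fintype.mem_piFinset]
      intro j
      split_ifs with h
      · rw [h, Finset.mem_singleton]
      · exact Finset.mem_Ico.2 ⟨Int.emod_nonneg _ hq0.ne', Int.emod_lt_of_pos _ hq0⟩
    · refine Finset.mem_filter.2 ⟨hi.1, fun j => ?_⟩
      exact Int.dvd_self_sub_emod
  have h1 : ((s.filter (fun i => |v i j₀| ≤ (T : ℤ))).card : ℝ) ≤
      ∑ t ∈ Icc (-(T : ℤ)) T, ∑ ρ ∈ D t,
        ((s.filter (fun i => ∀ j, (q : ℤ) ∣ v i j - ρ j)).card : ℝ) := by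
    have h2 := (Finset.card_le_card hsub).trans Finset.card_biUnion_le
    have h3 : ∑ t ∈ Icc (-(T : ℤ)) T, ((D t).biUnion (fun ρ =>
        s.filter (fun i => ∀ j, (q : ℤ) ∣ v i j - ρ j))).card ≤
        ∑ t ∈ Icc (-(T : ℤ)) T, ∑ ρ ∈ D t,
          (s.filter (fun i => ∀ j, (q : ℤ) ∣ v i j - ρ j)).card :=
      Finset.sum_le_sum fun t _ => Finset.card_biUnion_le
    exact_mod_cast h2.trans h3
  refine h1.trans ?_
  calc ∑ t ∈ Icc (-(T : ℤ)) T, ∑ ρ ∈ D t,
        ((s.filter (fun i => ∀ j, (q : ℤ) ∣ v i j - ρ j)).card : ℝ)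
      ≤ ∑ t ∈ Icc (-(T : ℤ)) T, ((q : ℝ) ^ (r - 1) * E) := by
        apply Finset.sum_le_sum
        intro t _
        refine (Finset.sum_le_sum fun ρ _ => hE ρ).trans (le_of_eq ?_)
        rw [Finset.sum_const, nsmul_eq_mul, hDc]
    _ = _ := by
        rw [Finset.sum_const, nsmul_eq_mul, Int.card_Icc]
        have : ((((T : ℤ) + 1 - -(T : ℤ)).toNat : ℕ) : ℤ) = 2 * T + 1 := by omega
        have h2 : ((((T : ℤ) + 1 - -(T : ℤ)).toNat : ℕ) : ℝ) = 2 * T + 1 := by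
          have h3 : (((((T : ℤ) + 1 - -(T : ℤ)).toNat : ℕ) : ℤ) : ℝ) = 2 * T + 1 := by
            rw [this]; push_cast; ring
          exact_mod_cast h3
        rw [h2]

lemma ev_aux2 (θ : ℝ) (h0 : 0 < θ) (r : ℕ) : ∀ᶠ M : ℝ in atTop, 18 * r + 16 ≤ M ^ θ ∧
    Real.exp (Real.sqrt (Real.log M)) * 2 ≤ M ^ θ := by
  have t1 : ∀ᶠ L : ℝ in atTop, Real.sqrt L + 1 ≤ θ * L := by
    have h1 : ∀ᶠ y : ℝ in atTop, y + 1 ≤ θ * y ^ 2 := by
      filter_upwards [eventually_ge_atTop (1:ℝ), eventually_ge_atTop (2 / θ)] with y h1 h2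
      rw [div_le_iff₀ h0] at h2
      nlinarith
    filter_upwards [Real.tendsto_sqrt_atTop.eventually h1, eventually_ge_atTop (0:ℝ)] with L h2 h3
    rwa [Real.sq_sqrt h3] at h2
  filter_upwards [Real.tendsto_log_atTop.eventually t1,
    (tendsto_rpow_atTop h0).eventually_ge_atTop (18 * r + 16 : ℝ), eventually_gt_atTop (0:ℝ)] with
    M h1 h2 h3
  refine ⟨h2, ?_⟩
  have h4 : (2:ℝ) ≤ Real.exp 1 := by
    have := Real.add_one_le_exp (1:ℝ)
    linarith
  calc Real.exp (Real.sqrt (Real.log M)) * 2 ≤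
        Real.exp (Real.sqrt (Real.log M)) * Real.exp 1 :=
        mul_le_mul_of_nonneg_left h4 (Real.exp_pos _).le
    _ = Real.exp (Real.sqrt (Real.log M) + 1) := (Real.exp_add _ _).symm
    _ ≤ Real.exp (θ * Real.log M) := Real.exp_le_exp.2 h1
    _ = M ^ θ := by rw [Real.rpow_def_of_pos h3]; congr 1; ring

/-- **the criterion for vectors of integers** -/
theorem ld_final (r : ℕ) (hr : 1 ≤ r) (δ : ℝ) (h0 : 0 < δ) (h1 : δ ≤ 1) : ∃ C : ℝ, 1 ≤ C ∧
    ∀ᶠ Z : ℝ in atTop, ∀ lam : ℝ, 1 ≤ lam → Real.exp (C * lam) ≤ Real.log Z →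
    ∀ (ι : Type) (s : Finset ι) (v : ι → Fin r → ℤ),
    (∀ q : ℕ, 1 ≤ q → (q : ℝ) ≤ Z ^ δ →
      ∀ ρ : Fin r → ℤ, |((s.filter (fun i => ∀ j, (q : ℤ) ∣ v i j - ρ j)).card : ℝ) -
        s.card / (q : ℝ) ^ r| ≤ s.card * Z ^ (-δ)) →
    (s.card : ℝ) * Real.exp (-Real.exp (C * lam)) ≤
      ((s.filter (fun i => ∀ j, ∀ m : ℤ, |(m : ℝ) - v i j| ≤ lam * Real.log Z →
        ∃ p : ℕ, p.Prime ∧ (p : ℝ) ≤ Z ^ (1 / lam) ∧ (p : ℤ) ∣ m ∧ (p : ℤ) < |m|)).card : ℝ) := by
  obtain ⟨C, X₀, hC, hX₀, hld⟩ := ld_main r hr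
  have hr1 : (1 : ℝ) ≤ r := by exact_mod_cast hr
  set θ : ℝ := δ / (8 * r) with hθ
  have hθ0 : 0 < θ := by positivity
  have hθδ : θ ≤ δ / 8 := by
    rw [hθ]
    apply div_le_div_of_nonneg_left h0.le (by norm_num)
    linarith
  have hθ1 : θ ≤ 1 := by linarith
  have hθr : 8 * r * θ = δ := by rw [hθ]; field_simp
  refine ⟨4 * C / θ, ?_, ?_⟩
  · rw [le_div_iff₀ hθ0]; linarith
  filter_upwards [ev_aux θ hθ0, (tendsto_rpow_atTop hθ0).eventually_ge_atTop X₀,
    eventually_ge_atTop (1:ℝ), ev_aux2 θ hθ0 r] with M hM hMX hM1 hM2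
  obtain ⟨m1, m2, m3⟩ := hM
  obtain ⟨n1, n2⟩ := hM2
  intro lam hlam hlamM ι s v hdist
  have hM0 : 0 < M := by linarith
  set X : ℝ := M ^ θ with hX
  have hX0 : 0 < X := Real.rpow_pos_of_pos hM0 _
  have hX1 : 1 ≤ X := Real.one_le_rpow hM1 hθ0.le
  have hX16 : 16 ≤ X := by linarith
  have hlogX : Real.log X = θ * Real.log M := Real.log_rpow hM0 θ
  have hsq : Real.exp (4 * C / θ * lam) = Real.exp (C * (2 * lam / θ)) ^ 2 := by
    have hCl : 4 * C / θ * lam = 2 * (C * (2 * lam / θ)) := by ring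
    rw [hCl, two_mul, Real.exp_add, sq]
  have hlam' : 1 ≤ 2 * lam / θ := by
    rw [le_div_iff₀ hθ0]; linarith
  have hC4 : 1 ≤ 4 * C / θ := by rw [le_div_iff₀ hθ0]; linarith
  have hlM : lam ≤ Real.log M := by
    refine le_trans ?_ hlamM
    have h2 := Real.add_one_le_exp (4 * C / θ * lam)
    have h4 : 1 * lam ≤ 4 * C / θ * lam := mul_le_mul_of_nonneg_right hC4 (by linarith)
    linarith
  have hle : Real.exp (C * (2 * lam / θ)) ≤ Real.log X := by
    rw [hlogX]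
    apply (pow_le_pow_iff_left₀ (Real.exp_pos _).le (by positivity) two_ne_zero).1
    rw [← hsq]
    exact hlamM.trans m2
  have hrM : ∀ x y : ℝ, x ≤ y → M ^ x ≤ M ^ y := fun x y h =>
    Real.rpow_le_rpow_of_exponent_le hM1 h
  have hZδ : M ^ (-δ) = X ^ (-(8 * (r : ℝ))) := by
    rw [hX, ← Real.rpow_mul hM0.le]
    congr 1
    linarith
  have key := hld X (2 * lam / θ) hMX hlam' hle ι s v (by
    intro q hq hqX ρ
    refine (hdist q hq (hqX.trans ?_) ρ).trans ?_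
    · rw [hX, ← Real.rpow_mul hM0.le]
      apply hrM
      linarith
    · apply mul_le_mul_of_nonneg_left _ (Nat.cast_nonneg _)
      rw [hZδ]
      apply Real.rpow_le_rpow_of_exponent_le hX1
      linarith)
  -- the members with a small coordinate
  set q : ℕ := ⌊X ^ 4⌋₊ with hq
  have hX4 : (1:ℝ) ≤ X ^ 4 := one_le_pow₀ hX1
  have hq1 : 1 ≤ q := (Nat.one_le_floor_iff _).2 hX4
  have hqle : (q : ℝ) ≤ X ^ 4 := Nat.floor_le (by positivity)
  have hqge : X ^ 4 / 2 ≤ q := by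
    have h2 := (Nat.lt_floor_add_one (X ^ 4)).le
    have h3 : X ≤ X ^ 4 := le_self_pow₀ hX1 (by norm_num)
    rw [← hq] at h2
    linarith
  have hqpos : (0:ℝ) < q := by exact_mod_cast hq1
  have hqδ : (q : ℝ) ≤ M ^ δ := by
    refine hqle.trans ?_
    rw [hX, ← Real.rpow_natCast, ← Real.rpow_mul hM0.le]
    apply hrM
    push_cast
    linarith
  have hsm : ∀ j : Fin r, ((s.filter (fun i => |v i j| ≤ ((⌊X⌋₊ : ℕ) : ℤ))).card : ℝ) ≤
      s.card * (9 / X ^ 3) := by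
    intro j
    refine (small_count ι s v j ⌊X⌋₊ q hq1 (s.card / (q:ℝ) ^ r + s.card * M ^ (-δ)) (fun ρ => by
      have h2 := (abs_le.1 (hdist q hq1 hqδ ρ)).2
      linarith)).trans ?_
    have hf : ((⌊X⌋₊ : ℕ) : ℝ) ≤ X := Nat.floor_le hX0.le
    have e1 : (q:ℝ) ^ (r - 1) * (s.card / (q:ℝ) ^ r + s.card * M ^ (-δ)) =
        s.card * (1 / q + (q:ℝ) ^ (r - 1) * M ^ (-δ)) := by
      have h2 : (q:ℝ) ^ r = q ^ (r - 1) * q := by
        rw [← pow_succ]
        congr 1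
        omega
      rw [h2]
      have h3 : (q:ℝ) ^ (r - 1) ≠ 0 := by positivity
      have h4 : (q:ℝ) ^ (r - 1) * (s.card / ((q:ℝ) ^ (r - 1) * q)) = s.card * (1 / q) := by
        field_simp
      calc (q:ℝ) ^ (r - 1) * (s.card / ((q:ℝ) ^ (r - 1) * q) + s.card * M ^ (-δ)) =
            (q:ℝ) ^ (r - 1) * (s.card / ((q:ℝ) ^ (r - 1) * q)) +
              s.card * ((q:ℝ) ^ (r - 1) * M ^ (-δ)) := by ring
        _ = _ := by rw [h4]; ring
    have e2 : 1 / (q:ℝ) ≤ 2 / X ^ 4 := by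
      rw [div_le_div_iff₀ hqpos (by positivity)]
      linarith
    have e3 : (q:ℝ) ^ (r - 1) * M ^ (-δ) ≤ 1 / X ^ 4 := by
      have h2 : (q:ℝ) ^ (r - 1) ≤ (X ^ 4) ^ (r - 1) := pow_le_pow_left₀ hqpos.le hqle _
      have h3 : M ^ (-δ) = 1 / X ^ (8 * r) := by
        rw [hZδ, Real.rpow_neg hX0.le, one_div]
        congr 1
        rw [← Real.rpow_natCast]
        push_cast
        rfl
      rw [h3, mul_one_div, div_le_div_iff₀ (by positivity) (by positivity), one_mul]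
      calc (q:ℝ) ^ (r - 1) * X ^ 4 ≤ (X ^ 4) ^ (r - 1) * X ^ 4 :=
            mul_le_mul_of_nonneg_right h2 (by positivity)
        _ = X ^ (4 * (r - 1) + 4) := by rw [← pow_mul, ← pow_add]
        _ ≤ X ^ (8 * r) := pow_le_pow_right₀ hX1 (by omega)
    rw [e1]
    calc (2 * ((⌊X⌋₊ : ℕ) : ℝ) + 1) * (s.card * (1 / q + (q:ℝ) ^ (r - 1) * M ^ (-δ))) ≤
          (3 * X) * (s.card * (3 / X ^ 4)) := by
          apply mul_le_mul (by linarith) _ (by positivity) (by positivity)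
          apply mul_le_mul_of_nonneg_left _ (Nat.cast_nonneg _)
          have : 3 / X ^ 4 = 2 / X ^ 4 + 1 / X ^ 4 := by ring
          linarith
      _ = s.card * (9 / X ^ 3) := by
          field_simp
          ring
  set A : Finset ι := s.filter (fun i => ∀ j, ∀ m : ℤ, |(m : ℝ) - v i j| ≤
    2 * lam / θ * Real.log X → ∃ p : ℕ, p.Prime ∧ (p : ℝ) ≤ X ^ (1 / (10 * (2 * lam / θ))) ∧
      (p : ℤ) ∣ m) with hA
  set G : Finset ι := s.filter (fun i => ∀ j, ∀ m : ℤ, |(m : ℝ) - v i j| ≤ lam * Real.log M →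
        ∃ p : ℕ, p.Prime ∧ (p : ℝ) ≤ M ^ (1 / lam) ∧ (p : ℤ) ∣ m ∧ (p : ℤ) < |m|) with hG
  have hsub : A ⊆ G ∪ (univ : Finset (Fin r)).biUnion
      (fun j => s.filter (fun i => |v i j| ≤ ((⌊X⌋₊ : ℕ) : ℤ))) := by
    intro i hi
    rw [Finset.mem_union]
    by_cases h : ∃ j, |v i j| ≤ ((⌊X⌋₊ : ℕ) : ℤ)
    · obtain ⟨j, hj⟩ := h
      exact Or.inr (Finset.mem_biUnion.2 ⟨j, Finset.mem_univ _, Finset.mem_filter.2
        ⟨(Finset.mem_filter.1 hi).1, hj⟩⟩)
    · left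
      push Not at h
      refine Finset.mem_filter.2 ⟨(Finset.mem_filter.1 hi).1, fun j m hm => ?_⟩
      have e0 : 2 * lam / θ * Real.log X = 2 * lam * Real.log M := by
        rw [hlogX]; field_simp
      obtain ⟨p, hp, hpX, hpd⟩ := (Finset.mem_filter.1 hi).2 j m (by
        rw [e0]
        have : 0 ≤ lam * Real.log M := by positivity
        linarith)
      refine ⟨p, hp, hpX.trans ?_, hpd, ?_⟩
      · rw [hX, ← Real.rpow_mul hM0.le]
        apply hrM
        have e4 : θ * (1 / (10 * (2 * lam / θ))) = θ ^ 2 / 20 * (1 / lam) := by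
          field_simp
          norm_num
        rw [e4]
        have e5 : θ ^ 2 / 20 ≤ 1 := by nlinarith
        have e6 : 0 ≤ 1 / lam := by positivity
        calc θ ^ 2 / 20 * (1 / lam) ≤ 1 * (1 / lam) := mul_le_mul_of_nonneg_right e5 e6
          _ = _ := one_mul _
      · have e1 : X < |(v i j : ℝ)| := by
          have h5 := Nat.lt_floor_add_one X
          have h6 : ((⌊X⌋₊ : ℕ) : ℤ) + 1 ≤ |v i j| := h j
          have h7 : (((⌊X⌋₊ : ℕ) : ℝ)) + 1 ≤ |(v i j : ℝ)| := by exact_mod_cast h6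
          linarith
        have e2 : |(v i j : ℝ)| ≤ |(m : ℝ)| + |(m : ℝ) - v i j| := by
          have := abs_sub_abs_le_abs_sub (v i j : ℝ) (m : ℝ)
          rw [abs_sub_comm (v i j : ℝ) (m : ℝ)] at this
          linarith
        have e3 : lam * Real.log M ≤ (Real.log M) ^ 2 := by nlinarith
        have e4 : (p : ℝ) ≤ X ^ (1 / 10 : ℝ) := by
          refine hpX.trans ?_
          apply Real.rpow_le_rpow_of_exponent_le hX1
          apply one_div_le_one_div_of_le (by norm_num)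
          linarith
        have e5 : (p : ℝ) < |(m : ℝ)| := by linarith
        exact_mod_cast e5
  have hA2 : (A.card : ℝ) ≤ G.card + s.card * (9 * r / X ^ 3) := by
    have h2 := (Finset.card_le_card hsub).trans (Finset.card_union_le _ _)
    have h3 := h2.trans (Nat.add_le_add_left Finset.card_biUnion_le _)
    have h4 : (A.card : ℝ) ≤ G.card + ∑ j : Fin r,
        ((s.filter (fun i => |v i j| ≤ ((⌊X⌋₊ : ℕ) : ℤ))).card : ℝ) := by
      exact_mod_cast h3
    refine h4.trans ?_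
    have h5 := Finset.sum_le_sum fun (j : Fin r) (_ : j ∈ univ) => hsm j
    rw [Finset.sum_const, Finset.card_univ, Fintype.card_fin, nsmul_eq_mul] at h5
    have h6 : (r:ℝ) * (s.card * (9 / X ^ 3)) = s.card * (9 * r / X ^ 3) := by ring
    linarith
  have hsmall : 9 * (r:ℝ) / X ^ 3 ≤ 1 / 2 * (1 / X) := by
    rw [mul_one_div, div_le_div_iff₀ (by positivity) hX0]
    have h2 : 9 * (r:ℝ) ≤ X / 2 := by linarith
    have h3 : X / 2 * X ≤ 1 / 2 * X ^ 3 := by nlinarith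
    nlinarith
  have hE1 : 1 / X ≤ 1 / 2 * Real.exp (-Real.exp (C * (2 * lam / θ))) := by
    have h2 : Real.exp (C * (2 * lam / θ)) ≤ Real.sqrt (Real.log M) := by
      apply Real.le_sqrt_of_sq_le
      rw [← hsq]
      exact hlamM
    have h3 : Real.exp (Real.exp (C * (2 * lam / θ))) ≤ Real.exp (Real.sqrt (Real.log M)) :=
      Real.exp_le_exp.2 h2
    rw [Real.exp_neg, mul_comm, ← div_eq_mul_one_div, div_le_div_iff₀ hX0 (by norm_num), one_mul,
      inv_mul_eq_div, le_div_iff₀ (Real.exp_pos _)]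
    linarith
  have hexp : 2 * Real.exp (-Real.exp (4 * C / θ * lam)) ≤
      Real.exp (-Real.exp (C * (2 * lam / θ))) := by
    have h2 : Real.exp (C * (2 * lam / θ)) + 1 ≤ Real.exp (4 * C / θ * lam) := by
      rw [hsq]
      have h3 := Real.add_one_le_exp (C * (2 * lam / θ))
      have h4 : 1 ≤ C * (2 * lam / θ) := by nlinarith
      nlinarith
    have h4 : (2:ℝ) ≤ Real.exp 1 := by
      have := Real.add_one_le_exp (1:ℝ)
      linarith
    calc 2 * Real.exp (-Real.exp (4 * C / θ * lam)) ≤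
          Real.exp 1 * Real.exp (-Real.exp (4 * C / θ * lam)) :=
          mul_le_mul_of_nonneg_right h4 (Real.exp_pos _).le
      _ = Real.exp (1 + -Real.exp (4 * C / θ * lam)) := (Real.exp_add _ _).symm
      _ ≤ _ := Real.exp_le_exp.2 (by linarith)
  have hs0 : (0:ℝ) ≤ s.card := Nat.cast_nonneg _
  have f1 : (s.card : ℝ) * (9 * r / X ^ 3) ≤
      s.card * (1 / 4 * Real.exp (-Real.exp (C * (2 * lam / θ)))) := by
    apply mul_le_mul_of_nonneg_left _ hs0
    linarith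
  have f2 : (s.card : ℝ) * (2 * Real.exp (-Real.exp (4 * C / θ * lam))) ≤
      s.card * Real.exp (-Real.exp (C * (2 * lam / θ))) := mul_le_mul_of_nonneg_left hexp hs0
  have f3 : 0 ≤ (s.card : ℝ) * Real.exp (-Real.exp (C * (2 * lam / θ))) :=
    mul_nonneg hs0 (Real.exp_pos _).le
  linarith

end Pool.Agent.T2h81.LD
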