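import Pool.Agent.T2h81.LD.G14
import Pool.Agent.T2h81.LD.G10

set_option autoImplicit false
set_option linter.unusedSectionVars false
set_option linter.unusedVariables false
set_option maxHeartbeats 4000000

/-! # The criterion for general finite sets of shifts and moduli coprime to `D` -/

namespace Pool.Agent.T2h81.LD

open Finset Filter Pool.Agent.Y831.RC Pool.Agent.T2h81.RF

open scoped Classical

/-- most vectors of classes are good -/
theorem good_vectors_gen (r P m : ℕ) (hr : 1 ≤ r) (hP : 0 < P) (V : Fin r → Finset ℤ) (B : ℝ) (hB : 0 < B)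
    (hm : m = ⌊B⌋₊) (hV : ∀ j, ((V j).card : ℝ) * P.totient * (2 * r) ≤ B * P) :
    (P : ℝ) ^ r / 2 ≤ (((Fintype.piFinset (fun _ : Fin r => range P)).filter
      (fun b : Fin r → ℕ => ∀ j, (sv P (b j : ℤ) (V j)).card ≤ m)).card : ℝ) := by
  have hPr : (0:ℝ) < P := by exact_mod_cast hP
  have hr0 : (0:ℝ) < r := by exact_mod_cast hr
  set Bad : Fin r → Finset ℕ := fun j => (range P).filter (fun b => m < (sv P (b : ℤ) (V j)).card) with hBad
  have hBadc : ∀ j, ((Bad j).card : ℝ) ≤ P / (2 * r) := by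
    intro j
    have h1 : B * (Bad j).card ≤ (V j).card * P.totient := by
      have h2 : B * (Bad j).card ≤ ∑ b ∈ Bad j, ((sv P (b : ℤ) (V j)).card : ℝ) := by
        rw [mul_comm, ← nsmul_eq_mul, ← Finset.sum_const]
        apply Finset.sum_le_sum
        intro b hb
        have h3 := (Finset.mem_filter.1 hb).2
        rw [hm] at h3
        exact ((Nat.floor_lt hB.le).1 h3).le
      have h4 : ∑ b ∈ Bad j, ((sv P (b : ℤ) (V j)).card : ℝ) ≤ ∑ b ∈ range P, ((sv P (b : ℤ) (V j)).card : ℝ) :=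
        Finset.sum_le_sum_of_subset_of_nonneg (Finset.filter_subset _ _) fun _ _ _ => Nat.cast_nonneg _
      have h5 : ∑ b ∈ range P, ((sv P (b : ℤ) (V j)).card : ℝ) = (V j).card * P.totient := by
        have := sum_sv P hP (V j)
        exact_mod_cast this
      linarith
    rw [le_div_iff₀ (by positivity)]
    have h6 := mul_le_mul_of_nonneg_right h1 (show 0 ≤ 2 * (r:ℝ) by positivity)
    have h7 : B * (((Bad j).card : ℝ) * (2 * r)) ≤ B * P := by
      calc B * (((Bad j).card : ℝ) * (2 * r)) = B * (Bad j).card * (2 * r) := by ring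
        _ ≤ _ := h6
        _ ≤ _ := hV j
    exact le_of_mul_le_mul_left h7 hB
  set T : Finset (Fin r → ℕ) := Fintype.piFinset (fun _ : Fin r => range P) with hT
  have hTc : (T.card : ℝ) = (P : ℝ) ^ r := by
    rw [hT, Fintype.card_piFinset]
    simp
  set G : Finset (Fin r → ℕ) := T.filter (fun b => ∀ j, (sv P (b j : ℤ) (V j)).card ≤ m) with hG
  have hsub : T ⊆ G ∪ (univ : Finset (Fin r)).biUnion (fun j =>
      Fintype.piFinset (fun j' : Fin r => if j' = j then Bad j else range P)) := by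
    intro b hb
    rw [Finset.mem_union]
    by_cases h : ∀ j, (sv P (b j : ℤ) (V j)).card ≤ m
    · exact Or.inl (Finset.mem_filter.2 ⟨hb, h⟩)
    · right
      push Not at h
      obtain ⟨j, hj⟩ := h
      rw [Finset.mem_biUnion]
      refine ⟨j, Finset.mem_univ _, ?_⟩
      rw [Fintype.mem_piFinset]
      intro j'
      have hb' := Fintype.mem_piFinset.1 hb j'
      split_ifs with h1
      · rw [h1]
        rw [h1] at hb'
        exact Finset.mem_filter.2 ⟨hb', hj⟩
      · exact hb'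
  have hcj : ∀ j : Fin r, ((Fintype.piFinset (fun j' : Fin r => if j' = j then Bad j else range P)).card : ℝ)
      ≤ (P:ℝ) ^ r / (2 * r) := by
    intro j
    rw [Fintype.card_piFinset]
    have h1 : ∀ j' : Fin r, (if j' = j then Bad j else range P).card =
        if j' = j then (Bad j).card else P := by
      intro j'
      split_ifs
      · rfl
      · exact Finset.card_range P
    rw [Finset.prod_congr rfl fun j' _ => h1 j', Finset.prod_ite, Finset.prod_const, Finset.prod_const,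
      Finset.filter_eq', if_pos (Finset.mem_univ _), Finset.card_singleton, pow_one,
      Finset.filter_ne', Finset.card_erase_of_mem (Finset.mem_univ _), Finset.card_univ,
      Fintype.card_fin]
    push_cast
    have h2 : (P:ℝ) ^ r = P * P ^ (r - 1) := by
      rw [← pow_succ']
      congr 1
      omega
    rw [h2]
    calc ((Bad j).card : ℝ) * P ^ (r - 1) ≤ P / (2 * r) * P ^ (r - 1) :=
          mul_le_mul_of_nonneg_right (hBadc j) (by positivity)
      _ = _ := by ring
  have h1 : (T.card : ℝ) ≤ G.card + ∑ j : Fin r, (P:ℝ) ^ r / (2 * r) := by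
    have h2 := (Finset.card_le_card hsub).trans (Finset.card_union_le _ _)
    have h3 := h2.trans (Nat.add_le_add_left Finset.card_biUnion_le _)
    have h4 : (T.card : ℝ) ≤ G.card + ∑ j : Fin r,
        ((Fintype.piFinset (fun j' : Fin r => if j' = j then Bad j else range P)).card : ℝ) := by
      exact_mod_cast h3
    refine h4.trans ?_
    have h5 := Finset.sum_le_sum fun (j : Fin r) (_ : j ∈ univ) => hcj j
    linarith
  rw [hTc, Finset.sum_const, Finset.card_univ, Fintype.card_fin, nsmul_eq_mul] at h1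
  have h2 : (r:ℝ) * ((P:ℝ) ^ r / (2 * r)) = (P:ℝ) ^ r / 2 := by field_simp
  rw [h2] at h1
  linarith

/-- the part of the primorial coprime to `D` -/
theorem cop_part (n D : ℕ) (hD : 0 < D) : ∃ P : ℕ, P ∣ primorial n ∧ Nat.Coprime P D ∧ 0 < P ∧
    ((P.totient : ℕ) : ℝ) * D.totient * (primorial n) ≤ P * D * (primorial n).totient := by
  set P₀ : ℕ := primorial n with hP₀
  have hP₀pos : 0 < P₀ := primorial_pos _
  have hsq : Squarefree P₀ := squarefree_primorial n
  set G : ℕ := Nat.gcd P₀ D with hG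
  obtain ⟨P, hP⟩ : G ∣ P₀ := Nat.gcd_dvd_left _ _
  have hG0 : 0 < G := Nat.gcd_pos_of_pos_left _ hP₀pos
  have hcop : Nat.Coprime G P := Nat.coprime_of_squarefree_mul (by rw [← hP]; exact hsq)
  have hPpos : 0 < P := Nat.pos_of_ne_zero (by rintro rfl; rw [mul_zero] at hP; omega)
  have hPD : Nat.Coprime P D := by
    apply Nat.coprime_of_dvd
    intro k hk hkP hkD
    have h1 : k ∣ G := Nat.dvd_gcd (hkP.trans ⟨G, by rw [hP]; ring⟩) hkD
    have h2 := Nat.dvd_gcd h1 hkP
    rw [hcop] at h2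
    exact hk.one_lt.ne' (Nat.dvd_one.1 h2)
  refine ⟨P, ⟨G, by rw [hP]; ring⟩, hPD, hPpos, ?_⟩
  -- totients
  have htot : P₀.totient = G.totient * P.totient := by rw [hP, Nat.totient_mul hcop]
  have hGD : G ∣ D := Nat.gcd_dvd_right _ _
  have hfac : (D.totient : ℝ) * G ≤ G.totient * D := by
    have e1 : ∀ n : ℕ, ((n.totient : ℕ) : ℝ) = n * ∏ p ∈ n.primeFactors, (1 - (p : ℝ)⁻¹) := by
      intro n
      have h1 := Nat.totient_eq_mul_prod_factors n
      have h2 : (((n.totient : ℕ) : ℚ) : ℝ) = ((n * ∏ p ∈ n.primeFactors, (1 - (p : ℚ)⁻¹) : ℚ) : ℝ) := by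
        rw [h1]
      push_cast at h2
      exact h2
    rw [e1 D, e1 G]
    have e2 : ∏ p ∈ D.primeFactors, (1 - (p : ℝ)⁻¹) ≤ ∏ p ∈ G.primeFactors, (1 - (p : ℝ)⁻¹) := by
      have hf : ∀ k ∈ D.primeFactors, 0 ≤ 1 - ((k : ℕ) : ℝ)⁻¹ ∧ 1 - ((k : ℕ) : ℝ)⁻¹ ≤ 1 := by
        intro k hk
        have h1 : (1:ℝ) ≤ k := by exact_mod_cast (Nat.prime_of_mem_primeFactors hk).one_lt.le
        have h2 : ((k : ℕ) : ℝ)⁻¹ ≤ 1 := inv_le_one_of_one_le₀ h1
        have h3 : 0 ≤ ((k : ℕ) : ℝ)⁻¹ := by positivity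
        constructor <;> linarith
      have hsub : G.primeFactors ⊆ D.primeFactors := Nat.primeFactors_mono hGD hD.ne'
      rw [← Finset.prod_sdiff hsub]
      have h4 : ∏ p ∈ D.primeFactors \ G.primeFactors, (1 - (p : ℝ)⁻¹) ≤ 1 :=
        Finset.prod_le_one (fun k hk => (hf k (Finset.sdiff_subset hk)).1)
          fun k hk => (hf k (Finset.sdiff_subset hk)).2
      have h5 : 0 ≤ ∏ p ∈ G.primeFactors, (1 - (p : ℝ)⁻¹) :=
        Finset.prod_nonneg fun k hk => (hf k (hsub hk)).1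
      exact mul_le_of_le_one_left h5 h4
    have e3 : (0:ℝ) ≤ D * G := by positivity
    have e4 := mul_le_mul_of_nonneg_left e2 e3
    calc ((D : ℕ) : ℝ) * (∏ p ∈ D.primeFactors, (1 - (p : ℝ)⁻¹)) * G =
          D * G * (∏ p ∈ D.primeFactors, (1 - (p : ℝ)⁻¹)) := by ring
      _ ≤ D * G * (∏ p ∈ G.primeFactors, (1 - (p : ℝ)⁻¹)) := e4
      _ = _ := by ring
  have hPr : (0:ℝ) ≤ P.totient := Nat.cast_nonneg _
  have hPr0 : (0:ℝ) ≤ P := Nat.cast_nonneg _
  rw [htot, hP]
  push_cast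
  calc ((P.totient : ℕ) : ℝ) * D.totient * (G * P) = (P.totient * P) * (D.totient * G) := by ring
    _ ≤ (P.totient * P) * (G.totient * D) := mul_le_mul_of_nonneg_left hfac (by positivity)
    _ = _ := by ring

/-- **the criterion for vectors of integers, general shifts** -/
theorem ld_gen (r : ℕ) (hr : 1 ≤ r) : ∃ C X₀ : ℝ, 1 ≤ C ∧ 1 ≤ X₀ ∧ ∀ X lam : ℝ, X₀ ≤ X → 1 ≤ lam →
    Real.exp (C * lam) ≤ Real.log X → ∀ D : ℕ, 0 < D →
    (∀ p : ℕ, p.Prime → p ∣ D → (p : ℝ) ≤ Real.log X ^ 5) →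
    ∀ (ι : Type) (s : Finset ι) (v : ι → Fin r → ℤ),
    (∀ q : ℕ, 1 ≤ q → (q : ℝ) ≤ X ^ (2 / 5 : ℝ) → Nat.Coprime q D →
      ∀ ρ : Fin r → ℤ, |((s.filter (fun i => ∀ j, (q : ℤ) ∣ v i j - ρ j)).card : ℝ) -
        s.card / (q : ℝ) ^ r| ≤ s.card * X ^ (-(2 * (r : ℝ)))) →
    ∀ V : Fin r → Finset ℤ, (∀ j, ((V j).card : ℝ) ≤ lam * (D.totient / D) * Real.log X) →
    (∀ j, ∀ h ∈ V j, |(h : ℝ)| ≤ Real.log X ^ 4) →
    (s.card : ℝ) * Real.exp (-Real.exp (C * lam)) ≤
      ((s.filter (fun i => ∀ j, ∀ h ∈ V j,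
        ∃ p : ℕ, p.Prime ∧ (p : ℝ) ≤ X ^ (1 / (10 * lam)) ∧ ¬ p ∣ D ∧ (p : ℤ) ∣ v i j + h)).card : ℝ) := by
  obtain ⟨c₄, e₀, L₀, hc₄, hc₄1, he₀, hL₀, hcls⟩ := cls_gen
  obtain ⟨C₄, L₁, hC₄, hL₁, hps⟩ := prop_small
  have hr1 : (1:ℝ) ≤ r := by exact_mod_cast hr
  have hr0 : (0:ℝ) < r := by linarith
  set C' : ℝ := e₀ + 66 * r ^ 2 * C₄ / c₄ with hC'
  have h66 : 0 ≤ 66 * (r:ℝ) ^ 2 * C₄ / c₄ := by positivity
  have hC'0 : 6400 ≤ C' := by rw [hC']; linarith
  refine ⟨8 * C', Real.exp (16 * (L₀ + L₁)), by linarith, Real.one_le_exp (by linarith), ?_⟩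
  intro X lam hX hlam hlamX D hD hDp ι s v hdist V hVc hVs
  have hX0 : 0 < X := (Real.exp_pos _).trans_le hX
  have hlX : 16 * (L₀ + L₁) ≤ Real.log X := by
    rw [← Real.log_exp (16 * (L₀ + L₁))]
    exact Real.log_le_log (Real.exp_pos _) hX
  set L : ℝ := Real.log X / 16 with hL
  have hlXL : Real.log X = 16 * L := by rw [hL]; ring
  have hXe : X = Real.exp (16 * L) := by rw [← hlXL, Real.exp_log hX0]
  have hLL0 : L₀ ≤ L := by linarith
  have hLL1 : L₁ ≤ L := by linarith
  have hL10 : (10:ℝ) ^ 10 ≤ L := hL₀.trans hLL0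
  have hLbig : (10000000000:ℝ) ≤ L := by norm_num at hL10; exact hL10
  have hLpos : 0 < L := by linarith
  obtain ⟨hWW, hlL1⟩ := hps L hLL1
  have hl0 : 0 < Real.log L := by linarith
  set e : ℝ := C' * lam with he
  have hee : e₀ ≤ e := by
    rw [he]
    have h1 : e₀ ≤ C' := by rw [hC']; linarith
    have h2 : C' * 1 ≤ C' * lam := mul_le_mul_of_nonneg_left hlam (by linarith)
    linarith
  have he6400 : 6400 ≤ e := he₀.trans hee
  have h8e : 8 * C' * lam = 8 * e := by rw [he]; ring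
  rw [h8e] at hlamX ⊢
  have heu : e ≤ 1 / 4 * Real.log L := by
    rw [hlXL] at hlamX
    have h1 : 8 * e ≤ Real.log (16 * L) := by
      rw [Real.le_log_iff_exp_le (by positivity)]
      exact hlamX
    rw [Real.log_mul (by norm_num) hLpos.ne'] at h1
    have h2 : Real.log 16 ≤ Real.log L := Real.log_le_log (by norm_num) (by linarith)
    linarith
  have hlame : lam ≤ e := by
    rw [he]
    nlinarith
  have hlogL : Real.log L ≤ L / 64 := by
    have h1 := Real.log_le_sub_one_of_pos (show 0 < L / 10000 by positivity)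
    rw [Real.log_div hLpos.ne' (by norm_num)] at h1
    have h2 : Real.log 10000 ≤ 10000 := by
      have := Real.log_le_sub_one_of_pos (show (0:ℝ) < 10000 by norm_num)
      linarith
    linarith
  set H : ℕ := ⌊Real.log X ^ 4⌋₊ with hH
  have hL4 : (65536:ℝ) * L ^ 4 ≤ L ^ 5 := by
    have e1 : L ^ 5 = L * L ^ 4 := by ring
    rw [e1]
    exact mul_le_mul_of_nonneg_right (by linarith) (by positivity)
  have hL5 : (1048576:ℝ) * L ^ 5 ≤ L ^ 6 := by
    have e1 : L ^ 6 = L * L ^ 5 := by ring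
    rw [e1]
    exact mul_le_mul_of_nonneg_right (by linarith) (by positivity)
  have hHle : (H : ℝ) ≤ L ^ 5 := by
    have h1 := Nat.floor_le (show 0 ≤ Real.log X ^ 4 by rw [hlXL]; positivity)
    rw [← hH, hlXL] at h1
    refine h1.trans (le_trans (le_of_eq ?_) hL4)
    ring
  have hVsub : ∀ j, V j ⊆ Icc (-(H : ℤ)) H := by
    intro j h hh
    have h1 := hVs j h hh
    have h2 : ((h.natAbs : ℕ) : ℝ) = |(h : ℝ)| := by rw [Nat.cast_natAbs]; push_cast; rfl
    have h3 : h.natAbs ≤ H := Nat.le_floor (by rw [h2]; exact h1)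
    rw [Finset.mem_Icc]
    omega
  have hDp' : ∀ p : ℕ, p.Prime → p ∣ D → (p : ℝ) ≤ L ^ 6 := by
    intro p hp hpD
    refine (hDp p hp hpD).trans ?_
    rw [hlXL]
    refine le_trans (le_of_eq ?_) hL5
    ring
  obtain ⟨P, hPdvd, hPD, hPpos, hPtot⟩ := cop_part ⌊L / 32⌋₊ D hD
  have hPr : (0:ℝ) < P := by exact_mod_cast hPpos
  have hP₀r : (0:ℝ) < (primorial ⌊L / 32⌋₊ : ℕ) := by exact_mod_cast primorial_pos _
  have hDr : (0:ℝ) < D := by exact_mod_cast hD
  have htot : (((primorial ⌊L / 32⌋₊).totient : ℕ) : ℝ) = (primorial ⌊L / 32⌋₊ : ℕ) * WW (L / 32) :=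
    tot_primorial (L / 32) (by positivity)
  have hPtot' : (P.totient : ℝ) * D.totient ≤ P * D * WW (L / 32) := by
    rw [htot] at hPtot
    have e1 : (P : ℝ) * D * (((primorial ⌊L / 32⌋₊ : ℕ) : ℝ) * WW (L / 32)) =
        P * D * WW (L / 32) * (primorial ⌊L / 32⌋₊ : ℕ) := by ring
    rw [e1] at hPtot
    exact le_of_mul_le_mul_right hPtot hP₀r
  have hW0 := WW_pos (L / 32)
  set B : ℝ := 2 * r * (lam * (16 * L) * WW (L / 32)) with hB
  have hB0 : 0 < B := by positivity
  set m : ℕ := ⌊B⌋₊ with hm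
  have hgood := good_vectors_gen r P m hr hPpos V B hB0 hm (by
    intro j
    have h1 := hVc j
    rw [hlXL] at h1
    have h2 : ((V j).card : ℝ) * P.totient ≤ lam * (16 * L) * WW (L / 32) * P := by
      calc ((V j).card : ℝ) * P.totient ≤ lam * (D.totient / D) * (16 * L) * P.totient :=
            mul_le_mul_of_nonneg_right h1 (Nat.cast_nonneg _)
        _ = lam * (16 * L) * (P.totient * D.totient / D) := by ring
        _ ≤ lam * (16 * L) * (P * WW (L / 32)) := by
            apply mul_le_mul_of_nonneg_left _ (by positivity)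
            rw [div_le_iff₀ hDr]
            linarith
        _ = _ := by ring
    calc ((V j).card : ℝ) * P.totient * (2 * r) ≤ lam * (16 * L) * WW (L / 32) * P * (2 * r) :=
          mul_le_mul_of_nonneg_right h2 (by positivity)
      _ = _ := by rw [hB]; ring)
  have hrm : (r : ℝ) * m ≤ c₄ * e * L / Real.log L := by
    have h1 : (m:ℝ) ≤ B := Nat.floor_le hB0.le
    have h2 : B ≤ 2 * r * ((33 * lam * L) * (C₄ / Real.log L)) := by
      rw [hB]
      apply mul_le_mul_of_nonneg_left _ (by positivity)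
      apply mul_le_mul _ hWW hW0.le (by positivity)
      have : 0 ≤ lam * L := by positivity
      linarith
    have h3 : (r:ℝ) * m ≤ r * (2 * r * ((33 * lam * L) * (C₄ / Real.log L))) :=
      mul_le_mul_of_nonneg_left (h1.trans h2) hr0.le
    refine h3.trans ?_
    have h4 : r * (2 * r * ((33 * lam * L) * (C₄ / Real.log L))) =
        (66 * (r:ℝ) ^ 2 * C₄) * lam * L / Real.log L := by ring
    rw [h4]
    apply div_le_div_of_nonneg_right _ hl0.le
    apply mul_le_mul_of_nonneg_right _ hLpos.le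
    rw [he, ← mul_assoc]
    apply mul_le_mul_of_nonneg_right _ (by linarith)
    have h5 : c₄ * (66 * (r:ℝ) ^ 2 * C₄ / c₄) = 66 * (r:ℝ) ^ 2 * C₄ := by field_simp
    rw [hC', mul_add, h5]
    have : 0 ≤ c₄ * e₀ := by
      have : 0 ≤ e₀ := by linarith
      positivity
    linarith
  have hdist' : ∀ q : ℕ, 1 ≤ q → (q : ℝ) ≤ Real.exp (32 / 5 * L) → Nat.Coprime q D →
      ∀ ρ : Fin r → ℤ, |((s.filter (fun i => ∀ j, (q : ℤ) ∣ v i j - ρ j)).card : ℝ) -
        s.card / (q : ℝ) ^ r| ≤ s.card * Real.exp (-(32 * r * L)) := by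
    intro q hq hqX hqD ρ
    have h1 : X ^ (2 / 5 : ℝ) = Real.exp (32 / 5 * L) := by
      rw [Real.rpow_def_of_pos hX0, hlXL]; congr 1; ring
    have h2 : X ^ (-(2 * (r : ℝ))) = Real.exp (-(32 * r * L)) := by
      rw [Real.rpow_def_of_pos hX0, hlXL]; congr 1; ring
    rw [← h2]
    exact hdist q hq (by rw [h1]; exact hqX) hqD ρ
  set cov : ι → Prop := fun i => ∀ j, ∀ h ∈ V j, ∃ p : ℕ, p.Prime ∧
    (p : ℝ) ≤ Real.exp (L / (6400 * e)) ∧ ¬ p ∣ D ∧ (p : ℤ) ∣ v i j + h with hcov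
  set E : ℝ := Real.exp (e ^ 2 * Real.exp e) with hE
  set G : Finset (Fin r → ℕ) := (Fintype.piFinset (fun _ : Fin r => range P)).filter
      (fun b : Fin r → ℕ => ∀ j, (sv P (b j : ℤ) (V j)).card ≤ m) with hG
  set F : (Fin r → ℕ) → Finset ι := fun b => s.filter (fun i => (∀ j, (P : ℤ) ∣ v i j - (b j : ℤ)) ∧ cov i)
    with hF
  have h1 : ∀ b ∈ G, 3 / 8 * ((s.card : ℝ) / (P : ℝ) ^ r) ≤ ((F b).card : ℝ) * E := by
    intro b hb
    exact hcls L e hLL0 hee heu r hr m H hrm hHle D P hDp' hPdvd hPD ι s v hdist' V hVsub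
      (fun j => (b j : ℤ)) (fun j => (Finset.mem_filter.1 hb).2 j)
  have h2 : ∑ b ∈ G, ((F b).card : ℝ) ≤ ((s.filter cov).card : ℝ) := by
    have h3 : (G.biUnion F).card = ∑ b ∈ G, (F b).card := by
      apply Finset.card_biUnion
      intro b hb b' hb' hne
      show Disjoint (F b) (F b')
      rw [Finset.disjoint_left]
      intro i hi hi'
      apply hne
      funext j
      have e1 := (Finset.mem_filter.1 hi).2.1 j
      have e2 := (Finset.mem_filter.1 hi').2.1 j
      have e3 := dvd_sub e2 e1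
      have e4 : v i j - (b' j : ℤ) - (v i j - (b j : ℤ)) = (b j : ℤ) - b' j := by ring
      rw [e4] at e3
      have e5 := Finset.mem_range.1 (Fintype.mem_piFinset.1 (Finset.mem_filter.1 hb).1 j)
      have e6 := Finset.mem_range.1 (Fintype.mem_piFinset.1 (Finset.mem_filter.1 hb').1 j)
      have e7 : (b j : ℤ) - b' j = 0 := by
        apply Int.eq_zero_of_abs_lt_dvd e3
        rw [abs_lt]
        constructor <;> omega
      omega
    have h4 : (G.biUnion F) ⊆ s.filter cov := by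
      intro i hi
      obtain ⟨b, hb, hib⟩ := Finset.mem_biUnion.1 hi
      have := Finset.mem_filter.1 hib
      exact Finset.mem_filter.2 ⟨this.1, this.2.2⟩
    have h5 := Finset.card_le_card h4
    rw [h3] at h5
    exact_mod_cast h5
  have h3 : 3 / 16 * (s.card : ℝ) ≤ ((s.filter cov).card : ℝ) * E := by
    have e1 : (G.card : ℝ) * (3 / 8 * ((s.card : ℝ) / (P : ℝ) ^ r)) ≤
        (∑ b ∈ G, ((F b).card : ℝ)) * E := by
      rw [Finset.sum_mul, ← nsmul_eq_mul, ← Finset.sum_const]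
      exact Finset.sum_le_sum h1
    have hgen : ∀ a p : ℝ, 0 < p → 3 / 16 * a = p / 2 * (3 / 8 * (a / p)) := by
      intro a p hp
      have h7 : p / 2 * (3 / 8 * (a / p)) = 3 / 16 * (a * (p / p)) := by ring
      rw [h7, div_self hp.ne', mul_one]
    have e2 : 3 / 16 * (s.card : ℝ) = (P:ℝ) ^ r / 2 * (3 / 8 * ((s.card : ℝ) / (P : ℝ) ^ r)) :=
      hgen _ _ (pow_pos hPr r)
    rw [e2]
    have e3 : (P:ℝ) ^ r / 2 * (3 / 8 * ((s.card : ℝ) / (P : ℝ) ^ r)) ≤
        (G.card : ℝ) * (3 / 8 * ((s.card : ℝ) / (P : ℝ) ^ r)) :=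
      mul_le_mul_of_nonneg_right hgood (mul_nonneg (by norm_num)
        (div_nonneg (Nat.cast_nonneg _) (pow_pos hPr r).le))
    have e4 := mul_le_mul_of_nonneg_right h2 (Real.exp_pos (e ^ 2 * Real.exp e)).le
    exact e3.trans (e1.trans e4)
  have hE0 : 0 < E := Real.exp_pos _
  have h4 : (s.card : ℝ) * Real.exp (-Real.exp (8 * e)) ≤ ((s.filter cov).card : ℝ) := by
    have e1 : Real.exp (-Real.exp (8 * e)) * E ≤ 3 / 16 := by
      rw [hE, ← Real.exp_add]
      have e2 : e ^ 2 * Real.exp e ≤ Real.exp (3 * e) := by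
        have g1 : e ≤ Real.exp e := by linarith [Real.add_one_le_exp e]
        have g2 : e ^ 2 ≤ Real.exp e * Real.exp e := by nlinarith
        calc e ^ 2 * Real.exp e ≤ Real.exp e * Real.exp e * Real.exp e :=
              mul_le_mul_of_nonneg_right g2 (Real.exp_pos _).le
          _ = Real.exp (3 * e) := by
              rw [← Real.exp_add, ← Real.exp_add]; congr 1; ring
      have e3 : Real.exp (3 * e) + 5 * e ≤ Real.exp (8 * e) := by
        have g1 : Real.exp (8 * e) = Real.exp (3 * e) * Real.exp (5 * e) := by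
          rw [← Real.exp_add]; congr 1; ring
        have g2 := Real.add_one_le_exp (5 * e)
        have g3 : 1 ≤ Real.exp (3 * e) := Real.one_le_exp (by linarith)
        rw [g1]
        nlinarith
      have e4 : Real.exp (-Real.exp (8 * e) + e ^ 2 * Real.exp e) ≤ Real.exp (-6) :=
        Real.exp_le_exp.2 (by linarith)
      have e5 : Real.exp (-6) ≤ 3 / 16 := by
        rw [Real.exp_neg, inv_le_comm₀ (Real.exp_pos _) (by norm_num)]
        have := Real.add_one_le_exp (6:ℝ)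
        norm_num
        linarith
      exact e4.trans e5
    have e2 : (s.card : ℝ) * Real.exp (-Real.exp (8 * e)) * E ≤ ((s.filter cov).card : ℝ) * E := by
      calc (s.card : ℝ) * Real.exp (-Real.exp (8 * e)) * E =
          s.card * (Real.exp (-Real.exp (8 * e)) * E) := by ring
        _ ≤ s.card * (3 / 16) := mul_le_mul_of_nonneg_left e1 (Nat.cast_nonneg _)
        _ ≤ _ := by linarith
    exact le_of_mul_le_mul_right e2 hE0
  refine h4.trans ?_
  rw [Nat.cast_le]
  apply Finset.card_le_card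
  intro i hi
  rw [Finset.mem_filter] at hi ⊢
  refine ⟨hi.1, ?_⟩
  intro j h hh
  obtain ⟨p, hp, hp1, hpD, hp2⟩ := hi.2 j h hh
  refine ⟨p, hp, hp1.trans ?_, hpD, hp2⟩
  rw [Real.rpow_def_of_pos hX0, hlXL]
  apply Real.exp_le_exp.2
  rw [mul_one_div, div_le_div_iff₀ (by positivity) (by positivity)]
  have g1 : L * (10 * lam) ≤ L * (16 * (6400 * e)) := by
    apply mul_le_mul_of_nonneg_left _ hLpos.le
    linarith
  linarith

end Pool.Agent.T2h81.LD
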