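import Pool.Agent.T2h81.LD.G1

set_option autoImplicit false
set_option linter.unusedSectionVars false
set_option linter.unusedVariables false
set_option maxHeartbeats 4000000

/-! # The optimal profile for the primes in an interval, general densities -/

namespace Pool.Agent.T2h81.LD

open Finset Filter Pool.Agent.H256R2.SC Pool.Agent.Y831.RC Pool.Agent.T2h81.RF

open scoped Classical

/-- the profile, general densities -/
theorem profG (m₀ : ℕ) (y z v₀ A₀ B₁ G₂ : ℝ) (hy : 2 ≤ y) (hz : 1 < z) (hv₀ : 0 < v₀)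
    (hv₀z : v₀ ≤ Real.log z) (hA₀ : 0 < A₀)
    (hB : ∑ s : Finset (Fin (PS y z ∅).card) with
      Real.log (∏ i ∈ s, ((emb (PS y z ∅) i : ℕ) : ℝ)) < v₀,
      ∏ i ∈ s, 1 / ((emb (PS y z ∅) i : ℕ) : ℝ) ≤ B₁)
    (hG : ∑ i, 1 / ((emb (PS y z ∅) i : ℕ) : ℝ) ≤ G₂)
    (hA : A₀ ≤ WW y / (1 + 2 / y) * Real.log (Real.log z / v₀) - B₁ / v₀ -
      Real.exp (3 * G₂ - m₀) / v₀)
    (hBA : 2 * B₁ ≤ A₀ * v₀) (g : Fin (PS y z ∅).card → ℝ) (hg0 : ∀ i, 0 < g i)
    (hgle : ∀ i, g i ≤ 1 / ((emb (PS y z ∅) i : ℕ) : ℝ))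
    (hglow : ∀ s : Finset (Fin (PS y z ∅).card), ∏ i ∈ s, ((emb (PS y z ∅) i : ℕ) : ℝ) ≤ z →
      1 / 2 * ∏ i ∈ s, 1 / ((emb (PS y z ∅) i : ℕ) : ℝ) ≤ ∏ i ∈ s, g i) :
    ∃ h, HypS (fun i => ((emb (PS y z ∅) i : ℕ) : ℝ)) g
      h z (2 / A₀) v₀ ∧ ∀ s, h s ≠ 0 → s.card ≤ m₀ := by
  have hzpos : 0 < z := by linarith
  revert g
  set PP : Finset ℕ := PS y z ∅ with hPP
  intro g hg0 hgle hglow
  set P : Fin PP.card → ℝ := fun i => ((emb PP i : ℕ) : ℝ) with hP
  have hP1 : ∀ i, 1 < P i := fun i => by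
    have := (PS_mem hzpos.le (emb_mem PP i)).2.1
    have h2 : (1:ℝ) < y := by linarith
    exact h2.trans this
  have hP0 : ∀ i, 0 < P i := fun i => zero_lt_one.trans (hP1 i)
  have hgpos : ∀ s : Finset (Fin PP.card), 0 < ∏ i ∈ s, 1 / P i := fun s =>
    Finset.prod_pos fun i _ => by have := hP0 i; positivity
  have hppos : ∀ s : Finset (Fin PP.card), 0 < ∏ i ∈ s, P i := fun s =>
    Finset.prod_pos fun i _ => hP0 i
  have hB1 : 1 ≤ B₁ := by
    refine le_trans ?_ hB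
    have e : (∏ i ∈ (∅ : Finset (Fin PP.card)), 1 / P i) = 1 := Finset.prod_empty
    rw [← e]
    refine Finset.single_le_sum (f := fun s : Finset (Fin PP.card) => ∏ i ∈ s, 1 / P i)
      (fun s _ => (hgpos s).le) ?_
    rw [Finset.mem_filter]
    exact ⟨Finset.mem_univ _, by simpa using hv₀⟩
  have hy2 : 0 < 1 + 2 / y := by positivity
  have hBB : ∑ s : Finset (Fin PP.card) with Real.log (∏ i ∈ s, P i) < v₀, ∏ i ∈ s, g i ≤ B₁ := by
    refine le_trans ?_ hB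
    apply Finset.sum_le_sum
    intro s _
    exact Finset.prod_le_prod (fun i _ => (hg0 i).le) (fun i _ => hgle i)
  have hK : (2:ℝ) / A₀ = 1 / (A₀ / 2) := by field_simp
  rw [hK]
  refine exists_hT m₀ P g hP1 hg0 z (A₀ / 2) v₀ B₁
    hz (by positivity) hv₀ ?_ hBB (by linarith)
  have hgo : A₀ ≤ ∑ s : Finset (Fin PP.card) with ((s.Nonempty ∧ v₀ ≤ Real.log (∏ i ∈ s, P i)) ∧
      ∏ i ∈ s, P i ≤ z) ∧ s.card ≤ m₀, (∏ i ∈ s, 1 / P i) / Real.log (∏ i ∈ s, P i) := ?_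
  · have h1 : 1 / 2 * ∑ s : Finset (Fin PP.card) with ((s.Nonempty ∧ v₀ ≤ Real.log (∏ i ∈ s, P i)) ∧
        ∏ i ∈ s, P i ≤ z) ∧ s.card ≤ m₀, (∏ i ∈ s, 1 / P i) / Real.log (∏ i ∈ s, P i) ≤
        ∑ s : Finset (Fin PP.card) with ((s.Nonempty ∧ v₀ ≤ Real.log (∏ i ∈ s, P i)) ∧
        ∏ i ∈ s, P i ≤ z) ∧ s.card ≤ m₀, (∏ i ∈ s, g i) / Real.log (∏ i ∈ s, P i) := by
      rw [Finset.mul_sum]
      apply Finset.sum_le_sum
      intro s hs
      obtain ⟨⟨⟨h1, h2⟩, h3⟩, h4⟩ := (Finset.mem_filter.1 hs).2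
      rw [← mul_div_assoc]
      apply div_le_div_of_nonneg_right (hglow s h3)
      linarith
    linarith
  refine hA.trans ?_
  set S : Finset (Finset (Fin PP.card)) := univ.filter (fun s : Finset (Fin PP.card) =>
    (s.Nonempty ∧ v₀ ≤ Real.log (∏ i ∈ s, P i)) ∧ ∏ i ∈ s, P i ≤ z) with hS
  -- summation by parts, for the scaled weights
  have hmain : (WW y / (1 + 2 / y) / B₁) * Real.log (Real.log z / v₀) - 1 / v₀ ≤
      ∑ s ∈ S, ((∏ i ∈ s, 1 / P i) / B₁) / Real.log (∏ i ∈ s, P i) := by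
    refine alog_lower S (fun s => (∏ i ∈ s, 1 / P i) / B₁) (fun s => Real.log (∏ i ∈ s, P i))
      (fun s _ => div_nonneg (hgpos s).le (by linarith)) ?_ _ v₀ (Real.log z) hv₀ hv₀z ?_
    · intro s hs
      have := (Finset.mem_filter.1 hs).2.1.2
      linarith
    · intro v hv1 hv2
      have h1 := A_sharp y z (Real.exp v) hy (Real.one_le_exp (by linarith))
        (by rw [← Real.exp_log hzpos]; exact Real.exp_le_exp.2 hv2)
      rw [Real.log_exp, ← hPP, ← Asum_enum PP (Real.exp v)] at h1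
      have h2 : WW y / (1 + 2 / y) * v ≤
          1 + Asum P (fun i => 1 / ((emb PP i : ℕ) : ℝ)) (Real.exp v) := by
        rw [div_mul_eq_mul_div, div_le_iff₀ hy2, mul_comm _ (1 + 2 / y)]
        exact h1
      have h3 : 1 + Asum P (fun i => 1 / ((emb PP i : ℕ) : ℝ)) (Real.exp v) ≤
          B₁ + ∑ s ∈ S with Real.log (∏ i ∈ s, P i) ≤ v, ∏ i ∈ s, 1 / P i := by
        have h4 : 1 + Asum P (fun i => 1 / ((emb PP i : ℕ) : ℝ)) (Real.exp v) =
            ∑ s : Finset (Fin PP.card) with Real.log (∏ i ∈ s, P i) ≤ v, ∏ i ∈ s, 1 / P i := by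
          have e1 : (univ.filter (fun s : Finset (Fin PP.card) => Real.log (∏ i ∈ s, P i) ≤ v)) =
              insert ∅ (univ.filter (fun s : Finset (Fin PP.card) =>
                s.Nonempty ∧ ∏ i ∈ s, P i ≤ Real.exp v)) := by
            ext s
            rw [Finset.mem_insert, Finset.mem_filter, Finset.mem_filter,
              Real.log_le_iff_le_exp (hppos s)]
            constructor
            · intro hs
              rcases Finset.eq_empty_or_nonempty s with he | he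
              · exact Or.inl he
              · exact Or.inr ⟨hs.1, he, hs.2⟩
            · rintro (rfl | hs)
              · refine ⟨Finset.mem_univ _, ?_⟩
                rw [Finset.prod_empty]
                exact Real.one_le_exp (by linarith)
              · exact ⟨hs.1, hs.2.2⟩
          rw [e1, Finset.sum_insert (by simp), Finset.prod_empty]
          rfl
        rw [h4, ← Finset.sum_filter_add_sum_filter_not _
          (fun s : Finset (Fin PP.card) => Real.log (∏ i ∈ s, P i) < v₀)]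
        apply add_le_add
        · refine le_trans ?_ hB
          apply Finset.sum_le_sum_of_subset_of_nonneg
          · intro s hs
            rw [Finset.mem_filter, Finset.mem_filter] at hs
            rw [Finset.mem_filter]
            exact ⟨Finset.mem_univ _, hs.2⟩
          · intro s _ _
            exact (hgpos s).le
        · apply Finset.sum_le_sum_of_subset_of_nonneg
          · intro s hs
            rw [Finset.mem_filter, Finset.mem_filter] at hs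
            rw [Finset.mem_filter, hS, Finset.mem_filter]
            have h5 := not_lt.1 hs.2
            refine ⟨⟨Finset.mem_univ _, ⟨?_, h5⟩, ?_⟩, hs.1.2⟩
            · rw [Finset.nonempty_iff_ne_empty]
              rintro rfl
              simp at h5
              linarith
            · rw [← Real.log_le_log_iff (hppos s) hzpos]
              exact hs.1.2.trans hv2
          · intro s _ _
            exact (hgpos s).le
      have h5 : WW y / (1 + 2 / y) * v - B₁ ≤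
          ∑ s ∈ S with Real.log (∏ i ∈ s, P i) ≤ v, ∏ i ∈ s, 1 / P i := by linarith
      rw [← Finset.sum_div, le_div_iff₀ (by linarith)]
      refine le_trans (le_of_eq ?_) h5
      field_simp
  have h6 : WW y / (1 + 2 / y) * Real.log (Real.log z / v₀) - B₁ / v₀ =
      ((WW y / (1 + 2 / y) / B₁) * Real.log (Real.log z / v₀) - 1 / v₀) * B₁ := by
    field_simp
  have h7 : WW y / (1 + 2 / y) * Real.log (Real.log z / v₀) - B₁ / v₀ ≤
      ∑ s ∈ S, (∏ i ∈ s, 1 / P i) / Real.log (∏ i ∈ s, P i) := by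
    rw [h6]
    refine (mul_le_mul_of_nonneg_right hmain (by linarith)).trans (le_of_eq ?_)
    rw [Finset.sum_mul]
    refine Finset.sum_congr rfl fun s _ => ?_
    have : B₁ ≠ 0 := by linarith
    field_simp
  have h8 := Finset.sum_filter_add_sum_filter_not S (fun s : Finset (Fin PP.card) => s.card ≤ m₀)
    (fun s => (∏ i ∈ s, 1 / P i) / Real.log (∏ i ∈ s, P i))
  have h9 : ∑ s ∈ S with ¬ s.card ≤ m₀, (∏ i ∈ s, 1 / P i) / Real.log (∏ i ∈ s, P i) ≤
      Real.exp (3 * G₂ - m₀) / v₀ := by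
    calc ∑ s ∈ S with ¬ s.card ≤ m₀, (∏ i ∈ s, 1 / P i) / Real.log (∏ i ∈ s, P i)
        ≤ ∑ s ∈ S with ¬ s.card ≤ m₀, (∏ i ∈ s, 1 / P i) / v₀ := by
          apply Finset.sum_le_sum
          intro s hs
          have h10 := (Finset.mem_filter.1 (Finset.mem_filter.1 hs).1).2.1.2
          exact div_le_div_of_nonneg_left (hgpos s).le hv₀ h10
      _ = (∑ s ∈ S with ¬ s.card ≤ m₀, ∏ i ∈ s, 1 / P i) / v₀ := by rw [Finset.sum_div]
      _ ≤ (∑ s : Finset (Fin PP.card) with ¬ s.card ≤ m₀, ∏ i ∈ s, 1 / P i) / v₀ := by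
          apply div_le_div_of_nonneg_right _ hv₀.le
          apply Finset.sum_le_sum_of_subset_of_nonneg
          · intro s hs
            rw [Finset.mem_filter] at hs ⊢
            exact ⟨Finset.mem_univ _, hs.2⟩
          · intro s _ _
            exact (hgpos s).le
      _ ≤ _ := by
          apply div_le_div_of_nonneg_right _ hv₀.le
          exact loss_le (fun i => 1 / P i) (fun i => by have := hP0 i; positivity) m₀ G₂ hG
  have h10 : ∑ s ∈ S with s.card ≤ m₀, (∏ i ∈ s, 1 / P i) / Real.log (∏ i ∈ s, P i) =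
      ∑ s : Finset (Fin PP.card) with ((s.Nonempty ∧ v₀ ≤ Real.log (∏ i ∈ s, P i)) ∧
        ∏ i ∈ s, P i ≤ z) ∧ s.card ≤ m₀, (∏ i ∈ s, 1 / P i) / Real.log (∏ i ∈ s, P i) := by
    rw [hS, Finset.filter_filter]
  rw [← h10]
  linarith



theorem p_BA2 {ε L e Y c V : ℝ} (hε : 0 < ε) (hε4 : ε ≤ 1 / 4) (hL : 1 ≤ L) (he1 : 1 ≤ e) (hc : 0 < c)
    (hY : Y = L * Real.exp (-e) / e ^ 2) (hV0 : 0 < V) (hcV : c ≤ V * Y) (hec : 64 / (c * ε) ≤ e) :
    2 * (2 * e ^ 2) ≤ (1 - ε) * V * e * (L * Real.exp (-e)) := by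
  have he0 : 0 < e := by linarith
  have hYv : L * Real.exp (-e) = Y * e ^ 2 := by rw [hY]; field_simp
  rw [hYv]
  have h5 : 64 ≤ e * (c * ε) := by rw [div_le_iff₀ (by positivity)] at hec; exact hec
  have h6 : 64 ≤ e * c := by
    have : e * (c * ε) ≤ e * c := by
      have h7 : 0 ≤ e * c := by positivity
      nlinarith
    linarith
  have h7 : e * c ≤ e * (V * Y) := mul_le_mul_of_nonneg_left hcV he0.le
  have h8 : 4 ≤ (1 - ε) * (e * (V * Y)) := by nlinarith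
  have h9 := mul_le_mul_of_nonneg_right h8 (show 0 ≤ e ^ 2 by positivity)
  calc 2 * (2 * e ^ 2) = 4 * e ^ 2 := by ring
    _ ≤ (1 - ε) * (e * (V * Y)) * e ^ 2 := h9
    _ = _ := by ring

/-- the second block, general densities -/
theorem blk2_G (ε c C CR : ℝ) (hε : 0 < ε) (hε4 : ε ≤ 1 / 4) (hc : 0 < c)
    (hWb : ∀ y : ℝ, 2 ≤ y → c ≤ WW y * Real.log y ∧ WW y * Real.log y ≤ C)
    (hSR : ∀ a b : ℝ, 2 ≤ a → a ≤ b →
    ∑ p ∈ (Finset.Ioc ⌊a⌋₊ ⌊b⌋₊).filter Nat.Prime, (1 : ℝ) / p ≤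
      Real.log (Real.log b / Real.log a) + CR / Real.log a)
    (L e Y Z : ℝ) (hL : 1 ≤ L) (he1 : 1 ≤ e) (hY0 : 0 < Y) (hY : Y = L * Real.exp (-e) / e ^ 2)
    (hZ : Z = ε ^ 2 * L / (100 * e)) (hYZ : Y ≤ Z) (hvZ : L * Real.exp (-e) ≤ Z)
    (hlog1 : Real.log e ≤ e / 20) (hlog2 : Real.log (100 * e / ε ^ 2) ≤ ε / 4 * e)
    (hCR : CR / Y ≤ 1 / 2) (he1000 : 1000 ≤ e) (hK4 : 64 / (c * ε) ≤ e) (hY8 : 8 ≤ Y)
    (hYε : 64 / ε ≤ Y) (m₀ : ℕ) (hm₀ : 20 * e ≤ m₀)
    (g : Fin (PS (Real.exp Y) (Real.exp Z) ∅).card → ℝ) (hg0 : ∀ i, 0 < g i)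
    (hgle : ∀ i, g i ≤ 1 / ((emb (PS (Real.exp Y) (Real.exp Z) ∅) i : ℕ) : ℝ))
    (hglow : ∀ s : Finset (Fin (PS (Real.exp Y) (Real.exp Z) ∅).card),
      ∏ i ∈ s, ((emb (PS (Real.exp Y) (Real.exp Z) ∅) i : ℕ) : ℝ) ≤ Real.exp Z →
      1 / 2 * ∏ i ∈ s, 1 / ((emb (PS (Real.exp Y) (Real.exp Z) ∅) i : ℕ) : ℝ) ≤ ∏ i ∈ s, g i) :
    (∑ i, 1 / ((emb (PS (Real.exp Y) (Real.exp Z) ∅) i : ℕ) : ℝ) ≤ 11 / 10 * e) ∧
    ∃ h, HypS (fun i => ((emb (PS (Real.exp Y) (Real.exp Z) ∅) i : ℕ) : ℝ)) g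
      h (Real.exp Z) (2 / ((1 - ε) * WW (Real.exp Y) * e)) (L * Real.exp (-e)) ∧
        ∀ s, h s ≠ 0 → s.card ≤ m₀ := by
  have hL0 : 0 < L := by linarith only [hL]
  have he0 : 0 < e := by linarith only [he1]
  revert g
  set y : ℝ := Real.exp Y with hy
  set z : ℝ := Real.exp Z with hz
  intro g hg0 hgle hglow
  have hly : Real.log y = Y := Real.log_exp Y
  have hlz : Real.log z = Z := Real.log_exp Z
  have hyY : Y + 1 ≤ y := Real.add_one_le_exp Y
  have hyz : y ≤ z := Real.exp_le_exp.2 hYZ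
  have hy2 : 2 ≤ y := by linarith only [hY8, hyY]
  have hz1 : 1 < z := by linarith only [hy2, hyz]
  obtain ⟨hWy1, hWy2⟩ := hWb y hy2
  rw [hly] at hWy1 hWy2
  have hV0 := WW_pos y
  set V : ℝ := WW y with hV
  have hG₂ : ∑ i, 1 / ((emb (PS y z ∅) i : ℕ) : ℝ) ≤ 11 / 10 * e := by
    have h1 := sum_block CR hSR y z hy2 hyz
    rw [hly, hlz] at h1
    exact h1.trans (p_G2 hε hε4 hL0 he1 hY0 hY hZ hlog1 CR (by linarith only [hCR, he1000]))
  refine ⟨hG₂, ?_⟩
  set v₀ : ℝ := L * Real.exp (-e) with hv₀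
  have hv₀0 : 0 < v₀ := by positivity
  have hYv : v₀ = Y * e ^ 2 := by rw [hY]; field_simp
  have hB : ∑ s : Finset (Fin (PS y z ∅).card) with
      Real.log (∏ i ∈ s, ((emb (PS y z ∅) i : ℕ) : ℝ)) < v₀,
      ∏ i ∈ s, 1 / ((emb (PS y z ∅) i : ℕ) : ℝ) ≤ 2 * e ^ 2 := by
    refine (small_PS y z v₀ (by linarith only [hz1]) (by linarith only [hy2])).trans ?_
    have hyv : y ≤ Real.exp v₀ := by
      apply Real.exp_le_exp.2
      rw [hYv]
      exact q_Y hY0 he1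
    have h1 := hSR y (Real.exp v₀) hy2 hyv
    rw [Real.log_exp, hly] at h1
    have h2 : v₀ / Y = e ^ 2 := by rw [hYv]; field_simp
    rw [h2] at h1
    calc Real.exp (∑ p ∈ (Finset.Ioc ⌊y⌋₊ ⌊Real.exp v₀⌋₊).filter Nat.Prime, (1 : ℝ) / p)
        ≤ Real.exp (Real.log (e ^ 2) + 1 / 2) := Real.exp_le_exp.2 (by linarith only [h1, hCR])
      _ = e ^ 2 * Real.exp (1 / 2) := by rw [Real.exp_add, Real.exp_log (by positivity)]
      _ ≤ e ^ 2 * 2 := mul_le_mul_of_nonneg_left q_half (by positivity)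
      _ = 2 * e ^ 2 := by ring
  have hlgv : (1 - ε / 4) * e ≤ Real.log (Real.log z / v₀) := by
    rw [hlz]
    exact p_logZv hε hL0 he0 hZ hlog2
  have h1ε : 0 < 1 - ε := by linarith only [hε4]
  exact profG m₀ y z v₀ ((1 - ε) * V * e) (2 * e ^ 2) (11 / 10 * e) hy2
    hz1 hv₀0 (by rw [hlz]; exact hvZ) (by positivity) hB hG₂
    (p_A hε hε4 hL he1 hc hY hV0 hWy1 hK4 _ hlgv y (by linarith only [hYε, hyY]) m₀ hm₀)
    (p_BA2 hε hε4 hL he1 hc hY hV0 hWy1 hK4) g hg0 hgle hglow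


end Pool.Agent.T2h81.LD
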