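import Pool.Agent.T2h81.LD.G2
import Pool.Agent.Y961.JR.Abs

set_option autoImplicit false
set_option linter.unusedSectionVars false
set_option linter.unusedVariables false
set_option maxHeartbeats 4000000

/-! # The covering theorem with a count, abstract colourings, general densities -/

namespace Pool.Agent.T2h81.LD

open Finset Filter Pool.Agent.H256R2.SC Pool.Agent.Y831.RC Pool.Agent.T2h81.RF

open scoped Classical

/-- the densities of the uncovered part -/
theorem rho_le {n : ℕ} (P g : Fin n → ℝ) (L : ℝ) (hL : 1 ≤ L) (hP : ∀ i, 2 ≤ P i)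
    (hlow : ∀ i, 1 / P i * (1 - 1 / (2 * L)) ≤ g i) (hup : ∀ i, g i ≤ 1 / P i) :
    0 ≤ rho g 1 ∧ rho g 1 ≤ Real.exp (1 / L * ∑ i, 1 / P i) * rho (fun i => 1 / P i) 1 := by
  have hL0 : 0 < L := by linarith
  have hP0 : ∀ i, 0 < P i := fun i => by linarith [hP i]
  have hP2 : ∀ i, 1 / P i ≤ 1 / 2 := fun i => one_div_le_one_div_of_le (by norm_num) (hP i)
  have h0 : ∀ i, 0 ≤ 1 - ((1 : ℕ) : ℝ) * g i := by
    intro i
    push_cast
    linarith [hup i, hP2 i]
  refine ⟨Finset.prod_nonneg fun i _ => h0 i, ?_⟩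
  unfold rho
  have h1 : ∀ i, 1 - ((1 : ℕ) : ℝ) * g i ≤ Real.exp (1 / L * (1 / P i)) * (1 - ((1 : ℕ) : ℝ) * (1 / P i)) := by
    intro i
    push_cast
    have e1 := Real.add_one_le_exp (1 / L * (1 / P i))
    have e2 : 0 ≤ 1 - 1 * (1 / P i) := by linarith [hP2 i]
    refine le_trans ?_ (mul_le_mul_of_nonneg_right e1 e2)
    have e3 := hlow i
    have e4 : 1 / P i * (1 - 1 / (2 * L)) = 1 / P i - 1 / L * (1 / P i) * (1 / 2) := by
      field_simp
    rw [e4] at e3
    have e5 : 0 ≤ 1 / L * (1 / P i) := by have := hP0 i; positivity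
    have e6 : 1 / L * (1 / P i) * (1 / P i) ≤ 1 / L * (1 / P i) * (1 / 2) :=
      mul_le_mul_of_nonneg_left (hP2 i) e5
    nlinarith
  calc ∏ i, (1 - ((1 : ℕ) : ℝ) * g i) ≤
      ∏ i, (Real.exp (1 / L * (1 / P i)) * (1 - ((1 : ℕ) : ℝ) * (1 / P i))) :=
        Finset.prod_le_prod (fun i _ => h0 i) fun i _ => h1 i
    _ = _ := by
        rw [Finset.prod_mul_distrib, ← Real.exp_sum, ← Finset.mul_sum]

/-- products over a set of indices of bounded product -/
theorem prod_half {n : ℕ} (s : Finset (Fin n)) (P g : Fin n → ℝ) (L z : ℝ) (hL : 1 ≤ L)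
    (hP : ∀ i, Real.exp 1 ≤ P i) (hz : Real.log z ≤ L)
    (hlow : ∀ i, 1 / P i * (1 - 1 / (2 * L)) ≤ g i) (hs : ∏ i ∈ s, P i ≤ z) :
    1 / 2 * ∏ i ∈ s, 1 / P i ≤ ∏ i ∈ s, g i := by
  have hP0 : ∀ i, 0 < P i := fun i => (Real.exp_pos 1).trans_le (hP i)
  apply Pool.Agent.Y961.JR.prod_lower s P g L hL hP0 hlow
  have e1 : Real.exp (s.card : ℝ) ≤ ∏ i ∈ s, P i := by
    have : Real.exp (s.card : ℝ) = ∏ i ∈ s, Real.exp 1 := by
      rw [Finset.prod_const, ← Real.exp_nat_mul, mul_one]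
    rw [this]
    exact Finset.prod_le_prod (fun i _ => (Real.exp_pos _).le) fun i _ => hP i
  have e2 := e1.trans hs
  have hz0 : 0 < z := (Real.exp_pos _).trans_le e2
  rw [← Real.le_log_iff_exp_le hz0] at e2
  linarith

end Pool.Agent.T2h81.LD
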