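import Pool.Agent.T2h81.LD.G3

set_option autoImplicit false
set_option linter.unusedSectionVars false
set_option linter.unusedVariables false
set_option maxHeartbeats 4000000

/-! # The covering theorem with a count, abstract colourings: parameters -/

namespace Pool.Agent.T2h81.LD

open Finset Filter Pool.Agent.H256R2.SC Pool.Agent.Y831.RC Pool.Agent.T2h81.RF

open scoped Classical

theorem covG_at (c C CR C₁ K₀ M₀ : ℝ) (hc : 0 < c) (hC : 0 < C)
    (hC₁ : 0 < C₁) (hCR0 : 0 ≤ CR)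
    (hWb : ∀ y : ℝ, 2 ≤ y → c ≤ WW y * Real.log y ∧ WW y * Real.log y ≤ C)
    (hSR : ∀ a b : ℝ, 2 ≤ a → a ≤ b →
    ∑ p ∈ (Finset.Ioc ⌊a⌋₊ ⌊b⌋₊).filter Nat.Prime, (1 : ℝ) / p ≤
      Real.log (Real.log b / Real.log a) + CR / Real.log a)
    (hBH : ∀ (w y : ℝ) (b₀ : ℕ) (m τ : ℝ) (κ : Type) [Fintype κ]
    [DecidableEq κ], 2 ≤ w → C₁ ≤ Real.log w → w ≤ y → Even b₀ →
    2 * (Fintype.card κ : ℝ) ≤ w → 0 ≤ m → τ ≤ 1 → m * (1 / 3) ^ b₀ ≤ Real.exp (-130) * τ →
    ∀ g : Fin (PS w y ∅).card → ℝ, (∀ i, 0 ≤ g i) →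
    (∀ i, g i ≤ 1 / ((emb (PS w y ∅) i : ℕ) : ℝ)) →
    ∃ R : κ → Col (PS w y ∅).card κ → ℝ,
      BHyp g R m τ ∧
      ∀ k, Lw (Real.exp (Real.log y * (2 * b₀ + 4))) (R k))
    (hK1 : 6400 ≤ K₀) (hK4 : 512 / c ≤ K₀)
    (hM1 : 1600 ≤ M₀)
    (hM4 : Real.exp C₁ ≤ M₀) (hM5 : 2 * CR ≤ M₀)
    (L e : ℝ) (he1 : K₀ ≤ e) (he3 : K₀ * e ^ 3 ≤ Real.exp e) (helog : Real.log (K₀ * e) ≤ e / K₀)
    (he4 : 72 * C * e ^ 3 ≤ Real.exp e)
    (a1 : M₀ ≤ L) (a2 : 1 ≤ Real.log L) (a4 : Real.log L * M₀ ≤ L)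
    (heu : e ≤ 1 / 4 * Real.log L)
    (b1 : M₀ * Real.log L ≤ L * Real.exp (-e) / e ^ 2)
    (κ : Type) [Fintype κ] [DecidableEq κ]
    (hκ : (Fintype.card κ : ℝ) ≤ 1 / 32 * (e * L * WW (L ^ 6)))
    (g₀ : ℕ → ℝ) (hg₀ : ∀ p : ℕ, p.Prime → L ^ 6 < (p : ℝ) → (p : ℝ) ≤ Real.exp (L / (6400 * e)) →
      1 / (p : ℝ) * (1 - 1 / (2 * L)) ≤ g₀ p ∧ g₀ p ≤ 1 / (p : ℝ))
    (α : Type) (𝒜 : Finset α) (col : α → ℕ → Option κ) (N Err : ℝ) (hN : 0 < N) (hErr : 0 ≤ Err)
    (hErrN : Err * Real.exp L ≤ N)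
    (hcnt : ∀ S : Finset ℕ, (∀ p ∈ S, p.Prime ∧ L ^ 6 < (p : ℝ) ∧
      (p : ℝ) ≤ Real.exp (L / (6400 * e))) → ∀ D : ℕ → Option κ, (∀ p ∈ S, D p ≠ none) →
      |((𝒜.filter (fun x => ∀ p ∈ S, col x p = D p)).card : ℝ) - N * ∏ p ∈ S, g₀ p| ≤ Err) :
    3 / 8 * N ≤ ((𝒜.filter (fun x => ∀ k : κ, ∃ p : ℕ, p.Prime ∧ L ^ 6 < (p : ℝ) ∧
      (p : ℝ) ≤ Real.exp (L / (6400 * e)) ∧ col x p = some k)).card : ℝ) *
      Real.exp (e ^ 2 * Real.exp e) := by
  obtain ⟨t, ht⟩ : ∃ t : ℝ, t = 1 / 8 := ⟨_, rfl⟩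
  have ht0 : 0 < t := by rw [ht]; norm_num
  have ht8 : t ≤ 1 / 8 := ht.le
  have ht4 : t ≤ 1 / 4 := by linarith only [ht8]
  have he1000 : 1000 ≤ e := by linarith only [hK1, he1]
  have hK1' : 1000 ≤ K₀ := by linarith only [hK1]
  have he0 : 0 < e := by linarith only [he1000]
  have he1' : 1 ≤ e := by linarith only [he1000]
  have hK2 : 100 / t ^ 2 ≤ K₀ := by rw [ht]; norm_num; linarith only [hK1]
  have hK3 : 300 / t ≤ K₀ := by rw [ht]; norm_num; linarith only [hK1]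
  have hK4' : 64 / (c * t) ≤ K₀ := by
    have : 64 / (c * t) = 512 / c := by rw [ht]; field_simp; norm_num
    rw [this]; exact hK4
  have hM2 : 200 / t ≤ M₀ := by rw [ht]; norm_num; linarith only [hM1]
  set l : ℝ := Real.log L with hl
  have hL2 : 2 ≤ L := by linarith only [hM1, a1]
  have hL0 : 0 < L := by linarith only [hL2]
  have hL1 : 1 ≤ L := by linarith only [hL2]
  have hl0 : 0 ≤ l := by linarith only [a2]
  have hel : e ≤ l := by linarith only [hl0, heu]
  have hM8 : 8 ≤ M₀ := by linarith only [hM1]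
  have hM0 : 0 < M₀ := by linarith only [hM8]
  have hlL : l ≤ L := by
    have h1 : 8 * l ≤ M₀ * l := q_mul hM8 hl0
    linarith only [h1, a4, hl0]
  have hExpL4 : Real.exp (4 * e) ≤ L := by
    rw [← Real.exp_log hL0]
    exact Real.exp_le_exp.2 (by linarith only [heu])
  have hExpL : Real.exp e ≤ L := by
    refine le_trans (Real.exp_le_exp.2 ?_) hExpL4
    linarith only [he0]
  have he3' : e ^ 3 ≤ Real.exp e := q_cube hK1' he1' he3
  have he30 : 0 ≤ e ^ 3 := by positivity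
  have h12 : 12 * C * e ^ 3 ≤ Real.exp e := by
    have e1 : 0 ≤ C * e ^ 3 := by positivity
    linarith only [he4, e1]
  set Y : ℝ := L * Real.exp (-e) / e ^ 2 with hY
  set Z : ℝ := t ^ 2 * L / (100 * e) with hZ
  have hZ' : L / (6400 * e) = Z := by
    rw [hZ, ht]
    field_simp
    norm_num
  rw [hZ'] at hg₀ hcnt ⊢
  obtain ⟨hYZ, hvZ, hZ0, hY0, _, _⟩ := p_YZ ht0 ht4 hL0 (hK2.trans he1) he3' hY hZ
  have hYM : M₀ ≤ Y := by
    have : M₀ * 1 ≤ M₀ * l := mul_le_mul_of_nonneg_left a2 hM0.le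
    linarith only [this, b1]
  have hlog1 : Real.log e ≤ e / 20 := q_log1 hK1' he1' helog
  have hlog2 : Real.log (100 * e / t ^ 2) ≤ t / 4 * e := q_log2 ht0 hK1' he1' helog hK2 hK3
  have hCRY : CR / Y ≤ 1 / 2 := by
    rw [div_le_iff₀ hY0]
    linarith only [hM5, hYM]
  have h64 : 64 / t ≤ 200 / t := div_le_div_of_nonneg_right (by norm_num) ht0.le
  set m₀ : ℕ := ⌈20 * e⌉₊ with hm₀
  have hm₀1 : 20 * e ≤ m₀ := Nat.le_ceil _
  have hm₀2 : (m₀ : ℝ) < 20 * e + 1 := Nat.ceil_lt_add_one (by positivity)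
  set w : ℝ := L ^ 6 with hw
  have hLw : L ≤ w := by
    calc L = L ^ 1 := (pow_one L).symm
      _ ≤ L ^ 6 := pow_le_pow_right₀ hL1 (by norm_num)
  have hw2 : 2 ≤ w := hL2.trans hLw
  have hw1600 : 1600 ≤ w := by linarith only [hM1, a1, hLw]
  have hlw : Real.log w = 6 * l := by rw [hw, Real.log_pow]; push_cast; ring
  have hpowY : ∀ k : ℕ, (k : ℝ) ≤ 1600 → L ^ k ≤ Real.exp Y := by
    intro k hk
    refine p_pow hL1 k (le_trans (q_mul (hk.trans hM1) hl0) b1)
  have hwy : w ≤ Real.exp Y := hpowY 6 (by norm_num)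
  -- the two blocks and their densities
  have hYL : Y ≤ L := by
    rw [hY]
    have e1 : Real.exp (-e) ≤ 1 := Real.exp_le_one_iff.2 (by linarith only [he0])
    have e2 : 1 ≤ e ^ 2 := one_le_pow₀ he1'
    rw [div_le_iff₀ (by positivity)]
    have e3 : L * Real.exp (-e) ≤ L * 1 := mul_le_mul_of_nonneg_left e1 hL0.le
    have e4 : L * 1 ≤ L * e ^ 2 := mul_le_mul_of_nonneg_left e2 hL0.le
    linarith only [e3, e4]
  have hZL : Z ≤ L := by
    rw [← hZ']
    rw [div_le_iff₀ (by positivity)]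
    have : L * 1 ≤ L * (6400 * e) := mul_le_mul_of_nonneg_left (by linarith only [he1000]) hL0.le
    linarith only [this]
  have hexp3 : Real.exp 1 ≤ 1600 := by
    have := Real.exp_one_lt_d9
    linarith only [this]
  have hzZ0 : (0:ℝ) ≤ Real.exp Z := (Real.exp_pos Z).le
  have hyY0 : (0:ℝ) ≤ Real.exp Y := (Real.exp_pos Y).le
  have hYZe : Real.exp Y ≤ Real.exp Z := Real.exp_le_exp.2 hYZ
  have hm₁ : ∀ p ∈ PS w (Real.exp Y) ∅, p.Prime ∧ w < (p:ℝ) ∧ (p:ℝ) ≤ Real.exp Y :=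
    fun p hp => PS_mem hyY0 hp
  have hm₂ : ∀ p ∈ PS (Real.exp Y) (Real.exp Z) ∅, p.Prime ∧ Real.exp Y < (p:ℝ) ∧ (p:ℝ) ≤ Real.exp Z :=
    fun p hp => PS_mem hzZ0 hp
  have hb₁ : ∀ i, 1 / ((emb (PS w (Real.exp Y) ∅) i : ℕ) : ℝ) * (1 - 1 / (2 * L)) ≤
      g₀ (emb (PS w (Real.exp Y) ∅) i) ∧ g₀ (emb (PS w (Real.exp Y) ∅) i) ≤
      1 / ((emb (PS w (Real.exp Y) ∅) i : ℕ) : ℝ) := by
    intro i
    obtain ⟨h1, h2, h3⟩ := hm₁ _ (emb_mem _ i)
    exact hg₀ _ h1 h2 (h3.trans hYZe)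
  have hb₂ : ∀ i, 1 / ((emb (PS (Real.exp Y) (Real.exp Z) ∅) i : ℕ) : ℝ) * (1 - 1 / (2 * L)) ≤
      g₀ (emb (PS (Real.exp Y) (Real.exp Z) ∅) i) ∧ g₀ (emb (PS (Real.exp Y) (Real.exp Z) ∅) i) ≤
      1 / ((emb (PS (Real.exp Y) (Real.exp Z) ∅) i : ℕ) : ℝ) := by
    intro i
    obtain ⟨h1, h2, h3⟩ := hm₂ _ (emb_mem _ i)
    exact hg₀ _ h1 (lt_of_le_of_lt hwy h2) h3
  have h2L : 1 / (2 * L) < 1 := by rw [div_lt_one (by linarith only [hL0])]; linarith only [hL2]
  have hlowpos : ∀ x : ℝ, 0 < x → 0 < 1 / x * (1 - 1 / (2 * L)) := fun x hx =>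
    mul_pos (one_div_pos.2 hx) (by linarith only [h2L])
  have hP₁e : ∀ i, Real.exp 1 ≤ ((emb (PS w (Real.exp Y) ∅) i : ℕ) : ℝ) := by
    intro i
    obtain ⟨h1, h2, h3⟩ := hm₁ _ (emb_mem _ i)
    linarith only [h2, hw1600, hexp3]
  have hP₂e : ∀ i, Real.exp 1 ≤ ((emb (PS (Real.exp Y) (Real.exp Z) ∅) i : ℕ) : ℝ) := by
    intro i
    obtain ⟨h1, h2, h3⟩ := hm₂ _ (emb_mem _ i)
    linarith only [h2, hw1600, hexp3, hwy]
  have hP₁0 : ∀ i, 0 < ((emb (PS w (Real.exp Y) ∅) i : ℕ) : ℝ) := fun i =>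
    (Real.exp_pos 1).trans_le (hP₁e i)
  have hP0 : ∀ i, 0 < ((emb (PS (Real.exp Y) (Real.exp Z) ∅) i : ℕ) : ℝ) := fun i =>
    (Real.exp_pos 1).trans_le (hP₂e i)
  have hg1pos : ∀ i, 0 < g₀ (emb (PS w (Real.exp Y) ∅) i) := fun i =>
    (hlowpos _ (hP₁0 i)).trans_le (hb₁ i).1
  have hg2pos : ∀ i, 0 < g₀ (emb (PS (Real.exp Y) (Real.exp Z) ∅) i) := fun i =>
    (hlowpos _ (hP0 i)).trans_le (hb₂ i).1
  obtain ⟨hG₂, h, H, hcard⟩ := blk2_G t c C CR ht0 ht4 hc hWb hSR L e Y Z hL1 he1' hY0 hY hZ hYZ hvZ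
    hlog1 hlog2 hCRY he1000 (hK4'.trans he1) (hM8.trans hYM) (h64.trans (hM2.trans hYM)) m₀ hm₀1
    (fun i => g₀ (emb (PS (Real.exp Y) (Real.exp Z) ∅) i)) hg2pos (fun i => (hb₂ i).2) (by
      intro s hs
      exact prod_half s _ _ L (Real.exp Z) hL1 hP₂e (by rw [Real.log_exp]; exact hZL)
        (fun i => (hb₂ i).1) hs)
  set y : ℝ := Real.exp Y with hy
  set z : ℝ := Real.exp Z with hz
  have hly : Real.log y = Y := Real.log_exp Y
  have hlz : Real.log z = Z := Real.log_exp Z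
  have hyY : Y + 1 ≤ y := Real.add_one_le_exp Y
  have hyz : y ≤ z := Real.exp_le_exp.2 hYZ
  have hy9 : 9 ≤ y := by linarith only [hyY, hYM, hM8]
  have hy0 : 0 < y := by linarith only [hy9]
  have hz1 : 1 < z := by linarith only [hy9, hyz]
  have hw0 : 0 < w := by linarith only [hw2]
  -- Mertens
  obtain ⟨hWw1, hWw2⟩ := hWb w hw2
  obtain ⟨hWy1, hWy2⟩ := hWb y (by linarith only [hy9])
  rw [hlw] at hWw1 hWw2
  rw [hly] at hWy1 hWy2
  have hV0 := WW_pos y
  have hW0 := WW_pos w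
  have hW1 := WW_le_one w
  set V : ℝ := WW y with hV
  set W : ℝ := WW w with hW
  set u : ℝ := 1 / 8 * (e * L * W) with hu
  have hu0 : 0 ≤ u := by positivity
  have hut : u ≤ (1 / 2 - 3 * t) * (e * L * W) := by rw [hu, ht]; norm_num
  have hu2 : u ≤ L ^ 2 / 2 := p_u2 hL2 hlL he0.le hel hW0 hW1 ht0 u hut
  obtain ⟨hlam0, hlam1, hlam2⟩ := p_lam ht0 ht4 hL1 he1' hV0 hW0 hWy2 hY u hu0 hut
  have hL26 : L ^ 2 ≤ w := by rw [hw]; exact pow_le_pow_right₀ hL1 (by norm_num)
  have huw : 2 * u ≤ w := by linarith only [hu2, hL26]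
  set uk : ℝ := (Fintype.card κ : ℝ) with huk
  have huk0 : 0 ≤ uk := Nat.cast_nonneg _
  have huk4 : uk ≤ u / 4 := by rw [hu]; linarith only [hκ]
  have huku : uk ≤ u := by linarith only [huk4, hu0]
  set v₀ : ℝ := L * Real.exp (-e) with hv₀
  have hv₀0 : 0 < v₀ := by positivity
  -- the parameters
  set J : ℕ := 2 * ⌈15 * e⌉₊ with hJ
  have hJe : Even J := even_two_mul _
  have hJ1 : 30 * e ≤ J := by
    have := Nat.le_ceil (15 * e)
    rw [hJ]; push_cast; linarith only [this]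
  have hJ2 : (J:ℝ) ≤ 30 * e + 2 := by
    have := (Nat.ceil_lt_add_one (show 0 ≤ 15 * e by positivity)).le
    rw [hJ]; push_cast; linarith only [this]
  have hm₀J : m₀ ≤ J := by
    have : (m₀:ℝ) ≤ J := by linarith only [hm₀2, hJ1, he1000]
    exact_mod_cast this
  set b₀ : ℕ := 2 * ⌈2 * e⌉₊ with hb₀
  have hb₀e : Even b₀ := even_two_mul _
  have hb₀1 : 4 * e ≤ b₀ := by
    have := Nat.le_ceil (2 * e)
    rw [hb₀]; push_cast; linarith only [this]
  have hb₀2 : (b₀:ℝ) ≤ 4 * e + 2 := by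
    have := (Nat.ceil_lt_add_one (show 0 ≤ 2 * e by positivity)).le
    rw [hb₀]; push_cast; linarith only [this]
  set Q : ℝ := Real.exp ((1 / 2 - t) * L) with hQ
  have hlQ : Real.log Q = (1 / 2 - t) * L := Real.log_exp _
  have hhalf : 0 ≤ 1 / 2 - t := by linarith only [ht4]
  have hlQ0 : 0 ≤ (1 / 2 - t) * L := mul_nonneg hhalf hL0.le
  have hQ1 : 1 ≤ Q := Real.one_le_exp hlQ0
  set r : ℕ := ⌈Real.log Q / v₀⌉₊ with hr
  have hr1 : Real.log Q / v₀ ≤ r := Nat.le_ceil _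
  have hrv : Real.log Q / v₀ ≤ Real.exp e / 2 := by
    rw [hlQ, hv₀]
    exact q_rv ht0 hL0
  have hexp1000 : 1001 ≤ Real.exp e := by
    have := Real.add_one_le_exp e
    linarith only [this, he1000]
  have hr2 : (r:ℝ) ≤ Real.exp e / 2 + 1 := by
    have := (Nat.ceil_lt_add_one (show 0 ≤ Real.log Q / v₀ by
      apply div_nonneg _ hv₀0.le
      rw [hlQ]
      exact hlQ0)).le
    linarith only [this, hrv]
  have hrm : (r:ℝ) + 1 ≤ Real.exp e := by linarith only [hr2, hexp1000]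
  have hre : (r:ℝ) ≤ Real.exp e := by linarith only [hrm]
  have hC1l : C₁ ≤ l := by
    rw [hl, Real.le_log_iff_exp_le hL0]
    exact hM4.trans a1
  -- the first block
  set g₁ : Fin (PS w y ∅).card → ℝ := fun i => g₀ (emb (PS w y ∅) i) with hg₁
  set g₂ : Fin (PS y z ∅).card → ℝ := fun i => g₀ (emb (PS y z ∅) i) with hg₂
  obtain ⟨R, HR, hRL⟩ := hBH w y b₀ (Real.exp e) (Real.exp (-(2 * e))) κ hw2
    (by rw [hlw]; linarith only [hC1l, hl0]) hwy hb₀e (by linarith only [huw, huku])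
    (Real.exp_pos e).le
    (by rw [Real.exp_le_one_iff]; linarith only [he0]) (q_τ he1000 b₀ hb₀1) g₁
    (fun i => (hg1pos i).le) (fun i => (hb₁ i).2)
  -- the density of the first block
  set ρ : ℝ := rho g₁ 1 with hρ
  have hρb : 0 ≤ ρ ∧ ρ ≤ 2 * (V / W) := by
    obtain ⟨e1, e2⟩ := rho_le (fun i => ((emb (PS w y ∅) i : ℕ) : ℝ)) g₁ L hL1
      (fun i => by
        have h1 := hP₁e i
        have h2 := (hm₁ _ (emb_mem _ i)).2.1
        linarith only [h2, hw1600]) (fun i => (hb₁ i).1) (fun i => (hb₁ i).2)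
    refine ⟨e1, e2.trans ?_⟩
    rw [rho_PS w y hw2 hwy]
    have e3 : Real.exp (1 / L * ∑ i, 1 / ((emb (PS w y ∅) i : ℕ) : ℝ)) ≤ 2 := by
      refine le_trans (Real.exp_le_exp.2 ?_) q_half
      have h1 := sum_block CR hSR w y hw2 hwy
      rw [hlw, hly] at h1
      have h2 : Real.log (Y / (6 * l)) ≤ l := by
        rw [hl]
        apply Real.log_le_log
        · positivity
        · rw [div_le_iff₀ (by positivity)]
          have : L * 1 ≤ L * (6 * l) := mul_le_mul_of_nonneg_left (by linarith only [a2]) hL0.le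
          linarith only [hYL, this]
      have h3 : CR / (6 * l) ≤ L / 8 := by
        rw [div_le_iff₀ (by positivity)]
        have h4 : CR ≤ L / 2 := by linarith only [hM5, a1]
        have h5 : L / 8 * 6 ≤ L / 8 * (6 * l) := mul_le_mul_of_nonneg_left (by linarith only [a2])
          (by positivity)
        linarith only [h4, h5, hL0]
      have h4 : l ≤ L / 8 := by
        have h5 : 8 * l ≤ M₀ * l := q_mul hM8 hl0
        linarith only [h5, a4]
      rw [one_div_mul_eq_div, div_le_iff₀ hL0]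
      linarith only [h1, h2, h3, h4, hL0]
    exact mul_le_mul_of_nonneg_right e3 (by positivity)
  obtain ⟨hρ0, hρ2⟩ := hρb
  have hlamk : uk * ρ ≤ u * (V / W) / 2 := by
    calc uk * ρ ≤ (u / 4) * (2 * (V / W)) := mul_le_mul huk4 hρ2 hρ0 (by positivity)
      _ = u * (V / W) / 2 := by ring
  have hlamk1 : uk * ρ ≤ u * (V / W) := by linarith only [hlamk, hlam0]
  have hlamk0 : 0 ≤ uk * ρ := by positivity
  have hQz : Real.log (Q / z) = (1 / 2 - t) * L - Z := by
    rw [Real.log_div (Real.exp_pos _).ne' (Real.exp_pos _).ne', hlQ, hlz]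
  have h1t : 0 < 1 - t := by linarith only [ht4]
  have hVe : 0 < (1 - t) * V * e := by positivity
  have hEE : Real.exp (t * ((1 + t) * uk * (ρ * (2 / ((1 - t) * V * e))) / Real.log z -
      Real.log (Q / z) / Real.log z)) ≤ Real.exp (-(20 * e)) := by
    apply Real.exp_le_exp.2
    rw [hlz, hQz]
    have h1 := p_exp ht0 ht4 hL1 he1' hV0 hZ (u * (V / W)) hlam1
    refine le_trans ?_ h1
    apply mul_le_mul_of_nonneg_left _ ht0.le
    apply sub_le_sub_right
    apply div_le_div_of_nonneg_right _ hZ0.le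
    have h2 : (1 + t) * uk * (ρ * (2 / ((1 - t) * V * e))) =
        (1 + t) * ((uk * ρ) * 2 * (1 / ((1 - t) * V * e))) := by ring
    rw [h2]
    apply mul_le_mul_of_nonneg_left _ (by linarith only [ht0])
    apply mul_le_mul_of_nonneg_right _ (by positivity)
    linarith only [hlamk]
  have c1 : 2 * (Real.log Q / Real.log y) / y ≤ 1 / L ^ 4 := by
    rw [hlQ, hly]
    exact p_δ ht0 ht4 hL2 (by linarith only [hM8, hYM])
      ((q_mul (by linarith only [hM8]) hl0).trans b1)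
  have c3 : (Real.exp ((1 / 2 - t) * L)) ^ (1 + t / 16) *
      Real.exp (2 * u * ((Real.exp Y) ^ (1 - (1 + t / 16)) * (11 / 10 * e))) ≤
      Real.exp ((1 / 2 - t) * (1 + t / 16) * L + 1) :=
    p_CB ht0 hL2 a2 hlL he0.le hel u hu0 hu2
      ((q_mul ((div_le_div_of_nonneg_right (by norm_num) ht0.le).trans hM2) hl0).trans b1)
  have c4 : 200 / t * Real.log L ≤ L :=
    (q_mul hM2 hl0).trans (by rw [mul_comm]; exact a4)
  have c5 := p_AB ht0 ht4 hL2 a2 c4 (hK3.trans he1) (by linarith only [he1000]) hY hZ u hu0 hu2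
    b₀ J r hb₀2 hJ2 hre _ le_rfl
  have hΛ : 1 ≤ Real.exp (Y * (2 * b₀ + 4)) := Real.one_le_exp (by positivity)
  have hRL' : ∀ k, Lw (Real.exp (Y * (2 * b₀ + 4))) (R k) := by
    intro k
    have := hRL k
    rw [hly] at this
    exact this
  -- sizes
  have hlogy : 0 < Real.log y := by rw [hly]; exact hY0
  have hPy : ∀ i, y < ((emb (PS y z ∅) i : ℕ) : ℝ) := fun i => (hm₂ _ (emb_mem _ i)).2.1
  have hPw : ∀ i, w < ((emb (PS w y ∅) i : ℕ) : ℝ) := fun i => (hm₁ _ (emb_mem _ i)).2.1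
  have hgy : ∀ i, g₂ i ≤ 1 / y := fun i =>
    (hb₂ i).2.trans (one_div_le_one_div_of_le hy0 (hPy i).le)
  have h9 : (1:ℝ) / y ≤ 1 / 9 := one_div_le_one_div_of_le (by norm_num) hy9
  have hδ : ∀ D : Col (PS y z ∅).card κ, qq (fun i => ((emb (PS y z ∅) i : ℕ) : ℝ)) D ≤ Q →
      2 * ∑ i with D i ≠ none, g₂ i ≤ 1 / L ^ 4 := by
    intro D hD
    have h1 : Real.exp (((Pool.Agent.H256R2.SC.supp D).card : ℝ) * Real.log y) ≤
        qq (fun i => ((emb (PS y z ∅) i : ℕ) : ℝ)) D := by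
      unfold qq
      rw [prod_nu1]
      have : Real.exp (((Pool.Agent.H256R2.SC.supp D).card : ℝ) * Real.log y) =
          ∏ i ∈ Pool.Agent.H256R2.SC.supp D, Real.exp (Real.log y) := by
        rw [Finset.prod_const, ← Real.exp_nat_mul]
      rw [this]
      apply Finset.prod_le_prod
      · intro i _; exact (Real.exp_pos _).le
      · intro i _
        rw [Real.exp_log hy0]
        exact (hPy i).le
    have h2 := h1.trans hD
    have h3 : ((Pool.Agent.H256R2.SC.supp D).card : ℝ) * Real.log y ≤ Real.log Q := by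
      rw [Real.le_log_iff_exp_le (by linarith only [hQ1])]
      exact h2
    have h4 : ((Pool.Agent.H256R2.SC.supp D).card : ℝ) ≤ Real.log Q / Real.log y := by
      rw [le_div_iff₀ hlogy]
      exact h3
    have h5 : ∑ i with D i ≠ none, g₂ i ≤
        (Pool.Agent.H256R2.SC.supp D).card * (1 / y) := by
      have : ∑ i ∈ Pool.Agent.H256R2.SC.supp D, g₂ i ≤
          ∑ i ∈ Pool.Agent.H256R2.SC.supp D, (1 / y) :=
        Finset.sum_le_sum (fun i _ => hgy i)
      rw [Finset.sum_const, nsmul_eq_mul] at this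
      exact this
    refine le_trans ?_ c1
    calc 2 * ∑ i with D i ≠ none, g₂ i ≤
          2 * ((Pool.Agent.H256R2.SC.supp D).card * (1 / y)) :=
          mul_le_mul_of_nonneg_left h5 (by norm_num)
      _ ≤ 2 * (Real.log Q / Real.log y * (1 / y)) := by
          apply mul_le_mul_of_nonneg_left _ (by norm_num)
          exact mul_le_mul_of_nonneg_right h4 (by positivity)
      _ = 2 * (Real.log Q / Real.log y) / y := by ring
  have hGle : ∑ i, g₂ i ≤ 11 / 10 * e :=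
    (Finset.sum_le_sum fun i _ => (hb₂ i).2).trans hG₂
  have hGle0 : 0 ≤ ∑ i, g₂ i := Finset.sum_nonneg fun i _ => (hg2pos i).le
  have hCBk : Q ^ (1 + t / 16) * Real.exp (2 * (Fintype.card κ : ℝ) *
      ∑ i, 1 / ((emb (PS y z ∅) i : ℕ) : ℝ) ^ (1 + t / 16)) ≤
      Real.exp ((1 / 2 - t) * (1 + t / 16) * L + 1) := by
    refine le_trans ?_ c3
    apply mul_le_mul_of_nonneg_left _ (Real.rpow_nonneg (by linarith only [hQ1]) _)
    apply Real.exp_le_exp.2
    have e0 : ∑ i, 1 / ((emb (PS y z ∅) i : ℕ) : ℝ) ^ (1 + t / 16) ≤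
        y ^ (1 - (1 + t / 16)) * (11 / 10 * e) := by
      calc ∑ i, 1 / ((emb (PS y z ∅) i : ℕ) : ℝ) ^ (1 + t / 16) ≤
          ∑ i, y ^ (1 - (1 + t / 16)) * (1 / ((emb (PS y z ∅) i : ℕ) : ℝ)) := by
            apply Finset.sum_le_sum
            intro i _
            have e1 : 1 / ((emb (PS y z ∅) i : ℕ) : ℝ) ^ (1 + t / 16) =
                ((emb (PS y z ∅) i : ℕ) : ℝ) ^ (1 - (1 + t / 16)) *
                (1 / ((emb (PS y z ∅) i : ℕ) : ℝ)) := by
              rw [Real.rpow_sub (hP0 i), Real.rpow_one]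
              have := (hP0 i).ne'
              field_simp
            rw [e1]
            have := hP0 i
            apply mul_le_mul_of_nonneg_right _ (by positivity)
            exact Real.rpow_le_rpow_of_nonpos hy0 (hPy i).le (by linarith only [ht0])
        _ = y ^ (1 - (1 + t / 16)) * ∑ i, 1 / ((emb (PS y z ∅) i : ℕ) : ℝ) := by rw [Finset.mul_sum]
        _ ≤ y ^ (1 - (1 + t / 16)) * (11 / 10 * e) :=
            mul_le_mul_of_nonneg_left hG₂ (Real.rpow_nonneg hy0.le _)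
    have e1 : 0 ≤ y ^ (1 - (1 + t / 16)) * (11 / 10 * e) :=
      mul_nonneg (Real.rpow_nonneg hy0.le _) (by positivity)
    calc 2 * (Fintype.card κ : ℝ) * ∑ i, 1 / ((emb (PS y z ∅) i : ℕ) : ℝ) ^ (1 + t / 16) ≤
        2 * (Fintype.card κ : ℝ) * (y ^ (1 - (1 + t / 16)) * (11 / 10 * e)) :=
          mul_le_mul_of_nonneg_left e0 (by positivity)
      _ ≤ 2 * u * (y ^ (1 - (1 + t / 16)) * (11 / 10 * e)) :=
          mul_le_mul_of_nonneg_right (by linarith only [huku, huk]) e1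
  have hnu : ∀ D : Col ((PS w y ∅).card + (PS y z ∅).card) κ,
      |((𝒜.filter (fun a => ∀ i, D i ≠ none →
        (Fin.append (fun i => col a (emb (PS w y ∅) i)) (fun i => col a (emb (PS y z ∅) i)) :
          Col ((PS w y ∅).card + (PS y z ∅).card) κ) i = D i)).card : ℝ) -
        N * nu (Fin.append g₁ g₂) D| ≤ Err := by
    intro D
    set P : Fin ((PS w y ∅).card + (PS y z ∅).card) → ℕ :=
      Fin.append (fun i => emb (PS w y ∅) i) (fun i => emb (PS y z ∅) i) with hP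
    have hPinj : Function.Injective P := by
      intro i j
      refine Fin.addCases (fun i' => ?_) (fun i' => ?_) i <;>
        refine Fin.addCases (fun j' => ?_) (fun j' => ?_) j
      · rw [hP, Fin.append_left, Fin.append_left]
        intro h
        rw [(emb (PS w y ∅)).injective h]
      · rw [hP, Fin.append_left, Fin.append_right]
        intro h
        have h1 := (hm₁ _ (emb_mem _ i')).2.2
        have h2 := (hm₂ _ (emb_mem _ j')).2.1
        rw [h] at h1
        exact absurd h1 (not_le.2 h2)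
      · rw [hP, Fin.append_left, Fin.append_right]
        intro h
        have h1 := (hm₁ _ (emb_mem _ j')).2.2
        have h2 := (hm₂ _ (emb_mem _ i')).2.1
        rw [← h] at h1
        exact absurd h1 (not_le.2 h2)
      · rw [hP, Fin.append_right, Fin.append_right]
        intro h
        rw [(emb (PS y z ∅)).injective h]
    have hPcol : ∀ a i, (Fin.append (fun i => col a (emb (PS w y ∅) i))
        (fun i => col a (emb (PS y z ∅) i)) : Col ((PS w y ∅).card + (PS y z ∅).card) κ) i =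
        col a (P i) := by
      intro a i
      refine Fin.addCases (fun i' => ?_) (fun i' => ?_) i
      · rw [hP, Fin.append_left, Fin.append_left]
      · rw [hP, Fin.append_right, Fin.append_right]
    have hPg : ∀ i, Fin.append g₁ g₂ i = g₀ (P i) := by
      intro i
      refine Fin.addCases (fun i' => ?_) (fun i' => ?_) i
      · rw [hP, Fin.append_left, Fin.append_left]
      · rw [hP, Fin.append_right, Fin.append_right]
    have hPm : ∀ i, (P i).Prime ∧ w < ((P i : ℕ) : ℝ) ∧ ((P i : ℕ) : ℝ) ≤ z := by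
      intro i
      refine Fin.addCases (fun i' => ?_) (fun i' => ?_) i
      · rw [hP, Fin.append_left]
        obtain ⟨h1, h2, h3⟩ := hm₁ _ (emb_mem _ i')
        exact ⟨h1, h2, h3.trans hyz⟩
      · rw [hP, Fin.append_right]
        obtain ⟨h1, h2, h3⟩ := hm₂ _ (emb_mem _ i')
        exact ⟨h1, lt_of_le_of_lt hwy h2, h3⟩
    set D₀ : ℕ → Option κ := fun p => if h : ∃ i, P i = p then D h.choose else none with hD₀
    have hD₀' : ∀ i, D₀ (P i) = D i := by
      intro i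
      have h1 : ∃ j, P j = P i := ⟨i, rfl⟩
      have h2 : D₀ (P i) = D h1.choose := dif_pos h1
      rw [h2, hPinj h1.choose_spec]
    set S : Finset ℕ := (Pool.Agent.H256R2.SC.supp D).image P with hS
    have h1 : (𝒜.filter (fun a => ∀ i, D i ≠ none →
        (Fin.append (fun i => col a (emb (PS w y ∅) i)) (fun i => col a (emb (PS y z ∅) i)) :
          Col ((PS w y ∅).card + (PS y z ∅).card) κ) i = D i)) =
        𝒜.filter (fun a => ∀ p ∈ S, col a p = D₀ p) := by
      apply Finset.filter_congr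
      intro a _
      constructor
      · intro h p hp
        obtain ⟨i, hi, rfl⟩ := Finset.mem_image.mp hp
        rw [hD₀', ← hPcol]
        exact h i (mem_supp.mp hi)
      · intro h i hi
        have := h (P i) (Finset.mem_image_of_mem _ (mem_supp.mpr hi))
        rw [hD₀'] at this
        rw [hPcol]
        exact this
    rw [h1]
    have h2 : nu (Fin.append g₁ g₂) D = ∏ p ∈ S, g₀ p := by
      unfold nu
      rw [prod_nu1, hS, Finset.prod_image (fun i _ j _ h => hPinj h)]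
      exact Finset.prod_congr rfl fun i _ => hPg i
    rw [h2]
    apply hcnt S
    · intro p hp
      obtain ⟨i, hi, rfl⟩ := Finset.mem_image.mp hp
      exact hPm i
    · intro p hp
      obtain ⟨i, hi, rfl⟩ := Finset.mem_image.mp hp
      rw [hD₀']
      exact mem_supp.mp hi
  have hn2 : ((PS y z ∅).card:ℝ) + 1 ≤ z := card_PS y z hz1.le
  have hfin : Err * ((Real.exp (Y * (2 * b₀ + 4)) ^ r *
      Real.exp ((1 / 2 - t) * (1 + t / 16) * L + 1)) ^ 2 *
      (1 + Fintype.card κ * (Real.exp (Y * (2 * b₀ + 4)) * ((((PS y z ∅).card:ℝ) + 1) ^ J + 1)))) <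
      N / 8 := by
    have hn0 : (0:ℝ) ≤ ((PS y z ∅).card:ℝ) + 1 := by positivity
    have e3 := pow_le_pow_left₀ hn0 hn2 J
    have e4 : Real.exp (Y * (2 * b₀ + 4)) * ((((PS y z ∅).card:ℝ) + 1) ^ J + 1) ≤
        Real.exp (Y * (2 * b₀ + 4)) * (z ^ J + 1) :=
      mul_le_mul_of_nonneg_left (by linarith only [e3]) (by linarith only [hΛ])
    have e5 : (Fintype.card κ : ℝ) * (Real.exp (Y * (2 * b₀ + 4)) *
        ((((PS y z ∅).card:ℝ) + 1) ^ J + 1)) ≤ u * (Real.exp (Y * (2 * b₀ + 4)) * (z ^ J + 1)) :=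
      mul_le_mul huku e4 (by positivity) hu0
    have e6 : (Real.exp (Y * (2 * b₀ + 4)) ^ r *
      Real.exp ((1 / 2 - t) * (1 + t / 16) * L + 1)) ^ 2 *
      (1 + Fintype.card κ * (Real.exp (Y * (2 * b₀ + 4)) * ((((PS y z ∅).card:ℝ) + 1) ^ J + 1))) ≤
        Real.exp ((1 - t) * L) / 8 := by
      refine le_trans ?_ c5.le
      apply mul_le_mul_of_nonneg_left (by linarith only [e5]) (by positivity)
    have e7 := mul_le_mul_of_nonneg_left e6 hErr
    have e8 : Err * (Real.exp ((1 - t) * L) / 8) < N / 8 := by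
      have e9 : Real.exp ((1 - t) * L) * Real.exp (t * L) = Real.exp L := by
        rw [← Real.exp_add]; congr 1; ring
      have e10 : 1 < Real.exp (t * L) := Real.one_lt_exp_iff.2 (by positivity)
      rcases hErr.eq_or_lt with h0 | h0
      · rw [← h0]
        simp only [zero_mul]
        positivity
      · have e11 : Err * Real.exp ((1 - t) * L) < Err * Real.exp L := by
          apply mul_lt_mul_of_pos_left _ h0
          apply Real.exp_lt_exp.2
          have := mul_pos ht0 hL0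
          linarith only [this]
        linarith only [e11, hErrN]
    linarith only [e7, e8]
  have hmain := core5 (κ := κ) 𝒜
    (fun a => (Fin.append (fun i => col a (emb (PS w y ∅) i)) (fun i => col a (emb (PS y z ∅) i)) :
          Col ((PS w y ∅).card + (PS y z ∅).card) κ))
    H g₁ R (Real.exp e) (Real.exp (-(2 * e))) HR (Real.exp_pos _).le
    (by rw [Real.exp_le_one_iff]; linarith only [he0]) (Real.exp (Y * (2 * b₀ + 4))) hΛ hRL'
    Q (1 / L ^ 4) N Err t (1 + t / 16) (Real.exp ((1 / 2 - t) * (1 + t / 16) * L + 1))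
    (Real.exp (24 * e)) J m₀ r hJe hm₀J hN hErr hQ1 ht0 (by linarith only [ht4])
    (by linarith only [ht0]) (fun i => (hg1pos i).le)
    (fun i => by
      refine (mul_le_mul_of_nonneg_left (hb₁ i).2 huk0).trans ?_
      rw [mul_one_div, div_le_div_iff₀ (hP₁0 i) (by norm_num)]
      have := (hPw i).le
      linarith only [this, huw, huku])
    hρ0 (fun i => (hgy i).trans (by linarith only [h9]))
    (fun i => by have := hgy i; linarith only [this, h9])
    (fun i => by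
      refine (mul_le_mul_of_nonneg_left (hgy i) huk0).trans ?_
      rw [mul_one_div, div_le_one hy0]
      linarith only [huku, huw, hwy, hu0])
    hδ
    (by
      have h1 : uk * (1 / L ^ 4) ≤ u * (1 / L ^ 4) :=
        mul_le_mul_of_nonneg_right huku (by positivity)
      exact h1.trans (p_uδ hL2 u hu2))
    hr1 hrm (Real.one_le_exp (by positivity)) hcard hCBk
    (q_E8 he1' hEE)
    (by
      have h1 := p_tail he1' hC.le he4 (u * (V / W)) hlam0 hlam2 hExpL _ hEE
      refine le_trans ?_ h1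
      apply mul_le_mul_of_nonneg_right _ (by positivity)
      linarith only [hlamk1])
    (by
      have h1 := p_mom he1' hC.le h12 (u * (V / W)) hlam0 hlam2 J hJ1
      refine le_trans ?_ h1
      apply mul_le_mul (by linarith only [hlamk1]) _ (by positivity) (by positivity)
      apply mul_le_mul_of_nonneg_left _ (by positivity)
      exact Real.exp_le_exp.2 (by linarith only [hGle]))
    (by
      have h1 := p_pen he1' hC.le h12 (u * (V / W)) hlam0 hlam2
      refine le_trans ?_ h1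
      apply mul_le_mul (by linarith only [hlamk1]) _ (by positivity) (by positivity)
      exact Real.exp_le_exp.2 (by linarith only [hGle]))
    hnu hfin
  refine hmain.trans ?_
  have hA1 : ((𝒜.filter (fun a => ∀ k, ∃ i,
      (Fin.append (fun i => col a (emb (PS w y ∅) i)) (fun i => col a (emb (PS y z ∅) i)) :
          Col ((PS w y ∅).card + (PS y z ∅).card) κ) i = some k)).card : ℝ) ≤
      ((𝒜.filter (fun x => ∀ k : κ, ∃ p : ℕ, p.Prime ∧ w < (p : ℝ) ∧
      (p : ℝ) ≤ z ∧ col x p = some k)).card : ℝ) := by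
    rw [Nat.cast_le]
    apply Finset.card_le_card
    intro a ha
    rw [Finset.mem_filter] at ha ⊢
    refine ⟨ha.1, fun k => ?_⟩
    obtain ⟨i, hi⟩ := ha.2 k
    revert hi
    refine Fin.addCases (fun j hj => ?_) (fun j hj => ?_) i
    · rw [Fin.append_left] at hj
      have h2 := hm₁ _ (emb_mem (PS w y ∅) j)
      exact ⟨emb (PS w y ∅) j, h2.1, h2.2.1, h2.2.2.trans hyz, hj⟩
    · rw [Fin.append_right] at hj
      have h2 := hm₂ _ (emb_mem (PS y z ∅) j)
      exact ⟨emb (PS y z ∅) j, h2.1, lt_of_le_of_lt hwy h2.2.1, h2.2.2, hj⟩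
  apply mul_le_mul hA1 _ (by positivity) (Nat.cast_nonneg _)
  refine le_trans ?_ (p_loss K₀ hK1' he1000 helog J r hJ2 hre)
  have hR20 : 0 ≤ Real.exp (24 * e) + 1 := by positivity
  apply pow_le_pow_left₀ (by positivity)
  apply mul_le_mul_of_nonneg_left _ (by norm_num)
  apply pow_le_pow_left₀ (by positivity)
  have h5 : Real.exp (∑ i, g₂ i) ≤ Real.exp (11 / 10 * e) := Real.exp_le_exp.2 hGle
  have h6 : 0 ≤ ((J : ℝ) + 2) ^ (2 * J) * (Real.exp (24 * e) + 1) := by positivity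
  have h7 := mul_le_mul_of_nonneg_right h5 h6
  linarith only [h7]

end Pool.Agent.T2h81.LD
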