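import Pool.Agent.T2h81.LD.G4

set_option autoImplicit false
set_option linter.unusedSectionVars false
set_option linter.unusedVariables false
set_option maxHeartbeats 4000000

/-! # The covering theorem with a count, abstract colourings -/

namespace Pool.Agent.T2h81.LD

open Finset Filter Pool.Agent.H256R2.SC Pool.Agent.Y831.RC Pool.Agent.T2h81.RF

open scoped Classical

theorem ev_e2 (C : ℝ) (hC : 0 < C) : ∃ e₁ : ℝ, ∀ e : ℝ, e₁ ≤ e →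
    72 * C * e ^ 3 ≤ Real.exp (e / 2) := by
  have h := (Real.isLittleO_pow_exp_atTop (n := 3)).def
    (show (0:ℝ) < 1 / (72 * C * 8) by positivity)
  have h2 := (Filter.tendsto_id.atTop_div_const (show (0:ℝ) < 2 by norm_num)).eventually h
  obtain ⟨e₁, he₁⟩ := Filter.eventually_atTop.1 (h2.and (eventually_ge_atTop (0:ℝ)))
  refine ⟨e₁, fun e he => ?_⟩
  obtain ⟨g1, g2⟩ := he₁ e he
  simp only [id] at g1
  rw [Real.norm_of_nonneg (by positivity), Real.norm_of_nonneg (Real.exp_pos _).le] at g1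
  have e1 : 72 * C * e ^ 3 = 72 * C * 8 * (e / 2) ^ 3 := by ring
  rw [e1]
  calc 72 * C * 8 * (e / 2) ^ 3 ≤ 72 * C * 8 * (1 / (72 * C * 8) * Real.exp (e / 2)) :=
        mul_le_mul_of_nonneg_left g1 (by positivity)
    _ = Real.exp (e / 2) := by field_simp


theorem covG : ∃ c₄ e₀ L₀ : ℝ, 0 < c₄ ∧ 6400 ≤ e₀ ∧ 1600 ≤ L₀ ∧ ∀ L e : ℝ, L₀ ≤ L → e₀ ≤ e →
    e ≤ 1 / 4 * Real.log L → ∀ (κ : Type) [Fintype κ] [DecidableEq κ],
    (Fintype.card κ : ℝ) ≤ c₄ * e * L / Real.log L →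
    ∀ (g₀ : ℕ → ℝ), (∀ p : ℕ, p.Prime → L ^ 6 < (p : ℝ) → (p : ℝ) ≤ Real.exp (L / (6400 * e)) →
      1 / (p : ℝ) * (1 - 1 / (2 * L)) ≤ g₀ p ∧ g₀ p ≤ 1 / (p : ℝ)) →
    ∀ (α : Type) (𝒜 : Finset α) (col : α → ℕ → Option κ) (N Err : ℝ), 0 < N → 0 ≤ Err →
    Err * Real.exp L ≤ N →
    (∀ S : Finset ℕ, (∀ p ∈ S, p.Prime ∧ L ^ 6 < (p : ℝ) ∧
      (p : ℝ) ≤ Real.exp (L / (6400 * e))) → ∀ D : ℕ → Option κ, (∀ p ∈ S, D p ≠ none) →
      |((𝒜.filter (fun x => ∀ p ∈ S, col x p = D p)).card : ℝ) - N * ∏ p ∈ S, g₀ p| ≤ Err) →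
    3 / 8 * N ≤ ((𝒜.filter (fun x => ∀ k : κ, ∃ p : ℕ, p.Prime ∧ L ^ 6 < (p : ℝ) ∧
      (p : ℝ) ≤ Real.exp (L / (6400 * e)) ∧ col x p = some k)).card : ℝ) *
      Real.exp (e ^ 2 * Real.exp e) := by
  obtain ⟨c, C, hc, hcC, hWb⟩ := WW_bounds
  obtain ⟨CR, hCR0, hSR⟩ := sum_ratio
  obtain ⟨C₁, hC₁, hBH⟩ := BHyp_G
  have hC : 0 < C := hc.trans_le hcC
  have h0a : 0 < 512 / c := by positivity
  have hE₁ := Real.exp_pos C₁
  obtain ⟨K₀, hK₀⟩ : ∃ K₀ : ℝ, K₀ = 6400 + 512 / c := ⟨_, rfl⟩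
  obtain ⟨M₀, hM₀⟩ : ∃ M₀ : ℝ, M₀ = 1600 + Real.exp C₁ + 2 * CR := ⟨_, rfl⟩
  have hK1 : 6400 ≤ K₀ := by rw [hK₀]; linarith only [h0a]
  have hK4 : 512 / c ≤ K₀ := by rw [hK₀]; linarith only [h0a]
  have hM1 : 1600 ≤ M₀ := by rw [hM₀]; linarith only [hE₁, hCR0]
  have hM4 : Real.exp C₁ ≤ M₀ := by rw [hM₀]; linarith only [hE₁, hCR0]
  have hM5 : 2 * CR ≤ M₀ := by rw [hM₀]; linarith only [hE₁, hCR0]
  obtain ⟨e₀, he₀⟩ := ev_e K₀ (by linarith only [hK1])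
  obtain ⟨e₁, he₁⟩ := ev_e2 C hC
  obtain ⟨L₀, hL₀⟩ := ev_L5 (3 / 4) M₀ (by norm_num) (by norm_num) (by linarith only [hM1])
  refine ⟨c / 192, max 6400 (max e₀ e₁), max 1600 L₀, by positivity, le_max_left _ _, le_max_left _ _, ?_⟩
  intro L e hL he heu κ _ _ hκ g₀ hg₀ α 𝒜 col N Err hN hErr hErrN hcnt
  have hee0 : e₀ ≤ e := (le_max_left _ _).trans ((le_max_right _ _).trans he)
  have hee1 : e₁ ≤ e := (le_max_right _ _).trans ((le_max_right _ _).trans he)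
  obtain ⟨he1, he3, helog⟩ := he₀ e hee0
  have he4 := he₁ e hee1
  obtain ⟨a1, a2, _, a4, a5⟩ := hL₀ L ((le_max_right _ _).trans hL)
  have he1000 : 1000 ≤ e := by linarith only [hK1, he1]
  have he0 : 0 < e := by linarith only [he1000]
  have he1' : 1 ≤ e := by linarith only [he1000]
  have b1 := a5 e he1' (by linarith only [heu])
  have hL1600 : 1600 ≤ L := by linarith only [hM1, a1]
  have hL0 : 0 < L := by linarith only [hL1600]
  have hL1 : 1 ≤ L := by linarith only [hL1600]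
  have hL6 : 2 ≤ L ^ 6 := by
    calc (2:ℝ) ≤ L := by linarith only [hL1600]
      _ = L ^ 1 := (pow_one L).symm
      _ ≤ L ^ 6 := pow_le_pow_right₀ hL1 (by norm_num)
  have he4' : 72 * C * e ^ 3 ≤ Real.exp e := by
    refine he4.trans (Real.exp_le_exp.2 ?_)
    linarith only [he0]
  have hκ' : (Fintype.card κ : ℝ) ≤ 1 / 32 * (e * L * WW (L ^ 6)) := by
    refine hκ.trans ?_
    have h1 := (hWb (L ^ 6) hL6).1
    have h2 : Real.log (L ^ 6) = 6 * Real.log L := by rw [Real.log_pow]; push_cast; ring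
    rw [h2] at h1
    have hl0 : 0 < Real.log L := by linarith only [a2]
    rw [div_le_iff₀ hl0]
    have h3 : (e * L) * c ≤ (e * L) * (WW (L ^ 6) * (6 * Real.log L)) :=
      mul_le_mul_of_nonneg_left h1 (by positivity)
    calc c / 192 * e * L = 1 / 192 * ((e * L) * c) := by ring
      _ ≤ 1 / 192 * ((e * L) * (WW (L ^ 6) * (6 * Real.log L))) := by linarith only [h3]
      _ = _ := by ring
  exact covG_at c C CR C₁ K₀ M₀ hc hC hC₁ hCR0 hWb hSR hBH hK1 hK4 hM1 hM4 hM5 L e he1 he3 helog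
    he4' a1 a2 a4 heu b1 κ hκ' g₀ hg₀ α 𝒜 col N Err hN hErr hErrN hcnt

end Pool.Agent.T2h81.LD
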