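import Pool.Agent.T2h81.LD.G6

set_option autoImplicit false
set_option linter.unusedSectionVars false
set_option linter.unusedVariables false
set_option maxHeartbeats 4000000

/-! # The distribution of the colours for all sets of primes -/

namespace Pool.Agent.T2h81.LD

open Finset
open Pool.Agent.Y961.JR (gJ)

open scoped Classical

/-- a subset whose product is just below the bound -/
theorem sub_prod (S : Finset ℕ) (Q z : ℝ) (hz : 0 ≤ z) (hQ1 : 1 ≤ Q) :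
    (∀ p ∈ S, (p : ℝ) ≤ z) → Q < ∏ p ∈ S, (p : ℝ) →
    ∃ T ⊆ S, ∏ p ∈ T, (p : ℝ) ≤ Q ∧ Q < z * ∏ p ∈ T, (p : ℝ) := by
  induction S using Finset.induction_on with
  | empty =>
    intro _ h
    rw [Finset.prod_empty] at h
    linarith
  | insert p S hp ih =>
    intro hS hQ
    by_cases h : Q < ∏ p ∈ S, (p : ℝ)
    · obtain ⟨T, hT, h1, h2⟩ := ih (fun q hq => hS q (Finset.mem_insert_of_mem hq)) h
      exact ⟨T, hT.trans (Finset.subset_insert _ _), h1, h2⟩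
    · push Not at h
      refine ⟨S, Finset.subset_insert _ _, h, ?_⟩
      rw [Finset.prod_insert hp] at hQ
      have h0 : 0 ≤ ∏ p ∈ S, (p : ℝ) := Finset.prod_nonneg fun _ _ => Nat.cast_nonneg _
      exact hQ.trans_le (mul_le_mul_of_nonneg_right (hS p (Finset.mem_insert_self _ _)) h0)

theorem gJ_le (r : ℕ) (hr : 1 ≤ r) (κ' : Type) [Fintype κ'] (p : ℕ) (hp : 0 < p)
    (hu : (Fintype.card κ' : ℝ) ≤ p) : 0 ≤ gJ r κ' p ∧ gJ r κ' p ≤ 1 / (p : ℝ) := by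
  have hp0 : (0 : ℝ) < p := by exact_mod_cast hp
  have hu0 : (0 : ℝ) ≤ Fintype.card κ' := Nat.cast_nonneg _
  unfold gJ
  obtain ⟨n, rfl⟩ : ∃ n, r = n + 1 := ⟨r - 1, by omega⟩
  simp only [Nat.add_sub_cancel]
  have h1 : 0 ≤ (p : ℝ) - Fintype.card κ' := by linarith
  refine ⟨by positivity, ?_⟩
  rw [div_le_div_iff₀ (by positivity) hp0, one_mul, pow_succ]
  exact mul_le_mul_of_nonneg_right (pow_le_pow_left₀ h1 (by linarith) n) hp0.le

theorem count_all {r : ℕ} (hr : 1 ≤ r) {κ' : Type} [Fintype κ'] [DecidableEq κ'] {ι : Type}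
    (𝒜 : Finset ι) (v : ι → Fin r → ℤ) (res : Fin r → κ' → ℤ)
    (N Err Q lb z : ℝ) (hN : 0 ≤ N) (hErr : 0 ≤ Err) (hQ1 : 1 ≤ Q) (hz : 0 < z)
    (hu : (Fintype.card κ' : ℝ) ≤ lb)
    (hcount : ∀ q : ℕ, Squarefree q → (q : ℝ) ≤ Q → (∀ p ∈ q.primeFactors, lb < p) →
      ∀ ρ : Fin r → ℤ, |((𝒜.filter (fun x => ∀ j, (q : ℤ) ∣ v x j - ρ j)).card : ℝ) -
        N / (q : ℝ) ^ r| ≤ Err)
    (hinj : ∀ p : ℕ, p.Prime → lb < p → ∀ j k l, k ≠ l → ¬ (p : ℤ) ∣ res j k - res j l)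
    (S : Finset ℕ) (hS : ∀ p ∈ S, p.Prime ∧ lb < (p : ℝ) ∧ (p : ℝ) ≤ z)
    (D : ℕ → Option (Fin r × κ')) (hD : ∀ p ∈ S, D p ≠ none) :
    |((𝒜.filter (fun x => ∀ p ∈ S, colJ res (v x) p = D p)).card : ℝ) -
      N * ∏ p ∈ S, gJ r κ' p| ≤ Err * Q ^ (r - 1) + N * (z / Q) := by
  have hQ0 : 0 < Q := by linarith
  have hsmall : ∀ T ⊆ S, ∏ p ∈ T, (p : ℝ) ≤ Q →
      |((𝒜.filter (fun x => ∀ p ∈ T, colJ res (v x) p = D p)).card : ℝ) -
      N * ∏ p ∈ T, gJ r κ' p| ≤ Err * Q ^ (r - 1) := by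
    intro T hT hTQ
    have h1 := countJ 𝒜 v res N Err Q lb hErr hcount T ∅
      (fun p hp => ⟨(hS p (hT hp)).1, (hS p (hT hp)).2.1⟩)
      (fun p hp => hinj p (hS p (hT hp)).1 (hS p (hT hp)).2.1) (by simp) (by simp)
      (by rw [Finset.prod_empty, mul_one]; exact hTQ) D (fun p hp => hD p (hT hp)) (fun _ _ => 0)
    have h2 : (𝒜.filter (fun x => (∀ p ∈ T, colJ res (v x) p = D p) ∧
        ∀ p ∈ (∅ : Finset ℕ), ∀ j, (p : ℤ) ∣ v x j - (fun (_ : ℕ) (_ : Fin r) => (0:ℤ)) p j)) =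
        𝒜.filter (fun x => ∀ p ∈ T, colJ res (v x) p = D p) := by
      apply Finset.filter_congr
      intro x _
      simp
    rw [h2, Finset.prod_empty, mul_one] at h1
    refine h1.trans ?_
    apply mul_le_mul_of_nonneg_left _ hErr
    rw [Finset.prod_pow]
    exact pow_le_pow_left₀ (Finset.prod_nonneg fun _ _ => Nat.cast_nonneg _) hTQ _
  have hE0 : 0 ≤ Err * Q ^ (r - 1) := by positivity
  have hzQ0 : 0 ≤ N * (z / Q) := by positivity
  by_cases hSQ : ∏ p ∈ S, (p : ℝ) ≤ Q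
  · have := hsmall S (Finset.Subset.refl _) hSQ
    linarith
  push Not at hSQ
  obtain ⟨T, hTS, hT1, hT2⟩ := sub_prod S Q z hz.le hQ1 (fun p hp => (hS p hp).2.2) hSQ
  have hg : ∀ p ∈ S, 0 ≤ gJ r κ' p ∧ gJ r κ' p ≤ 1 / (p : ℝ) := fun p hp =>
    gJ_le r hr κ' p (hS p hp).1.pos (by have := (hS p hp).2.1; linarith)
  have hT0 : 0 < ∏ p ∈ T, (p : ℝ) := Finset.prod_pos fun p hp => by
    exact_mod_cast (hS p (hTS hp)).1.pos
  have hgT : ∏ p ∈ T, gJ r κ' p ≤ z / Q := by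
    calc ∏ p ∈ T, gJ r κ' p ≤ ∏ p ∈ T, (1 / (p : ℝ)) :=
          Finset.prod_le_prod (fun p hp => (hg p (hTS hp)).1) fun p hp => (hg p (hTS hp)).2
      _ = 1 / ∏ p ∈ T, (p : ℝ) := by rw [Finset.prod_div_distrib, Finset.prod_const_one]
      _ ≤ z / Q := by
          rw [div_le_div_iff₀ hT0 hQ0, one_mul]
          exact hT2.le
  have hgS : ∏ p ∈ S, gJ r κ' p ≤ ∏ p ∈ T, gJ r κ' p := by
    rw [← Finset.prod_sdiff hTS]
    have h1 : ∏ p ∈ S \ T, gJ r κ' p ≤ 1 := by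
      apply Finset.prod_le_one
      · intro p hp
        exact (hg p (Finset.mem_sdiff.1 hp).1).1
      · intro p hp
        have h2 := hS p (Finset.mem_sdiff.1 hp).1
        refine (hg p (Finset.mem_sdiff.1 hp).1).2.trans ?_
        rw [div_le_one (by exact_mod_cast h2.1.pos)]
        exact_mod_cast h2.1.one_lt.le
    have h2 : 0 ≤ ∏ p ∈ T, gJ r κ' p := Finset.prod_nonneg fun p hp => (hg p (hTS hp)).1
    nlinarith
  have hgS0 : 0 ≤ ∏ p ∈ S, gJ r κ' p := Finset.prod_nonneg fun p hp => (hg p hp).1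
  have h1 := (abs_le.1 (hsmall T hTS hT1)).2
  have h2 : ((𝒜.filter (fun x => ∀ p ∈ S, colJ res (v x) p = D p)).card : ℝ) ≤
      ((𝒜.filter (fun x => ∀ p ∈ T, colJ res (v x) p = D p)).card : ℝ) := by
    rw [Nat.cast_le]
    apply Finset.card_le_card
    intro x hx
    rw [Finset.mem_filter] at hx ⊢
    exact ⟨hx.1, fun p hp => hx.2 p (hTS hp)⟩
  have h3 := mul_le_mul_of_nonneg_left hgT hN
  have h4 := mul_le_mul_of_nonneg_left hgS hN
  have h5 : 0 ≤ N * ∏ p ∈ S, gJ r κ' p := mul_nonneg hN hgS0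
  have h6 : (0:ℝ) ≤ ((𝒜.filter (fun x => ∀ p ∈ S, colJ res (v x) p = D p)).card : ℝ) :=
    Nat.cast_nonneg _
  rw [abs_le]
  constructor
  · linarith
  · linarith

end Pool.Agent.T2h81.LD
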