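import Pool.Agent.T2h81.LD.S1
import Pool.Agent.T2h81.LD.G7
import Pool.Agent.Y961.JR.Crit

set_option autoImplicit false
set_option linter.unusedSectionVars false
set_option linter.unusedVariables false
set_option maxHeartbeats 4000000

/-! # One class of the vectors modulo the small primes -/

namespace Pool.Agent.T2h81.LD

open Finset Filter Pool.Agent.Y831.RC Pool.Agent.T2h81.RF
open Pool.Agent.Y961.JR (gJ gJ_bounds)

open scoped Classical

/-- a set of integers in a window, padded to exactly `m` integers -/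
theorem enum_pad (U : Finset ℤ) (m H : ℕ) (hU : U ⊆ Icc (-(H : ℤ)) H) (hc : U.card ≤ m) :
    ∃ f : Fin m → ℤ, Function.Injective f ∧ (∀ u ∈ U, ∃ k, f k = u) ∧
      ∀ k, |f k| ≤ (H : ℤ) + m := by
  set W : Finset ℤ := (range (m - U.card)).image (fun i : ℕ => (H : ℤ) + 1 + i) with hW
  have hWc : W.card = m - U.card := by
    rw [hW, Finset.card_image_of_injective, Finset.card_range]
    intro i j h
    simp only at h
    omega
  have hd : Disjoint U W := by
    rw [Finset.disjoint_left]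
    intro x hx hx'
    have h1 := Finset.mem_Icc.1 (hU hx)
    obtain ⟨i, _, hi⟩ := Finset.mem_image.1 hx'
    omega
  have hcard : (U ∪ W).card = m := by
    rw [Finset.card_union_of_disjoint hd, hWc]
    omega
  refine ⟨(U ∪ W).orderEmbOfFin hcard, (RelEmbedding.injective _), ?_, ?_⟩
  · intro u hu
    have h1 : u ∈ Set.range ((U ∪ W).orderEmbOfFin hcard) := by
      rw [Finset.range_orderEmbOfFin]
      exact Finset.mem_coe.2 (Finset.mem_union_left _ hu)
    exact h1
  · intro k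
    have h1 := Finset.orderEmbOfFin_mem (U ∪ W) hcard k
    rcases Finset.mem_union.1 h1 with h2 | h2
    · have h3 := Finset.mem_Icc.1 (hU h2)
      rw [abs_le]
      constructor <;> omega
    · obtain ⟨i, hi, hi2⟩ := Finset.mem_image.1 h2
      have h3 := Finset.mem_range.1 hi
      rw [← hi2, abs_le]
      constructor <;> omega

/-- two congruences -/
theorem crt_two (P q : ℕ) (h : IsCoprime (P : ℤ) (q : ℤ)) (b ρ : ℤ) : ∃ σ : ℤ, ∀ x : ℤ,
    ((P : ℤ) ∣ x - b ∧ (q : ℤ) ∣ x - ρ) ↔ ((P * q : ℕ) : ℤ) ∣ x - σ := by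
  obtain ⟨u, w, huw⟩ := h
  refine ⟨b * (w * q) + ρ * (u * P), ?_⟩
  intro x
  have e1 : x - (b * (w * q) + ρ * (u * P)) = (x - b) + P * (u * (b - ρ)) := by
    linear_combination (-b) * huw
  have e2 : x - (b * (w * q) + ρ * (u * P)) = (x - ρ) + q * (w * (ρ - b)) := by
    linear_combination (-ρ) * huw
  constructor
  · rintro ⟨h1, h2⟩
    push_cast
    apply IsCoprime.mul_dvd ⟨u, w, huw⟩
    · rw [e1]
      exact dvd_add h1 (dvd_mul_right _ _)
    · rw [e2]
      exact dvd_add h2 (dvd_mul_right _ _)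
  · intro h1
    push_cast at h1
    constructor
    · have h2 := (dvd_mul_right (P : ℤ) q).trans h1
      rw [e1] at h2
      exact (dvd_add_left (dvd_mul_right _ _)).1 h2
    · have h2 := (dvd_mul_left (q : ℤ) P).trans h1
      rw [e2] at h2
      exact (dvd_add_left (dvd_mul_right _ _)).1 h2

/-- a numerical fact -/
theorem L_le_z : ∃ L₁ : ℝ, 10 ^ 10 ≤ L₁ ∧ ∀ L e : ℝ, L₁ ≤ L → 0 < e → e ≤ 1 / 4 * Real.log L →
    L ≤ Real.exp (L / (6400 * e)) := by
  refine ⟨10 ^ 10, le_rfl, ?_⟩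
  intro L e hL he heu
  have hL0 : 0 < L := by linarith
  have h1 : Real.log L ≤ 4 * L ^ (1 / 4 : ℝ) := by
    have := Real.log_le_rpow_div hL0.le (show (0:ℝ) < 1 / 4 by norm_num)
    linarith
  have hl0 : 0 ≤ Real.log L := by linarith
  set a : ℝ := L ^ (1 / 4 : ℝ) with ha
  have ha0 : 0 ≤ a := Real.rpow_nonneg hL0.le _
  have ha2 : a ^ 2 * a ^ 2 = L := by
    rw [← pow_add, ha, ← Real.rpow_natCast, ← Real.rpow_mul hL0.le]
    norm_num
  have ha3 : (25600 : ℝ) ≤ a ^ 2 := by
    by_contra hc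
    push Not at hc
    have h2 : a ^ 2 * a ^ 2 < 25600 * 25600 := by nlinarith [sq_nonneg a]
    rw [ha2] at h2
    norm_num at hL
    linarith
  have h2 : Real.log L ^ 2 ≤ 16 * a ^ 2 := by nlinarith
  have h3 : Real.log L * (6400 * e) ≤ L := by
    have : Real.log L * (6400 * e) ≤ 1600 * Real.log L ^ 2 := by nlinarith
    nlinarith [sq_nonneg a]
  calc L = Real.exp (Real.log L) := (Real.exp_log hL0).symm
    _ ≤ _ := by
      apply Real.exp_le_exp.2
      rw [le_div_iff₀ (by positivity)]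
      exact h3

/-- the primorial -/
theorem prim_le (L : ℝ) (hL : 0 ≤ L) : ((primorial ⌊L / 32⌋₊ : ℕ) : ℝ) ≤ Real.exp (L / 16) := by
  have h1 : ((primorial ⌊L / 32⌋₊ : ℕ) : ℝ) ≤ 4 ^ ⌊L / 32⌋₊ := by
    exact_mod_cast primorial_le_four_pow _
  refine h1.trans ?_
  have h2 : (4:ℝ) ≤ Real.exp 2 := by
    have e1 : Real.exp 2 = Real.exp 1 * Real.exp 1 := by rw [← Real.exp_add]; norm_num
    have e2 := Real.add_one_le_exp (1:ℝ)
    nlinarith
  calc (4:ℝ) ^ ⌊L / 32⌋₊ ≤ (Real.exp 2) ^ ⌊L / 32⌋₊ := pow_le_pow_left₀ (by norm_num) h2 _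
    _ = Real.exp (⌊L / 32⌋₊ * 2) := by rw [← Real.exp_nat_mul]
    _ ≤ Real.exp (L / 16) := by
        apply Real.exp_le_exp.2
        have := Nat.floor_le (show 0 ≤ L / 32 by positivity)
        linarith

end Pool.Agent.T2h81.LD
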