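import Pool.Agent.T2h81.LD.G8

set_option autoImplicit false
set_option linter.unusedSectionVars false
set_option linter.unusedVariables false
set_option maxHeartbeats 4000000

/-! # One class of the vectors modulo the small primes: the covering -/

namespace Pool.Agent.T2h81.LD

open Finset Filter Pool.Agent.Y831.RC Pool.Agent.T2h81.RF
open Pool.Agent.Y961.JR (gJ gJ_bounds)

open scoped Classical

theorem cls_cover : ∃ c₄ e₀ L₀ : ℝ, 0 < c₄ ∧ c₄ ≤ 1 ∧ 6400 ≤ e₀ ∧ 10 ^ 10 ≤ L₀ ∧ ∀ L e : ℝ, L₀ ≤ L →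
    e₀ ≤ e → e ≤ 1 / 4 * Real.log L → ∀ r : ℕ, 1 ≤ r → ∀ m H : ℕ,
    (r : ℝ) * m ≤ c₄ * e * L / Real.log L → (H : ℝ) ≤ L ^ 2 →
    ∀ (ι : Type) (s : Finset ι) (v : ι → Fin r → ℤ),
    (∀ q : ℕ, 1 ≤ q → (q : ℝ) ≤ Real.exp (32 / 5 * L) →
      ∀ ρ : Fin r → ℤ, |((s.filter (fun i => ∀ j, (q : ℤ) ∣ v i j - ρ j)).card : ℝ) -
        s.card / (q : ℝ) ^ r| ≤ s.card * Real.exp (-(32 * r * L))) →
    ∀ b : Fin r → ℤ, (∀ j, (sv (primorial ⌊L / 32⌋₊) (b j) (Icc (-(H : ℤ)) H)).card ≤ m) →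
    3 / 8 * ((s.card : ℝ) / ((primorial ⌊L / 32⌋₊ : ℕ) : ℝ) ^ r) ≤
      ((s.filter (fun i => (∀ j, ((primorial ⌊L / 32⌋₊ : ℕ) : ℤ) ∣ v i j - b j) ∧
        ∀ j, ∀ h ∈ Icc (-(H : ℤ)) H, ∃ p : ℕ, p.Prime ∧ (p : ℝ) ≤ Real.exp (L / (6400 * e)) ∧
          (p : ℤ) ∣ v i j + h)).card : ℝ) * Real.exp (e ^ 2 * Real.exp e) := by
  obtain ⟨c₄, e₀, L₀, hc₄, he₀, hL₀, hcov⟩ := covG
  obtain ⟨L₁, hL₁, hLz⟩ := L_le_z
  refine ⟨min c₄ 1, e₀, max L₀ L₁, lt_min hc₄ one_pos, min_le_right _ _, he₀,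
    hL₁.trans (le_max_right _ _), ?_⟩
  intro L e hL he heu r hr m H hm hH ι s v hdist b hb
  have hLL₁ : L₁ ≤ L := (le_max_right _ _).trans hL
  have hL10 : (10:ℝ) ^ 10 ≤ L := hL₁.trans hLL₁
  have hLbig : (10000000000:ℝ) ≤ L := by norm_num at hL10; exact hL10
  have hL0 : 0 < L := by linarith only [hLbig]
  have hL1 : 1 ≤ L := by linarith only [hLbig]
  have he0 : 0 < e := by linarith only [he₀, he]
  have hlL1 : 1 ≤ Real.log L := by
    rw [Real.le_log_iff_exp_le hL0]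
    have := Real.exp_one_lt_d9
    linarith only [this, hLbig]
  have hl0 : 0 < Real.log L := by linarith only [hlL1]
  have hzL := hLz L e hLL₁ he0 heu
  rcases s.eq_empty_or_nonempty with hs | hs
  · rw [hs]
    simp
  have hs0 : (0:ℝ) < s.card := by exact_mod_cast hs.card_pos
  set P : ℕ := primorial ⌊L / 32⌋₊ with hP
  have hPpos : 0 < P := primorial_pos _
  have hPr : (0:ℝ) < P := by exact_mod_cast hPpos
  have hPle := prim_le L hL0.le
  rw [← hP] at hPle
  set z : ℝ := Real.exp (L / (6400 * e)) with hz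
  have hz0 : 0 < z := Real.exp_pos _
  have hzexp : z ≤ Real.exp L := by
    apply Real.exp_le_exp.2
    rw [div_le_iff₀ (by positivity)]
    have : L * 1 ≤ L * (6400 * e) :=
      mul_le_mul_of_nonneg_left (by linarith only [he₀, he]) hL0.le
    linarith only [this]
  -- sizes
  have hr1 : (1:ℝ) ≤ r := by exact_mod_cast hr
  have hrm : (r : ℝ) * m ≤ L / 4 := by
    refine hm.trans ?_
    rw [div_le_iff₀ hl0]
    have h1 : min c₄ 1 * e ≤ 1 * (1 / 4 * Real.log L) :=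
      mul_le_mul (min_le_right _ _) heu he0.le zero_le_one
    have h2 := mul_le_mul_of_nonneg_right h1 hL0.le
    linarith only [h2]
  have hm0 : (0:ℝ) ≤ m := Nat.cast_nonneg _
  have hmL : (m : ℝ) ≤ L / 4 := by
    have h1 : 1 * (m:ℝ) ≤ r * m := mul_le_mul_of_nonneg_right hr1 hm0
    linarith only [h1, hrm]
  -- the residues
  have hex : ∀ j, ∃ f : Fin m → ℤ, Function.Injective f ∧
      (∀ u ∈ sv P (b j) (Icc (-(H : ℤ)) H), ∃ k, f k = u) ∧ ∀ k, |f k| ≤ (H : ℤ) + m := fun j =>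
    enum_pad _ m H (Finset.filter_subset _ _) (hb j)
  choose f hfinj hfsurj hfle using hex
  set res : Fin r → Fin m → ℤ := fun j k => -f j k with hres
  have hLpow : L ^ 2 ≤ L ^ 6 := pow_le_pow_right₀ hL1 (by norm_num)
  have hLpow1 : L ≤ L ^ 2 := by
    calc L = L ^ 1 := (pow_one L).symm
      _ ≤ L ^ 2 := pow_le_pow_right₀ hL1 (by norm_num)
  have h4L : 4 * L ^ 2 ≤ L ^ 6 := by
    have e1 : L ^ 6 = L ^ 4 * L ^ 2 := by ring
    rw [e1]
    have e2 : (4:ℝ) ≤ L ^ 4 := by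
      calc (4:ℝ) ≤ L := by linarith only [hLbig]
        _ = L ^ 1 := (pow_one L).symm
        _ ≤ L ^ 4 := pow_le_pow_right₀ hL1 (by norm_num)
    exact mul_le_mul_of_nonneg_right e2 (by positivity)
  have hinj : ∀ p : ℕ, p.Prime → L ^ 6 < (p:ℝ) → ∀ j k l, k ≠ l → ¬ (p : ℤ) ∣ res j k - res j l := by
    intro p hp hpw j k l hkl hd
    have h1 : res j k - res j l = 0 := by
      apply Int.eq_zero_of_abs_lt_dvd hd
      have h2 : |res j k - res j l| ≤ 2 * ((H : ℤ) + m) := by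
        simp only [hres]
        have e1 := abs_le.1 (hfle j k)
        have e2 := abs_le.1 (hfle j l)
        rw [abs_le]
        constructor <;> omega
      have h3 : ((2 * ((H : ℤ) + m) : ℤ) : ℝ) < ((p : ℤ) : ℝ) := by
        push_cast
        linarith only [hH, hmL, hpw, h4L, hLpow1, hL0]
      have h4 : (2 * ((H : ℤ) + m) : ℤ) < (p : ℤ) := by exact_mod_cast h3
      omega
    simp only [hres] at h1
    exact hkl (hfinj j (by omega))
  -- the class
  set 𝒜 : Finset ι := s.filter (fun i => ∀ j, (P : ℤ) ∣ v i j - b j) with h𝒜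
  set N : ℝ := (s.card : ℝ) / (P : ℝ) ^ r with hN
  have hN0 : 0 < N := by positivity
  set Q : ℝ := Real.exp (4 * L) with hQ
  have hQ1 : 1 ≤ Q := Real.one_le_exp (by positivity)
  have hcount : ∀ q : ℕ, Squarefree q → (q : ℝ) ≤ Q → (∀ p ∈ q.primeFactors, L ^ 6 < (p:ℝ)) →
      ∀ ρ : Fin r → ℤ, |((𝒜.filter (fun x => ∀ j, (q : ℤ) ∣ v x j - ρ j)).card : ℝ) -
        N / (q : ℝ) ^ r| ≤ s.card * Real.exp (-(32 * r * L)) := by
    intro q hq hqQ hqp ρ
    have hq0 : 0 < q := Nat.pos_of_ne_zero hq.ne_zero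
    have hcop : Nat.Coprime P q := by
      apply Nat.coprime_of_dvd
      intro k hk hkP hkq
      have h1 : L ^ 6 < (k:ℝ) := hqp k (Nat.mem_primeFactors.2 ⟨hk, hkq, hq.ne_zero⟩)
      have h2 : k ≤ ⌊L / 32⌋₊ := (hk.dvd_primorial_iff).1 hkP
      have h3 : (k:ℝ) ≤ L / 32 := by
        have h4 : (k:ℝ) ≤ (⌊L / 32⌋₊ : ℝ) := by exact_mod_cast h2
        exact h4.trans (Nat.floor_le (by positivity))
      linarith only [h1, h3, hLpow, hLpow1, hL0]
    have hex2 : ∀ j, ∃ σ : ℤ, ∀ x : ℤ, ((P : ℤ) ∣ x - b j ∧ (q : ℤ) ∣ x - ρ j) ↔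
        ((P * q : ℕ) : ℤ) ∣ x - σ := fun j => crt_two P q (Nat.isCoprime_iff_coprime.2 hcop) (b j) (ρ j)
    choose σ hσ using hex2
    have h1 := hdist (P * q) (Nat.mul_pos hPpos hq0) (by
      push_cast
      calc (P:ℝ) * q ≤ Real.exp (L / 16) * Real.exp (4 * L) :=
            mul_le_mul hPle hqQ (Nat.cast_nonneg _) (Real.exp_pos _).le
        _ = Real.exp (L / 16 + 4 * L) := by rw [← Real.exp_add]
        _ ≤ Real.exp (32 / 5 * L) := Real.exp_le_exp.2 (by linarith only [hL0])) σ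
    have h2 : 𝒜.filter (fun x => ∀ j, (q : ℤ) ∣ v x j - ρ j) =
        s.filter (fun i => ∀ j, ((P * q : ℕ) : ℤ) ∣ v i j - σ j) := by
      rw [h𝒜, Finset.filter_filter]
      apply Finset.filter_congr
      intro x _
      constructor
      · rintro ⟨g1, g2⟩ j
        exact (hσ j (v x j)).1 ⟨g1 j, g2 j⟩
      · intro g
        exact ⟨fun j => ((hσ j (v x j)).2 (g j)).1, fun j => ((hσ j (v x j)).2 (g j)).2⟩
    rw [h2]
    have h3 : N / (q : ℝ) ^ r = s.card / ((P * q : ℕ) : ℝ) ^ r := by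
      rw [hN]
      push_cast
      rw [mul_pow, div_div]
    rw [h3]
    exact h1
  have hc5 : (Fintype.card (Fin m) : ℝ) = m := by rw [Fintype.card_fin]
  have hall : ∀ S : Finset ℕ, (∀ p ∈ S, p.Prime ∧ L ^ 6 < (p : ℝ) ∧ (p : ℝ) ≤ z) →
      ∀ D : ℕ → Option (Fin r × Fin m), (∀ p ∈ S, D p ≠ none) →
      |((𝒜.filter (fun x => ∀ p ∈ S, colJ res (v x) p = D p)).card : ℝ) -
        N * ∏ p ∈ S, gJ r (Fin m) p| ≤
        (s.card * Real.exp (-(32 * r * L))) * Q ^ (r - 1) + N * (z / Q) := by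
    intro S hS D hD
    exact count_all hr 𝒜 v res N _ Q (L ^ 6) z hN0.le (by positivity) hQ1 hz0
      (by rw [hc5]; linarith only [hmL, hLpow, hLpow1, hL0]) hcount hinj S hS D hD
  have hexpL2 : Real.exp (-L) ≤ 1 / 2 := by
    rw [Real.exp_neg, inv_le_comm₀ (Real.exp_pos _) (by norm_num)]
    have := Real.add_one_le_exp L
    rw [show ((1:ℝ) / 2)⁻¹ = 2 by norm_num]
    linarith only [this, hLbig]
  have hErrN : ((s.card * Real.exp (-(32 * r * L))) * Q ^ (r - 1) + N * (z / Q)) * Real.exp L ≤ N := by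
    have h1 : N * (z / Q) * Real.exp L ≤ N * (1 / 2) := by
      have e1 : z / Q * Real.exp L ≤ 1 / 2 := by
        calc z / Q * Real.exp L ≤ Real.exp L / Q * Real.exp L := by
              apply mul_le_mul_of_nonneg_right _ (Real.exp_pos _).le
              exact div_le_div_of_nonneg_right hzexp (by positivity)
          _ = Real.exp (L + L - 4 * L) := by
              rw [Real.exp_sub, Real.exp_add, hQ]; ring
          _ ≤ Real.exp (-L) := Real.exp_le_exp.2 (by linarith only [hL0])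
          _ ≤ 1 / 2 := hexpL2
      calc N * (z / Q) * Real.exp L = N * (z / Q * Real.exp L) := by ring
        _ ≤ N * (1 / 2) := mul_le_mul_of_nonneg_left e1 hN0.le
    have h2 : (s.card * Real.exp (-(32 * r * L))) * Q ^ (r - 1) * Real.exp L ≤ N * (1 / 2) := by
      have hrr : ((r - 1 : ℕ) : ℝ) = r - 1 := by push_cast [Nat.cast_sub hr]; ring
      have e1 : Q ^ (r - 1) = Real.exp ((r - 1) * (4 * L)) := by
        rw [hQ, ← Real.exp_nat_mul, hrr]
      have e2 : (P:ℝ) ^ r ≤ Real.exp (r * (L / 16)) := by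
        calc (P:ℝ) ^ r ≤ (Real.exp (L / 16)) ^ r := pow_le_pow_left₀ hPr.le hPle _
          _ = _ := by rw [← Real.exp_nat_mul]
      have e3 : (s.card * Real.exp (-(32 * r * L))) * Q ^ (r - 1) * Real.exp L =
          N * ((P:ℝ) ^ r * (Real.exp (-(32 * r * L)) * Real.exp ((r - 1) * (4 * L)) * Real.exp L)) := by
        rw [e1, hN]
        field_simp
      rw [e3]
      apply mul_le_mul_of_nonneg_left _ hN0.le
      calc (P:ℝ) ^ r * (Real.exp (-(32 * r * L)) * Real.exp ((r - 1) * (4 * L)) * Real.exp L)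
          ≤ Real.exp (r * (L / 16)) * (Real.exp (-(32 * r * L)) * Real.exp ((r - 1) * (4 * L)) *
            Real.exp L) := mul_le_mul_of_nonneg_right e2 (by positivity)
        _ = Real.exp (r * (L / 16) + (-(32 * r * L) + (r - 1) * (4 * L) + L)) := by
            rw [← Real.exp_add, ← Real.exp_add, ← Real.exp_add]
        _ ≤ Real.exp (-L) := by
            apply Real.exp_le_exp.2
            have e4 : 1 * L ≤ r * L := mul_le_mul_of_nonneg_right hr1 hL0.le
            linarith only [e4, hL0]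
        _ ≤ 1 / 2 := hexpL2
    linarith only [h1, h2]
  have hmain := hcov L e ((le_max_left _ _).trans hL) he heu (Fin r × Fin m) (by
      rw [Fintype.card_prod, Fintype.card_fin, Fintype.card_fin]
      push_cast
      refine hm.trans ?_
      rw [div_le_div_iff_of_pos_right hl0]
      apply mul_le_mul_of_nonneg_right _ hL0.le
      exact mul_le_mul_of_nonneg_right (min_le_left _ _) he0.le)
    (gJ r (Fin m)) (by
      intro p hp hp1 hp2
      apply gJ_bounds r hr (Fin m) p L hL1 (lt_of_le_of_lt hLpow hp1)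
      · rw [hc5]
        have h1 : ((r - 1 : ℕ) : ℝ) ≤ r := by exact_mod_cast Nat.sub_le r 1
        have h2 := mul_le_mul_of_nonneg_right h1 hm0
        linarith only [h2, hrm, hL0]
      · rw [hc5]
        linarith only [hmL, hL0])
    ι 𝒜 (fun x => colJ res (v x)) N _ hN0 (by positivity) hErrN hall
  refine hmain.trans ?_
  apply mul_le_mul_of_nonneg_right _ (Real.exp_pos _).le
  rw [Nat.cast_le]
  apply Finset.card_le_card
  intro x hx
  rw [Finset.mem_filter] at hx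
  obtain ⟨hx1, hx2⟩ := hx
  rw [h𝒜, Finset.mem_filter] at hx1
  rw [Finset.mem_filter]
  refine ⟨hx1.1, hx1.2, ?_⟩
  intro j h hh
  by_cases hg : h ∈ sv P (b j) (Icc (-(H : ℤ)) H)
  · obtain ⟨k, hk⟩ := hfsurj j h hg
    obtain ⟨p, hp, hp1, hp2, hp3⟩ := hx2 (j, k)
    rw [colJ_eq (hinj p hp hp1)] at hp3
    refine ⟨p, hp, hp2, ?_⟩
    have h1 := hp3.1
    simp only [hres] at h1
    rw [hk] at h1
    rwa [sub_neg_eq_add] at h1
  · have hg2 : Int.gcd (b j + h) P ≠ 1 := by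
      intro hg3
      exact hg (Finset.mem_filter.2 ⟨hh, hg3⟩)
    obtain ⟨p, hp, hpd⟩ := Nat.exists_prime_and_dvd hg2
    have hp1 : (p : ℤ) ∣ b j + h := (Int.natCast_dvd_natCast.2 hpd).trans (Int.gcd_dvd_left _ _)
    have hp2 : (p : ℤ) ∣ (P : ℤ) := (Int.natCast_dvd_natCast.2 hpd).trans (Int.gcd_dvd_right _ _)
    have hp3 : p ≤ ⌊L / 32⌋₊ := (hp.dvd_primorial_iff).1 (Int.natCast_dvd_natCast.1 hp2)
    refine ⟨p, hp, ?_, ?_⟩
    · have h4 : (p:ℝ) ≤ (⌊L / 32⌋₊ : ℝ) := by exact_mod_cast hp3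
      have h5 := h4.trans (Nat.floor_le (show 0 ≤ L / 32 by positivity))
      linarith only [h5, hzL, hL0]
    · have h6 := dvd_add (hp2.trans (hx1.2 j)) hp1
      have e : v x j - b j + (b j + h) = v x j + h := by ring
      rwa [e] at h6

end Pool.Agent.T2h81.LD
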