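import Pool.Agent.T2h81.LD.H4
import Pool.Agent.Y961.JR.ScaledJ

set_option autoImplicit false
set_option linter.unusedSectionVars false
set_option linter.unusedVariables false
set_option maxHeartbeats 4000000

/-! # Record scale: several smooth phases at the same time, separated sets of reals -/

namespace Pool.Agent.T2h81.LD

open Finset Filter
open Pool.Agent.H469R2.NK (e norm_e e_add)
open Pool.Agent.W147.PS (ff ff_compare ev_pow)
open Pool.Agent.Y565.RG (gen_bound)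
open Pool.Agent.Y961.JR (crit_scaledJ)

open scoped Classical

lemma ev_logsq (k m : ℝ) (hm : 0 < m) : ∀ᶠ Z : ℝ in atTop, k * Real.log Z ^ 2 ≤ m * Z := by
  have h3 : (fun x : ℝ => (Real.log x) ^ (2 : ℝ)) =o[atTop] fun x : ℝ => x ^ (1:ℝ) :=
    isLittleO_log_rpow_rpow_atTop 2 one_pos
  have h4 := h3.bound (show (0:ℝ) < m / (|k| + 1) by positivity)
  filter_upwards [h4, eventually_ge_atTop (1:ℝ)] with M h5 h6
  rw [Real.norm_of_nonneg (Real.rpow_nonneg (Real.log_nonneg h6) _),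
    Real.norm_of_nonneg (Real.rpow_nonneg (by linarith) _), Real.rpow_one] at h5
  have h7 : Real.log M ^ (2:ℝ) = Real.log M ^ 2 := by norm_num
  rw [h7, div_mul_eq_mul_div, le_div_iff₀ (by positivity)] at h5
  have h8 : k ≤ |k| + 1 := by have := le_abs_self k; linarith
  have h9 : k * Real.log M ^ 2 ≤ (|k| + 1) * Real.log M ^ 2 :=
    mul_le_mul_of_nonneg_right h8 (sq_nonneg _)
  linarith

lemma ev_ff : ∀ᶠ Z : ℝ in atTop, 0 ≤ ff Z ∧ ff Z ≤ Real.log Z ^ 2 := by
  have t1 : Tendsto Real.log atTop atTop := Real.tendsto_log_atTop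
  have t2 : Tendsto (fun M : ℝ => Real.log (Real.log M)) atTop atTop := t1.comp t1
  have t3 : Tendsto (fun M : ℝ => Real.log (Real.log (Real.log M))) atTop atTop := t1.comp t2
  have t4 : Tendsto (fun M : ℝ => Real.log (Real.log (Real.log (Real.log M)))) atTop atTop :=
    t1.comp t3
  filter_upwards [t1.eventually_ge_atTop 1, t2.eventually_ge_atTop 1, t3.eventually_ge_atTop 1,
    t4.eventually_ge_atTop 0, t1.eventually (ev_logsq 1 1 one_pos)] with M h1 h2 h3 h4 h5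
  unfold ff
  have h6 := Real.log_le_sub_one_of_pos (show 0 < Real.log (Real.log (Real.log M)) by linarith)
  have h7 : Real.log (Real.log (Real.log (Real.log M))) ≤ Real.log (Real.log (Real.log M)) ^ 2 := by
    nlinarith
  constructor
  · positivity
  · rw [div_le_iff₀ (by positivity)]
    have h8 : Real.log (Real.log M) ^ 2 ≤ Real.log M := by linarith
    calc Real.log M * Real.log (Real.log M) ^ 2 * Real.log (Real.log (Real.log (Real.log M))) ≤
          Real.log M * Real.log M * Real.log (Real.log (Real.log M)) ^ 2 := by gcongr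
      _ = _ := by ring

/-- the joint criterion at record scale with the number of the good members -/
theorem crit_countJ (r : ℕ) (hr : 1 ≤ r) (η : ℝ) (h0 : 0 < η) (h1 : η ≤ 1) :
    ∃ κ : ℝ, 0 < κ ∧ ∀ᶠ M : ℝ in atTop,
    ∀ (ι : Type) (s : Finset ι) (a : ι → Fin r → ℝ), (∀ i ∈ s, ∀ j, M ^ η ≤ a i j) →
    (∀ q : ℕ, 1 ≤ q → (q : ℝ) ≤ M ^ η → ∀ h : Fin r → ℤ, h ≠ 0 → (∀ j, |(h j : ℝ)| ≤ M ^ η) →
      ‖∑ i ∈ s, e (∑ j, (h j : ℝ) * (a i j / q))‖ ≤ s.card * M ^ (-η) / 8) →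
    (s.card : ℝ) * M ^ (-η) / 2 ≤
      ((s.filter (fun i => ∀ j, ∀ q : ℕ, q.Prime → κ * ff M < |(q : ℝ) - a i j|)).card : ℝ) := by
  obtain ⟨κ, hκ, hcrit⟩ := crit_scaledJ r hr η h0 h1
  refine ⟨κ, hκ, ?_⟩
  filter_upwards [hcrit, eventually_ge_atTop (1 : ℝ), ev_pow (-η) 0 2 (by linarith)]
    with M hcr hM1 hM2
  intro ι Q A hlow hexp
  rw [Real.rpow_zero] at hM2
  have hM0 : 0 < M := by linarith
  have hz0 : 0 < M ^ (-η) := by positivity
  rcases Finset.eq_empty_or_nonempty Q with hQe | hne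
  · rw [hQe]
    simp
  have hQpos : (0 : ℝ) < Q.card := by exact_mod_cast hne.card_pos
  set G : Finset ι := Q.filter (fun p => ∀ j, ∀ q : ℕ, q.Prime → κ * ff M < |(q : ℝ) - A p j|)
    with hG
  have hGQ : G ⊆ Q := filter_subset _ _
  by_contra hlt
  rw [not_le] at hlt
  set s : Finset ι := Q \ G with hs
  have hscard : (s.card : ℝ) = Q.card - G.card := by
    rw [hs, card_sdiff_of_subset hGQ, Nat.cast_sub (card_le_card hGQ)]
  have hsbig : 3 / 4 * (Q.card : ℝ) ≤ s.card := by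
    rw [hscard]
    nlinarith
  obtain ⟨p, hp, hp2'⟩ := hcr ι s A (by
      rw [← Finset.card_pos]
      have : (0 : ℝ) < s.card := by linarith
      exact_mod_cast this) (fun p hp => hlow p (Finset.mem_sdiff.mp hp).1) (by
      intro q hq hqZ h hh hhZ
      have h1 := hexp q hq hqZ h hh hhZ
      have h2 : ∑ p ∈ s, e (∑ j, (h j : ℝ) * (A p j / q)) =
          ∑ p ∈ Q, e (∑ j, (h j : ℝ) * (A p j / q)) -
          ∑ p ∈ G, e (∑ j, (h j : ℝ) * (A p j / q)) := by
        rw [hs, ← sum_sdiff hGQ]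
        ring
      rw [h2]
      have h3 : ‖∑ p ∈ G, e (∑ j, (h j : ℝ) * (A p j / q))‖ ≤ G.card := by
        refine (norm_sum_le _ _).trans ?_
        simp only [norm_e, sum_const, nsmul_eq_mul, mul_one]
        exact le_rfl
      have h4 : 3 / 4 * (Q.card : ℝ) * M ^ (-η) ≤ s.card * M ^ (-η) := by gcongr
      calc _ ≤ _ := norm_sub_le _ _
        _ ≤ Q.card * M ^ (-η) / 8 + G.card := add_le_add h1 h3
        _ ≤ _ := by nlinarith)
  rw [hs] at hp
  have hp3' := Finset.mem_sdiff.mp hp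
  apply hp3'.2
  rw [hG]
  exact Finset.mem_filter.mpr ⟨hp3'.1, hp2'⟩

/-- several smooth phases at the same time, record scale -/
theorem gen_vec_rec (r : ℕ) (hr : 1 ≤ r) (β : Fin r → ℝ) (c₁ τ : ℝ) (hc₁ : 0 < c₁) (hτ : 0 ≤ τ)
    (hβ : LinDio β c₁ τ) (ε : ℝ) (hε : 0 < ε) (hε1 : ε ≤ 1) (ε' : ℝ) (hε' : 0 < ε') :
    ∃ κ : ℝ, 0 < κ ∧ ∀ c C : ℝ, 0 < c → 1 ≤ C → ∀ᶠ Z : ℝ in atTop,
      ∀ (Φ Φ₁ Φ₁₂ : ℝ → ℝ → ℝ),
      (∀ x ∈ Set.Icc (0 : ℝ) 1, ∀ y ∈ Set.Icc (0 : ℝ) 1,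
        HasDerivWithinAt (fun s => Φ s y) (Φ₁ x y) (Set.Icc 0 1) x ∧
        HasDerivWithinAt (fun t => Φ₁ x t) (Φ₁₂ x y) (Set.Icc 0 1) y ∧
        c ≤ |Φ₁₂ x y| ∧ |Φ₁₂ x y| ≤ C) →
      (∀ x ∈ Set.Icc (0 : ℝ) 1, ∀ x' ∈ Set.Icc (0 : ℝ) 1, ∀ y ∈ Set.Icc (0 : ℝ) 1,
        |Φ₁₂ x y - Φ₁₂ x' y| ≤ C * |x - x'|) →
      ∀ (T U V : ℝ) (X Y : Finset ℝ) (f g : Fin r → ℝ → ℝ),
      Z ^ ε ≤ U → Z ^ ε ≤ V → V ≤ Z → Z ^ ε ≤ |T| → |T| ≤ U * V * Z ^ (-ε) →
      (∀ x ∈ X, 0 ≤ x ∧ x ≤ U) → (∀ x ∈ X, ∀ x' ∈ X, x ≠ x' → 1 ≤ |x - x'|) →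
      (∀ y ∈ Y, 0 ≤ y ∧ y ≤ V) → (∀ y ∈ Y, ∀ y' ∈ Y, y ≠ y' → 1 ≤ |y - y'|) →
      U * V * Z ^ (-(ε / 2)) ≤ (X.card : ℝ) * Y.card →
      (∀ x ∈ X, ∀ y ∈ Y, ∀ j, Z ^ ε ≤ β j * (T * Φ (x / U) (y / V)) + f j x + g j y) →
      (X.card : ℝ) * Y.card * Z ^ (-ε') ≤
        (((X ×ˢ Y).filter (fun p : ℝ × ℝ => ∀ j, ∀ q : ℕ, q.Prime → κ * ff Z <
          |(q : ℝ) - (β j * (T * Φ (p.1 / U) (p.2 / V)) + f j p.1 + g j p.2)|)).card : ℝ) := by
  obtain ⟨η, hη⟩ : ∃ η : ℝ, η = ε / 64 := ⟨_, rfl⟩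
  have hη0 : 0 < η := by rw [hη]; positivity
  obtain ⟨η', hη'0, hη'1, hη'2, hη'3⟩ : ∃ η' : ℝ, 0 < η' ∧ η' * (τ + 1) + η' ≤ η / 2 ∧
      η' ≤ η / 2 ∧ η' ≤ ε' / 2 := by
    have e1 : η / (2 * (τ + 2)) * (τ + 1) + η / (2 * (τ + 2)) = η / 2 := by field_simp; ring
    have e2 : min (η / (2 * (τ + 2))) (ε' / 2) * (τ + 1) ≤ η / (2 * (τ + 2)) * (τ + 1) :=
      mul_le_mul_of_nonneg_right (min_le_left _ _) (by linarith)
    have e3 := min_le_left (η / (2 * (τ + 2))) (ε' / 2)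
    have e4 : 0 < min (η / (2 * (τ + 2))) (ε' / 2) := lt_min (by positivity) (by positivity)
    have e5 : 0 ≤ η / (2 * (τ + 2)) * (τ + 1) := by positivity
    exact ⟨_, e4, by linarith, by linarith, min_le_right _ _⟩
  obtain ⟨κ, hκ, hcrit⟩ := crit_countJ r hr η' hη'0 (by linarith)
  refine ⟨κ, hκ, fun c C hc hC => ?_⟩
  set S : ℝ := ∑ j, |β j| with hS
  have hS0 : 0 ≤ S := Finset.sum_nonneg fun _ _ => abs_nonneg _
  filter_upwards [hcrit, gen_bound ε hε η hη c C hc hC, eventually_ge_atTop (2 : ℝ),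
    (tendsto_rpow_atTop (show (0:ℝ) < η / 2 by positivity)).eventually_ge_atTop (1 / c₁),
    (tendsto_rpow_atTop (show (0:ℝ) < η by positivity)).eventually_ge_atTop S,
    ev_pow (-ε') (-η') 2 (by linarith)] with
    Z hcr hbd hZ2 hp1 hp2 hp3
  intro Φ Φ₁ Φ₁₂ hΦ1 hΦ2 T U V X Y f g hU hV hVZ hT1 hT2 hX0 hX hY0 hY hXY hlow
  have hZ0 : 0 < Z := by linarith
  have hZ1 : 1 ≤ Z := by linarith
  have hE : ∀ x y : ℝ, x ≤ y → Z ^ x ≤ Z ^ y := fun x y h =>
    Real.rpow_le_rpow_of_exponent_le hZ1 h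
  have hU0 : 0 < U := lt_of_lt_of_le (by positivity) hU
  have hV0 : 0 < V := lt_of_lt_of_le (by positivity) hV
  have hXYpos : (0 : ℝ) < (X.card : ℝ) * Y.card := lt_of_lt_of_le (by positivity) hXY
  have hcard : ((X ×ˢ Y).card : ℝ) = (X.card : ℝ) * Y.card := by
    rw [card_product]
    push_cast
    rfl
  have key := hcr (ℝ × ℝ) (X ×ˢ Y)
    (fun p j => β j * (T * Φ (p.1 / U) (p.2 / V)) + f j p.1 + g j p.2) (by
      intro p hp j
      rw [Finset.mem_product] at hp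
      refine le_trans ?_ (hlow p.1 hp.1 p.2 hp.2 j)
      exact hE _ _ (by linarith)) (by
      intro q hq hqZ h hh hhZ
      have hq1 : (1 : ℝ) ≤ q := by exact_mod_cast hq
      have hq0 : (0 : ℝ) < q := by linarith
      set B : ℝ := ∑ j, (h j : ℝ) * β j with hB
      have hBlo : c₁ * (Z ^ η') ^ (-τ) ≤ |B| := hβ (Z ^ η') h hh hhZ
      have hBhi : |B| ≤ Z ^ η' * S := by
        rw [hB, hS, Finset.mul_sum]
        refine (Finset.abs_sum_le_sum_abs _ _).trans (Finset.sum_le_sum fun j _ => ?_)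
        rw [abs_mul]
        exact mul_le_mul_of_nonneg_right (hhZ j) (abs_nonneg _)
      set θ : ℝ := B / q * T with hθ
      have habs : |θ| = |B| / q * |T| := by
        rw [hθ, abs_mul, abs_div, Nat.abs_cast]
      have hBq1 : Z ^ (-η) ≤ |B| / q := by
        rw [le_div_iff₀ hq0]
        have h1 : 1 ≤ c₁ * Z ^ (η / 2) := by
          rw [div_le_iff₀ hc₁] at hp1
          linarith
        calc Z ^ (-η) * q ≤ Z ^ (-η) * Z ^ η' := by gcongr
          _ = Z ^ (-η) * Z ^ η' * 1 := (mul_one _).symm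
          _ ≤ Z ^ (-η) * Z ^ η' * (c₁ * Z ^ (η / 2)) := by gcongr
          _ = c₁ * (Z ^ (-η) * Z ^ η' * Z ^ (η / 2)) := by ring
          _ = c₁ * Z ^ (-η + η' + η / 2) := by rw [Real.rpow_add hZ0, Real.rpow_add hZ0]
          _ ≤ c₁ * (Z ^ η') ^ (-τ) := by
              rw [← Real.rpow_mul hZ0.le]
              exact mul_le_mul_of_nonneg_left (hE _ _ (by linarith)) hc₁.le
          _ ≤ |B| := hBlo
      have hBq2 : |B| / q ≤ Z ^ (4 * η) := by
        rw [div_le_iff₀ hq0]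
        calc |B| ≤ Z ^ η' * S := hBhi
          _ ≤ Z ^ η' * Z ^ η := by gcongr
          _ = Z ^ (η' + η) := (Real.rpow_add hZ0 _ _).symm
          _ ≤ Z ^ (4 * η) * 1 := by rw [mul_one]; exact hE _ _ (by linarith)
          _ ≤ Z ^ (4 * η) * q := by gcongr
      have hb := hbd Φ Φ₁ Φ₁₂ hΦ1 hΦ2 θ U V X Y (fun x => e ((∑ j, (h j : ℝ) * f j x) / q))
        (fun y => e ((∑ j, (h j : ℝ) * g j y) / q)) hU hV hVZ (by
          rw [habs]
          calc Z ^ (ε - η) = Z ^ (-η) * Z ^ ε := by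
                rw [← Real.rpow_add hZ0]
                congr 1
                ring
            _ ≤ |B| / q * |T| := by gcongr) (by
          rw [habs]
          calc |B| / q * |T| ≤ Z ^ (4 * η) * (U * V * Z ^ (-ε)) := by gcongr
            _ = U * V * (Z ^ (4 * η) * Z ^ (-ε)) := by ring
            _ = U * V * Z ^ (4 * η - ε) := by
                rw [← Real.rpow_add hZ0]
                congr 2) hX0 hX hY0 hY hXY
        (fun x => (norm_e _).le) (fun y => (norm_e _).le)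
      have hsum : ∑ p ∈ X ×ˢ Y, e (∑ j, (h j : ℝ) *
          ((β j * (T * Φ (p.1 / U) (p.2 / V)) + f j p.1 + g j p.2) / q)) =
          ∑ x ∈ X, ∑ y ∈ Y, e ((∑ j, (h j : ℝ) * f j x) / q) *
            e ((∑ j, (h j : ℝ) * g j y) / q) * e (θ * Φ (x / U) (y / V)) := by
        rw [sum_product]
        refine sum_congr rfl fun x _ => sum_congr rfl fun y _ => ?_
        rw [← e_add, ← e_add]
        congr 1
        rw [hθ, hB, Finset.sum_div, Finset.sum_div, Finset.sum_div, Finset.sum_mul, Finset.sum_mul,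
          ← Finset.sum_add_distrib, ← Finset.sum_add_distrib]
        apply Finset.sum_congr rfl
        intro j _
        ring
      rw [hsum, hcard]
      refine hb.trans ?_
      have h6 : Z ^ (-(4 * η)) ≤ Z ^ (-η') := hE _ _ (by linarith)
      have h7 : 0 < Z ^ (-(4 * η)) := Real.rpow_pos_of_pos hZ0 _
      have h8 : (X.card : ℝ) * Y.card * Z ^ (-(4 * η)) ≤ (X.card : ℝ) * Y.card * Z ^ (-η') :=
        mul_le_mul_of_nonneg_left h6 hXYpos.le
      linarith)
  rw [hcard] at key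
  refine le_trans ?_ key
  have h6 : (X.card : ℝ) * Y.card * (2 * Z ^ (-ε')) ≤ (X.card : ℝ) * Y.card * Z ^ (-η') := by
    gcongr
  linarith

/-- **Sums of two square roots, record scale.** -/
theorem sqrt_sums_rec (r : ℕ) (hr : 1 ≤ r) (c d : Fin r → ℝ) (hc : ∀ j, 0 < c j) (hd : ∀ j, 0 < d j)
    (c₁ τ : ℝ) (hc₁ : 0 < c₁) (hτ : 0 ≤ τ) (hβ : LinDio (fun j => c j * d j) c₁ τ)
    (δ : ℝ) (hδ : 0 < δ) (hδ1 : δ < 1 / 2) (ε' : ℝ) (hε' : 0 < ε') :
    ∃ κ : ℝ, 0 < κ ∧ ∀ᶠ Z : ℝ in atTop,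
      ∀ A B : Finset ℝ, (∀ a ∈ A, Z ≤ a ∧ a ≤ 2 * Z) → (∀ a ∈ A, ∀ a' ∈ A, a ≠ a' → 1 ≤ |a - a'|) →
      (∀ b ∈ B, Z ≤ b ∧ b ≤ 2 * Z) → (∀ b ∈ B, ∀ b' ∈ B, b ≠ b' → 1 ≤ |b - b'|) →
      Z ^ (3 / 2 + δ) ≤ (A.card : ℝ) * B.card →
      (A.card : ℝ) * B.card * Z ^ (-ε') ≤
        (((A ×ˢ B).filter (fun p : ℝ × ℝ => ∀ j, ∀ q : ℕ, q.Prime →
          κ * ff Z / (c j * Real.sqrt p.1 + d j * Real.sqrt p.2) <
          |Real.sqrt q - (c j * Real.sqrt p.1 + d j * Real.sqrt p.2)|)).card : ℝ) := by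
  set ε : ℝ := 1 - 2 * δ with hε
  have hε0 : 0 < ε := by linarith
  obtain ⟨κ, hκ, h⟩ := gen_vec_rec r hr (fun j => c j * d j) c₁ τ hc₁ hτ hβ ε hε0 (by linarith)
    ε' hε'
  refine ⟨κ / 3, by positivity, ?_⟩
  obtain ⟨m, hm, hmc⟩ : ∃ m : ℝ, 0 < m ∧ ∀ j, m ≤ c j := by
    have hne : (Finset.univ : Finset (Fin r)).Nonempty := ⟨⟨0, hr⟩, Finset.mem_univ _⟩
    refine ⟨Finset.univ.inf' hne c, ?_, fun j => Finset.inf'_le _ (Finset.mem_univ j)⟩
    rw [Finset.lt_inf'_iff]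
    exact fun j _ => hc j
  filter_upwards [h (1 / 8) 1 (by norm_num) le_rfl, eventually_ge_atTop (2 : ℝ),
    ev_pow ε 1 (1 / m ^ 2) (by linarith), ev_pow 1 (2 - ε) 2 (by linarith),
    ev_logsq (κ / 3) (m ^ 2) (by positivity), ev_ff] with
    Z hZ hZ2 hp1 hp2 hp4 hp5
  rw [Real.rpow_one] at hp1 hp2
  intro A B hA hA' hB hB' hAB
  have hZ0 : 0 < Z := by linarith
  have hlog : 0 < Real.log Z := Real.log_pos (by linarith)
  have hffZ0 : 0 ≤ κ / 3 * ff Z := mul_nonneg (by positivity) hp5.1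
  have hlamlog : κ / 3 * ff Z ≤ m ^ 2 * Z := by
    have g3 : κ / 3 * ff Z ≤ κ / 3 * Real.log Z ^ 2 :=
      mul_le_mul_of_nonneg_left hp5.2 (by positivity)
    linarith
  have hinj : Function.Injective (fun a : ℝ => a - Z) := fun a b hab => by
    simp only at hab
    linarith
  set X : Finset ℝ := A.image (fun a => a - Z) with hX
  set Y : Finset ℝ := B.image (fun b => b - Z) with hY
  have hXc : (X.card : ℝ) = A.card := by rw [hX, Finset.card_image_of_injective _ hinj]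
  have hYc : (Y.card : ℝ) = B.card := by rw [hY, Finset.card_image_of_injective _ hinj]
  have hsqrt : ∀ s : ℝ, 0 ≤ s → s ≤ 1 → 1 ≤ Real.sqrt (1 + s) ∧ Real.sqrt (1 + s) ^ 2 ≤ 2 := by
    intro s h0 h1
    refine ⟨Real.one_le_sqrt.2 (by linarith), ?_⟩
    rw [Real.sq_sqrt (by linarith)]
    linarith
  have key := hZ
    (fun s t => Real.sqrt (1 + s) * Real.sqrt (1 + t))
    (fun s t => 1 / (2 * Real.sqrt (1 + s)) * Real.sqrt (1 + t))
    (fun s t => 1 / (2 * Real.sqrt (1 + s)) * (1 / (2 * Real.sqrt (1 + t))))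
    (by
      intro x hx y hy
      have hder : ∀ s : ℝ, s ∈ Set.Icc (0:ℝ) 1 →
          HasDerivWithinAt (fun s => Real.sqrt (1 + s)) (1 / (2 * Real.sqrt (1 + s)))
            (Set.Icc 0 1) s := by
        intro s hs
        have h1 : HasDerivAt (fun s : ℝ => 1 + s) 1 s := (hasDerivAt_id s).const_add 1
        have h2 := h1.sqrt (by linarith [hs.1] : (1:ℝ) + s ≠ 0)
        exact h2.hasDerivWithinAt
      obtain ⟨x1, x2⟩ := hsqrt x hx.1 hx.2
      obtain ⟨y1, y2⟩ := hsqrt y hy.1 hy.2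
      have hxy : 0 < Real.sqrt (1 + x) * Real.sqrt (1 + y) := by positivity
      have hxy2 : Real.sqrt (1 + x) * Real.sqrt (1 + y) ≤ 2 := by
        nlinarith [sq_nonneg (Real.sqrt (1 + x) - Real.sqrt (1 + y))]
      have hxy1 : 1 ≤ Real.sqrt (1 + x) * Real.sqrt (1 + y) := by nlinarith
      have e1 : 1 / (2 * Real.sqrt (1 + x)) * (1 / (2 * Real.sqrt (1 + y))) =
          1 / (4 * (Real.sqrt (1 + x) * Real.sqrt (1 + y))) := by
        rw [one_div_mul_one_div]
        congr 1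
        ring
      refine ⟨(hder x hx).mul_const _, (hder y hy).const_mul _, ?_, ?_⟩
      · rw [e1, abs_of_pos (by positivity)]
        apply one_div_le_one_div_of_le (by positivity)
        linarith
      · rw [e1, abs_of_pos (by positivity), div_le_one (by positivity)]
        linarith)
    (by
      intro x hx x' hx' y hy
      obtain ⟨y1, y2⟩ := hsqrt y hy.1 hy.2
      rw [← sub_mul, abs_mul, mul_comm]
      have h1 := inv_sqrt_lip x x' hx.1 hx'.1
      have h2 : |1 / (2 * Real.sqrt (1 + y))| ≤ 1 := by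
        rw [abs_of_pos (by positivity), div_le_one (by positivity)]
        linarith
      exact mul_le_mul h2 h1 (abs_nonneg _) zero_le_one)
    (2 * Z) Z Z X Y (fun j x => (c j) ^ 2 * (x + Z)) (fun j y => (d j) ^ 2 * (y + Z))
    (by
      calc Z ^ ε ≤ Z ^ (1:ℝ) := Real.rpow_le_rpow_of_exponent_le (by linarith) (by linarith)
        _ = Z := Real.rpow_one Z)
    (by
      calc Z ^ ε ≤ Z ^ (1:ℝ) := Real.rpow_le_rpow_of_exponent_le (by linarith) (by linarith)
        _ = Z := Real.rpow_one Z)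
    le_rfl
    (by
      rw [abs_of_pos (by linarith)]
      calc Z ^ ε ≤ Z ^ (1:ℝ) := Real.rpow_le_rpow_of_exponent_le (by linarith) (by linarith)
        _ = Z := Real.rpow_one Z
        _ ≤ 2 * Z := by linarith)
    (by
      rw [abs_of_pos (by linarith)]
      have e1 : Z * Z * Z ^ (-ε) = Z ^ (2 - ε) := by
        rw [sub_eq_add_neg, Real.rpow_add hZ0, Real.rpow_two]
        ring
      rw [e1]
      exact hp2)
    (by
      intro x hx
      obtain ⟨a, ha, rfl⟩ := Finset.mem_image.1 hx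
      have := hA a ha
      constructor <;> linarith)
    (by
      intro x hx x' hx' hne
      obtain ⟨a, ha, rfl⟩ := Finset.mem_image.1 hx
      obtain ⟨a', ha', rfl⟩ := Finset.mem_image.1 hx'
      have h1 : a ≠ a' := fun h => hne (by rw [h])
      have h2 := hA' a ha a' ha' h1
      rw [sub_sub_sub_cancel_right]
      exact h2)
    (by
      intro x hx
      obtain ⟨a, ha, rfl⟩ := Finset.mem_image.1 hx
      have := hB a ha
      constructor <;> linarith)
    (by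
      intro x hx x' hx' hne
      obtain ⟨a, ha, rfl⟩ := Finset.mem_image.1 hx
      obtain ⟨a', ha', rfl⟩ := Finset.mem_image.1 hx'
      have h1 : a ≠ a' := fun h => hne (by rw [h])
      have h2 := hB' a ha a' ha' h1
      rw [sub_sub_sub_cancel_right]
      exact h2)
    (by
      rw [hXc, hYc]
      have e1 : Z * Z * Z ^ (-(ε / 2)) = Z ^ (3 / 2 + δ) := by
        have e2 : (3 / 2 + δ : ℝ) = 2 + -(ε / 2) := by rw [hε]; ring
        rw [e2, Real.rpow_add hZ0, Real.rpow_two]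
        ring
      rw [e1]
      exact hAB)
    (by
      intro x hx y hy j
      obtain ⟨a, ha, rfl⟩ := Finset.mem_image.1 hx
      obtain ⟨b, hb, rfl⟩ := Finset.mem_image.1 hy
      have ha1 := hA a ha
      have hb1 := hB b hb
      have h1 : 0 ≤ c j * d j * (2 * Z * (Real.sqrt (1 + (a - Z) / Z) *
          Real.sqrt (1 + (b - Z) / Z))) := by
        have := hc j
        have := hd j
        positivity
      have h2 : 0 ≤ d j ^ 2 * (b - Z + Z) := by
        have : 0 ≤ b - Z + Z := by linarith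
        positivity
      have h3 : Z ^ ε ≤ c j ^ 2 * (a - Z + Z) := by
        have e1 : Z ^ ε ≤ m ^ 2 * Z := by
          have : 1 / m ^ 2 * Z ^ ε ≤ Z := hp1
          rw [one_div, inv_mul_eq_div, div_le_iff₀ (by positivity)] at this
          linarith
        refine e1.trans ?_
        have e2 : m ^ 2 ≤ c j ^ 2 := pow_le_pow_left₀ hm.le (hmc j) 2
        calc m ^ 2 * Z ≤ c j ^ 2 * Z := mul_le_mul_of_nonneg_right e2 hZ0.le
          _ ≤ c j ^ 2 * (a - Z + Z) := by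
            apply mul_le_mul_of_nonneg_left _ (by positivity)
            linarith
      linarith)
  rw [hXc, hYc] at key
  refine key.trans ?_
  rw [Nat.cast_le]
  apply Finset.card_le_card_of_injOn (fun p => (p.1 + Z, p.2 + Z))
  · intro p hp
    rw [Finset.mem_coe, Finset.mem_filter, Finset.mem_product] at hp
    obtain ⟨⟨h1, h2⟩, h3⟩ := hp
    obtain ⟨a, ha, ha2⟩ := Finset.mem_image.1 h1
    obtain ⟨b, hb, hb2⟩ := Finset.mem_image.1 h2
    have ea : p.1 + Z = a := by linarith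
    have eb : p.2 + Z = b := by linarith
    rw [Finset.mem_coe, Finset.mem_filter, Finset.mem_product]
    simp only
    rw [ea, eb]
    refine ⟨⟨ha, hb⟩, fun j q hq => ?_⟩
    have hja := hA a ha
    have hjb := hB b hb
    have hcj := hc j
    have hdj := hd j
    have hsa : 0 < Real.sqrt a := Real.sqrt_pos.2 (by linarith)
    have hsb : 0 < Real.sqrt b := Real.sqrt_pos.2 (by linarith)
    have hx0 : 0 < c j * Real.sqrt a + d j * Real.sqrt b := by positivity
    apply root_far _ _ hx0 (by positivity)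
    · refine hlamlog.trans ?_
      have g1 : m ≤ c j := hmc j
      have g2 : Real.sqrt Z ≤ Real.sqrt a := Real.sqrt_le_sqrt hja.1
      have g3 : m * Real.sqrt Z ≤ c j * Real.sqrt a + d j * Real.sqrt b := by
        have : m * Real.sqrt Z ≤ c j * Real.sqrt a :=
          mul_le_mul g1 g2 (Real.sqrt_nonneg _) hcj.le
        have : 0 ≤ d j * Real.sqrt b := by positivity
        linarith
      calc m ^ 2 * Z = (m * Real.sqrt Z) ^ 2 := by rw [mul_pow, Real.sq_sqrt hZ0.le]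
        _ ≤ _ := pow_le_pow_left₀ (by positivity) g3 2
    · have h4 := h3 j q hq
      have e1 : c j * d j * (2 * Z * (Real.sqrt (1 + p.1 / Z) * Real.sqrt (1 + p.2 / Z))) +
          c j ^ 2 * (p.1 + Z) + d j ^ 2 * (p.2 + Z) = (c j * Real.sqrt a + d j * Real.sqrt b) ^ 2 := by
        have e2 : Real.sqrt (1 + p.1 / Z) = Real.sqrt a / Real.sqrt Z := by
          rw [← Real.sqrt_div' _ hZ0.le, ← ea]
          congr 1
          field_simp
          ring
        have e3 : Real.sqrt (1 + p.2 / Z) = Real.sqrt b / Real.sqrt Z := by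
          rw [← Real.sqrt_div' _ hZ0.le, ← eb]
          congr 1
          field_simp
          ring
        have e4 : Real.sqrt Z * Real.sqrt Z = Z := Real.mul_self_sqrt hZ0.le
        have e5 : Real.sqrt a * Real.sqrt a = a := Real.mul_self_sqrt (by linarith)
        have e6 : Real.sqrt b * Real.sqrt b = b := Real.mul_self_sqrt (by linarith)
        have e7 : 0 < Real.sqrt Z := Real.sqrt_pos.2 hZ0
        have e8 : Z * (Real.sqrt a / Real.sqrt Z * (Real.sqrt b / Real.sqrt Z)) =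
            Real.sqrt a * Real.sqrt b := by
          rw [div_mul_div_comm, e4]
          field_simp
        rw [e2, e3, ea, eb]
        calc c j * d j * (2 * Z * (Real.sqrt a / Real.sqrt Z * (Real.sqrt b / Real.sqrt Z))) +
              c j ^ 2 * a + d j ^ 2 * b = 2 * (c j * d j) * (Z * (Real.sqrt a / Real.sqrt Z *
              (Real.sqrt b / Real.sqrt Z))) + c j ^ 2 * (Real.sqrt a * Real.sqrt a) +
              d j ^ 2 * (Real.sqrt b * Real.sqrt b) := by rw [e5, e6]; ring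
          _ = _ := by rw [e8]; ring
      rw [e1] at h4
      have e9 : 3 * (κ / 3 * ff Z) = κ * ff Z := by ring
      rw [e9]
      exact h4
  · intro p _ p' _ hpp
    simp only [Prod.mk.injEq] at hpp
    exact Prod.ext (by linarith [hpp.1]) (by linarith [hpp.2])

end Pool.Agent.T2h81.LD
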