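import Pool.Agent.T2h81.LD.H9
import Pool.Agent.T2h81.LD.H7

set_option autoImplicit false
set_option linter.unusedSectionVars false
set_option linter.unusedVariables false
set_option maxHeartbeats 4000000

/-! # Record scale: `√n` and `c √n + d` and the square roots of the primes -/

namespace Pool.Agent.T2h81.LD

open Finset Filter
open Pool.Agent.H469R2.NK (e norm_e e_add)
open Pool.Agent.W147.PS (ff ff_compare ev_pow)
open Pool.Agent.Y961.JR (class_param crit_scaled1J)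

open scoped Classical

/-- the joint criterion at record scale for an integer and real numbers, with the number of the good members -/
theorem crit_count1J (r : ℕ) (hr : 1 ≤ r) (η : ℝ) (h0 : 0 < η) (h1 : η ≤ 1) :
    ∃ κ : ℝ, 0 < κ ∧ ∀ᶠ M : ℝ in atTop,
    ∀ (ι : Type) (s : Finset ι) (u : ι → ℤ) (a : ι → Fin r → ℝ),
    (∀ i ∈ s, M ^ η ≤ (u i : ℝ)) → (∀ i ∈ s, ∀ j, M ^ η ≤ a i j) →
    (∀ q : ℕ, 1 ≤ q → (q : ℝ) ≤ M ^ η → ∀ b : ℤ,
      |((s.filter (fun i => (q : ℤ) ∣ u i - b)).card : ℝ) - s.card / q| ≤ s.card * M ^ (-η) / 8 ∧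
      ∀ h : Fin r → ℤ, h ≠ 0 → (∀ j, |(h j : ℝ)| ≤ M ^ η) →
      ‖∑ i ∈ s.filter (fun i => (q : ℤ) ∣ u i - b), e (∑ j, (h j : ℝ) * (a i j / q))‖ ≤
        s.card * M ^ (-η) / 8) →
    (s.card : ℝ) * M ^ (-η) / 4 ≤
      ((s.filter (fun i => (∀ q : ℕ, q.Prime → κ * ff M < |(q : ℝ) - u i|) ∧
        ∀ j, ∀ q : ℕ, q.Prime → κ * ff M < |(q : ℝ) - a i j|)).card : ℝ) := by
  obtain ⟨κ, hκ, hcrit⟩ := crit_scaled1J r hr η h0 h1
  refine ⟨κ, hκ, ?_⟩
  filter_upwards [hcrit, eventually_ge_atTop (1 : ℝ), ev_pow (-η) 0 1 (by linarith)]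
    with M hcr hM1 hM2
  intro ι Q u A hu hlow hexp
  rw [Real.rpow_zero, one_mul] at hM2
  have hM0 : 0 < M := by linarith
  have hz0 : 0 < M ^ (-η) := by positivity
  rcases Finset.eq_empty_or_nonempty Q with hQe | hne
  · rw [hQe]
    simp
  have hQpos : (0 : ℝ) < Q.card := by exact_mod_cast hne.card_pos
  set G : Finset ι := Q.filter (fun p => (∀ q : ℕ, q.Prime → κ * ff M < |(q : ℝ) - u p|) ∧
    ∀ j, ∀ q : ℕ, q.Prime → κ * ff M < |(q : ℝ) - A p j|) with hG
  have hGQ : G ⊆ Q := filter_subset _ _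
  by_contra hlt
  rw [not_le] at hlt
  set s : Finset ι := Q \ G with hs
  have hscard : (s.card : ℝ) = Q.card - G.card := by
    rw [hs, card_sdiff_of_subset hGQ, Nat.cast_sub (card_le_card hGQ)]
  have hsbig : 3 / 4 * (Q.card : ℝ) ≤ s.card := by
    rw [hscard]
    nlinarith
  have hfin : 3 / 4 * (Q.card : ℝ) * M ^ (-η) ≤ s.card * M ^ (-η) := by gcongr
  obtain ⟨p, hp, hp1', hp2'⟩ := hcr ι s u A (by
      rw [← Finset.card_pos]
      have : (0 : ℝ) < s.card := by linarith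
      exact_mod_cast this) (fun p hp => hu p (Finset.mem_sdiff.mp hp).1)
      (fun p hp => hlow p (Finset.mem_sdiff.mp hp).1) (by
      intro q hq hqZ b
      obtain ⟨g1, g2⟩ := hexp q hq hqZ b
      have hq1 : (1 : ℝ) ≤ q := by exact_mod_cast hq
      constructor
      · have h2 : ((s.filter (fun i => (q : ℤ) ∣ u i - b)).card : ℝ) =
            ((Q.filter (fun i => (q : ℤ) ∣ u i - b)).card : ℝ) -
            ((G.filter (fun i => (q : ℤ) ∣ u i - b)).card : ℝ) := by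
          have h3 : s.filter (fun i => (q : ℤ) ∣ u i - b) =
              (Q.filter (fun i => (q : ℤ) ∣ u i - b)) \ (G.filter (fun i => (q : ℤ) ∣ u i - b)) := by
            ext i
            simp only [hs, Finset.mem_filter, Finset.mem_sdiff]
            tauto
          rw [h3, card_sdiff_of_subset (filter_subset_filter _ hGQ),
            Nat.cast_sub (card_le_card (filter_subset_filter _ hGQ))]
        have h4 : ((G.filter (fun i => (q : ℤ) ∣ u i - b)).card : ℝ) ≤ G.card := by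
          exact_mod_cast card_le_card (filter_subset _ _)
        have h5 : (0 : ℝ) ≤ ((G.filter (fun i => (q : ℤ) ∣ u i - b)).card : ℝ) := Nat.cast_nonneg _
        have h6 : (G.card : ℝ) / q ≤ G.card := div_le_self (Nat.cast_nonneg _) hq1
        have h7 : (0 : ℝ) ≤ (G.card : ℝ) / q := by positivity
        rw [h2, hscard, sub_div]
        rw [abs_le] at g1 ⊢
        rw [hscard] at hfin
        constructor <;> nlinarith [g1.1, g1.2]
      · intro h hh hhZ
        have h1 := g2 h hh hhZ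
        have h2 : ∑ p ∈ s.filter (fun i => (q : ℤ) ∣ u i - b), e (∑ j, (h j : ℝ) * (A p j / q)) =
            ∑ p ∈ Q.filter (fun i => (q : ℤ) ∣ u i - b), e (∑ j, (h j : ℝ) * (A p j / q)) -
            ∑ p ∈ G.filter (fun i => (q : ℤ) ∣ u i - b), e (∑ j, (h j : ℝ) * (A p j / q)) := by
          have h3 : s.filter (fun i => (q : ℤ) ∣ u i - b) =
              (Q.filter (fun i => (q : ℤ) ∣ u i - b)) \ (G.filter (fun i => (q : ℤ) ∣ u i - b)) := by
            ext i
            simp only [hs, Finset.mem_filter, Finset.mem_sdiff]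
            tauto
          rw [h3, ← sum_sdiff (filter_subset_filter _ hGQ)]
          ring
        rw [h2]
        have h3 : ‖∑ p ∈ G.filter (fun i => (q : ℤ) ∣ u i - b),
            e (∑ j, (h j : ℝ) * (A p j / q))‖ ≤ G.card := by
          refine (norm_sum_le _ _).trans ?_
          simp only [norm_e, sum_const, nsmul_eq_mul, mul_one]
          exact_mod_cast card_le_card (filter_subset _ _)
        calc _ ≤ _ := norm_sub_le _ _
          _ ≤ Q.card * M ^ (-η) / 8 + G.card := add_le_add h1 h3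
          _ ≤ _ := by nlinarith)
  rw [hs] at hp
  have hp3' := Finset.mem_sdiff.mp hp
  apply hp3'.2
  rw [hG]
  exact Finset.mem_filter.mpr ⟨hp3'.1, hp1', hp2'⟩

theorem shifts_rec (r : ℕ) (hr : 1 ≤ r) (c d : Fin r → ℝ) (hc : ∀ j, 0 < c j) (c₀ τ : ℝ)
    (hc₀ : 0 < c₀) (hτ : 0 ≤ τ) (hdio : ShiftDio c d c₀ τ) (ε : ℝ) (hε0 : 0 < ε) (hε : ε ≤ 1 / 2)
    (ε' : ℝ) (hε' : 0 < ε') :
    ∃ κ : ℝ, 0 < κ ∧ ∀ᶠ M : ℝ in atTop, ∀ N : ℝ, M ^ (1 / 2 + ε) ≤ N → N ≤ M →
      (∀ n ∈ Ioc ⌊M⌋₊ ⌊M + N⌋₊, ∀ j, 2 ≤ c j * Real.sqrt n + d j) ∧ 0 ≤ ff M ∧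
      N * M ^ (-ε') ≤ (((Ioc ⌊M⌋₊ ⌊M + N⌋₊).filter (fun n : ℕ =>
        (∀ q : ℕ, q.Prime → κ * ff M / Real.sqrt n < |Real.sqrt q - Real.sqrt n|) ∧
        ∀ j, ∀ q : ℕ, q.Prime → κ * ff M / (c j * Real.sqrt n + d j) <
          |Real.sqrt q - (c j * Real.sqrt n + d j)|)).card : ℝ) := by
  obtain ⟨η', hη'⟩ : ∃ η' : ℝ, η' = ε / (2 * (τ + 2)) := ⟨_, rfl⟩
  have hη'0 : 0 < η' := by rw [hη']; positivity
  have hη'τ : η' * (τ + 1) < ε := by
    rw [hη', div_mul_eq_mul_div, div_lt_iff₀ (by positivity)]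
    nlinarith
  have hη'ε : η' ≤ ε / 4 := by
    rw [hη']
    apply div_le_div_of_nonneg_left hε0.le (by norm_num)
    linarith
  obtain ⟨η, hη⟩ : ∃ η : ℝ, η = min (η' / 2) (ε' / 2) := ⟨_, rfl⟩
  have hη0 : 0 < η := by rw [hη]; exact lt_min (by positivity) (by positivity)
  have hη1 : η ≤ η' / 2 := by rw [hη]; exact min_le_left _ _
  have hη2 : η ≤ ε' / 2 := by rw [hη]; exact min_le_right _ _
  obtain ⟨κ, hκ, hcr⟩ := crit_count1J r hr η hη0 (by linarith)
  refine ⟨κ / 3, by positivity, ?_⟩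
  obtain ⟨m, hm, hmc⟩ : ∃ m : ℝ, 0 < m ∧ ∀ j, m ≤ c j := by
    have hne : (Finset.univ : Finset (Fin r)).Nonempty := ⟨⟨0, hr⟩, Finset.mem_univ _⟩
    refine ⟨Finset.univ.inf' hne c, ?_, fun j => Finset.inf'_le _ (Finset.mem_univ j)⟩
    rw [Finset.lt_inf'_iff]
    exact fun j _ => hc j
  set S : ℝ := ∑ j, |d j| with hS
  have hdS : ∀ j, -S ≤ d j := fun j => by
    have h1 : |d j| ≤ S := Finset.single_le_sum (f := fun j => |d j|) (fun _ _ => abs_nonneg _)
      (Finset.mem_univ j)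
    have := neg_abs_le (d j)
    linarith
  have t1 : ∀ᶠ M : ℝ in atTop, M ^ (1 / 4 : ℝ) ≤ m * Real.sqrt M - S := by
    filter_upwards [ev_pow (1 / 4) (1 / 2) (2 / m) (by norm_num),
      (tendsto_rpow_atTop (show (0:ℝ) < 1 / 4 by norm_num)).eventually_ge_atTop S] with M h1 h2
    rw [div_mul_eq_mul_div, div_le_iff₀ hm, ← Real.sqrt_eq_rpow] at h1
    linarith
  have t2 : ∀ᶠ M : ℝ in atTop, κ * Real.log M ^ 2 ≤ M ^ (1 / 4 : ℝ) := by
    have h3 : (fun x : ℝ => (Real.log x) ^ (2 : ℝ)) =o[atTop] fun x : ℝ => x ^ (1 / 4 : ℝ) :=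
      isLittleO_log_rpow_rpow_atTop 2 (by norm_num)
    have h4 := h3.bound (show (0:ℝ) < 1 / κ by positivity)
    filter_upwards [h4, eventually_ge_atTop (1:ℝ)] with M h5 h6
    rw [Real.norm_of_nonneg (Real.rpow_nonneg (Real.log_nonneg h6) _),
      Real.norm_of_nonneg (Real.rpow_nonneg (by linarith) _)] at h5
    have h7 : Real.log M ^ (2:ℝ) = Real.log M ^ 2 := by norm_num
    rw [h7, div_mul_eq_mul_div, one_mul, le_div_iff₀ hκ] at h5
    linarith
  filter_upwards [hcr, shift_sum r c d c₀ τ hc₀ hτ hdio ε η' hη'0 hη'τ hε, t1, t2, ev_ff,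
    eventually_ge_atTop (4 : ℝ),
    (tendsto_rpow_atTop (show (0:ℝ) < 1 / 4 by norm_num)).eventually_ge_atTop 2,
    ev_pow η (1 / 2 + ε) 16 (by linarith), ev_pow (-η') (-η) 8 (by linarith),
    ev_pow (-ε') (-η) 8 (by linarith)]
    with M hcr' hsum ht1 ht2 hff hM4 hp2 hp3 hp4 hp5
  intro N hN1 hN2
  have hM0 : 0 < M := by linarith
  have hM1 : 1 ≤ M := by linarith
  have hE : ∀ x y : ℝ, x ≤ y → M ^ x ≤ M ^ y := fun x y h =>
    Real.rpow_le_rpow_of_exponent_le hM1 h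
  have hN0 : 0 < N := lt_of_lt_of_le (by positivity) hN1
  set A : ℕ := ⌊M⌋₊ with hA
  set B : ℕ := ⌊M + N⌋₊ with hB
  have hAM : (A : ℝ) ≤ M := Nat.floor_le hM0.le
  have hAM2 : M < A + 1 := Nat.lt_floor_add_one M
  have hBM : (B : ℝ) ≤ M + N := Nat.floor_le (by linarith)
  have hBM2 : M + N < B + 1 := Nat.lt_floor_add_one (M + N)
  have hN2' : (2:ℝ) ≤ N := by
    have h2 : (2:ℝ) ≤ M ^ (1 / 2 + ε) := hp2.trans (hE _ _ (by linarith))
    linarith
  have hAB' : (A : ℝ) < B := by linarith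
  have hAB : A < B := by exact_mod_cast hAB'
  have hmem : ∀ n ∈ Ioc A B, M ≤ (n : ℝ) := by
    intro n hn
    have h1 := (Finset.mem_Ioc.1 hn).1
    have h2 : ((A + 1 : ℕ) : ℝ) ≤ n := by exact_mod_cast h1
    push_cast at h2
    linarith
  have hx : ∀ n ∈ Ioc A B, ∀ j, M ^ (1 / 4 : ℝ) ≤ c j * Real.sqrt n + d j := by
    intro n hn j
    have h1 : m * Real.sqrt M ≤ c j * Real.sqrt n :=
      mul_le_mul (hmc j) (Real.sqrt_le_sqrt (hmem n hn)) (Real.sqrt_nonneg _) (hc j).le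
    have h2 := hdS j
    linarith
  have hcard : ((Ioc A B).card : ℝ) = (B : ℝ) - A := by
    rw [Nat.card_Ioc, Nat.cast_sub hAB.le]
  have hNhalf : N / 2 ≤ (Ioc A B).card := by
    rw [hcard]; linarith
  have hM14 : 0 < M ^ (1 / 4 : ℝ) := by positivity
  have hM12 : M ^ (1 / 4 : ℝ) * M ^ (1 / 4 : ℝ) = M ^ (1 / 2 : ℝ) := by
    rw [← Real.rpow_add hM0]; norm_num
  refine ⟨fun n hn j => hp2.trans (hx n hn j), hff.1, ?_⟩
  have hw : κ / 3 * ff M ≤ M ^ (1 / 4 : ℝ) := by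
    have h1 : κ * ff M ≤ κ * Real.log M ^ 2 := mul_le_mul_of_nonneg_left hff.2 hκ.le
    have h2 : 0 ≤ κ * ff M := mul_nonneg hκ.le hff.1
    linarith
  have hw0 : 0 ≤ κ / 3 * ff M := mul_nonneg (by positivity) hff.1
  have key := hcr' ℕ (Ioc A B) (fun n => (n : ℤ))
    (fun n j => (c j * Real.sqrt n + d j) ^ 2)
    (fun n hn => by
      have h1 := hmem n hn
      push_cast
      calc M ^ η ≤ M ^ (1:ℝ) := hE _ _ (by linarith)
        _ = M := Real.rpow_one M
        _ ≤ n := h1)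
    (fun n hn j => by
      have h1 := hx n hn j
      calc M ^ η ≤ M ^ (1 / 2 : ℝ) := hE _ _ (by linarith)
        _ = M ^ (1 / 4 : ℝ) * M ^ (1 / 4 : ℝ) := hM12.symm
        _ ≤ (c j * Real.sqrt n + d j) * (c j * Real.sqrt n + d j) :=
            mul_le_mul h1 h1 hM14.le (by linarith)
        _ = _ := by ring)
    (by
      intro q hq hqM b
      have hqM' : (q : ℝ) ≤ M ^ η' := hqM.trans (hE _ _ (by linarith))
      constructor
      · obtain ⟨n₀, L, g1, g2, g3, g4, g5, g6⟩ := class_param A B q hq hAB.le b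
        rw [g5, hcard]
        refine g3.trans ?_
        rw [← hcard]
        have h1 : N / 2 * M ^ (-η) / 8 ≤ ((Ioc A B).card : ℝ) * M ^ (-η) / 8 := by
          have := mul_le_mul_of_nonneg_right hNhalf (Real.rpow_nonneg hM0.le (-η))
          linarith
        refine le_trans ?_ h1
        have h2 : 16 ≤ N * M ^ (-η) := by
          rw [Real.rpow_neg hM0.le, ← div_eq_mul_inv, le_div_iff₀ (by positivity)]
          linarith
        linarith
      · intro h hh hhM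
        refine (hsum N hN1 hN2 q hq hqM' b h hh (fun j => (hhM j).trans (hE _ _ (by linarith)))).trans ?_
        have h1 : N / 2 * (8 * M ^ (-η')) ≤ N / 2 * M ^ (-η) :=
          mul_le_mul_of_nonneg_left hp4 (by linarith)
        have h2 := mul_le_mul_of_nonneg_right hNhalf (Real.rpow_nonneg hM0.le (-η))
        linarith)
  have h5 : N * M ^ (-ε') ≤ ((Ioc A B).card : ℝ) * M ^ (-η) / 4 := by
    have h1 : N / 8 * (8 * M ^ (-ε')) ≤ N / 8 * M ^ (-η) :=
      mul_le_mul_of_nonneg_left hp5 (by linarith)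
    have h2 := mul_le_mul_of_nonneg_right hNhalf (Real.rpow_nonneg hM0.le (-η))
    linarith
  refine h5.trans (key.trans ?_)
  rw [Nat.cast_le]
  apply Finset.card_le_card
  intro n hn
  rw [Finset.mem_filter] at hn ⊢
  obtain ⟨h1, h2, h3⟩ := hn
  have hMn := hmem n h1
  have hn0 : (0:ℝ) < n := by linarith
  refine ⟨h1, fun q hq => ?_, fun j q hq => ?_⟩
  · apply root_far _ _ (Real.sqrt_pos.2 hn0) hw0
    · rw [Real.sq_sqrt hn0.le]
      refine hw.trans (le_trans ?_ hMn)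
      calc M ^ (1 / 4 : ℝ) ≤ M ^ (1:ℝ) := hE _ _ (by norm_num)
        _ = M := Real.rpow_one M
    · have := h2 q hq
      rw [Real.sq_sqrt hn0.le]
      push_cast at this
      linarith
  · have hxj := hx n h1 j
    apply root_far _ _ (by linarith) hw0
    · refine hw.trans ?_
      calc M ^ (1 / 4 : ℝ) ≤ M ^ (1 / 2 : ℝ) := hE _ _ (by norm_num)
        _ = M ^ (1 / 4 : ℝ) * M ^ (1 / 4 : ℝ) := hM12.symm
        _ ≤ (c j * Real.sqrt n + d j) * (c j * Real.sqrt n + d j) :=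
            mul_le_mul hxj hxj hM14.le (by linarith)
        _ = _ := by ring
    · have := h3 j q hq
      linarith

end Pool.Agent.T2h81.LD
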