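import Pool.Agent.T2h81.LD.G12
import Pool.Agent.Y565.RG.BilinF

set_option autoImplicit false
set_option linter.unusedSectionVars false
set_option linter.unusedVariables false

/-! # Positive proportion: `α a b + f a + g b` over arbitrary dense sets

The argument of `Pool.Agent.Y565.RG` with the positive proportion criterion. -/

namespace Pool.Agent.T2h81.LD

open Finset Filter
open Pool.Agent.H469R2.NK (e norm_e e_add conj_e)
open Pool.Agent.W147.PS (ff ff_compare ev_pow)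
open Pool.Agent.TH915.PW (GS GS_frequent GS_eventually freq_approx)
open Pool.Agent.Y565.RG

open scoped Classical

/-- the criterion for one sequence of real numbers -/
theorem crit_ld_one (η : ℝ) (h0 : 0 < η) (h1 : η ≤ 1) : ∃ C : ℝ, 1 ≤ C ∧ ∀ᶠ M : ℝ in atTop,
    ∀ lam : ℝ, 1 ≤ lam → Real.exp (C * lam) ≤ Real.log M →
    ∀ (ι : Type) (s : Finset ι) (a : ι → ℝ), (∀ i ∈ s, M ^ η ≤ a i) →
    (∀ q h : ℕ, 1 ≤ q → (q : ℝ) ≤ M ^ η → 1 ≤ h → (h : ℝ) ≤ M ^ (4 * η) →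
      ‖∑ i ∈ s, e ((h : ℝ) / q * a i)‖ ≤ s.card * M ^ (-(4 * η)) / 8) →
    (s.card : ℝ) * Real.exp (-Real.exp (C * lam)) ≤
      ((s.filter (fun i => ∀ q : ℕ, q.Prime →
        lam * Real.log M < |(q : ℝ) - a i|)).card : ℝ) := by
  obtain ⟨C, hC, hcr⟩ := crit_ldJ 1 le_rfl η h0 h1
  refine ⟨C, hC, ?_⟩
  filter_upwards [hcr, eventually_ge_atTop (1:ℝ)] with M hM hM1
  intro lam hlam hlamM ι s a ha hE
  have hM0 : 0 < M := by linarith
  have key := hM lam hlam hlamM ι s (fun i _ => a i) (fun i hi _ => ha i hi) (by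
    intro q hq hqM h hh hhM
    have hq0 : (0:ℝ) < q := by exact_mod_cast hq
    have h00 : h 0 ≠ 0 := by
      intro h2
      apply hh
      funext j
      rw [Subsingleton.elim j 0, h2]
      rfl
    have hn1 : 1 ≤ (h 0).natAbs := Int.natAbs_pos.2 h00
    have hcast : (((h 0).natAbs : ℕ) : ℝ) = |(h 0 : ℝ)| := by
      rw [Nat.cast_natAbs]; push_cast; rfl
    have hMη : M ^ η ≤ M ^ (4 * η) := Real.rpow_le_rpow_of_exponent_le hM1 (by linarith)
    have h2 := hE q (h 0).natAbs hq hqM hn1 (by rw [hcast]; exact (hhM 0).trans hMη)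
    have h3 : ‖∑ i ∈ s, e (∑ j : Fin 1, (h j : ℝ) * (a i / q))‖ =
        ‖∑ i ∈ s, e ((((h 0).natAbs : ℕ) : ℝ) / q * a i)‖ := by
      rcases le_total 0 (h 0) with h4 | h4
      · have h5 : (((h 0).natAbs : ℕ) : ℝ) = (h 0 : ℝ) := by
          rw [hcast, abs_of_nonneg (by exact_mod_cast h4)]
        rw [h5]
        congr 1
        apply Finset.sum_congr rfl
        intro i _
        rw [Fin.sum_univ_one]
        congr 1
        ring
      · have h5 : (((h 0).natAbs : ℕ) : ℝ) = -(h 0 : ℝ) := by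
          rw [hcast, abs_of_nonpos (by exact_mod_cast h4)]
        rw [h5, ← Complex.norm_conj, map_sum]
        congr 1
        apply Finset.sum_congr rfl
        intro i _
        rw [Fin.sum_univ_one, conj_e]
        congr 1
        ring
    rw [h3]
    refine h2.trans ?_
    have h6 : M ^ (-(4 * η)) ≤ M ^ (-η) := Real.rpow_le_rpow_of_exponent_le hM1 (by linarith)
    have h7 : 0 < M ^ (-(4 * η)) := Real.rpow_pos_of_pos hM0 _
    have h8 : (s.card : ℝ) * M ^ (-(4 * η)) ≤ s.card * M ^ (-η) :=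
      mul_le_mul_of_nonneg_left h6 (Nat.cast_nonneg _)
    have h9 : 0 ≤ (s.card : ℝ) * M ^ (-(4 * η)) := mul_nonneg (Nat.cast_nonneg _) h7.le
    linarith)
  refine key.trans ?_
  rw [Nat.cast_le]
  apply Finset.card_le_card
  intro i hi
  rw [Finset.mem_filter] at hi ⊢
  exact ⟨hi.1, hi.2 0⟩

set_option maxHeartbeats 1000000 in
/-- the theorem at a good scale -/
theorem products_scale_ld (α : ℝ) (τ ε : ℝ) (hτ0 : 0 < τ) (hτ1 : τ ≤ 1 / 2) (hε : 0 < ε)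
    (hε1 : ε ≤ 1) :
    ∃ C : ℝ, 1 ≤ C ∧ ∀ᶠ Z : ℝ in atTop, GS α τ Z → ∀ lam : ℝ, 1 ≤ lam →
      Real.exp (C * lam) ≤ Real.log Z → ∀ (A B : Finset ℕ) (f g : ℕ → ℝ),
      (∀ a ∈ A, 1 ≤ a ∧ (a : ℝ) ≤ Z) → (∀ b ∈ B, 1 ≤ b ∧ (b : ℝ) ≤ Z) →
      Z ^ (2 - τ / 8) ≤ (A.card : ℝ) * B.card →
      (∀ a ∈ A, ∀ b ∈ B, Z ^ ε ≤ α * a * b + f a + g b) →
      (A.card : ℝ) * B.card * Real.exp (-Real.exp (C * lam)) ≤
        (((A ×ˢ B).filter (fun x : ℕ × ℕ => ∀ q : ℕ, q.Prime →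
          lam * Real.log Z < |(q : ℝ) - (α * x.1 * x.2 + f x.1 + g x.2)|)).card : ℝ) := by
  set η : ℝ := min (τ / 100) (ε / 8) with hη
  have hη0 : 0 < η := lt_min (by positivity) (by positivity)
  have hητ : η ≤ τ / 100 := min_le_left _ _
  have hηε : η ≤ ε / 8 := min_le_right _ _
  obtain ⟨C, hC, hcrit⟩ := crit_ld_one η hη0 (by linarith)
  refine ⟨C, hC, ?_⟩
  filter_upwards [hcrit, freq_approx τ η (τ / 4) hη0 (by positivity) (by linarith) (by linarith)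
      1 le_rfl, eventually_ge_atTop (2 : ℝ),
    (tendsto_rpow_atTop (show (0 : ℝ) < τ / 4 by positivity)).eventually_ge_atTop 4,
    ev_pow (2 - τ / 4 + 8 * η) (2 - τ / 8) (90 * 64) (by linarith),
    ev_pow (1 - τ / 4) 1 2 (by linarith), ev_pow (-ε) (-(4 * η)) 2 (by linarith)]
    with Z hcr hfr hZ2 hp1 hp2 hp3 hp4
  intro hGS lam hlam hlamZ A B f g hA hB hAB hlow
  rw [Real.rpow_one] at hp3
  have hZ0 : 0 < Z := by linarith
  have hZ1 : 1 ≤ Z := by linarith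
  set N : ℕ := ⌊Z⌋₊ with hN
  have hNZ : (N : ℝ) ≤ Z := Nat.floor_le hZ0.le
  have hNZ2 : Z / 2 ≤ (N : ℝ) := by
    have := Nat.lt_floor_add_one Z
    rw [← hN] at this
    linarith
  have hAN : A ⊆ Icc 1 N := fun a ha => by
    rw [Finset.mem_Icc]
    exact ⟨(hA a ha).1, Nat.le_floor (hA a ha).2⟩
  have hBN : B ⊆ Icc 1 N := fun b hb => by
    rw [Finset.mem_Icc]
    exact ⟨(hB b hb).1, Nat.le_floor (hB b hb).2⟩
  have hABpos : (0 : ℝ) < (A.card : ℝ) * B.card := lt_of_lt_of_le (by positivity) hAB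
  have hcard : ((A ×ˢ B).card : ℝ) = (A.card : ℝ) * B.card := by
    rw [card_product]
    push_cast
    rfl
  have key := hcr lam hlam hlamZ (ℕ × ℕ) (A ×ˢ B)
    (fun x => α * x.1 * x.2 + f x.1 + g x.2) (by
      intro x hx
      rw [Finset.mem_product] at hx
      refine le_trans ?_ (hlow x.1 hx.1 x.2 hx.2)
      exact Real.rpow_le_rpow_of_exponent_le hZ1 (by linarith)) (by
      intro q h hq hqZ hh hhZ
      obtain ⟨c, D, hcop, hD1, hD2, hap⟩ := hfr α hGS h q hh hhZ hq hqZ 0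
      simp only [Int.cast_zero, zero_div, add_zero] at hap
      set θ : ℝ := (h : ℝ) / q * α with hθ
      have hD4 : 4 ≤ D := by
        have : (4 : ℝ) ≤ D := hp1.trans hD1
        exact_mod_cast this
      have hDN : D ≤ N := by
        have : (D : ℝ) ≤ N := by linarith
        exact_mod_cast this
      have hbil := bilinear hcop hap hD4 N hDN A B hAN hBN
        (fun a => e ((h : ℝ) / q * f a)) (fun b => e ((h : ℝ) / q * g b))
        (fun a => (norm_e _).le) (fun b => (norm_e _).le)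
      have hsum : ∑ x ∈ A ×ˢ B, e ((h : ℝ) / q * (α * x.1 * x.2 + f x.1 + g x.2)) =
          ∑ a ∈ A, ∑ b ∈ B, e ((h : ℝ) / q * f a) * e ((h : ℝ) / q * g b) * e (θ * a * b) := by
        rw [sum_product]
        refine sum_congr rfl fun a _ => sum_congr rfl fun b _ => ?_
        rw [← e_add, ← e_add]
        congr 1
        rw [hθ]
        ring
      rw [hsum, hcard]
      refine le_of_sq_le_sq ?_ (by positivity)
      refine hbil.trans ?_
      have hD0 : (0 : ℝ) < D := by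
        have : (4 : ℝ) ≤ D := by exact_mod_cast hD4
        linarith
      have h1 : 90 * (N : ℝ) ^ 2 / D ≤ 90 * Z ^ (2 - τ / 4) := by
        rw [div_le_iff₀ hD0]
        have h2 : Z ^ (2 - τ / 4) * Z ^ (τ / 4) = Z ^ 2 := by
          rw [← Real.rpow_add hZ0]
          norm_num
        calc 90 * (N : ℝ) ^ 2 ≤ 90 * Z ^ 2 := by gcongr
          _ = 90 * Z ^ (2 - τ / 4) * Z ^ (τ / 4) := by rw [← h2]; ring
          _ ≤ _ := by gcongr
      have h3 : 90 * Z ^ (2 - τ / 4) * 64 ≤ (A.card : ℝ) * B.card * Z ^ (-(8 * η)) := by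
        rw [Real.rpow_neg hZ0.le, ← div_eq_mul_inv, le_div_iff₀ (by positivity)]
        have h4 : Z ^ (2 - τ / 4) * Z ^ (8 * η) = Z ^ (2 - τ / 4 + 8 * η) := by
          rw [← Real.rpow_add hZ0]
        calc 90 * Z ^ (2 - τ / 4) * 64 * Z ^ (8 * η) =
            90 * 64 * (Z ^ (2 - τ / 4) * Z ^ (8 * η)) := by ring
          _ = 90 * 64 * Z ^ (2 - τ / 4 + 8 * η) := by rw [h4]
          _ ≤ Z ^ (2 - τ / 8) := hp2
          _ ≤ _ := hAB
      have h5 : Z ^ (-(4 * η)) * Z ^ (-(4 * η)) = Z ^ (-(8 * η)) := by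
        rw [← Real.rpow_add hZ0]
        congr 1
        ring
      calc 90 * (N : ℝ) ^ 2 / D * ((A.card : ℝ) * B.card) ≤
          90 * Z ^ (2 - τ / 4) * ((A.card : ℝ) * B.card) := by gcongr
        _ = (90 * Z ^ (2 - τ / 4) * 64) * ((A.card : ℝ) * B.card) / 64 := by ring
        _ ≤ ((A.card : ℝ) * B.card * Z ^ (-(8 * η))) * ((A.card : ℝ) * B.card) / 64 := by gcongr
        _ = _ := by rw [← h5]; ring)
  rw [hcard] at key
  exact key

/-- both forms -/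
theorem products_both_ld (α : ℝ) (hirr : Irrational α) (ε : ℝ) (hε : 0 < ε) (hε1 : ε ≤ 1) :
    ∃ C : ℝ, 1 ≤ C ∧
      (∀ Z₁ : ℝ, ∃ Z : ℝ, Z₁ ≤ Z ∧ ∀ lam : ℝ, 1 ≤ lam → Real.exp (C * lam) ≤ Real.log Z →
        ∀ (A B : Finset ℕ) (f g : ℕ → ℝ),
        (∀ a ∈ A, 1 ≤ a ∧ (a : ℝ) ≤ Z) → (∀ b ∈ B, 1 ≤ b ∧ (b : ℝ) ≤ Z) →
        Z ^ (2 - 1 / 16 : ℝ) ≤ (A.card : ℝ) * B.card →
        (∀ a ∈ A, ∀ b ∈ B, Z ^ ε ≤ α * a * b + f a + g b) →
        (A.card : ℝ) * B.card * Real.exp (-Real.exp (C * lam)) ≤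
        (((A ×ˢ B).filter (fun x : ℕ × ℕ => ∀ q : ℕ, q.Prime →
          lam * Real.log Z < |(q : ℝ) - (α * x.1 * x.2 + f x.1 + g x.2)|)).card : ℝ)) ∧
      (¬ Liouville α → ∃ δ : ℝ, 0 < δ ∧ ∃ Z₀ : ℝ, ∀ Z : ℝ, Z₀ ≤ Z →
        ∀ lam : ℝ, 1 ≤ lam → Real.exp (C * lam) ≤ Real.log Z →
        ∀ (A B : Finset ℕ) (f g : ℕ → ℝ),
        (∀ a ∈ A, 1 ≤ a ∧ (a : ℝ) ≤ Z) → (∀ b ∈ B, 1 ≤ b ∧ (b : ℝ) ≤ Z) →
        Z ^ (2 - δ) ≤ (A.card : ℝ) * B.card →
        (∀ a ∈ A, ∀ b ∈ B, Z ^ ε ≤ α * a * b + f a + g b) →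
        (A.card : ℝ) * B.card * Real.exp (-Real.exp (C * lam)) ≤
        (((A ×ˢ B).filter (fun x : ℕ × ℕ => ∀ q : ℕ, q.Prime →
          lam * Real.log Z < |(q : ℝ) - (α * x.1 * x.2 + f x.1 + g x.2)|)).card : ℝ)) := by
  obtain ⟨C₁, hC₁, h1⟩ := products_scale_ld α (1 / 2) ε (by norm_num) le_rfl hε hε1
  have hmono : ∀ (C C' lam : ℝ), 1 ≤ lam → C ≤ C' → Real.exp (C * lam) ≤ Real.exp (C' * lam) :=
    fun C C' lam h h' => Real.exp_le_exp.2 (mul_le_mul_of_nonneg_right h' (by linarith))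
  have hcomb : ∀ (C C' lam N K : ℝ), 1 ≤ lam → C ≤ C' → 0 ≤ N →
      N * Real.exp (-Real.exp (C * lam)) ≤ K → N * Real.exp (-Real.exp (C' * lam)) ≤ K :=
    fun C C' lam N K h h' hN h2 => le_trans (mul_le_mul_of_nonneg_left
      (Real.exp_le_exp.2 (neg_le_neg (hmono C C' lam h h'))) hN) h2
  -- part one, with any larger constant
  have part1 : ∀ C : ℝ, C₁ ≤ C → ∀ Z₁ : ℝ, ∃ Z : ℝ, Z₁ ≤ Z ∧ ∀ lam : ℝ, 1 ≤ lam →
        Real.exp (C * lam) ≤ Real.log Z → ∀ (A B : Finset ℕ) (f g : ℕ → ℝ),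
        (∀ a ∈ A, 1 ≤ a ∧ (a : ℝ) ≤ Z) → (∀ b ∈ B, 1 ≤ b ∧ (b : ℝ) ≤ Z) →
        Z ^ (2 - 1 / 16 : ℝ) ≤ (A.card : ℝ) * B.card →
        (∀ a ∈ A, ∀ b ∈ B, Z ^ ε ≤ α * a * b + f a + g b) →
        (A.card : ℝ) * B.card * Real.exp (-Real.exp (C * lam)) ≤
        (((A ×ˢ B).filter (fun x : ℕ × ℕ => ∀ q : ℕ, q.Prime →
          lam * Real.log Z < |(q : ℝ) - (α * x.1 * x.2 + f x.1 + g x.2)|)).card : ℝ) := by
    intro C hC Z₁
    obtain ⟨Z₀, hZ₀⟩ := eventually_atTop.mp h1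
    obtain ⟨Z, hZ, hGS⟩ := GS_frequent hirr (1 / 2) le_rfl (max Z₀ Z₁)
    have h2 := hZ₀ Z ((le_max_left _ _).trans hZ)
    refine ⟨Z, (le_max_right _ _).trans hZ, fun lam hlam hlamZ A B f g hA hB hAB hlow => ?_⟩
    refine hcomb C₁ C lam _ _ hlam hC (by positivity) (h2 hGS lam hlam
      ((hmono C₁ C lam hlam hC).trans hlamZ) A B f g hA hB (by
      convert hAB using 2
      norm_num) hlow)
  by_cases hL : Liouville α
  · exact ⟨C₁, hC₁, part1 C₁ le_rfl, fun h => absurd hL h⟩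
  · obtain ⟨τ, hτ0, hτ1, hGS⟩ := GS_eventually hirr hL
    obtain ⟨C₂, hC₂, h2⟩ := products_scale_ld α τ ε hτ0 hτ1 hε hε1
    refine ⟨max C₁ C₂, hC₁.trans (le_max_left _ _), part1 _ (le_max_left _ _),
      fun _ => ⟨τ / 8, by positivity, ?_⟩⟩
    obtain ⟨Z₀, hZ₀⟩ := eventually_atTop.mp (h2.and hGS)
    refine ⟨Z₀, fun Z hZ lam hlam hlamZ A B f g hA hB hAB hlow => ?_⟩
    obtain ⟨h3, h5⟩ := hZ₀ Z hZ
    exact hcomb C₂ _ lam _ _ hlam (le_max_right _ _) (by positivity) (h3 h5 lam hlam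
      ((hmono C₂ _ lam hlam (le_max_right _ _)).trans hlamZ) A B f g hA hB hAB hlow)

end Pool.Agent.T2h81.LD
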