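import Pool.Agent.T2h81.LD.G12
import Pool.Agent.Y565.RG.GenF
import Pool.Agent.N534.PG.Alg

set_option autoImplicit false
set_option linter.unusedSectionVars false
set_option linter.unusedVariables false
set_option maxHeartbeats 4000000

/-! # Positive proportion: several smooth phases at the same time, separated sets of reals -/

namespace Pool.Agent.T2h81.LD

open Finset Filter
open Pool.Agent.H469R2.NK (e norm_e e_add)
open Pool.Agent.W147.PS (ev_pow)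
open Pool.Agent.Y565.RG (gen_bound)
open Pool.Agent.N534.PG (algExp_meas dio_span AlgExp den_lin)

open scoped Classical

/-- the integer combinations of the numbers are not too small -/
def LinDio {r : ℕ} (β : Fin r → ℝ) (c τ : ℝ) : Prop :=
  ∀ (H : ℝ) (h : Fin r → ℤ), h ≠ 0 → (∀ j, |(h j : ℝ)| ≤ H) → c * H ^ (-τ) ≤ |∑ j, (h j : ℝ) * β j|

lemma one_le_of_ne {r : ℕ} (h : Fin r → ℤ) (hh : h ≠ 0) (H : ℝ) (hH : ∀ j, |(h j : ℝ)| ≤ H) :
    1 ≤ H := by
  obtain ⟨j, hj⟩ : ∃ j, h j ≠ 0 := by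
    by_contra hcon
    push Not at hcon
    exact hh (funext hcon)
  refine le_trans ?_ (hH j)
  have := Int.one_le_abs hj
  exact_mod_cast this

lemma linDio_one (β : Fin 1 → ℝ) (hβ : β 0 ≠ 0) : LinDio β |β 0| 0 := by
  intro H h hh hH
  have h00 : h 0 ≠ 0 := by
    intro h2
    apply hh
    funext j
    rw [Subsingleton.elim j 0, h2]
    rfl
  rw [Fin.sum_univ_one, neg_zero, Real.rpow_zero, mul_one, abs_mul]
  have h1 : (1:ℝ) ≤ |(h 0 : ℝ)| := by
    have := Int.one_le_abs h00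
    exact_mod_cast this
  have h2 := abs_nonneg (β 0)
  nlinarith

/-- numbers in the ring generated by the real algebraic numbers and `e` -/
theorem linDio_alg {r : ℕ} (β : Fin r → ℝ) (hβ : ∀ j, β j ∈ AlgExp)
    (hind : ∀ h : Fin r → ℤ, h ≠ 0 → ∑ j, (h j : ℝ) * β j ≠ 0) :
    ∃ c τ : ℝ, 0 < c ∧ 0 ≤ τ ∧ LinDio β c τ := by
  obtain ⟨m, g, W, c₀, hW, hc₀, hM, h1, hv⟩ := algExp_meas β hβ
  obtain ⟨c, hc, hdio⟩ := dio_span g W c₀ hW hc₀ hM h1 β hv
  obtain ⟨b, hb, hden⟩ := den_lin β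
  have hb0 : (0:ℝ) < b := by exact_mod_cast hb
  refine ⟨min c (1 / b), W, lt_min hc (by positivity), hW, ?_⟩
  intro H h hh hH
  have hH1 := one_le_of_ne h hh H hH
  have hHW : 0 < H ^ (-W) := Real.rpow_pos_of_pos (by linarith) _
  have hHW1 : H ^ (-W) ≤ 1 := by
    calc H ^ (-W) ≤ H ^ (0 : ℝ) := Real.rpow_le_rpow_of_exponent_le hH1 (by linarith)
      _ = 1 := Real.rpow_zero _
  by_cases hirr : Irrational (∑ j, (h j : ℝ) * β j)
  · have h2 := hdio H h hH hirr 0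
    rw [Int.cast_zero, sub_zero] at h2
    exact (mul_le_mul_of_nonneg_right (min_le_left _ _) hHW.le).trans h2
  · have hx : ∃ x : ℚ, ∑ j, (h j : ℝ) * β j = x := by
      rw [irrational_iff_ne_rational] at hirr
      push Not at hirr
      obtain ⟨a, d, hd, hx⟩ := hirr
      exact ⟨a / d, by rw [hx]; push_cast; rfl⟩
    obtain ⟨z, hz⟩ := hden h hx
    have hz0 : z ≠ 0 := by
      intro h0
      rw [h0, Int.cast_zero] at hz
      rcases mul_eq_zero.1 hz with h2 | h2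
      · exact hb0.ne' h2
      · exact hind h hh h2
    have h2 : (1:ℝ) ≤ |(z : ℝ)| := by
      have := Int.one_le_abs hz0
      exact_mod_cast this
    rw [← hz, abs_mul, abs_of_pos hb0] at h2
    calc min c (1 / b) * H ^ (-W) ≤ 1 / b * 1 :=
          mul_le_mul (min_le_right _ _) hHW1 hHW.le (by positivity)
      _ ≤ _ := by
          rw [mul_one, div_le_iff₀ hb0]
          linarith

/-- several smooth phases at the same time -/
theorem gen_vec (r : ℕ) (hr : 1 ≤ r) (β : Fin r → ℝ) (c₁ τ : ℝ) (hc₁ : 0 < c₁) (hτ : 0 ≤ τ)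
    (hβ : LinDio β c₁ τ) (ε : ℝ) (hε : 0 < ε) (hε1 : ε ≤ 1) :
    ∃ K : ℝ, 1 ≤ K ∧ ∀ c C : ℝ, 0 < c → 1 ≤ C → ∀ᶠ Z : ℝ in atTop,
      ∀ lam : ℝ, 1 ≤ lam → Real.exp (K * lam) ≤ Real.log Z →
      ∀ (Φ Φ₁ Φ₁₂ : ℝ → ℝ → ℝ),
      (∀ x ∈ Set.Icc (0 : ℝ) 1, ∀ y ∈ Set.Icc (0 : ℝ) 1,
        HasDerivWithinAt (fun s => Φ s y) (Φ₁ x y) (Set.Icc 0 1) x ∧
        HasDerivWithinAt (fun t => Φ₁ x t) (Φ₁₂ x y) (Set.Icc 0 1) y ∧
        c ≤ |Φ₁₂ x y| ∧ |Φ₁₂ x y| ≤ C) →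
      (∀ x ∈ Set.Icc (0 : ℝ) 1, ∀ x' ∈ Set.Icc (0 : ℝ) 1, ∀ y ∈ Set.Icc (0 : ℝ) 1,
        |Φ₁₂ x y - Φ₁₂ x' y| ≤ C * |x - x'|) →
      ∀ (T U V : ℝ) (X Y : Finset ℝ) (f g : Fin r → ℝ → ℝ),
      Z ^ ε ≤ U → Z ^ ε ≤ V → V ≤ Z → Z ^ ε ≤ |T| → |T| ≤ U * V * Z ^ (-ε) →
      (∀ x ∈ X, 0 ≤ x ∧ x ≤ U) → (∀ x ∈ X, ∀ x' ∈ X, x ≠ x' → 1 ≤ |x - x'|) →
      (∀ y ∈ Y, 0 ≤ y ∧ y ≤ V) → (∀ y ∈ Y, ∀ y' ∈ Y, y ≠ y' → 1 ≤ |y - y'|) →
      U * V * Z ^ (-(ε / 2)) ≤ (X.card : ℝ) * Y.card →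
      (∀ x ∈ X, ∀ y ∈ Y, ∀ j, Z ^ ε ≤ β j * (T * Φ (x / U) (y / V)) + f j x + g j y) →
      (X.card : ℝ) * Y.card * Real.exp (-Real.exp (K * lam)) ≤
        (((X ×ˢ Y).filter (fun p : ℝ × ℝ => ∀ j, ∀ q : ℕ, q.Prime → lam * Real.log Z <
          |(q : ℝ) - (β j * (T * Φ (p.1 / U) (p.2 / V)) + f j p.1 + g j p.2)|)).card : ℝ) := by
  obtain ⟨η, hη⟩ : ∃ η : ℝ, η = ε / 64 := ⟨_, rfl⟩
  have hη0 : 0 < η := by rw [hη]; positivity
  set η' : ℝ := η / (2 * (τ + 2)) with hη'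
  have hη'0 : 0 < η' := by positivity
  have hη'1 : η' * (τ + 1) + η' = η / 2 := by rw [hη']; field_simp; ring
  have hη'2 : η' ≤ η / 2 := by nlinarith
  obtain ⟨K, hK, hcrit⟩ := crit_ldJ r hr η' hη'0 (by linarith)
  refine ⟨K, hK, fun c C hc hC => ?_⟩
  set S : ℝ := ∑ j, |β j| with hS
  have hS0 : 0 ≤ S := Finset.sum_nonneg fun _ _ => abs_nonneg _
  filter_upwards [hcrit, gen_bound ε hε η hη c C hc hC, eventually_ge_atTop (2 : ℝ),
    (tendsto_rpow_atTop (show (0:ℝ) < η / 2 by positivity)).eventually_ge_atTop (1 / c₁),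
    (tendsto_rpow_atTop (show (0:ℝ) < η by positivity)).eventually_ge_atTop S] with
    Z hcr hbd hZ2 hp1 hp2
  intro lam hlam hlamZ Φ Φ₁ Φ₁₂ hΦ1 hΦ2 T U V X Y f g hU hV hVZ hT1 hT2 hX0 hX hY0 hY hXY hlow
  have hZ0 : 0 < Z := by linarith
  have hZ1 : 1 ≤ Z := by linarith
  have hE : ∀ x y : ℝ, x ≤ y → Z ^ x ≤ Z ^ y := fun x y h =>
    Real.rpow_le_rpow_of_exponent_le hZ1 h
  have hU0 : 0 < U := lt_of_lt_of_le (by positivity) hU
  have hV0 : 0 < V := lt_of_lt_of_le (by positivity) hV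
  have hXYpos : (0 : ℝ) < (X.card : ℝ) * Y.card := lt_of_lt_of_le (by positivity) hXY
  have hcard : ((X ×ˢ Y).card : ℝ) = (X.card : ℝ) * Y.card := by
    rw [card_product]
    push_cast
    rfl
  have key := hcr lam hlam hlamZ (ℝ × ℝ) (X ×ˢ Y)
    (fun p j => β j * (T * Φ (p.1 / U) (p.2 / V)) + f j p.1 + g j p.2) (by
      intro p hp j
      rw [Finset.mem_product] at hp
      refine le_trans ?_ (hlow p.1 hp.1 p.2 hp.2 j)
      exact hE _ _ (by linarith)) (by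
      intro q hq hqZ h hh hhZ
      have hq1 : (1 : ℝ) ≤ q := by exact_mod_cast hq
      have hq0 : (0 : ℝ) < q := by linarith
      set B : ℝ := ∑ j, (h j : ℝ) * β j with hB
      have hBlo : c₁ * (Z ^ η') ^ (-τ) ≤ |B| := hβ (Z ^ η') h hh hhZ
      have hBhi : |B| ≤ Z ^ η' * S := by
        rw [hB, hS, Finset.mul_sum]
        refine (Finset.abs_sum_le_sum_abs _ _).trans (Finset.sum_le_sum fun j _ => ?_)
        rw [abs_mul]
        exact mul_le_mul_of_nonneg_right (hhZ j) (abs_nonneg _)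
      set θ : ℝ := B / q * T with hθ
      have habs : |θ| = |B| / q * |T| := by
        rw [hθ, abs_mul, abs_div, Nat.abs_cast]
      have hBq1 : Z ^ (-η) ≤ |B| / q := by
        rw [le_div_iff₀ hq0]
        have h1 : 1 ≤ c₁ * Z ^ (η / 2) := by
          rw [div_le_iff₀ hc₁] at hp1
          linarith
        calc Z ^ (-η) * q ≤ Z ^ (-η) * Z ^ η' := by gcongr
          _ = Z ^ (-η) * Z ^ η' * 1 := (mul_one _).symm
          _ ≤ Z ^ (-η) * Z ^ η' * (c₁ * Z ^ (η / 2)) := by gcongr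
          _ = c₁ * (Z ^ (-η) * Z ^ η' * Z ^ (η / 2)) := by ring
          _ = c₁ * Z ^ (-η + η' + η / 2) := by rw [Real.rpow_add hZ0, Real.rpow_add hZ0]
          _ ≤ c₁ * (Z ^ η') ^ (-τ) := by
              rw [← Real.rpow_mul hZ0.le]
              exact mul_le_mul_of_nonneg_left (hE _ _ (by linarith)) hc₁.le
          _ ≤ |B| := hBlo
      have hBq2 : |B| / q ≤ Z ^ (4 * η) := by
        rw [div_le_iff₀ hq0]
        calc |B| ≤ Z ^ η' * S := hBhi
          _ ≤ Z ^ η' * Z ^ η := by gcongr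
          _ = Z ^ (η' + η) := (Real.rpow_add hZ0 _ _).symm
          _ ≤ Z ^ (4 * η) * 1 := by rw [mul_one]; exact hE _ _ (by linarith)
          _ ≤ Z ^ (4 * η) * q := by gcongr
      have hb := hbd Φ Φ₁ Φ₁₂ hΦ1 hΦ2 θ U V X Y (fun x => e ((∑ j, (h j : ℝ) * f j x) / q))
        (fun y => e ((∑ j, (h j : ℝ) * g j y) / q)) hU hV hVZ (by
          rw [habs]
          calc Z ^ (ε - η) = Z ^ (-η) * Z ^ ε := by
                rw [← Real.rpow_add hZ0]
                congr 1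
                ring
            _ ≤ |B| / q * |T| := by gcongr) (by
          rw [habs]
          calc |B| / q * |T| ≤ Z ^ (4 * η) * (U * V * Z ^ (-ε)) := by gcongr
            _ = U * V * (Z ^ (4 * η) * Z ^ (-ε)) := by ring
            _ = U * V * Z ^ (4 * η - ε) := by
                rw [← Real.rpow_add hZ0]
                congr 2) hX0 hX hY0 hY hXY
        (fun x => (norm_e _).le) (fun y => (norm_e _).le)
      have hsum : ∑ p ∈ X ×ˢ Y, e (∑ j, (h j : ℝ) *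
          ((β j * (T * Φ (p.1 / U) (p.2 / V)) + f j p.1 + g j p.2) / q)) =
          ∑ x ∈ X, ∑ y ∈ Y, e ((∑ j, (h j : ℝ) * f j x) / q) *
            e ((∑ j, (h j : ℝ) * g j y) / q) * e (θ * Φ (x / U) (y / V)) := by
        rw [sum_product]
        refine sum_congr rfl fun x _ => sum_congr rfl fun y _ => ?_
        rw [← e_add, ← e_add]
        congr 1
        rw [hθ, hB, Finset.sum_div, Finset.sum_div, Finset.sum_div, Finset.sum_mul, Finset.sum_mul,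
          ← Finset.sum_add_distrib, ← Finset.sum_add_distrib]
        apply Finset.sum_congr rfl
        intro j _
        ring
      rw [hsum, hcard]
      refine hb.trans ?_
      have h6 : Z ^ (-(4 * η)) ≤ Z ^ (-η') := hE _ _ (by linarith)
      have h7 : 0 < Z ^ (-(4 * η)) := Real.rpow_pos_of_pos hZ0 _
      have h8 : (X.card : ℝ) * Y.card * Z ^ (-(4 * η)) ≤ (X.card : ℝ) * Y.card * Z ^ (-η') :=
        mul_le_mul_of_nonneg_left h6 hXYpos.le
      have h9 : 0 ≤ (X.card : ℝ) * Y.card * Z ^ (-(4 * η)) := mul_nonneg hXYpos.le h7.le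
      linarith)
  rw [hcard] at key
  exact key

end Pool.Agent.T2h81.LD
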