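import Pool.Agent.T2h81.LD.H3

set_option autoImplicit false
set_option linter.unusedSectionVars false
set_option linter.unusedVariables false
set_option maxHeartbeats 4000000

/-! # Positive proportion: `c √a + d √b` and the square roots of the primes -/

namespace Pool.Agent.T2h81.LD

open Finset Filter
open Pool.Agent.W147.PS (ev_pow)

open scoped Classical

/-- from primes near `x ^ 2` to square roots of primes near `x` -/
lemma root_far (x w : ℝ) (hx : 0 < x) (hw : 0 ≤ w) (hwx : w ≤ x ^ 2) (q : ℕ)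
    (h : 3 * w < |(q : ℝ) - x ^ 2|) : w / x < |Real.sqrt q - x| := by
  by_contra hcon
  push Not at hcon
  have hs : Real.sqrt q * Real.sqrt q = q := Real.mul_self_sqrt (Nat.cast_nonneg q)
  have hs0 : 0 ≤ Real.sqrt q := Real.sqrt_nonneg _
  have e1 : (q : ℝ) - x ^ 2 = (Real.sqrt q - x) * (Real.sqrt q + x) := by
    calc (q : ℝ) - x ^ 2 = Real.sqrt q * Real.sqrt q - x ^ 2 := by rw [hs]
      _ = _ := by ring
  have e2 : |(q : ℝ) - x ^ 2| ≤ (w / x) * (2 * x + w / x) := by
    rw [e1, abs_mul]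
    apply mul_le_mul hcon _ (abs_nonneg _) (by positivity)
    rw [abs_of_nonneg (by linarith)]
    have := (abs_le.1 hcon).2
    linarith
  have e3 : (w / x) * (2 * x + w / x) = 2 * w + w * w / x ^ 2 := by
    field_simp
  have e4 : w * w / x ^ 2 ≤ w := by
    rw [div_le_iff₀ (by positivity)]
    exact mul_le_mul_of_nonneg_left hwx hw
  rw [e3] at e2
  linarith

lemma inv_sqrt_lip (s s' : ℝ) (hs : 0 ≤ s) (hs' : 0 ≤ s') :
    |1 / (2 * Real.sqrt (1 + s)) - 1 / (2 * Real.sqrt (1 + s'))| ≤ |s - s'| := by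
  set a : ℝ := Real.sqrt (1 + s) with ha
  set b : ℝ := Real.sqrt (1 + s') with hb
  have ha1 : 1 ≤ a := Real.one_le_sqrt.2 (by linarith)
  have hb1 : 1 ≤ b := Real.one_le_sqrt.2 (by linarith)
  have ha2 : a ^ 2 = 1 + s := Real.sq_sqrt (by linarith)
  have hb2 : b ^ 2 = 1 + s' := Real.sq_sqrt (by linarith)
  have e1 : 1 / (2 * a) - 1 / (2 * b) = (b - a) / (2 * a * b) := by field_simp
  have e2 : s - s' = (a - b) * (a + b) := by
    have : s - s' = a ^ 2 - b ^ 2 := by linarith
    rw [this]; ring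
  rw [e1, e2, abs_div, abs_of_pos (show 0 < 2 * a * b by positivity), abs_mul, abs_sub_comm b a,
    abs_of_pos (show 0 < a + b by positivity), div_le_iff₀ (by positivity)]
  have h0 := abs_nonneg (a - b)
  have h1 : 1 ≤ (a + b) * (2 * a * b) := by nlinarith [mul_le_mul ha1 hb1 zero_le_one (by linarith)]
  calc |a - b| = |a - b| * 1 := (mul_one _).symm
    _ ≤ |a - b| * ((a + b) * (2 * a * b)) := mul_le_mul_of_nonneg_left h1 h0
    _ = _ := by ring

/-- **Sums of two square roots.** -/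
theorem sqrt_sums (r : ℕ) (hr : 1 ≤ r) (c d : Fin r → ℝ) (hc : ∀ j, 0 < c j) (hd : ∀ j, 0 < d j)
    (c₁ τ : ℝ) (hc₁ : 0 < c₁) (hτ : 0 ≤ τ) (hβ : LinDio (fun j => c j * d j) c₁ τ)
    (δ : ℝ) (hδ : 0 < δ) (hδ1 : δ < 1 / 2) :
    ∃ K : ℝ, 1 ≤ K ∧ ∀ᶠ Z : ℝ in atTop, ∀ lam : ℝ, 1 ≤ lam → Real.exp (K * lam) ≤ Real.log Z →
      ∀ A B : Finset ℝ, (∀ a ∈ A, Z ≤ a ∧ a ≤ 2 * Z) → (∀ a ∈ A, ∀ a' ∈ A, a ≠ a' → 1 ≤ |a - a'|) →
      (∀ b ∈ B, Z ≤ b ∧ b ≤ 2 * Z) → (∀ b ∈ B, ∀ b' ∈ B, b ≠ b' → 1 ≤ |b - b'|) →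
      Z ^ (3 / 2 + δ) ≤ (A.card : ℝ) * B.card →
      (A.card : ℝ) * B.card * Real.exp (-Real.exp (K * lam)) ≤
        (((A ×ˢ B).filter (fun p : ℝ × ℝ => ∀ j, ∀ q : ℕ, q.Prime →
          lam * Real.log Z / (c j * Real.sqrt p.1 + d j * Real.sqrt p.2) <
          |Real.sqrt q - (c j * Real.sqrt p.1 + d j * Real.sqrt p.2)|)).card : ℝ) := by
  set ε : ℝ := 1 - 2 * δ with hε
  have hε0 : 0 < ε := by linarith
  obtain ⟨K, hK, h⟩ := gen_vec r hr (fun j => c j * d j) c₁ τ hc₁ hτ hβ ε hε0 (by linarith)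
  refine ⟨3 * K, by linarith, ?_⟩
  obtain ⟨m, hm, hmc⟩ : ∃ m : ℝ, 0 < m ∧ ∀ j, m ≤ c j := by
    have hne : (Finset.univ : Finset (Fin r)).Nonempty := ⟨⟨0, hr⟩, Finset.mem_univ _⟩
    refine ⟨Finset.univ.inf' hne c, ?_, fun j => Finset.inf'_le _ (Finset.mem_univ j)⟩
    rw [Finset.lt_inf'_iff]
    exact fun j _ => hc j
  filter_upwards [h (1 / 8) 1 (by norm_num) le_rfl, eventually_ge_atTop (2 : ℝ),
    ev_pow ε 1 (1 / m ^ 2) (by linarith), ev_pow 1 (2 - ε) 2 (by linarith),
    ev_aux (1 / 2) (by norm_num), ev_pow (1 / 2) 1 (1 / m ^ 2) (by norm_num)] with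
    Z hZ hZ2 hp1 hp2 hp3 hp4
  rw [Real.rpow_one] at hp1 hp2 hp4
  obtain ⟨-, -, hp3⟩ := hp3
  intro lam hlam hlamZ A B hA hA' hB hB' hAB
  have hZ0 : 0 < Z := by linarith
  have hlog : 0 < Real.log Z := Real.log_pos (by linarith)
  have hlamlog : lam * Real.log Z ≤ m ^ 2 * Z := by
    have g1 : lam ≤ Real.log Z := by
      have g2 := Real.add_one_le_exp (3 * K * lam)
      nlinarith
    have g3 : lam * Real.log Z ≤ Real.log Z ^ 2 := by nlinarith
    have g4 : 0 < (Z ^ (1 / 2 : ℝ)) ^ (1 / 10 : ℝ) := by positivity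
    rw [one_div, inv_mul_eq_div, div_le_iff₀ (by positivity)] at hp4
    linarith
  have hinj : Function.Injective (fun a : ℝ => a - Z) := fun a b hab => by
    simp only at hab
    linarith
  set X : Finset ℝ := A.image (fun a => a - Z) with hX
  set Y : Finset ℝ := B.image (fun b => b - Z) with hY
  have hXc : (X.card : ℝ) = A.card := by rw [hX, Finset.card_image_of_injective _ hinj]
  have hYc : (Y.card : ℝ) = B.card := by rw [hY, Finset.card_image_of_injective _ hinj]
  have hsqrt : ∀ s : ℝ, 0 ≤ s → s ≤ 1 → 1 ≤ Real.sqrt (1 + s) ∧ Real.sqrt (1 + s) ^ 2 ≤ 2 := by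
    intro s h0 h1
    refine ⟨Real.one_le_sqrt.2 (by linarith), ?_⟩
    rw [Real.sq_sqrt (by linarith)]
    linarith
  have key := hZ (3 * lam) (by linarith) (by
      have : K * (3 * lam) = 3 * K * lam := by ring
      rw [this]
      exact hlamZ)
    (fun s t => Real.sqrt (1 + s) * Real.sqrt (1 + t))
    (fun s t => 1 / (2 * Real.sqrt (1 + s)) * Real.sqrt (1 + t))
    (fun s t => 1 / (2 * Real.sqrt (1 + s)) * (1 / (2 * Real.sqrt (1 + t))))
    (by
      intro x hx y hy
      have hder : ∀ s : ℝ, s ∈ Set.Icc (0:ℝ) 1 →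
          HasDerivWithinAt (fun s => Real.sqrt (1 + s)) (1 / (2 * Real.sqrt (1 + s)))
            (Set.Icc 0 1) s := by
        intro s hs
        have h1 : HasDerivAt (fun s : ℝ => 1 + s) 1 s := (hasDerivAt_id s).const_add 1
        have h2 := h1.sqrt (by linarith [hs.1] : (1:ℝ) + s ≠ 0)
        exact h2.hasDerivWithinAt
      obtain ⟨x1, x2⟩ := hsqrt x hx.1 hx.2
      obtain ⟨y1, y2⟩ := hsqrt y hy.1 hy.2
      have hxy : 0 < Real.sqrt (1 + x) * Real.sqrt (1 + y) := by positivity
      have hxy2 : Real.sqrt (1 + x) * Real.sqrt (1 + y) ≤ 2 := by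
        nlinarith [sq_nonneg (Real.sqrt (1 + x) - Real.sqrt (1 + y))]
      have hxy1 : 1 ≤ Real.sqrt (1 + x) * Real.sqrt (1 + y) := by nlinarith
      have e1 : 1 / (2 * Real.sqrt (1 + x)) * (1 / (2 * Real.sqrt (1 + y))) =
          1 / (4 * (Real.sqrt (1 + x) * Real.sqrt (1 + y))) := by
        rw [one_div_mul_one_div]
        congr 1
        ring
      refine ⟨(hder x hx).mul_const _, (hder y hy).const_mul _, ?_, ?_⟩
      · rw [e1, abs_of_pos (by positivity)]
        apply one_div_le_one_div_of_le (by positivity)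
        linarith
      · rw [e1, abs_of_pos (by positivity), div_le_one (by positivity)]
        linarith)
    (by
      intro x hx x' hx' y hy
      obtain ⟨y1, y2⟩ := hsqrt y hy.1 hy.2
      rw [← sub_mul, abs_mul, mul_comm]
      have h1 := inv_sqrt_lip x x' hx.1 hx'.1
      have h2 : |1 / (2 * Real.sqrt (1 + y))| ≤ 1 := by
        rw [abs_of_pos (by positivity), div_le_one (by positivity)]
        linarith
      exact mul_le_mul h2 h1 (abs_nonneg _) zero_le_one)
    (2 * Z) Z Z X Y (fun j x => (c j) ^ 2 * (x + Z)) (fun j y => (d j) ^ 2 * (y + Z))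
    (by
      calc Z ^ ε ≤ Z ^ (1:ℝ) := Real.rpow_le_rpow_of_exponent_le (by linarith) (by linarith)
        _ = Z := Real.rpow_one Z)
    (by
      calc Z ^ ε ≤ Z ^ (1:ℝ) := Real.rpow_le_rpow_of_exponent_le (by linarith) (by linarith)
        _ = Z := Real.rpow_one Z)
    le_rfl
    (by
      rw [abs_of_pos (by linarith)]
      calc Z ^ ε ≤ Z ^ (1:ℝ) := Real.rpow_le_rpow_of_exponent_le (by linarith) (by linarith)
        _ = Z := Real.rpow_one Z
        _ ≤ 2 * Z := by linarith)
    (by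
      rw [abs_of_pos (by linarith)]
      have e1 : Z * Z * Z ^ (-ε) = Z ^ (2 - ε) := by
        rw [sub_eq_add_neg, Real.rpow_add hZ0, Real.rpow_two]
        ring
      rw [e1]
      exact hp2)
    (by
      intro x hx
      obtain ⟨a, ha, rfl⟩ := Finset.mem_image.1 hx
      have := hA a ha
      constructor <;> linarith)
    (by
      intro x hx x' hx' hne
      obtain ⟨a, ha, rfl⟩ := Finset.mem_image.1 hx
      obtain ⟨a', ha', rfl⟩ := Finset.mem_image.1 hx'
      have h1 : a ≠ a' := fun h => hne (by rw [h])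
      have h2 := hA' a ha a' ha' h1
      rw [sub_sub_sub_cancel_right]
      exact h2)
    (by
      intro x hx
      obtain ⟨a, ha, rfl⟩ := Finset.mem_image.1 hx
      have := hB a ha
      constructor <;> linarith)
    (by
      intro x hx x' hx' hne
      obtain ⟨a, ha, rfl⟩ := Finset.mem_image.1 hx
      obtain ⟨a', ha', rfl⟩ := Finset.mem_image.1 hx'
      have h1 : a ≠ a' := fun h => hne (by rw [h])
      have h2 := hB' a ha a' ha' h1
      rw [sub_sub_sub_cancel_right]
      exact h2)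
    (by
      rw [hXc, hYc]
      have e1 : Z * Z * Z ^ (-(ε / 2)) = Z ^ (3 / 2 + δ) := by
        have e2 : (3 / 2 + δ : ℝ) = 2 + -(ε / 2) := by rw [hε]; ring
        rw [e2, Real.rpow_add hZ0, Real.rpow_two]
        ring
      rw [e1]
      exact hAB)
    (by
      intro x hx y hy j
      obtain ⟨a, ha, rfl⟩ := Finset.mem_image.1 hx
      obtain ⟨b, hb, rfl⟩ := Finset.mem_image.1 hy
      have ha1 := hA a ha
      have hb1 := hB b hb
      have h1 : 0 ≤ c j * d j * (2 * Z * (Real.sqrt (1 + (a - Z) / Z) *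
          Real.sqrt (1 + (b - Z) / Z))) := by
        have := hc j
        have := hd j
        positivity
      have h2 : 0 ≤ d j ^ 2 * (b - Z + Z) := by
        have : 0 ≤ b - Z + Z := by linarith
        positivity
      have h3 : Z ^ ε ≤ c j ^ 2 * (a - Z + Z) := by
        have e1 : Z ^ ε ≤ m ^ 2 * Z := by
          have : 1 / m ^ 2 * Z ^ ε ≤ Z := hp1
          rw [one_div, inv_mul_eq_div, div_le_iff₀ (by positivity)] at this
          linarith
        refine e1.trans ?_
        have e2 : m ^ 2 ≤ c j ^ 2 := pow_le_pow_left₀ hm.le (hmc j) 2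
        calc m ^ 2 * Z ≤ c j ^ 2 * Z := mul_le_mul_of_nonneg_right e2 hZ0.le
          _ ≤ c j ^ 2 * (a - Z + Z) := by
            apply mul_le_mul_of_nonneg_left _ (by positivity)
            linarith
      linarith)
  rw [hXc, hYc] at key
  have hexp : K * (3 * lam) = 3 * K * lam := by ring
  rw [hexp] at key
  refine key.trans ?_
  rw [Nat.cast_le]
  apply Finset.card_le_card_of_injOn (fun p => (p.1 + Z, p.2 + Z))
  · intro p hp
    rw [Finset.mem_coe, Finset.mem_filter, Finset.mem_product] at hp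
    obtain ⟨⟨h1, h2⟩, h3⟩ := hp
    obtain ⟨a, ha, ha2⟩ := Finset.mem_image.1 h1
    obtain ⟨b, hb, hb2⟩ := Finset.mem_image.1 h2
    have ea : p.1 + Z = a := by linarith
    have eb : p.2 + Z = b := by linarith
    rw [Finset.mem_coe, Finset.mem_filter, Finset.mem_product]
    simp only
    rw [ea, eb]
    refine ⟨⟨ha, hb⟩, fun j q hq => ?_⟩
    have hja := hA a ha
    have hjb := hB b hb
    have hcj := hc j
    have hdj := hd j
    have hsa : 0 < Real.sqrt a := Real.sqrt_pos.2 (by linarith)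
    have hsb : 0 < Real.sqrt b := Real.sqrt_pos.2 (by linarith)
    have hx0 : 0 < c j * Real.sqrt a + d j * Real.sqrt b := by positivity
    apply root_far _ _ hx0 (by positivity)
    · refine hlamlog.trans ?_
      have g1 : m ≤ c j := hmc j
      have g2 : Real.sqrt Z ≤ Real.sqrt a := Real.sqrt_le_sqrt hja.1
      have g3 : m * Real.sqrt Z ≤ c j * Real.sqrt a + d j * Real.sqrt b := by
        have : m * Real.sqrt Z ≤ c j * Real.sqrt a :=
          mul_le_mul g1 g2 (Real.sqrt_nonneg _) hcj.le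
        have : 0 ≤ d j * Real.sqrt b := by positivity
        linarith
      calc m ^ 2 * Z = (m * Real.sqrt Z) ^ 2 := by rw [mul_pow, Real.sq_sqrt hZ0.le]
        _ ≤ _ := pow_le_pow_left₀ (by positivity) g3 2
    · have h4 := h3 j q hq
      have e1 : c j * d j * (2 * Z * (Real.sqrt (1 + p.1 / Z) * Real.sqrt (1 + p.2 / Z))) +
          c j ^ 2 * (p.1 + Z) + d j ^ 2 * (p.2 + Z) = (c j * Real.sqrt a + d j * Real.sqrt b) ^ 2 := by
        have e2 : Real.sqrt (1 + p.1 / Z) = Real.sqrt a / Real.sqrt Z := by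
          rw [← Real.sqrt_div' _ hZ0.le, ← ea]
          congr 1
          field_simp
          ring
        have e3 : Real.sqrt (1 + p.2 / Z) = Real.sqrt b / Real.sqrt Z := by
          rw [← Real.sqrt_div' _ hZ0.le, ← eb]
          congr 1
          field_simp
          ring
        have e4 : Real.sqrt Z * Real.sqrt Z = Z := Real.mul_self_sqrt hZ0.le
        have e5 : Real.sqrt a * Real.sqrt a = a := Real.mul_self_sqrt (by linarith)
        have e6 : Real.sqrt b * Real.sqrt b = b := Real.mul_self_sqrt (by linarith)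
        have e7 : 0 < Real.sqrt Z := Real.sqrt_pos.2 hZ0
        have e8 : Z * (Real.sqrt a / Real.sqrt Z * (Real.sqrt b / Real.sqrt Z)) =
            Real.sqrt a * Real.sqrt b := by
          rw [div_mul_div_comm, e4]
          field_simp
        rw [e2, e3, ea, eb]
        calc c j * d j * (2 * Z * (Real.sqrt a / Real.sqrt Z * (Real.sqrt b / Real.sqrt Z))) +
              c j ^ 2 * a + d j ^ 2 * b = 2 * (c j * d j) * (Z * (Real.sqrt a / Real.sqrt Z *
              (Real.sqrt b / Real.sqrt Z))) + c j ^ 2 * (Real.sqrt a * Real.sqrt a) +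
              d j ^ 2 * (Real.sqrt b * Real.sqrt b) := by rw [e5, e6]; ring
          _ = _ := by rw [e8]; ring
      rw [e1] at h4
      have e9 : 3 * (lam * Real.log Z) = 3 * lam * Real.log Z := by ring
      rw [e9]
      exact h4
  · intro p _ p' _ hpp
    simp only [Prod.mk.injEq] at hpp
    exact Prod.ext (by linarith [hpp.1]) (by linarith [hpp.2])

end Pool.Agent.T2h81.LD
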