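import Pool.Agent.T2h81.LD.H4

set_option autoImplicit false
set_option linter.unusedSectionVars false
set_option linter.unusedVariables false
set_option maxHeartbeats 4000000

/-! # Positive proportion: `c √n + d` and the square roots of the primes -/

namespace Pool.Agent.T2h81.LD

open Finset Filter
open Pool.Agent.H469R2.NK (e norm_e e_add conj_e kusmin_landau_anti kusmin_landau_mono norm_sum_neg)
open Pool.Agent.W147.PS (ev_pow)
open Pool.Agent.Y961.JR (class_param)

open scoped Classical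

lemma e_int_add (k : ℤ) (x : ℝ) : e (x + k) = e x := by
  rw [e_add]
  have : e (k : ℝ) = 1 := by
    unfold Pool.Agent.H469R2.NK.e
    rw [Complex.exp_eq_one_iff]
    exact ⟨k, by push_cast; ring⟩
  rw [this, mul_one]

/-- differences of square roots on a residue class -/
lemma sqrt_step (n₀ q : ℕ) (hn : 1 ≤ n₀) (m : ℕ) :
    Real.sqrt (n₀ + q * ((m + 1 : ℕ) : ℝ)) - Real.sqrt (n₀ + q * (m : ℝ)) =
      q / (Real.sqrt (n₀ + q * ((m + 1 : ℕ) : ℝ)) + Real.sqrt (n₀ + q * (m : ℝ))) := by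
  have h0 : (0:ℝ) < n₀ := by exact_mod_cast hn
  have h1 : 0 < Real.sqrt (n₀ + q * (m : ℝ)) := Real.sqrt_pos.2 (by positivity)
  have h2 : 0 < Real.sqrt (n₀ + q * ((m + 1 : ℕ) : ℝ)) := Real.sqrt_pos.2 (by positivity)
  rw [eq_div_iff (by positivity)]
  have e1 : Real.sqrt (n₀ + q * ((m + 1 : ℕ) : ℝ)) * Real.sqrt (n₀ + q * ((m + 1 : ℕ) : ℝ)) =
      n₀ + q * ((m + 1 : ℕ) : ℝ) := Real.mul_self_sqrt (by positivity)
  have e2 : Real.sqrt (n₀ + q * (m : ℝ)) * Real.sqrt (n₀ + q * (m : ℝ)) =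
      n₀ + q * (m : ℝ) := Real.mul_self_sqrt (by positivity)
  calc (Real.sqrt (n₀ + q * ((m + 1 : ℕ) : ℝ)) - Real.sqrt (n₀ + q * (m : ℝ))) *
        (Real.sqrt (n₀ + q * ((m + 1 : ℕ) : ℝ)) + Real.sqrt (n₀ + q * (m : ℝ))) =
        Real.sqrt (n₀ + q * ((m + 1 : ℕ) : ℝ)) * Real.sqrt (n₀ + q * ((m + 1 : ℕ) : ℝ)) -
        Real.sqrt (n₀ + q * (m : ℝ)) * Real.sqrt (n₀ + q * (m : ℝ)) := by ring
    _ = q := by rw [e1, e2]; push_cast; ring

/-- Kusmin and Landau for `α m + β √(n₀ + q m)` -/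
theorem kl_sqrt (α β M : ℝ) (n₀ q L : ℕ) (hM : 1 ≤ M) (hq : 1 ≤ q) (hn₀ : M ≤ n₀)
    (hL : (n₀ : ℝ) + q * (L : ℝ) ≤ 3 * M) :
    (∀ δ : ℝ, 0 < δ → (∀ k : ℤ, δ ≤ |α - k|) → |β| * q / (2 * Real.sqrt M) ≤ δ / 2 →
      ‖∑ m ∈ range L, e (α * m + β * Real.sqrt (n₀ + q * (m : ℝ)))‖ ≤ 4 / δ) ∧
    ((∃ k : ℤ, α = k) → β ≠ 0 → |β| * q / (2 * Real.sqrt M) ≤ 1 / 2 →
      ‖∑ m ∈ range L, e (α * m + β * Real.sqrt (n₀ + q * (m : ℝ)))‖ ≤
        4 * Real.sqrt (3 * M) / (|β| * q)) := by
  have hM0 : 0 < M := by linarith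
  have hn1 : 1 ≤ n₀ := by
    have : (1:ℝ) ≤ n₀ := hM.trans hn₀
    exact_mod_cast this
  have hq0 : (0:ℝ) < q := by exact_mod_cast hq
  have hsM : 0 < Real.sqrt M := Real.sqrt_pos.2 hM0
  have hs3 : 0 < Real.sqrt (3 * M) := Real.sqrt_pos.2 (by linarith)
  set w : ℕ → ℝ := fun m => Real.sqrt (n₀ + q * (m : ℝ)) with hw
  set s : ℕ → ℝ := fun m => w (m + 1) - w m with hs
  have hsq : ∀ m, s m = q / (w (m + 1) + w m) := fun m => sqrt_step n₀ q hn1 m
  have hwlo : ∀ m, Real.sqrt M ≤ w m := fun m => Real.sqrt_le_sqrt (by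
    have : (0:ℝ) ≤ q * (m : ℝ) := by positivity
    linarith)
  have hwup : ∀ m, m ≤ L → w m ≤ Real.sqrt (3 * M) := fun m hm => Real.sqrt_le_sqrt (by
    have h1 : (m : ℝ) ≤ L := by exact_mod_cast hm
    have h2 : (q:ℝ) * m ≤ q * L := mul_le_mul_of_nonneg_left h1 hq0.le
    linarith)
  have hwmono : ∀ m, w m ≤ w (m + 1) := fun m => Real.sqrt_le_sqrt (by
    push_cast
    linarith)
  have hsup : ∀ m, s m ≤ q / (2 * Real.sqrt M) := by
    intro m
    rw [hsq]
    apply div_le_div_of_nonneg_left hq0.le (by positivity)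
    linarith [hwlo m, hwlo (m + 1)]
  have hslo : ∀ m, m < L → q / (2 * Real.sqrt (3 * M)) ≤ s m := by
    intro m hm
    rw [hsq]
    apply div_le_div_of_nonneg_left hq0.le
    · linarith [hwlo m, hwlo (m + 1)]
    · linarith [hwup m hm.le, hwup (m + 1) hm]
  have hs0 : ∀ m, 0 ≤ s m := fun m => by
    have := hwmono m
    simp only [hs]
    linarith
  have hanti : ∀ m, s (m + 1) ≤ s m := by
    intro m
    rw [hsq, hsq]
    apply div_le_div_of_nonneg_left hq0.le
    · linarith [hwlo m, hwlo (m + 1)]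
    · linarith [hwmono m, hwmono (m + 1)]
  have habs : |β| * q / (2 * Real.sqrt M) = |β| * (q / (2 * Real.sqrt M)) := by ring
  -- removing an integer
  have hshift : ∀ (k : ℤ) (x : ℕ → ℝ), ∑ m ∈ range L, e (x m) =
      ∑ m ∈ range L, e (x m + ((k * (m : ℤ) : ℤ) : ℝ)) := by
    intro k x
    exact sum_congr rfl fun m _ => (e_int_add _ _).symm
  constructor
  · intro δ hδ hα hβ
    rw [habs] at hβ
    have hk0 := hα ⌊α⌋
    have hk1 := hα (⌊α⌋ + 1)
    have hf : α - ⌊α⌋ = Int.fract α := rfl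
    have hf0 := Int.fract_nonneg α
    have hf1 := Int.fract_lt_one α
    rw [hf, abs_of_nonneg hf0] at hk0
    push_cast at hk1
    have hk1' : δ ≤ 1 - Int.fract α := by
      have e1 : α - (⌊α⌋ + 1) = -(1 - Int.fract α) := by rw [← hf]; ring
      rw [e1, abs_neg, abs_of_nonneg (by linarith)] at hk1
      exact hk1
    have hx : ∑ m ∈ range L, e (α * m + β * w m) =
        ∑ m ∈ range L, e (Int.fract α * m + β * w m) := by
      rw [hshift (-⌊α⌋)]
      apply sum_congr rfl
      intro m _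
      congr 1
      rw [← hf]
      push_cast
      ring
    have h4 : (4:ℝ) / δ = 2 / (δ / 2) := by field_simp; norm_num
    show ‖∑ m ∈ range L, e (α * m + β * w m)‖ ≤ 4 / δ
    rw [hx, h4]
    have hd : ∀ m : ℕ, (Int.fract α * ((m + 1 : ℕ) : ℝ) + β * w (m + 1)) -
        (Int.fract α * (m : ℝ) + β * w m) = Int.fract α + β * s m := by
      intro m
      simp only [hs]
      push_cast
      ring
    have hbs : ∀ m, |β * s m| ≤ δ / 2 := by
      intro m
      rw [abs_mul, abs_of_nonneg (hs0 m)]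
      exact (mul_le_mul_of_nonneg_left (hsup m) (abs_nonneg β)).trans hβ
    rcases le_total 0 β with hβ0 | hβ0
    · apply kusmin_landau_anti (fun m => Int.fract α * (m : ℝ) + β * w m) L (by positivity)
      · intro m _
        rw [hd]
        have : 0 ≤ β * s m := mul_nonneg hβ0 (hs0 m)
        linarith
      · intro m _
        rw [hd]
        have := (abs_le.1 (hbs m)).2
        linarith
      · intro m _
        rw [hd, hd]
        have := mul_le_mul_of_nonneg_left (hanti m) hβ0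
        linarith
    · apply kusmin_landau_mono (fun m => Int.fract α * (m : ℝ) + β * w m) L (by positivity)
      · intro m _
        rw [hd]
        have := (abs_le.1 (hbs m)).1
        linarith
      · intro m _
        rw [hd]
        have : β * s m ≤ 0 := mul_nonpos_of_nonpos_of_nonneg hβ0 (hs0 m)
        linarith
      · intro m _
        rw [hd, hd]
        have := mul_le_mul_of_nonpos_left (hanti m) hβ0
        linarith
  · rintro ⟨k, hk⟩ hβ hβ2
    rw [habs] at hβ2
    have hβ0 : 0 < |β| := abs_pos.2 hβ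
    have hx : ∑ m ∈ range L, e (α * m + β * w m) = ∑ m ∈ range L, e (β * w m) := by
      rw [hshift (-k)]
      apply sum_congr rfl
      intro m _
      congr 1
      rw [hk]
      push_cast
      ring
    have h4 : 4 * Real.sqrt (3 * M) / (|β| * q) = 2 / (|β| * (q / (2 * Real.sqrt (3 * M)))) := by
      field_simp
      norm_num
    have hx2 : ‖∑ m ∈ range L, e (β * w m)‖ = ‖∑ m ∈ range L, e (|β| * w m)‖ := by
      rcases le_total 0 β with h | h
      · rw [abs_of_nonneg h]
      · rw [abs_of_nonpos h, ← norm_sum_neg]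
        congr 1
        apply sum_congr rfl
        intro m _
        congr 1
        ring
    show ‖∑ m ∈ range L, e (α * m + β * w m)‖ ≤ _
    rw [hx, hx2, h4]
    have hd : ∀ m : ℕ, |β| * w (m + 1) - |β| * w m = |β| * s m := by
      intro m
      simp only [hs]
      ring
    apply kusmin_landau_anti (fun m => |β| * w m) L (by positivity)
    · intro m hm
      rw [hd]
      exact mul_le_mul_of_nonneg_left (hslo m hm) hβ0.le
    · intro m hm
      rw [hd]
      have h5 := mul_le_mul_of_nonneg_left (hsup m) hβ0.le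
      have h6 := mul_le_mul_of_nonneg_left ((hslo m hm).trans (hsup m)) hβ0.le
      linarith
    · intro m _
      rw [hd, hd]
      exact mul_le_mul_of_nonneg_left (hanti m) hβ0.le

end Pool.Agent.T2h81.LD
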