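import Pool.Agent.T2h81.LD.H8

set_option autoImplicit false
set_option linter.unusedSectionVars false
set_option linter.unusedVariables false
set_option maxHeartbeats 4000000

/-! # Positive proportion: `√n` and `c √n + d` and the square roots of the primes -/

namespace Pool.Agent.T2h81.LD

open Finset Filter
open Pool.Agent.H469R2.NK (e norm_e e_add)
open Pool.Agent.W147.PS (ev_pow)
open Pool.Agent.Y961.JR (class_param)
open Pool.Agent.N534.PG (algExp_meas dio_span AlgExp den_lin)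

open scoped Classical

/-- the Diophantine condition for shifts -/
def ShiftDio {r : ℕ} (c d : Fin r → ℝ) (c₀ τ : ℝ) : Prop :=
  ∀ (H : ℝ) (h : Fin r → ℤ), h ≠ 0 → (∀ j, |(h j : ℝ)| ≤ H) →
    (∀ k : ℤ, c₀ * H ^ (-τ) ≤ |∑ j, (h j : ℝ) * c j ^ 2 - k|) ∨
    ((∃ k : ℤ, ∑ j, (h j : ℝ) * c j ^ 2 = k) ∧ c₀ * H ^ (-τ) ≤ |∑ j, (h j : ℝ) * (c j * d j)|)

/-- distances of integer combinations to integers -/
theorem dist_alg {r : ℕ} (v : Fin r → ℝ) (hv : ∀ j, v j ∈ AlgExp) :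
    ∃ c W : ℝ, 0 < c ∧ 0 ≤ W ∧ ∀ (H : ℝ) (h : Fin r → ℤ), h ≠ 0 → (∀ j, |(h j : ℝ)| ≤ H) →
      ∀ k : ℤ, ∑ j, (h j : ℝ) * v j ≠ k → c * H ^ (-W) ≤ |∑ j, (h j : ℝ) * v j - k| := by
  obtain ⟨m, g, W, c₀, hW, hc₀, hM, h1, hv⟩ := algExp_meas v hv
  obtain ⟨c, hc, hdio⟩ := dio_span g W c₀ hW hc₀ hM h1 v hv
  obtain ⟨b, hb, hden⟩ := den_lin v
  have hb0 : (0:ℝ) < b := by exact_mod_cast hb
  refine ⟨min c (1 / b), W, lt_min hc (by positivity), hW, ?_⟩
  intro H h hh hH k hk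
  have hH1 := one_le_of_ne h hh H hH
  have hHW : 0 < H ^ (-W) := Real.rpow_pos_of_pos (by linarith) _
  have hHW1 : H ^ (-W) ≤ 1 := by
    calc H ^ (-W) ≤ H ^ (0 : ℝ) := Real.rpow_le_rpow_of_exponent_le hH1 (by linarith)
      _ = 1 := Real.rpow_zero _
  by_cases hirr : Irrational (∑ j, (h j : ℝ) * v j)
  · exact (mul_le_mul_of_nonneg_right (min_le_left _ _) hHW.le).trans (hdio H h hH hirr k)
  · have hx : ∃ x : ℚ, ∑ j, (h j : ℝ) * v j = x := by
      rw [irrational_iff_ne_rational] at hirr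
      push Not at hirr
      obtain ⟨a, d, hd, hx⟩ := hirr
      exact ⟨a / d, by rw [hx]; push_cast; rfl⟩
    obtain ⟨z, hz⟩ := hden h hx
    have hz1 : (b : ℝ) * (∑ j, (h j : ℝ) * v j - k) = ((z - b * k : ℤ) : ℝ) := by
      push_cast
      rw [mul_sub, hz]
    have hz0 : z - b * k ≠ 0 := by
      intro h0
      rw [h0, Int.cast_zero] at hz1
      rcases mul_eq_zero.1 hz1 with h2 | h2
      · exact hb0.ne' h2
      · exact hk (by linarith)
    have h2 : (1:ℝ) ≤ |((z - b * k : ℤ) : ℝ)| := by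
      have := Int.one_le_abs hz0
      exact_mod_cast this
    rw [← hz1, abs_mul, abs_of_pos hb0] at h2
    calc min c (1 / b) * H ^ (-W) ≤ 1 / b * 1 :=
          mul_le_mul (min_le_right _ _) hHW1 hHW.le (by positivity)
      _ ≤ _ := by
          rw [mul_one, div_le_iff₀ hb0]
          linarith

/-- the Diophantine condition for algebraic numbers -/
theorem shiftDio_alg {r : ℕ} (c d : Fin r → ℝ) (hc : ∀ j, c j ^ 2 ∈ AlgExp)
    (hd : ∀ j, c j * d j ∈ AlgExp)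
    (hind : ∀ h : Fin r → ℤ, h ≠ 0 → (∃ k : ℤ, ∑ j, (h j : ℝ) * c j ^ 2 = k) →
      ∑ j, (h j : ℝ) * (c j * d j) ≠ 0) :
    ∃ c₀ τ : ℝ, 0 < c₀ ∧ 0 ≤ τ ∧ ShiftDio c d c₀ τ := by
  obtain ⟨c₁, W₁, hc₁, hW₁, h1⟩ := dist_alg _ hc
  obtain ⟨c₂, W₂, hc₂, hW₂, h2⟩ := dist_alg _ hd
  refine ⟨min c₁ c₂, max W₁ W₂, lt_min hc₁ hc₂, hW₁.trans (le_max_left _ _), ?_⟩
  intro H h hh hH
  have hH1 := one_le_of_ne h hh H hH
  have e1 : ∀ (c W : ℝ), 0 < c → min c₁ c₂ ≤ c → W ≤ max W₁ W₂ →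
      min c₁ c₂ * H ^ (-(max W₁ W₂)) ≤ c * H ^ (-W) := by
    intro c W hc h3 h4
    apply mul_le_mul h3 _ (Real.rpow_nonneg (by linarith) _) hc.le
    exact Real.rpow_le_rpow_of_exponent_le hH1 (by linarith)
  by_cases hk : ∃ k : ℤ, ∑ j, (h j : ℝ) * c j ^ 2 = k
  · right
    refine ⟨hk, ?_⟩
    have h3 := h2 H h hh hH 0 (by rw [Int.cast_zero]; exact hind h hh hk)
    rw [Int.cast_zero, sub_zero] at h3
    exact (e1 c₂ W₂ hc₂ (min_le_right _ _) (le_max_right _ _)).trans h3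
  · left
    intro k
    push Not at hk
    exact (e1 c₁ W₁ hc₁ (min_le_left _ _) (le_max_left _ _)).trans (h1 H h hh hH k (hk k))

/-- the exponential sums of the shifts -/
theorem shift_sum (r : ℕ) (c d : Fin r → ℝ) (c₀ τ : ℝ) (hc₀ : 0 < c₀) (hτ : 0 ≤ τ)
    (hdio : ShiftDio c d c₀ τ) (ε η : ℝ) (hη : 0 < η) (hητ : η * (τ + 1) < ε) (hε : ε ≤ 1 / 2) :
    ∀ᶠ M : ℝ in atTop, ∀ N : ℝ, M ^ (1 / 2 + ε) ≤ N → N ≤ M → ∀ q : ℕ, 1 ≤ q → (q : ℝ) ≤ M ^ η →
    ∀ b : ℤ, ∀ h : Fin r → ℤ, h ≠ 0 → (∀ j, |(h j : ℝ)| ≤ M ^ η) →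
      ‖∑ n ∈ (Ioc ⌊M⌋₊ ⌊M + N⌋₊).filter (fun n : ℕ => (q : ℤ) ∣ (n : ℤ) - b),
        e (∑ j, (h j : ℝ) * ((c j * Real.sqrt n + d j) ^ 2 / q))‖ ≤ N / 2 * M ^ (-η) := by
  set S : ℝ := ∑ j, |c j * d j| with hS
  have hS0 : 0 ≤ S := Finset.sum_nonneg fun _ _ => abs_nonneg _
  filter_upwards [eventually_ge_atTop (2 : ℝ),
    ev_pow (η * (τ + 1)) (1 / 2) (2 * S / c₀) (by linarith),
    ev_pow η (1 / 2) (2 * S) (by nlinarith),
    ev_pow (1 / 2 + η * (τ + 1)) (1 / 2 + ε) (8 / c₀) (by linarith)] with M hM2 hp1 hp2 hp3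
  intro N hN1 hN2 q hq hqM b h hh hhM
  have hM0 : 0 < M := by linarith
  have hM1 : 1 ≤ M := by linarith
  have hE : ∀ x y : ℝ, x ≤ y → M ^ x ≤ M ^ y := fun x y h =>
    Real.rpow_le_rpow_of_exponent_le hM1 h
  have hN0 : 0 < N := lt_of_lt_of_le (by positivity) hN1
  have hq0 : (0:ℝ) < q := by exact_mod_cast hq
  have hsM : Real.sqrt M = M ^ (1 / 2 : ℝ) := Real.sqrt_eq_rpow M
  have hsM0 : 0 < Real.sqrt M := Real.sqrt_pos.2 hM0
  set A : ℕ := ⌊M⌋₊ with hA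
  set B' : ℕ := ⌊M + N⌋₊ with hB'
  have hAM2 : M < A + 1 := Nat.lt_floor_add_one M
  have hAM : (A : ℝ) ≤ M := Nat.floor_le hM0.le
  have hBM : (B' : ℝ) ≤ M + N := Nat.floor_le (by linarith)
  have hAB : A ≤ B' := Nat.floor_mono (by linarith)
  obtain ⟨n₀, L, g1, g2, g3, g4, g5, g6⟩ := class_param A B' q hq hAB b
  rw [g6]
  set a : ℝ := ∑ j, (h j : ℝ) * c j ^ 2 with ha
  set B : ℝ := ∑ j, (h j : ℝ) * (c j * d j) with hB
  set D : ℝ := ∑ j, (h j : ℝ) * d j ^ 2 with hD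
  have hn₀M : M ≤ n₀ := by
    have : ((A + 1 : ℕ) : ℝ) ≤ n₀ := by exact_mod_cast g1
    push_cast at this
    linarith
  have hn₀1 : 1 ≤ n₀ := by omega
  have hqM' : (q : ℝ) ≤ M := by
    refine hqM.trans ?_
    calc M ^ η ≤ M ^ (1:ℝ) := hE _ _ (by nlinarith)
      _ = M := Real.rpow_one M
  have hL3 : (n₀ : ℝ) + q * (L : ℝ) ≤ 3 * M := by
    rcases Nat.eq_zero_or_pos L with h0 | h0
    · rw [h0]
      have : (n₀ : ℝ) ≤ A + q := by exact_mod_cast g2
      push_cast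
      linarith
    · have h1 := g4 (L - 1) (by omega)
      have h2 : n₀ + q * L ≤ B' + q := by
        have h3 : q * L = q * (L - 1) + q := by
          obtain ⟨L', rfl⟩ : ∃ L', L = L' + 1 := ⟨L - 1, by omega⟩
          simp only [Nat.add_sub_cancel]
          ring
        omega
      have h4 : (n₀ : ℝ) + q * (L : ℝ) ≤ B' + q := by exact_mod_cast h2
      -- the bound by `3 M`
      have h5 : (q : ℝ) ≤ M := hqM'
      linarith
  -- the phases
  have hph : ∀ m : ℕ, (∑ j, (h j : ℝ) * ((c j * Real.sqrt ((n₀ + q * m : ℕ) : ℝ) + d j) ^ 2 / q)) =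
      (a * m + (2 * B / q) * Real.sqrt (n₀ + q * (m : ℝ))) + (a * n₀ + D) / q := by
    intro m
    have hw2 : Real.sqrt ((n₀ + q * m : ℕ) : ℝ) = Real.sqrt (n₀ + q * (m : ℝ)) := by
      congr 1
      push_cast
      ring
    have hw : Real.sqrt (n₀ + q * (m : ℝ)) ^ 2 = n₀ + q * (m : ℝ) :=
      Real.sq_sqrt (by positivity)
    rw [hw2]
    obtain ⟨W, hW⟩ : ∃ W, W = Real.sqrt (n₀ + q * (m : ℝ)) := ⟨_, rfl⟩
    rw [← hW] at hw ⊢
    have e1 : ∀ j, (h j : ℝ) * ((c j * W + d j) ^ 2 / q) =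
        (h j : ℝ) * c j ^ 2 * (W ^ 2 / q) + (h j : ℝ) * (c j * d j) * (2 * W / q) +
        (h j : ℝ) * d j ^ 2 * (1 / q) := by
      intro j
      ring
    rw [Finset.sum_congr rfl fun j _ => e1 j, Finset.sum_add_distrib, Finset.sum_add_distrib,
      ← Finset.sum_mul, ← Finset.sum_mul, ← Finset.sum_mul, ← ha, ← hB, ← hD, hw]
    field_simp
    ring
  simp_rw [hph]
  have hfac : ∑ m ∈ range L, e ((a * m + (2 * B / q) * Real.sqrt (n₀ + q * (m : ℝ))) +
      (a * n₀ + D) / q) = (∑ m ∈ range L, e (a * m + (2 * B / q) * Real.sqrt (n₀ + q * (m : ℝ)))) *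
      e ((a * n₀ + D) / q) := by
    rw [Finset.sum_mul (range L)]
    exact Finset.sum_congr rfl fun m _ => e_add _ _
  rw [hfac, norm_mul, norm_e, mul_one]
  obtain ⟨k1, k2⟩ := kl_sqrt a (2 * B / q) M n₀ q L hM1 hq hn₀M hL3
  have hBS : |B| ≤ M ^ η * S := by
    rw [hB, hS, Finset.mul_sum]
    refine (Finset.abs_sum_le_sum_abs _ _).trans (Finset.sum_le_sum fun j _ => ?_)
    rw [abs_mul]
    exact mul_le_mul_of_nonneg_right (hhM j) (abs_nonneg _)
  have hβ : |2 * B / q| * q / (2 * Real.sqrt M) = |B| / Real.sqrt M := by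
    rw [abs_div, abs_mul, Nat.abs_cast, abs_of_pos (show (0:ℝ) < 2 by norm_num)]
    field_simp
  have hMητ : (M ^ η) ^ (-τ) = M ^ (-(η * τ)) := by
    rw [← Real.rpow_mul hM0.le]; congr 1; ring
  have hfin : 4 / c₀ * M ^ (1 / 2 + η * τ) ≤ N / 2 * M ^ (-η) := by
    have e1 : M ^ (1 / 2 + η * τ) = M ^ (1 / 2 + η * (τ + 1)) * M ^ (-η) := by
      rw [← Real.rpow_add hM0]; congr 1; ring
    rw [e1, ← mul_assoc]
    apply mul_le_mul_of_nonneg_right _ (Real.rpow_nonneg hM0.le _)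
    have e2 : 4 / c₀ * M ^ (1 / 2 + η * (τ + 1)) = (8 / c₀ * M ^ (1 / 2 + η * (τ + 1))) / 2 := by ring
    rw [e2]
    linarith
  rcases hdio (M ^ η) h hh hhM with h1 | ⟨h1, h2⟩
  · refine (k1 (c₀ * (M ^ η) ^ (-τ)) (by positivity) h1 ?_).trans ?_
    · rw [hβ, div_le_iff₀ hsM0, hMητ, hsM]
      have e1 : M ^ η * S ≤ c₀ * M ^ (-(η * τ)) / 2 * M ^ (1 / 2 : ℝ) := by
        have e2 : M ^ η = M ^ (η * (τ + 1)) * M ^ (-(η * τ)) := by
          rw [← Real.rpow_add hM0]; congr 1; ring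
        rw [e2]
        have e3 : M ^ (η * (τ + 1)) * S ≤ c₀ / 2 * M ^ (1 / 2 : ℝ) := by
          rw [div_mul_eq_mul_div, div_le_iff₀ hc₀] at hp1
          linarith
        calc M ^ (η * (τ + 1)) * M ^ (-(η * τ)) * S = M ^ (η * (τ + 1)) * S * M ^ (-(η * τ)) := by ring
          _ ≤ c₀ / 2 * M ^ (1 / 2 : ℝ) * M ^ (-(η * τ)) :=
              mul_le_mul_of_nonneg_right e3 (Real.rpow_nonneg hM0.le _)
          _ = _ := by ring
      exact hBS.trans e1
    · rw [hMητ]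
      refine le_trans ?_ hfin
      have e1 : 4 / (c₀ * M ^ (-(η * τ))) = 4 / c₀ * M ^ (η * τ) := by
        rw [Real.rpow_neg hM0.le]
        field_simp
      rw [e1]
      exact mul_le_mul_of_nonneg_left (hE _ _ (by linarith)) (by positivity)
  · have hB0 : 0 < |B| := lt_of_lt_of_le (by positivity) h2
    refine (k2 h1 ?_ ?_).trans ?_
    · have : B ≠ 0 := abs_pos.1 hB0
      positivity
    · rw [hβ, div_le_iff₀ hsM0, hsM]
      have e1 : 2 * S * M ^ η ≤ M ^ (1 / 2 : ℝ) := hp2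
      linarith
    · refine le_trans ?_ hfin
      have e1 : |2 * B / q| * q = 2 * |B| := by
        rw [abs_div, abs_mul, Nat.abs_cast, abs_of_pos (show (0:ℝ) < 2 by norm_num)]
        field_simp
      rw [e1, div_le_iff₀ (by positivity)]
      have e2 : Real.sqrt (3 * M) ≤ 2 * Real.sqrt M := by
        rw [Real.sqrt_le_left (by positivity), mul_pow, Real.sq_sqrt hM0.le]
        linarith
      have e3 : c₀ * M ^ (-(η * τ)) ≤ |B| := by rw [← hMητ]; exact h2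
      have e4 : M ^ (1 / 2 + η * τ) = Real.sqrt M * M ^ (η * τ) := by
        rw [hsM, ← Real.rpow_add hM0]
      have e5 : M ^ (η * τ) * M ^ (-(η * τ)) = 1 := by
        rw [← Real.rpow_add hM0, add_neg_cancel, Real.rpow_zero]
      calc 4 * Real.sqrt (3 * M) ≤ 4 * (2 * Real.sqrt M) := by linarith
        _ = 4 / c₀ * (Real.sqrt M * M ^ (η * τ)) * (2 * (c₀ * M ^ (-(η * τ)))) := by
            have : 4 / c₀ * (Real.sqrt M * M ^ (η * τ)) * (2 * (c₀ * M ^ (-(η * τ)))) =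
              8 * Real.sqrt M * (M ^ (η * τ) * M ^ (-(η * τ))) * (c₀ / c₀) := by ring
            rw [this, e5, div_self hc₀.ne']
            ring
        _ ≤ 4 / c₀ * M ^ (1 / 2 + η * τ) * (2 * |B|) := by
            rw [e4]
            apply mul_le_mul_of_nonneg_left _ (by positivity)
            linarith

/-- **Shifts.** -/
theorem shifts_ld (r : ℕ) (hr : 1 ≤ r) (c d : Fin r → ℝ) (hc : ∀ j, 0 < c j) (c₀ τ : ℝ)
    (hc₀ : 0 < c₀) (hτ : 0 ≤ τ) (hdio : ShiftDio c d c₀ τ) (ε : ℝ) (hε0 : 0 < ε) (hε : ε ≤ 1 / 2) :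
    ∃ K : ℝ, 1 ≤ K ∧ ∀ᶠ M : ℝ in atTop, ∀ N : ℝ, M ^ (1 / 2 + ε) ≤ N → N ≤ M →
      ∀ lam : ℝ, 1 ≤ lam → Real.exp (K * lam) ≤ Real.log M →
      (∀ n ∈ Ioc ⌊M⌋₊ ⌊M + N⌋₊, ∀ j, 2 ≤ c j * Real.sqrt n + d j) ∧
      N * Real.exp (-Real.exp (K * lam)) ≤ (((Ioc ⌊M⌋₊ ⌊M + N⌋₊).filter (fun n : ℕ =>
        (∀ q : ℕ, q.Prime → lam * Real.log M / Real.sqrt n < |Real.sqrt q - Real.sqrt n|) ∧
        ∀ j, ∀ q : ℕ, q.Prime → lam * Real.log M / (c j * Real.sqrt n + d j) <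
          |Real.sqrt q - (c j * Real.sqrt n + d j)|)).card : ℝ) := by
  set η : ℝ := ε / (2 * (τ + 2)) with hη
  have hη0 : 0 < η := by positivity
  have hητ : η * (τ + 1) < ε := by
    rw [hη, div_mul_eq_mul_div, div_lt_iff₀ (by positivity)]
    nlinarith
  have hηε : η ≤ ε / 4 := by
    rw [hη]
    apply div_le_div_of_nonneg_left hε0.le (by norm_num)
    linarith
  obtain ⟨K, hK, hcr⟩ := crit_ld1J r hr η hη0 (by linarith)
  refine ⟨6 * K, by linarith, ?_⟩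
  obtain ⟨m, hm, hmc⟩ : ∃ m : ℝ, 0 < m ∧ ∀ j, m ≤ c j := by
    have hne : (Finset.univ : Finset (Fin r)).Nonempty := ⟨⟨0, hr⟩, Finset.mem_univ _⟩
    refine ⟨Finset.univ.inf' hne c, ?_, fun j => Finset.inf'_le _ (Finset.mem_univ j)⟩
    rw [Finset.lt_inf'_iff]
    exact fun j _ => hc j
  set S : ℝ := ∑ j, |d j| with hS
  have hdS : ∀ j, -S ≤ d j := fun j => by
    have h1 : |d j| ≤ S := Finset.single_le_sum (f := fun j => |d j|) (fun _ _ => abs_nonneg _)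
      (Finset.mem_univ j)
    have := neg_abs_le (d j)
    linarith
  have t1 : ∀ᶠ M : ℝ in atTop, M ^ (1 / 4 : ℝ) ≤ m * Real.sqrt M - S := by
    filter_upwards [ev_pow (1 / 4) (1 / 2) (2 / m) (by norm_num),
      (tendsto_rpow_atTop (show (0:ℝ) < 1 / 4 by norm_num)).eventually_ge_atTop S] with M h1 h2
    rw [div_mul_eq_mul_div, div_le_iff₀ hm, ← Real.sqrt_eq_rpow] at h1
    linarith
  filter_upwards [hcr, shift_sum r c d c₀ τ hc₀ hτ hdio ε η hη0 hητ hε, t1,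
    eventually_ge_atTop (4 : ℝ), ev_aux (1 / 4) (by norm_num),
    (tendsto_rpow_atTop (show (0:ℝ) < 1 / 4 by norm_num)).eventually_ge_atTop 2,
    ev_pow η (1 / 2 + ε) 2 (by linarith)] with M hcr' hsum ht1 hM4 hp1 hp2 hp3
  obtain ⟨-, -, hp1⟩ := hp1
  intro N hN1 hN2 lam hlam hlamM
  have hM0 : 0 < M := by linarith
  have hM1 : 1 ≤ M := by linarith
  have hE : ∀ x y : ℝ, x ≤ y → M ^ x ≤ M ^ y := fun x y h =>
    Real.rpow_le_rpow_of_exponent_le hM1 h
  have hN0 : 0 < N := lt_of_lt_of_le (by positivity) hN1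
  have hlog : 0 < Real.log M := Real.log_pos (by linarith)
  set A : ℕ := ⌊M⌋₊ with hA
  set B : ℕ := ⌊M + N⌋₊ with hB
  have hAM : (A : ℝ) ≤ M := Nat.floor_le hM0.le
  have hAM2 : M < A + 1 := Nat.lt_floor_add_one M
  have hBM : (B : ℝ) ≤ M + N := Nat.floor_le (by linarith)
  have hBM2 : M + N < B + 1 := Nat.lt_floor_add_one (M + N)
  have hN2' : (2:ℝ) ≤ N := by
    have h2 : (2:ℝ) ≤ M ^ (1 / 2 + ε) := hp2.trans (hE _ _ (by linarith))
    linarith
  have hAB' : (A : ℝ) < B := by linarith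
  have hAB : A < B := by exact_mod_cast hAB'
  have hmem : ∀ n ∈ Ioc A B, M ≤ (n : ℝ) := by
    intro n hn
    have h1 := (Finset.mem_Ioc.1 hn).1
    have h2 : ((A + 1 : ℕ) : ℝ) ≤ n := by exact_mod_cast h1
    push_cast at h2
    linarith
  have hx : ∀ n ∈ Ioc A B, ∀ j, M ^ (1 / 4 : ℝ) ≤ c j * Real.sqrt n + d j := by
    intro n hn j
    have h1 : m * Real.sqrt M ≤ c j * Real.sqrt n :=
      mul_le_mul (hmc j) (Real.sqrt_le_sqrt (hmem n hn)) (Real.sqrt_nonneg _) (hc j).le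
    have h2 := hdS j
    linarith
  have hcard : ((Ioc A B).card : ℝ) = (B : ℝ) - A := by
    rw [Nat.card_Ioc, Nat.cast_sub hAB.le]
  have hNhalf : N / 2 ≤ (Ioc A B).card := by
    rw [hcard]; linarith
  have hM14 : 0 < M ^ (1 / 4 : ℝ) := by positivity
  have hM12 : M ^ (1 / 4 : ℝ) * M ^ (1 / 4 : ℝ) = M ^ (1 / 2 : ℝ) := by
    rw [← Real.rpow_add hM0]; norm_num
  refine ⟨fun n hn j => hp2.trans (hx n hn j), ?_⟩
  have hlamlog : lam * Real.log M ≤ M ^ (1 / 4 : ℝ) := by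
    have g1 : lam ≤ Real.log M := by
      have g2 := Real.add_one_le_exp (6 * K * lam)
      nlinarith
    have g3 : lam * Real.log M ≤ Real.log M ^ 2 := by nlinarith
    have g4 : 0 < (M ^ (1 / 4 : ℝ)) ^ (1 / 10 : ℝ) := by positivity
    linarith
  have hKlam : 1 ≤ K * (3 * lam) := by nlinarith
  have hexp2 : Real.exp (K * (3 * lam)) + 1 ≤ Real.exp (6 * K * lam) := by
    have g1 : Real.exp (6 * K * lam) = Real.exp (K * (3 * lam)) * Real.exp (K * (3 * lam)) := by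
      rw [← Real.exp_add]; congr 1; ring
    have g2 := Real.add_one_le_exp (K * (3 * lam))
    rw [g1]
    nlinarith
  have key := hcr' (3 * lam) (by linarith) (by linarith) ℕ (Ioc A B) (fun n => (n : ℤ))
    (fun n j => (c j * Real.sqrt n + d j) ^ 2)
    (fun n hn => by
      have h1 := hmem n hn
      push_cast
      calc M ^ η ≤ M ^ (1:ℝ) := hE _ _ (by linarith)
        _ = M := Real.rpow_one M
        _ ≤ n := h1)
    (fun n hn j => by
      have h1 := hx n hn j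
      calc M ^ η ≤ M ^ (1 / 2 : ℝ) := hE _ _ (by linarith)
        _ = M ^ (1 / 4 : ℝ) * M ^ (1 / 4 : ℝ) := hM12.symm
        _ ≤ (c j * Real.sqrt n + d j) * (c j * Real.sqrt n + d j) :=
            mul_le_mul h1 h1 hM14.le (by linarith)
        _ = _ := by ring)
    (by
      intro q hq hqM b
      have hcN : N / 2 * M ^ (-η) ≤ ((Ioc A B).card : ℝ) * M ^ (-η) :=
        mul_le_mul_of_nonneg_right hNhalf (Real.rpow_nonneg hM0.le _)
      constructor
      · obtain ⟨n₀, L, g1, g2, g3, g4, g5, g6⟩ := class_param A B q hq hAB.le b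
        rw [g5, hcard]
        refine g3.trans ?_
        rw [← hcard]
        refine le_trans ?_ hcN
        rw [Real.rpow_neg hM0.le, ← div_eq_mul_inv, le_div_iff₀ (by positivity)]
        linarith
      · intro h hh hhM
        exact (hsum N hN1 hN2 q hq hqM b h hh hhM).trans hcN)
  have h5 : N * Real.exp (-Real.exp (6 * K * lam)) ≤
      ((Ioc A B).card : ℝ) * Real.exp (-Real.exp (K * (3 * lam))) := by
    have g1 : Real.exp (-Real.exp (6 * K * lam)) ≤ Real.exp (-Real.exp (K * (3 * lam))) * (1 / 2) := by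
      have g2 : Real.exp (-1) ≤ (1 / 2 : ℝ) := by
        rw [Real.exp_neg, inv_le_comm₀ (Real.exp_pos _) (by norm_num)]
        have := Real.add_one_le_exp (1:ℝ)
        norm_num
        linarith
      calc Real.exp (-Real.exp (6 * K * lam)) ≤ Real.exp (-Real.exp (K * (3 * lam)) + (-1)) :=
            Real.exp_le_exp.2 (by linarith)
        _ = Real.exp (-Real.exp (K * (3 * lam))) * Real.exp (-1) := Real.exp_add _ _
        _ ≤ _ := mul_le_mul_of_nonneg_left g2 (Real.exp_pos _).le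
    calc N * Real.exp (-Real.exp (6 * K * lam)) ≤
          N * (Real.exp (-Real.exp (K * (3 * lam))) * (1 / 2)) := mul_le_mul_of_nonneg_left g1 hN0.le
      _ = N / 2 * Real.exp (-Real.exp (K * (3 * lam))) := by ring
      _ ≤ _ := mul_le_mul_of_nonneg_right hNhalf (Real.exp_pos _).le
  refine h5.trans (key.trans ?_)
  rw [Nat.cast_le]
  apply Finset.card_le_card
  intro n hn
  rw [Finset.mem_filter] at hn ⊢
  obtain ⟨h1, h2, h3⟩ := hn
  have hw0 : 0 ≤ lam * Real.log M := by positivity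
  have hMn := hmem n h1
  have hn0 : (0:ℝ) < n := by linarith
  refine ⟨h1, fun q hq => ?_, fun j q hq => ?_⟩
  · apply root_far _ _ (Real.sqrt_pos.2 hn0) hw0
    · rw [Real.sq_sqrt hn0.le]
      refine hlamlog.trans (le_trans ?_ hMn)
      calc M ^ (1 / 4 : ℝ) ≤ M ^ (1:ℝ) := hE _ _ (by norm_num)
        _ = M := Real.rpow_one M
    · have := h2 q hq
      rw [Real.sq_sqrt hn0.le]
      push_cast at this
      linarith
  · have hxj := hx n h1 j
    apply root_far _ _ (by linarith) hw0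
    · refine hlamlog.trans ?_
      calc M ^ (1 / 4 : ℝ) ≤ M ^ (1 / 2 : ℝ) := hE _ _ (by norm_num)
        _ = M ^ (1 / 4 : ℝ) * M ^ (1 / 4 : ℝ) := hM12.symm
        _ ≤ (c j * Real.sqrt n + d j) * (c j * Real.sqrt n + d j) :=
            mul_le_mul hxj hxj hM14.le (by linarith)
        _ = _ := by ring
    · have := h3 j q hq
      linarith

end Pool.Agent.T2h81.LD
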