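import Pool.Agent.T2h81.LD.G15
import Pool.Agent.T2h81.LD.G13

set_option autoImplicit false
set_option linter.unusedSectionVars false
set_option linter.unusedVariables false
set_option maxHeartbeats 4000000

/-! # Goldbach: the least summand for families of even integers with a level of distribution -/

namespace Pool.Agent.T2h81.LD

open Finset Filter

open scoped Classical

lemma ev_primes : ∀ᶠ x : ℝ in atTop,
    (((Icc 1 ⌊x⌋₊).filter Nat.Prime).card : ℝ) ≤ 2 * x / Real.log x := by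
  filter_upwards [Chebyshev.eventually_primeCounting_le (ε := 1 / 2) (by norm_num),
    eventually_ge_atTop (2:ℝ)] with x h1 hx2
  have h2 : ((Icc 1 ⌊x⌋₊).filter Nat.Prime).card = Nat.primeCounting ⌊x⌋₊ := by
    rw [← Nat.primesLE_card_eq_primeCounting]
    congr 1
    ext p
    rw [Finset.mem_filter, Finset.mem_Icc, Nat.mem_primesLE]
    constructor
    · rintro ⟨⟨_, h2⟩, h3⟩
      exact ⟨h2, h3⟩
    · rintro ⟨h2, h3⟩
      exact ⟨⟨h3.one_lt.le, h2⟩, h3⟩
  rw [h2]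
  refine h1.trans ?_
  have hl : 0 ≤ Real.log x := Real.log_nonneg (by linarith)
  apply div_le_div_of_nonneg_right _ hl
  have h3 : Real.log 4 ≤ 1.4 := by
    have h4 : Real.log 4 = 2 * Real.log 2 := by
      rw [show (4:ℝ) = 2 ^ 2 by norm_num, Real.log_pow]; norm_num
    have := Real.log_two_lt_d9
    rw [h4]; linarith
  nlinarith

lemma ev_gold (θ : ℝ) (h0 : 0 < θ) (r : ℕ) (x₁ : ℝ) : ∀ᶠ M : ℝ in atTop, 1 ≤ Real.log M ∧
    1 ≤ Real.log (Real.log M) ∧ Real.log M ≤ (θ * Real.log M) ^ 2 ∧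
    Real.log M ^ 3 ≤ (θ * Real.log M) ^ 4 ∧ x₁ ≤ Real.log M ∧
    Real.log M ^ 3 ≤ (M ^ θ) ^ (1 / 10 : ℝ) ∧ 100 * r ≤ (M ^ θ) ^ (1 / 10 : ℝ) ∧
    Real.exp (Real.sqrt (Real.log M)) * 2 ≤ (M ^ θ) ^ (1 / 10 : ℝ) := by
  have t0 : ∀ᶠ L : ℝ in atTop, 1 ≤ L ∧ 1 ≤ Real.log L ∧ L ≤ (θ * L) ^ 2 ∧ L ^ 3 ≤ (θ * L) ^ 4 ∧
      x₁ ≤ L := by
    filter_upwards [eventually_ge_atTop (1:ℝ), Real.tendsto_log_atTop.eventually_ge_atTop 1,
      eventually_ge_atTop (1 / θ ^ 2), eventually_ge_atTop (1 / θ ^ 4), eventually_ge_atTop x₁] with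
      L h1 h2 h3 h4 h5
    refine ⟨h1, h2, ?_, ?_, h5⟩
    · rw [div_le_iff₀ (by positivity)] at h3
      have h6 : (θ * L) ^ 2 = L * (L * θ ^ 2) := by ring
      rw [h6]
      have h7 : L * 1 ≤ L * (L * θ ^ 2) := mul_le_mul_of_nonneg_left h3 (by linarith)
      linarith
    · rw [div_le_iff₀ (by positivity)] at h4
      have h6 : (θ * L) ^ 4 = L ^ 3 * (L * θ ^ 4) := by ring
      rw [h6]
      have h7 : L ^ 3 * 1 ≤ L ^ 3 * (L * θ ^ 4) := mul_le_mul_of_nonneg_left h4 (by positivity)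
      linarith
  have t2 : ∀ᶠ M : ℝ in atTop, Real.log M ^ 3 ≤ (M ^ θ) ^ (1 / 10 : ℝ) := by
    have h3 : (fun x : ℝ => (Real.log x) ^ (3 : ℝ)) =o[atTop] fun x : ℝ => x ^ (θ * (1 / 10)) :=
      isLittleO_log_rpow_rpow_atTop 3 (by positivity)
    have h4 := h3.bound (show (0:ℝ) < 1 by norm_num)
    filter_upwards [h4, eventually_ge_atTop (1:ℝ)] with M h5 h6
    rw [Real.norm_of_nonneg (Real.rpow_nonneg (Real.log_nonneg h6) _),
      Real.norm_of_nonneg (Real.rpow_nonneg (by linarith) _), one_mul] at h5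
    have h7 : Real.log M ^ (3:ℝ) = Real.log M ^ 3 := by norm_num
    rw [h7, Real.rpow_mul (by linarith)] at h5
    exact h5
  have t3 : ∀ᶠ M : ℝ in atTop, 100 * (r:ℝ) ≤ (M ^ θ) ^ (1 / 10 : ℝ) :=
    ((tendsto_rpow_atTop (show (0 : ℝ) < 1 / 10 by norm_num)).comp
      (tendsto_rpow_atTop h0)).eventually_ge_atTop _
  filter_upwards [Real.tendsto_log_atTop.eventually t0, t2, t3,
    ev_aux2 (θ * (1 / 10)) (by positivity) r, eventually_ge_atTop (1:ℝ)] with M h1 h2 h3 h4 h5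
  obtain ⟨a1, a2, a3, a4, a5⟩ := h1
  refine ⟨a1, a2, a3, a4, a5, h2, h3, ?_⟩
  rw [← Real.rpow_mul (by linarith)]
  exact h4.2

/-- **Goldbach for families** -/
theorem gold_core (r : ℕ) (hr : 1 ≤ r) (θ : ℝ) (h0 : 0 < θ) (h1 : θ ≤ 1) : ∃ C : ℝ, 1 ≤ C ∧
    ∀ᶠ M : ℝ in atTop, ∀ lam : ℝ, 1 ≤ lam → Real.exp (C * lam) ≤ Real.log M →
    ∀ (ι : Type) (s : Finset ι) (v : ι → Fin r → ℤ),
    (∀ q : ℕ, Odd q → (q : ℝ) ≤ (M ^ θ) ^ (2 / 5 : ℝ) →
      ∀ ρ : Fin r → ℤ, |((s.filter (fun i => ∀ j, (q : ℤ) ∣ v i j - ρ j)).card : ℝ) -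
        s.card / (q : ℝ) ^ r| ≤ s.card * (M ^ θ) ^ (-(2 * (r : ℝ)))) →
    (s.card : ℝ) * Real.exp (-Real.exp (C * lam)) ≤
      ((s.filter (fun i => ∀ j, ∀ p q : ℕ, p.Prime → q.Prime →
        (p : ℝ) ≤ lam * Real.log M * Real.log (Real.log M) →
        (p : ℤ) + q ≠ 2 * v i j)).card : ℝ) := by
  obtain ⟨C, X₀, hC, hX₀, hld⟩ := ld_gen r hr
  obtain ⟨x₁, hx₁⟩ := eventually_atTop.1 ev_primes
  have hr1 : (1 : ℝ) ≤ r := by exact_mod_cast hr
  refine ⟨8 * C / θ, ?_, ?_⟩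
  · rw [le_div_iff₀ h0]; linarith
  filter_upwards [ev_gold θ h0 r x₁, (tendsto_rpow_atTop h0).eventually_ge_atTop X₀,
    eventually_ge_atTop (1:ℝ)] with M hM hMX hM1
  obtain ⟨m1, m2, m3, m4, m5, m6, m7, m8⟩ := hM
  intro lam hlam hlamM ι s v hdist
  have hM0 : 0 < M := by linarith
  set X : ℝ := M ^ θ with hX
  have hX0 : 0 < X := Real.rpow_pos_of_pos hM0 _
  have hX1 : 1 ≤ X := Real.one_le_rpow hM1 h0.le
  have hlogX : Real.log X = θ * Real.log M := Real.log_rpow hM0 θ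
  set T : ℝ := X ^ (1 / 10 : ℝ) with hT
  have hT0 : 0 < T := Real.rpow_pos_of_pos hX0 _
  have hT100 : 100 ≤ T := by linarith
  set lam' : ℝ := 4 * lam / θ with hlam'd
  have hlam' : 1 ≤ lam' := by rw [hlam'd, le_div_iff₀ h0]; linarith
  have hsq : Real.exp (8 * C / θ * lam) = Real.exp (C * lam') ^ 2 := by
    have hCl : 8 * C / θ * lam = 2 * (C * lam') := by rw [hlam'd]; ring
    rw [hCl, two_mul, Real.exp_add, sq]
  have hC8 : 1 ≤ 8 * C / θ := by rw [le_div_iff₀ h0]; linarith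
  have hlM : lam ≤ Real.log M := by
    refine le_trans ?_ hlamM
    have h2 := Real.add_one_le_exp (8 * C / θ * lam)
    have h4 : 1 * lam ≤ 8 * C / θ * lam := mul_le_mul_of_nonneg_right hC8 (by linarith)
    linarith
  have hle : Real.exp (C * lam') ≤ Real.log X := by
    rw [hlogX]
    apply (pow_le_pow_iff_left₀ (Real.exp_pos _).le (by positivity) two_ne_zero).1
    rw [← hsq]
    exact hlamM.trans m3
  -- the primes
  set y : ℝ := lam * Real.log M * Real.log (Real.log M) with hy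
  have hylo : Real.log M ≤ y := by
    have e1 : 1 * Real.log M ≤ lam * Real.log M := mul_le_mul_of_nonneg_right hlam (by linarith)
    have e2 : lam * Real.log M * 1 ≤ lam * Real.log M * Real.log (Real.log M) :=
      mul_le_mul_of_nonneg_left m2 (by positivity)
    linarith
  have hy1 : 1 ≤ y := by linarith
  have hllle : Real.log (Real.log M) ≤ Real.log M := by
    have := Real.log_le_sub_one_of_pos (show 0 < Real.log M by linarith)
    linarith
  have hyup : y ≤ Real.log M ^ 3 := by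
    calc y ≤ Real.log M * Real.log M * Real.log M := by
          rw [hy]
          apply mul_le_mul _ hllle (by linarith) (by positivity)
          exact mul_le_mul_of_nonneg_right hlM (by linarith)
      _ = _ := by ring
  have hlogy : Real.log (Real.log M) ≤ Real.log y := Real.log_le_log (by linarith) hylo
  set S : Finset ℕ := (Icc 1 ⌊y⌋₊).filter Nat.Prime with hS
  have hSc : (S.card : ℝ) ≤ 2 * (lam * Real.log M) := by
    refine (hx₁ y (m5.trans hylo)).trans ?_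
    rw [div_le_iff₀ (by linarith)]
    calc 2 * y = 2 * (lam * Real.log M) * Real.log (Real.log M) := by rw [hy]; ring
      _ ≤ _ := mul_le_mul_of_nonneg_left hlogy (by positivity)
  set W : Finset ℤ := S.image (fun p : ℕ => -(p : ℤ)) with hW
  have hWc : (W.card : ℝ) ≤ lam' * (((Nat.totient 2 : ℕ) : ℝ) / ((2 : ℕ) : ℝ)) * Real.log X := by
    have e1 : (W.card : ℝ) ≤ S.card := by exact_mod_cast Finset.card_image_le
    have e2 : lam' * (((Nat.totient 2 : ℕ) : ℝ) / ((2 : ℕ) : ℝ)) * Real.log X = 2 * (lam * Real.log M) := by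
      rw [Nat.totient_two, hlogX, hlam'd]
      push_cast
      field_simp
      ring
    rw [e2]
    exact e1.trans hSc
  have hWs : ∀ h ∈ W, |(h : ℝ)| ≤ Real.log X ^ 4 := by
    intro h hh
    obtain ⟨p, hp, rfl⟩ := Finset.mem_image.1 hh
    have hp2 := (Finset.mem_Icc.1 (Finset.mem_filter.1 hp).1).2
    have e1 : (p : ℝ) ≤ y := (Nat.le_floor_iff (by linarith)).1 hp2
    rw [hlogX]
    push_cast
    rw [abs_neg, Nat.abs_cast]
    linarith
  have hodd : ∀ q : ℕ, Odd q ↔ Nat.Coprime q 2 := fun q => Nat.coprime_two_right.symm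
  have key := hld X lam' hMX hlam' hle 2 two_pos (by
      intro p hp hpd
      have : p = 2 := (Nat.prime_dvd_prime_iff_eq hp Nat.prime_two).1 hpd
      rw [this, hlogX]
      have e3 : (2:ℝ) ≤ (θ * Real.log M) ^ 5 := by
        have e4 : (2:ℝ) ≤ θ * Real.log M := by
          have e5 : (2:ℝ) ≤ Real.exp (C * lam') := by
            have := Real.add_one_le_exp (C * lam')
            nlinarith
          rw [← hlogX]
          linarith
        calc (2:ℝ) ≤ θ * Real.log M := e4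
          _ = (θ * Real.log M) ^ 1 := (pow_one _).symm
          _ ≤ (θ * Real.log M) ^ 5 := pow_le_pow_right₀ (by linarith) (by norm_num)
      exact_mod_cast e3) ι s (fun i j => 2 * v i j) (by
    intro q hq hqX hq2 ρ
    have hqo : Odd q := (hodd q).2 hq2
    obtain ⟨k, hk⟩ := hqo
    have h5 : s.filter (fun i => ∀ j, (q : ℤ) ∣ 2 * v i j - ρ j) =
        s.filter (fun i => ∀ j, (q : ℤ) ∣ v i j - (k + 1) * ρ j) := by
      apply Finset.filter_congr
      intro i _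
      apply forall_congr'
      intro j
      have hqk : (q : ℤ) = 2 * k + 1 := by rw [hk]; push_cast; ring
      constructor
      · rintro ⟨c, hc⟩
        refine ⟨(k + 1) * c - v i j, ?_⟩
        have : v i j - (k + 1) * ρ j = (k + 1) * (2 * v i j - ρ j) - (2 * k + 1) * v i j := by ring
        rw [this, hc, ← hqk]
        ring
      · rintro ⟨c, hc⟩
        refine ⟨2 * c + ρ j, ?_⟩
        have : 2 * v i j - ρ j = 2 * (v i j - (k + 1) * ρ j) + (2 * k + 1) * ρ j := by ring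
        rw [this, hc, ← hqk]
        ring
    rw [h5]
    exact hdist q ⟨k, hk⟩ hqX (fun j => (k + 1) * ρ j)) (fun _ => W) (fun _ => hWc) (fun _ => hWs)
  -- the members with a small coordinate
  set q₀ : ℕ := 2 * ⌊X ^ (2 / 5 : ℝ) / 4⌋₊ + 1 with hq₀
  have hX25 : X ^ (2 / 5 : ℝ) = T * T * T * T := by
    rw [hT, ← Real.rpow_add hX0, ← Real.rpow_add hX0, ← Real.rpow_add hX0]
    norm_num
  have hT4 : 1000000 ≤ T * T * T * T := by
    have e1 : (1000:ℝ) ≤ T * T := by nlinarith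
    have e2 : (1000:ℝ) * 1000 ≤ (T * T) * (T * T) := mul_le_mul e1 e1 (by norm_num) (by positivity)
    calc (1000000:ℝ) = 1000 * 1000 := by norm_num
      _ ≤ (T * T) * (T * T) := e2
      _ = _ := by ring
  have hq₀odd : Odd q₀ := ⟨_, rfl⟩
  have hq₀1 : 1 ≤ q₀ := by omega
  have hfl := Nat.floor_le (show 0 ≤ X ^ (2 / 5 : ℝ) / 4 by positivity)
  have hfl2 := Nat.lt_floor_add_one (X ^ (2 / 5 : ℝ) / 4)
  have hq₀le : (q₀ : ℝ) ≤ X ^ (2 / 5 : ℝ) := by
    rw [hq₀]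
    push_cast
    rw [hX25] at hfl ⊢
    linarith
  have hq₀ge : X ^ (2 / 5 : ℝ) / 4 ≤ q₀ := by
    rw [hq₀]
    push_cast
    linarith [show (0:ℝ) ≤ (⌊X ^ (2 / 5 : ℝ) / 4⌋₊ : ℝ) from Nat.cast_nonneg _]
  have hqpos : (0:ℝ) < q₀ := by exact_mod_cast hq₀1
  have hsm : ∀ j : Fin r, ((s.filter (fun i => |v i j| ≤ ((⌊T⌋₊ : ℕ) : ℤ))).card : ℝ) ≤
      s.card * (15 / (T * T * T)) := by
    intro j
    refine (small_count ι s v j ⌊T⌋₊ q₀ hq₀1 (s.card / (q₀:ℝ) ^ r + s.card * X ^ (-(2 * (r : ℝ))))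
      (fun ρ => by
      have h2 := (abs_le.1 (hdist q₀ hq₀odd hq₀le ρ)).2
      linarith)).trans ?_
    have hf : ((⌊T⌋₊ : ℕ) : ℝ) ≤ T := Nat.floor_le hT0.le
    have e1 : (q₀:ℝ) ^ (r - 1) * (s.card / (q₀:ℝ) ^ r + s.card * X ^ (-(2 * (r : ℝ)))) =
        s.card * (1 / q₀ + (q₀:ℝ) ^ (r - 1) * X ^ (-(2 * (r : ℝ)))) := by
      have h2 : (q₀:ℝ) ^ r = q₀ ^ (r - 1) * q₀ := by
        rw [← pow_succ]
        congr 1
        omega
      rw [h2]
      have h3 : (q₀:ℝ) ^ (r - 1) ≠ 0 := by positivity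
      have h4 : (q₀:ℝ) ^ (r - 1) * (s.card / ((q₀:ℝ) ^ (r - 1) * q₀)) = s.card * (1 / q₀) := by
        field_simp
      calc (q₀:ℝ) ^ (r - 1) * (s.card / ((q₀:ℝ) ^ (r - 1) * q₀) + s.card * X ^ (-(2 * (r : ℝ)))) =
            (q₀:ℝ) ^ (r - 1) * (s.card / ((q₀:ℝ) ^ (r - 1) * q₀)) +
              s.card * ((q₀:ℝ) ^ (r - 1) * X ^ (-(2 * (r : ℝ)))) := by ring
        _ = _ := by rw [h4]; ring
    have e2 : 1 / (q₀:ℝ) ≤ 4 / (T * T * T * T) := by
      rw [div_le_div_iff₀ hqpos (by positivity), ← hX25]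
      linarith
    have e3 : (q₀:ℝ) ^ (r - 1) * X ^ (-(2 * (r : ℝ))) ≤ 1 / (T * T * T * T) := by
      have h2 : (q₀:ℝ) ^ (r - 1) ≤ (X ^ (2 / 5 : ℝ)) ^ (r - 1) :=
        pow_le_pow_left₀ hqpos.le hq₀le _
      have h3 : (X ^ (2 / 5 : ℝ)) ^ (r - 1) = X ^ (2 / 5 * ((r:ℝ) - 1)) := by
        rw [← Real.rpow_natCast, ← Real.rpow_mul hX0.le]
        congr 2
        push_cast [Nat.cast_sub hr]
        ring
      rw [← hX25, one_div, ← Real.rpow_neg hX0.le]
      calc (q₀:ℝ) ^ (r - 1) * X ^ (-(2 * (r : ℝ))) ≤ X ^ (2 / 5 * ((r:ℝ) - 1)) * X ^ (-(2 * (r : ℝ))) := by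
            rw [← h3]
            exact mul_le_mul_of_nonneg_right h2 (Real.rpow_nonneg hX0.le _)
        _ = X ^ (2 / 5 * ((r:ℝ) - 1) + -(2 * (r : ℝ))) := (Real.rpow_add hX0 _ _).symm
        _ ≤ X ^ (-(2 / 5 : ℝ)) := Real.rpow_le_rpow_of_exponent_le hX1 (by linarith)
    rw [e1]
    calc (2 * ((⌊T⌋₊ : ℕ) : ℝ) + 1) * (s.card * (1 / q₀ + (q₀:ℝ) ^ (r - 1) * X ^ (-(2 * (r : ℝ))))) ≤
          (3 * T) * (s.card * (5 / (T * T * T * T))) := by
          apply mul_le_mul (by linarith) _ (by positivity) (by positivity)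
          apply mul_le_mul_of_nonneg_left _ (Nat.cast_nonneg _)
          have : 5 / (T * T * T * T) = 4 / (T * T * T * T) + 1 / (T * T * T * T) := by ring
          linarith
      _ = s.card * (15 / (T * T * T)) := by
          field_simp
          ring
  set A : Finset ι := s.filter (fun i => ∀ j, ∀ h ∈ W, ∃ p : ℕ, p.Prime ∧
    (p : ℝ) ≤ X ^ (1 / (10 * lam')) ∧ ¬ p ∣ 2 ∧ (p : ℤ) ∣ 2 * v i j + h) with hA
  set G : Finset ι := s.filter (fun i => ∀ j, ∀ p q : ℕ, p.Prime → q.Prime →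
        (p : ℝ) ≤ y → (p : ℤ) + q ≠ 2 * v i j) with hG
  have hsub : A ⊆ G ∪ (univ : Finset (Fin r)).biUnion
      (fun j => s.filter (fun i => |v i j| ≤ ((⌊T⌋₊ : ℕ) : ℤ))) := by
    intro i hi
    rw [Finset.mem_union]
    by_cases h : ∃ j, |v i j| ≤ ((⌊T⌋₊ : ℕ) : ℤ)
    · obtain ⟨j, hj⟩ := h
      exact Or.inr (Finset.mem_biUnion.2 ⟨j, Finset.mem_univ _, Finset.mem_filter.2
        ⟨(Finset.mem_filter.1 hi).1, hj⟩⟩)
    · left
      push Not at h
      refine Finset.mem_filter.2 ⟨(Finset.mem_filter.1 hi).1, fun j p q hp hq hpy hpq => ?_⟩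
      have hpS : p ∈ S := Finset.mem_filter.2 ⟨Finset.mem_Icc.2 ⟨hp.one_lt.le, Nat.le_floor hpy⟩, hp⟩
      obtain ⟨l, hl, hlX, hl2, hld⟩ := (Finset.mem_filter.1 hi).2 j (-(p : ℤ))
        (Finset.mem_image.2 ⟨p, hpS, rfl⟩)
      have e1 : 2 * v i j + -(p : ℤ) = q := by rw [← hpq]; ring
      rw [e1] at hld
      have e2 : l = q := (Nat.prime_dvd_prime_iff_eq hl hq).mp (by exact_mod_cast hld)
      rw [e2] at hlX
      have e3 : (q : ℝ) ≤ T := by
        refine hlX.trans ?_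
        apply Real.rpow_le_rpow_of_exponent_le hX1
        apply one_div_le_one_div_of_le (by norm_num)
        linarith
      have e4 : (p : ℝ) ≤ T := hpy.trans (hyup.trans m6)
      have e5 : T < |(v i j : ℝ)| := by
        have h5 := Nat.lt_floor_add_one T
        have h6 : ((⌊T⌋₊ : ℕ) : ℤ) + 1 ≤ |v i j| := h j
        have h7 : (((⌊T⌋₊ : ℕ) : ℝ)) + 1 ≤ |(v i j : ℝ)| := by exact_mod_cast h6
        linarith
      have e6 : (p : ℝ) + q = 2 * (v i j : ℝ) := by exact_mod_cast hpq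
      have e7 : 0 ≤ (v i j : ℝ) := by
        have : (0:ℝ) ≤ (p : ℝ) + q := by positivity
        linarith
      rw [abs_of_nonneg e7] at e5
      linarith
  have hA2 : (A.card : ℝ) ≤ G.card + s.card * (15 * r / (T * T * T)) := by
    have h2 := (Finset.card_le_card hsub).trans (Finset.card_union_le _ _)
    have h3 := h2.trans (Nat.add_le_add_left Finset.card_biUnion_le _)
    have h4 : (A.card : ℝ) ≤ G.card + ∑ j : Fin r,
        ((s.filter (fun i => |v i j| ≤ ((⌊T⌋₊ : ℕ) : ℤ))).card : ℝ) := by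
      exact_mod_cast h3
    refine h4.trans ?_
    have h5 := Finset.sum_le_sum fun (j : Fin r) (_ : j ∈ univ) => hsm j
    rw [Finset.sum_const, Finset.card_univ, Fintype.card_fin, nsmul_eq_mul] at h5
    have h6 : (r:ℝ) * (s.card * (15 / (T * T * T))) = s.card * (15 * r / (T * T * T)) := by ring
    linarith
  have hsmall : 15 * (r:ℝ) / (T * T * T) ≤ 1 / 2 * (1 / T) := by
    rw [mul_one_div, div_le_div_iff₀ (by positivity) hT0]
    have h2 : 30 * (r:ℝ) ≤ T := by linarith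
    have h3 : 15 * (r:ℝ) * T ≤ T / 2 * T := mul_le_mul_of_nonneg_right (by linarith) hT0.le
    have h4 : T / 2 * T ≤ 1 / 2 * (T * T * T) := by nlinarith
    linarith
  have hE1 : 1 / T ≤ 1 / 2 * Real.exp (-Real.exp (C * lam')) := by
    have h2 : Real.exp (C * lam') ≤ Real.sqrt (Real.log M) := by
      apply Real.le_sqrt_of_sq_le
      rw [← hsq]
      exact hlamM
    have h3 : Real.exp (Real.exp (C * lam')) ≤ Real.exp (Real.sqrt (Real.log M)) :=
      Real.exp_le_exp.2 h2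
    rw [Real.exp_neg, mul_comm, ← div_eq_mul_one_div, div_le_div_iff₀ hT0 (by norm_num), one_mul,
      inv_mul_eq_div, le_div_iff₀ (Real.exp_pos _)]
    linarith
  have hexp : 2 * Real.exp (-Real.exp (8 * C / θ * lam)) ≤
      Real.exp (-Real.exp (C * lam')) := by
    have h2 : Real.exp (C * lam') + 1 ≤ Real.exp (8 * C / θ * lam) := by
      rw [hsq]
      have h3 := Real.add_one_le_exp (C * lam')
      have h4 : 1 ≤ C * lam' := by nlinarith
      nlinarith
    have h4 : (2:ℝ) ≤ Real.exp 1 := by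
      have := Real.add_one_le_exp (1:ℝ)
      linarith
    calc 2 * Real.exp (-Real.exp (8 * C / θ * lam)) ≤
          Real.exp 1 * Real.exp (-Real.exp (8 * C / θ * lam)) :=
          mul_le_mul_of_nonneg_right h4 (Real.exp_pos _).le
      _ = Real.exp (1 + -Real.exp (8 * C / θ * lam)) := (Real.exp_add _ _).symm
      _ ≤ _ := Real.exp_le_exp.2 (by linarith)
  have hs0 : (0:ℝ) ≤ s.card := Nat.cast_nonneg _
  have f1 : (s.card : ℝ) * (15 * r / (T * T * T)) ≤
      s.card * (1 / 4 * Real.exp (-Real.exp (C * lam'))) := by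
    apply mul_le_mul_of_nonneg_left _ hs0
    linarith
  have f2 : (s.card : ℝ) * (2 * Real.exp (-Real.exp (8 * C / θ * lam))) ≤
      s.card * Real.exp (-Real.exp (C * lam')) := mul_le_mul_of_nonneg_left hexp hs0
  have f3 : 0 ≤ (s.card : ℝ) * Real.exp (-Real.exp (C * lam')) :=
    mul_nonneg hs0 (Real.exp_pos _).le
  linarith

end Pool.Agent.T2h81.LD
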