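import Pool.Agent.T2h81.LD.G13
import Pool.Agent.Y961.JR.ScaledJ

set_option autoImplicit false
set_option linter.unusedSectionVars false
set_option linter.unusedVariables false
set_option maxHeartbeats 4000000

/-! # Progressions with a large common difference: vectors of residue classes without small primes -/

namespace Pool.Agent.T2h81.LD

open Finset Filter
open Pool.Agent.Y961.JR (critJ)
open Pool.Agent.W147.PS (ff ff_compare)

open scoped Classical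

/-- an inverse modulo all small moduli -/
lemma exists_inv (P N : ℕ) (hP : ∀ q : ℕ, 1 ≤ q → q ≤ N → Nat.Coprime P q) :
    ∃ u : ℤ, ∀ q : ℕ, 1 ≤ q → q ≤ N → (q : ℤ) ∣ P * u - 1 := by
  have hcop : ∀ n : ℕ, n ≤ N → Nat.Coprime P (Nat.factorial n) := by
    intro n
    induction n with
    | zero => intro _; simp
    | succ n ih =>
      intro h
      rw [Nat.factorial_succ]
      exact Nat.Coprime.mul_right (hP (n + 1) (by omega) h) (ih (by omega))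
  have h1 : IsCoprime (P : ℤ) ((Nat.factorial N : ℕ) : ℤ) :=
    Nat.isCoprime_iff_coprime.2 (hcop N le_rfl)
  obtain ⟨u, w, h⟩ := h1
  refine ⟨u, fun q hq hqN => ?_⟩
  have h2 : (q : ℤ) ∣ ((Nat.factorial N : ℕ) : ℤ) := by
    exact_mod_cast Nat.dvd_factorial (by omega) hqN
  have e1 : (P : ℤ) * u - 1 = -(w * ((Nat.factorial N : ℕ) : ℤ)) := by
    linarith
  rw [e1]
  exact (Dvd.dvd.mul_left h2 w).neg_right

/-- the progression through the inverse -/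
lemma dvd_shift (P q : ℕ) (u a k : ℤ) (hu : (q : ℤ) ∣ P * u - 1) (h : (q : ℤ) ∣ a * u + k) :
    (q : ℤ) ∣ a + k * P := by
  have e1 : a + k * P = (a * u + k) * P - a * (P * u - 1) := by ring
  rw [e1]
  exact dvd_sub (Dvd.dvd.mul_right h _) (Dvd.dvd.mul_left hu a)

lemma dvd_inv_iff (P q : ℕ) (u a ρ : ℤ) (hcop : Nat.Coprime P q) (hu : (q : ℤ) ∣ P * u - 1) :
    ((q : ℤ) ∣ a * u - ρ ↔ (q : ℤ) ∣ a - P * ρ) := by
  constructor
  · intro h
    have e1 : a - P * ρ = (a * u - ρ) * P - a * (P * u - 1) := by ring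
    rw [e1]
    exact dvd_sub (Dvd.dvd.mul_right h _) (Dvd.dvd.mul_left hu a)
  · intro h
    have h1 : (q : ℤ) ∣ (P : ℤ) * (a * u - ρ) := by
      have e1 : (P : ℤ) * (a * u - ρ) = (a - P * ρ) + a * (P * u - 1) := by ring
      rw [e1]
      exact dvd_add h (Dvd.dvd.mul_left hu a)
    have h2 : IsCoprime (q : ℤ) (P : ℤ) := (Nat.isCoprime_iff_coprime.2 hcop).symm
    exact h2.dvd_of_dvd_mul_left h1

/-- few members have a small coordinate, numerical form -/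
theorem small_coord (r : ℕ) (hr : 1 ≤ r) (δ : ℝ) (h0 : 0 < δ) (h1 : δ ≤ 1) (M : ℝ) (hM1 : 1 ≤ M)
    (hX16 : 16 ≤ M ^ (δ / (8 * r))) (ι : Type) (s : Finset ι) (v : ι → Fin r → ℤ)
    (hdist : ∀ q : ℕ, 1 ≤ q → (q : ℝ) ≤ M ^ δ →
      ∀ ρ : Fin r → ℤ, |((s.filter (fun i => ∀ j, (q : ℤ) ∣ v i j - ρ j)).card : ℝ) -
        s.card / (q : ℝ) ^ r| ≤ s.card * M ^ (-δ)) (j : Fin r) :
    ((s.filter (fun i => |v i j| ≤ ((⌊M ^ (δ / (8 * r))⌋₊ : ℕ) : ℤ))).card : ℝ) ≤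
      s.card * (9 / (M ^ (δ / (8 * r))) ^ 3) := by
  have hr1 : (1 : ℝ) ≤ r := by exact_mod_cast hr
  set θ : ℝ := δ / (8 * r) with hθ
  have hθ0 : 0 < θ := by positivity
  have hθδ : θ ≤ δ / 8 := by
    rw [hθ]
    apply div_le_div_of_nonneg_left h0.le (by norm_num)
    linarith
  have hθr : 8 * r * θ = δ := by rw [hθ]; field_simp
  have hM0 : 0 < M := by linarith
  set X : ℝ := M ^ θ with hX
  have hX0 : 0 < X := Real.rpow_pos_of_pos hM0 _
  have hX1 : 1 ≤ X := Real.one_le_rpow hM1 hθ0.le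
  have hrM : ∀ x y : ℝ, x ≤ y → M ^ x ≤ M ^ y := fun x y h =>
    Real.rpow_le_rpow_of_exponent_le hM1 h
  have hZδ : M ^ (-δ) = X ^ (-(8 * (r : ℝ))) := by
    rw [hX, ← Real.rpow_mul hM0.le]
    congr 1
    linarith
  set q : ℕ := ⌊X ^ 4⌋₊ with hq
  have hX4 : (1:ℝ) ≤ X ^ 4 := one_le_pow₀ hX1
  have hq1 : 1 ≤ q := (Nat.one_le_floor_iff _).2 hX4
  have hqle : (q : ℝ) ≤ X ^ 4 := Nat.floor_le (by positivity)
  have hqge : X ^ 4 / 2 ≤ q := by
    have h2 := (Nat.lt_floor_add_one (X ^ 4)).le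
    have h3 : X ≤ X ^ 4 := le_self_pow₀ hX1 (by norm_num)
    rw [← hq] at h2
    linarith
  have hqpos : (0:ℝ) < q := by exact_mod_cast hq1
  have hqδ : (q : ℝ) ≤ M ^ δ := by
    refine hqle.trans ?_
    rw [hX, ← Real.rpow_natCast, ← Real.rpow_mul hM0.le]
    apply hrM
    push_cast
    linarith
  refine (small_count ι s v j ⌊X⌋₊ q hq1 (s.card / (q:ℝ) ^ r + s.card * M ^ (-δ)) (fun ρ => by
    have h2 := (abs_le.1 (hdist q hq1 hqδ ρ)).2
    linarith)).trans ?_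
  have hf : ((⌊X⌋₊ : ℕ) : ℝ) ≤ X := Nat.floor_le hX0.le
  have e1 : (q:ℝ) ^ (r - 1) * (s.card / (q:ℝ) ^ r + s.card * M ^ (-δ)) =
      s.card * (1 / q + (q:ℝ) ^ (r - 1) * M ^ (-δ)) := by
    have h2 : (q:ℝ) ^ r = q ^ (r - 1) * q := by
      rw [← pow_succ]
      congr 1
      omega
    rw [h2]
    have h3 : (q:ℝ) ^ (r - 1) ≠ 0 := by positivity
    have h4 : (q:ℝ) ^ (r - 1) * (s.card / ((q:ℝ) ^ (r - 1) * q)) = s.card * (1 / q) := by
      field_simp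
    calc (q:ℝ) ^ (r - 1) * (s.card / ((q:ℝ) ^ (r - 1) * q) + s.card * M ^ (-δ)) =
          (q:ℝ) ^ (r - 1) * (s.card / ((q:ℝ) ^ (r - 1) * q)) +
            s.card * ((q:ℝ) ^ (r - 1) * M ^ (-δ)) := by ring
      _ = _ := by rw [h4]; ring
  have e2 : 1 / (q:ℝ) ≤ 2 / X ^ 4 := by
    rw [div_le_div_iff₀ hqpos (by positivity)]
    linarith
  have e3 : (q:ℝ) ^ (r - 1) * M ^ (-δ) ≤ 1 / X ^ 4 := by
    have h2 : (q:ℝ) ^ (r - 1) ≤ (X ^ 4) ^ (r - 1) := pow_le_pow_left₀ hqpos.le hqle _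
    have h3 : M ^ (-δ) = 1 / X ^ (8 * r) := by
      rw [hZδ, Real.rpow_neg hX0.le, one_div]
      congr 1
      rw [← Real.rpow_natCast]
      push_cast
      rfl
    rw [h3, mul_one_div, div_le_div_iff₀ (by positivity) (by positivity), one_mul]
    calc (q:ℝ) ^ (r - 1) * X ^ 4 ≤ (X ^ 4) ^ (r - 1) * X ^ 4 :=
          mul_le_mul_of_nonneg_right h2 (by positivity)
      _ = X ^ (4 * (r - 1) + 4) := by rw [← pow_mul, ← pow_add]
      _ ≤ X ^ (8 * r) := pow_le_pow_right₀ hX1 (by omega)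
  rw [e1]
  calc (2 * ((⌊X⌋₊ : ℕ) : ℝ) + 1) * (s.card * (1 / q + (q:ℝ) ^ (r - 1) * M ^ (-δ))) ≤
        (3 * X) * (s.card * (3 / X ^ 4)) := by
        apply mul_le_mul (by linarith) _ (by positivity) (by positivity)
        apply mul_le_mul_of_nonneg_left _ (Nat.cast_nonneg _)
        have : 3 / X ^ 4 = 2 / X ^ 4 + 1 / X ^ 4 := by ring
        linarith
    _ = s.card * (9 / X ^ 3) := by
        field_simp
        ring

/-- the terms of the progressions through a member are not primes -/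
lemma ap_step {r : ℕ} (Z δ T : ℝ) (P : ℕ) (u : ℤ) (a : Fin r → ℤ) (hTP : T < P)
    (hTd : ∀ p : ℕ, p.Prime → (p : ℝ) ≤ T → (p : ℤ) ∣ P * u - 1)
    (y : ℝ) (ha : ∀ j, 0 ≤ a j) (hbig : ∀ j, ((⌊T⌋₊ : ℕ) : ℤ) < |a j|)
    (hgood : ∀ j, ∀ m : ℤ, |(m : ℝ) - ((a j * u : ℤ) : ℝ)| ≤ y →
      ∃ p : ℕ, p.Prime ∧ (p : ℝ) ≤ T ∧ (p : ℤ) ∣ m) (j : Fin r) (k : ℕ) (hk : (k : ℝ) ≤ y)
    (q : ℕ) (hq : q.Prime) : (q : ℤ) ≠ a j + k * P := by
  intro he
  obtain ⟨p, hp, hpT, hpd⟩ := hgood j (a j * u + k) (by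
    push_cast
    rw [add_sub_cancel_left, abs_of_nonneg (Nat.cast_nonneg k)]
    exact hk)
  have h1 := dvd_shift P p u (a j) k (hTd p hp hpT) hpd
  rw [← he] at h1
  have h2 : p ∣ q := by exact_mod_cast h1
  have h3 : p = q := (Nat.prime_dvd_prime_iff_eq hp hq).1 h2
  subst h3
  rcases Nat.eq_zero_or_pos k with hk0 | hk0
  · subst hk0
    rw [Nat.cast_zero, zero_mul, add_zero] at he
    have h4 := hbig j
    rw [abs_of_nonneg (ha j), ← he] at h4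
    have h5 : ⌊T⌋₊ < p := by exact_mod_cast h4
    have h6 : p ≤ ⌊T⌋₊ := Nat.le_floor hpT
    omega
  · have h4 : (P : ℤ) ≤ k * P := by
      have h5 : (1 : ℤ) ≤ k := by exact_mod_cast hk0
      have h6 : (0 : ℤ) ≤ P := Nat.cast_nonneg P
      nlinarith
    have h7 : (P : ℤ) ≤ p := by
      have := ha j
      omega
    have h8 : (P : ℝ) ≤ p := by exact_mod_cast h7
    linarith

/-- the criterion for the progressions with the common difference `P` -/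
theorem ap_crit (r : ℕ) (hr : 1 ≤ r) (δ : ℝ) (h0 : 0 < δ) (h1 : δ ≤ 1) : ∃ C : ℝ, 1 ≤ C ∧
    ∀ᶠ Z : ℝ in atTop, ∀ lam : ℝ, 1 ≤ lam → Real.exp (C * lam) ≤ Real.log Z →
    ∀ (ι : Type) (s : Finset ι) (a : ι → Fin r → ℤ) (P : ℕ), Z ≤ P →
    (∀ i ∈ s, ∀ j, 0 ≤ a i j) →
    (∀ q : ℕ, 1 ≤ q → (q : ℝ) ≤ Z ^ δ → Nat.Coprime P q) →
    (∀ q : ℕ, 1 ≤ q → (q : ℝ) ≤ Z ^ δ →
      ∀ ρ : Fin r → ℤ, |((s.filter (fun i => ∀ j, (q : ℤ) ∣ a i j - ρ j)).card : ℝ) -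
        s.card / (q : ℝ) ^ r| ≤ s.card * Z ^ (-δ)) →
    (s.card : ℝ) * Real.exp (-Real.exp (C * lam)) ≤
      ((s.filter (fun i => ∀ j, ∀ k : ℕ, (k : ℝ) ≤ lam * Real.log Z → ∀ q : ℕ, q.Prime →
        (q : ℤ) ≠ a i j + k * P)).card : ℝ) := by
  obtain ⟨C, hC, hev⟩ := ld_final r hr δ h0 h1
  have hr1 : (1 : ℝ) ≤ r := by exact_mod_cast hr
  set θ : ℝ := δ / (8 * r) with hθ
  have hθ0 : 0 < θ := by positivity
  have hθδ : θ ≤ δ / 8 := by
    rw [hθ]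
    apply div_le_div_of_nonneg_left h0.le (by norm_num)
    linarith
  have hθ1 : θ ≤ 1 := by linarith
  refine ⟨2 * (C / θ), ?_, ?_⟩
  · have : 1 ≤ C / θ := by rw [le_div_iff₀ hθ0]; linarith
    linarith
  filter_upwards [hev, eventually_gt_atTop (1:ℝ), ev_aux2 θ hθ0 r] with Z hZ hZ1 hZ2
  obtain ⟨n1, n2⟩ := hZ2
  intro lam hlam hlamZ ι s a P hZP ha hcop hdist
  have hZ0 : 0 < Z := by linarith
  set X : ℝ := Z ^ θ with hX
  have hX0 : 0 < X := Real.rpow_pos_of_pos hZ0 _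
  have hX1 : 1 ≤ X := Real.one_le_rpow hZ1.le hθ0.le
  have hX16 : 16 ≤ X := by linarith
  have hXδ : X ≤ Z ^ δ := Real.rpow_le_rpow_of_exponent_le hZ1.le (by linarith)
  have hXZ : X < Z := by
    calc X < Z ^ (1:ℝ) := Real.rpow_lt_rpow_of_exponent_lt hZ1 (by linarith)
      _ = Z := Real.rpow_one Z
  set E : ℝ := Real.exp (C * (lam / θ)) with hE
  have hE2 : Real.exp (2 * (C / θ) * lam) = E ^ 2 := by
    have hCl : 2 * (C / θ) * lam = C * (lam / θ) + C * (lam / θ) := by ring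
    rw [hCl, Real.exp_add, sq]
  have hlam' : 1 ≤ lam / θ := by
    rw [le_div_iff₀ hθ0]; linarith
  have hE1 : 2 ≤ E := by
    have h2 := Real.add_one_le_exp (C * (lam / θ))
    have h4 : 1 ≤ C * (lam / θ) := by nlinarith
    rw [hE]
    linarith
  rw [hE2] at hlamZ ⊢
  have hEZ : E ≤ Real.log Z := by nlinarith
  obtain ⟨u, hu⟩ := exists_inv P ⌊Z ^ δ⌋₊ (fun q hq1 hq2 => hcop q hq1 (by
    have h2 := Nat.floor_le (show 0 ≤ Z ^ δ by positivity)
    have h3 : (q : ℝ) ≤ ((⌊Z ^ δ⌋₊ : ℕ) : ℝ) := by exact_mod_cast hq2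
    linarith))
  have hu' : ∀ q : ℕ, 1 ≤ q → (q : ℝ) ≤ Z ^ δ → (q : ℤ) ∣ P * u - 1 :=
    fun q hq1 hq2 => hu q hq1 (Nat.le_floor hq2)
  have key := hZ (lam / θ) hlam' hEZ ι s (fun i j => a i j * u) (by
    intro q hq hqZ ρ
    have h2 := hdist q hq hqZ (fun j => P * ρ j)
    have e1 : s.filter (fun i => ∀ j, (q : ℤ) ∣ a i j * u - ρ j) =
        s.filter (fun i => ∀ j, (q : ℤ) ∣ a i j - P * ρ j) := by
      apply Finset.filter_congr
      intro i _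
      exact forall_congr' fun j => dvd_inv_iff P q u (a i j) (ρ j) (hcop q hq hqZ) (hu' q hq hqZ)
    rw [e1]
    exact h2)
  set A : Finset ι := s.filter (fun i => ∀ j, ∀ m : ℤ, |(m : ℝ) - ((a i j * u : ℤ) : ℝ)| ≤
    lam / θ * Real.log Z → ∃ p : ℕ, p.Prime ∧ (p : ℝ) ≤ Z ^ (1 / (lam / θ)) ∧
      (p : ℤ) ∣ m ∧ (p : ℤ) < |m|) with hA
  set G : Finset ι := s.filter (fun i => ∀ j, ∀ k : ℕ, (k : ℝ) ≤ lam * Real.log Z →
    ∀ q : ℕ, q.Prime → (q : ℤ) ≠ a i j + k * P) with hG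
  have hlogZ : 0 ≤ Real.log Z := Real.log_nonneg hZ1.le
  have hsub : A ⊆ G ∪ (univ : Finset (Fin r)).biUnion
      (fun j => s.filter (fun i => |a i j| ≤ ((⌊X⌋₊ : ℕ) : ℤ))) := by
    intro i hi
    obtain ⟨his, hi2⟩ := Finset.mem_filter.1 hi
    rw [Finset.mem_union]
    by_cases h : ∃ j, |a i j| ≤ ((⌊X⌋₊ : ℕ) : ℤ)
    · obtain ⟨j, hj⟩ := h
      exact Or.inr (Finset.mem_biUnion.2 ⟨j, Finset.mem_univ _, Finset.mem_filter.2 ⟨his, hj⟩⟩)
    · left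
      push Not at h
      refine Finset.mem_filter.2 ⟨his, fun j k hk q hq => ?_⟩
      refine ap_step Z δ X P u (a i) (hXZ.trans_le hZP) ?_ (lam * Real.log Z) (ha i his) h ?_ j k hk q hq
      · intro p hp hpX
        exact hu' p hp.one_lt.le (hpX.trans hXδ)
      · intro j m hm
        obtain ⟨p, hp, hpX, hpd, _⟩ := hi2 j m (hm.trans (by
          apply mul_le_mul_of_nonneg_right _ hlogZ
          exact le_div_self (by linarith) hθ0 hθ1))
        refine ⟨p, hp, hpX.trans ?_, hpd⟩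
        apply Real.rpow_le_rpow_of_exponent_le hZ1.le
        rw [one_div_div]
        exact div_le_self hθ0.le hlam
  have hA2 : (A.card : ℝ) ≤ G.card + s.card * (9 * r / X ^ 3) := by
    have h2 := (Finset.card_le_card hsub).trans (Finset.card_union_le _ _)
    have h3 := h2.trans (Nat.add_le_add_left Finset.card_biUnion_le _)
    have h4 : (A.card : ℝ) ≤ G.card + ∑ j : Fin r,
        ((s.filter (fun i => |a i j| ≤ ((⌊X⌋₊ : ℕ) : ℤ))).card : ℝ) := by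
      exact_mod_cast h3
    refine h4.trans ?_
    have h5 := Finset.sum_le_sum fun (j : Fin r) (_ : j ∈ univ) =>
      small_coord r hr δ h0 h1 Z hZ1.le hX16 ι s a hdist j
    rw [Finset.sum_const, Finset.card_univ, Fintype.card_fin, nsmul_eq_mul] at h5
    have h6 : (r:ℝ) * (s.card * (9 / X ^ 3)) = s.card * (9 * r / X ^ 3) := by ring
    rw [← hθ, ← hX] at h5
    linarith
  have hsmall : 9 * (r:ℝ) / X ^ 3 ≤ 1 / 2 * (1 / X) := by
    rw [mul_one_div, div_le_div_iff₀ (by positivity) hX0]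
    have h2 : 9 * (r:ℝ) ≤ X / 2 := by linarith
    have h3 : X / 2 * X ≤ 1 / 2 * X ^ 3 := by nlinarith
    nlinarith
  have hEX : 1 / X ≤ 1 / 2 * Real.exp (-E) := by
    have h2 : E ≤ Real.sqrt (Real.log Z) := Real.le_sqrt_of_sq_le hlamZ
    have h3 : Real.exp E ≤ Real.exp (Real.sqrt (Real.log Z)) := Real.exp_le_exp.2 h2
    rw [Real.exp_neg, mul_comm, ← div_eq_mul_one_div, div_le_div_iff₀ hX0 (by norm_num), one_mul,
      inv_mul_eq_div, le_div_iff₀ (Real.exp_pos _)]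
    linarith
  have hexp : 2 * Real.exp (-E ^ 2) ≤ Real.exp (-E) := by
    have h2 : E + 1 ≤ E ^ 2 := by nlinarith
    have h4 : (2:ℝ) ≤ Real.exp 1 := by
      have := Real.add_one_le_exp (1:ℝ)
      linarith
    calc 2 * Real.exp (-E ^ 2) ≤ Real.exp 1 * Real.exp (-E ^ 2) :=
          mul_le_mul_of_nonneg_right h4 (Real.exp_pos _).le
      _ = Real.exp (1 + -E ^ 2) := (Real.exp_add _ _).symm
      _ ≤ _ := Real.exp_le_exp.2 (by linarith)
  have hs0 : (0:ℝ) ≤ s.card := Nat.cast_nonneg _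
  have f1 : (s.card : ℝ) * (9 * r / X ^ 3) ≤ s.card * (1 / 4 * Real.exp (-E)) := by
    apply mul_le_mul_of_nonneg_left _ hs0
    linarith
  have f2 : (s.card : ℝ) * (2 * Real.exp (-E ^ 2)) ≤
      s.card * Real.exp (-E) := mul_le_mul_of_nonneg_left hexp hs0
  have f3 : 0 ≤ (s.card : ℝ) * Real.exp (-E) := mul_nonneg hs0 (Real.exp_pos _).le
  have f4 : (s.card : ℝ) * Real.exp (-E) ≤ A.card := by
    refine key.trans (le_of_eq ?_)
    rw [hA]
  linarith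

end Pool.Agent.T2h81.LD
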