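import Pool.Agent.T2h81.LD.M1

set_option autoImplicit false
set_option linter.unusedSectionVars false
set_option linter.unusedVariables false
set_option maxHeartbeats 4000000

/-! # Progressions with a large common difference: the record scale -/

namespace Pool.Agent.T2h81.LD

open Finset Filter
open Pool.Agent.Y961.JR (critJ)
open Pool.Agent.W147.PS (ff ff_compare)

open scoped Classical

/-- removing few members from a well distributed family -/
lemma dist_remove {r : ℕ} (ι : Type) (s B : Finset ι) (hB : B ⊆ s) (w : ι → Fin r → ℤ) (q : ℕ)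
    (hq : 1 ≤ q) (ρ : Fin r → ℤ) (E : ℝ)
    (h : |((s.filter (fun i => ∀ j, (q : ℤ) ∣ w i j - ρ j)).card : ℝ) - s.card / (q : ℝ) ^ r| ≤ E) :
    |(((s \ B).filter (fun i => ∀ j, (q : ℤ) ∣ w i j - ρ j)).card : ℝ) -
      ((s \ B).card : ℝ) / (q : ℝ) ^ r| ≤ E + B.card := by
  have hq1 : (1 : ℝ) ≤ q := by exact_mod_cast hq
  have hqr : (1 : ℝ) ≤ (q : ℝ) ^ r := one_le_pow₀ hq1
  have htc : (((s \ B).card : ℕ) : ℝ) = s.card - B.card := by
    rw [Finset.card_sdiff_of_subset hB, Nat.cast_sub (Finset.card_le_card hB)]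
  set C := s.filter (fun i => ∀ j, (q : ℤ) ∣ w i j - ρ j) with hC
  set D := (s \ B).filter (fun i => ∀ j, (q : ℤ) ∣ w i j - ρ j) with hD
  have hDC : D ⊆ C := by
    intro x hx
    have h3 := Finset.mem_filter.1 hx
    exact Finset.mem_filter.2 ⟨(Finset.mem_sdiff.1 h3.1).1, h3.2⟩
  have hCD : C \ D ⊆ B := by
    intro x hx
    have h3 := Finset.mem_sdiff.1 hx
    have h4 := Finset.mem_filter.1 h3.1
    by_contra hxG
    apply h3.2
    exact Finset.mem_filter.2 ⟨Finset.mem_sdiff.2 ⟨h4.1, hxG⟩, h4.2⟩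
  have h5 : (C.card : ℝ) - D.card ≤ B.card := by
    have h6 := Finset.card_le_card hCD
    rw [Finset.card_sdiff_of_subset hDC] at h6
    have h7 : ((C.card - D.card : ℕ) : ℝ) ≤ B.card := by exact_mod_cast h6
    rwa [Nat.cast_sub (Finset.card_le_card hDC)] at h7
  have h6 : (D.card : ℝ) ≤ C.card := by exact_mod_cast Finset.card_le_card hDC
  rw [htc]
  have e : (D.card : ℝ) - (s.card - B.card) / (q : ℝ) ^ r =
      ((C.card : ℝ) - s.card / (q : ℝ) ^ r) + (B.card / (q : ℝ) ^ r - (C.card - D.card)) := by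
    ring
  rw [e]
  have h8 : |(B.card : ℝ) / (q : ℝ) ^ r - (C.card - D.card)| ≤ B.card := by
    have h9 : (B.card : ℝ) / (q : ℝ) ^ r ≤ B.card := div_le_self (Nat.cast_nonneg _) hqr
    have h10 : 0 ≤ (B.card : ℝ) / (q : ℝ) ^ r := by positivity
    rw [abs_le]
    constructor <;> linarith
  exact (abs_add_le _ _).trans (add_le_add h h8)

/-- the record version of the criterion for the progressions with the common difference `P` -/
theorem ap_rec (r : ℕ) (hr : 1 ≤ r) (δ : ℝ) (h0 : 0 < δ) (h1 : δ ≤ 1) : ∃ κ : ℝ, 0 < κ ∧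
    ∀ᶠ Z : ℝ in atTop,
    ∀ (ι : Type) (s : Finset ι) (a : ι → Fin r → ℤ) (P : ℕ), Z ≤ P →
    (∀ i ∈ s, ∀ j, 0 ≤ a i j) →
    (∀ q : ℕ, 1 ≤ q → (q : ℝ) ≤ Z ^ δ → Nat.Coprime P q) →
    (∀ q : ℕ, 1 ≤ q → (q : ℝ) ≤ Z ^ δ →
      ∀ ρ : Fin r → ℤ, |((s.filter (fun i => ∀ j, (q : ℤ) ∣ a i j - ρ j)).card : ℝ) -
        s.card / (q : ℝ) ^ r| ≤ s.card * Z ^ (-δ)) →
    (s.card : ℝ) * Z ^ (-δ) ≤
      ((s.filter (fun i => ∀ j, ∀ k : ℕ, (k : ℝ) ≤ κ * ff Z → ∀ q : ℕ, q.Prime →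
        (q : ℤ) ≠ a i j + k * P)).card : ℝ) := by
  obtain ⟨κ₀, hκ₀, X₀, hcrit⟩ := critJ r hr
  have hr1 : (1 : ℝ) ≤ r := by exact_mod_cast hr
  have hr0 : (0 : ℝ) < r := by linarith
  set θ : ℝ := δ / (8 * r) with hθ
  have hθ0 : 0 < θ := by positivity
  have hθδ : θ ≤ δ / 8 := by
    rw [hθ]
    apply div_le_div_of_nonneg_left h0.le (by norm_num)
    linarith
  have hθr : 8 * r * θ = δ := by rw [hθ]; field_simp
  set τ : ℝ := θ / (2 * r) with hτ
  have hτ0 : 0 < τ := by positivity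
  have hτr : τ * (2 * r) = θ := by rw [hτ]; field_simp
  have hτθ : τ ≤ θ := by
    rw [hτ]
    apply div_le_self hθ0.le
    linarith
  refine ⟨κ₀ * (τ / 32), by positivity, ?_⟩
  filter_upwards [ff_compare τ hτ0 (by linarith), (tendsto_rpow_atTop hτ0).eventually_ge_atTop X₀,
    eventually_gt_atTop (1:ℝ), (tendsto_rpow_atTop hθ0).eventually_ge_atTop (22 * r + 16 : ℝ)]
    with Z hff hX₀ hZ1 hXr
  intro ι s a P hZP ha hcop hdist
  have hZ0 : 0 < Z := by linarith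
  set X : ℝ := Z ^ θ with hX
  set Y : ℝ := Z ^ τ with hY
  have hX0 : 0 < X := Real.rpow_pos_of_pos hZ0 _
  have hY0 : 0 < Y := Real.rpow_pos_of_pos hZ0 _
  have hX1 : 1 ≤ X := Real.one_le_rpow hZ1.le hθ0.le
  have hY1 : 1 ≤ Y := Real.one_le_rpow hZ1.le hτ0.le
  have hX16 : 16 ≤ X := by linarith
  have hXδ : X ≤ Z ^ δ := Real.rpow_le_rpow_of_exponent_le hZ1.le (by linarith)
  have hYX : Y ≤ X := Real.rpow_le_rpow_of_exponent_le hZ1.le hτθ
  have hXZ : X < Z := by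
    calc X < Z ^ (1:ℝ) := Real.rpow_lt_rpow_of_exponent_lt hZ1 (by linarith)
      _ = Z := Real.rpow_one Z
  have hYr : Y ^ (-(2 * (r : ℝ))) = 1 / X := by
    rw [hY, ← Real.rpow_mul hZ0.le, hX, one_div, ← Real.rpow_neg hZ0.le]
    congr 1
    linarith
  have hZX : Z ^ (-δ) ≤ 1 / X ^ 3 := by
    have e1 : (1 : ℝ) / X ^ 3 = Z ^ (-(3 * θ)) := by
      rw [one_div, hX, ← Real.rpow_natCast, ← Real.rpow_mul hZ0.le, ← Real.rpow_neg hZ0.le]
      congr 1
      push_cast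
      ring
    rw [e1]
    apply Real.rpow_le_rpow_of_exponent_le hZ1.le
    linarith
  have hs0 : (0:ℝ) ≤ s.card := Nat.cast_nonneg _
  set G : Finset ι := s.filter (fun i => ∀ j, ∀ k : ℕ, (k : ℝ) ≤ κ₀ * (τ / 32) * ff Z →
    ∀ q : ℕ, q.Prime → (q : ℤ) ≠ a i j + k * P) with hG
  by_contra hlt
  rw [not_le] at hlt
  rcases s.eq_empty_or_nonempty with hse | hsne
  · rw [hse, Finset.card_empty, Nat.cast_zero, zero_mul] at hlt
    have := Nat.cast_nonneg (α := ℝ) G.card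
    linarith
  have hspos : (0 : ℝ) < s.card := by exact_mod_cast hsne.card_pos
  set S : Finset ι := (univ : Finset (Fin r)).biUnion
      (fun j => s.filter (fun i => |a i j| ≤ ((⌊X⌋₊ : ℕ) : ℤ))) with hS
  have hSs : S ⊆ s := Finset.biUnion_subset.2 fun j _ => Finset.filter_subset _ _
  have hSc : (S.card : ℝ) ≤ s.card * (9 * r / X ^ 3) := by
    have h4 : (S.card : ℝ) ≤ ∑ j : Fin r,
        ((s.filter (fun i => |a i j| ≤ ((⌊X⌋₊ : ℕ) : ℤ))).card : ℝ) := by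
      exact_mod_cast Finset.card_biUnion_le
    refine h4.trans ?_
    have h5 := Finset.sum_le_sum fun (j : Fin r) (_ : j ∈ univ) =>
      small_coord r hr δ h0 h1 Z hZ1.le hX16 ι s a hdist j
    rw [Finset.sum_const, Finset.card_univ, Fintype.card_fin, nsmul_eq_mul] at h5
    have h6 : (r:ℝ) * (s.card * (9 / X ^ 3)) = s.card * (9 * r / X ^ 3) := by ring
    rw [← hθ, ← hX] at h5
    linarith
  set B : Finset ι := G ∪ S with hBdef
  have hBs : B ⊆ s := Finset.union_subset (Finset.filter_subset _ _) hSs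
  have hBc : (B.card : ℝ) ≤ s.card * (10 * r / X ^ 3) := by
    have h2 : (B.card : ℝ) ≤ G.card + S.card := by exact_mod_cast Finset.card_union_le _ _
    have h3 : (s.card : ℝ) * Z ^ (-δ) ≤ s.card * (1 / X ^ 3) :=
      mul_le_mul_of_nonneg_left hZX hs0
    have h4 : (s.card : ℝ) * (10 * r / X ^ 3) = s.card * (9 * r / X ^ 3) + s.card * (r / X ^ 3) := by
      ring
    have h5 : (s.card : ℝ) * (1 / X ^ 3) ≤ s.card * (r / X ^ 3) := by
      apply mul_le_mul_of_nonneg_left _ hs0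
      exact div_le_div_of_nonneg_right hr1 (by positivity)
    linarith
  have hXX : 22 * (r : ℝ) / X ^ 3 ≤ 1 / X := by
    rw [div_le_div_iff₀ (by positivity) hX0, one_mul]
    have h2 : 22 * (r:ℝ) ≤ X := by linarith
    calc 22 * (r:ℝ) * X ≤ X * X := mul_le_mul_of_nonneg_right h2 hX0.le
      _ = X ^ 2 := by ring
      _ ≤ X ^ 3 := pow_le_pow_right₀ hX1 (by norm_num)
  have hX1' : 1 / X ≤ 1 := by rw [div_le_one hX0]; exact hX1
  have htc : (((s \ B).card : ℕ) : ℝ) = s.card - B.card := by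
    rw [Finset.card_sdiff_of_subset hBs, Nat.cast_sub (Finset.card_le_card hBs)]
  have ht1 : (s.card : ℝ) / 2 ≤ ((s \ B).card : ℝ) := by
    rw [htc]
    have h2 : (s.card : ℝ) * (10 * r / X ^ 3) ≤ s.card * (1 / 2) := by
      apply mul_le_mul_of_nonneg_left _ hs0
      have e : 10 * (r : ℝ) / X ^ 3 = 10 / 22 * (22 * r / X ^ 3) := by ring
      rw [e]
      linarith
    linarith
  have ht0 : (s \ B).Nonempty := by
    rw [← Finset.card_pos]
    have : (0 : ℝ) < ((s \ B).card : ℝ) := lt_of_lt_of_le (by positivity) ht1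
    exact_mod_cast this
  obtain ⟨u, hu⟩ := exists_inv P ⌊Z ^ δ⌋₊ (fun q hq1 hq2 => hcop q hq1 (by
    have h2 := Nat.floor_le (show 0 ≤ Z ^ δ by positivity)
    have h3 : (q : ℝ) ≤ ((⌊Z ^ δ⌋₊ : ℕ) : ℝ) := by exact_mod_cast hq2
    linarith))
  have hu' : ∀ q : ℕ, 1 ≤ q → (q : ℝ) ≤ Z ^ δ → (q : ℤ) ∣ P * u - 1 :=
    fun q hq1 hq2 => hu q hq1 (Nat.le_floor hq2)
  obtain ⟨i, hi, hgood⟩ := (hcrit Y hX₀).2 ι (s \ B) (fun i j => a i j * u) ht0 (by
    intro q hq hqY ρ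
    have hqZ : (q : ℝ) ≤ Z ^ δ := by
      refine hqY.trans ?_
      rw [hY, ← Real.rpow_mul hZ0.le]
      apply Real.rpow_le_rpow_of_exponent_le hZ1.le
      linarith
    have h2 := hdist q hq hqZ (fun j => P * ρ j)
    have e1 : s.filter (fun i => ∀ j, (q : ℤ) ∣ a i j * u - ρ j) =
        s.filter (fun i => ∀ j, (q : ℤ) ∣ a i j - P * ρ j) := by
      apply Finset.filter_congr
      intro i _
      exact forall_congr' fun j => dvd_inv_iff P q u (a i j) (ρ j) (hcop q hq hqZ) (hu' q hq hqZ)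
    refine (dist_remove ι s B hBs (fun i j => a i j * u) q hq ρ (s.card * Z ^ (-δ)) (by
      rw [e1]
      exact h2)).trans ?_
    rw [hYr]
    have h3 : (s.card : ℝ) * Z ^ (-δ) ≤ s.card * (1 / X ^ 3) :=
      mul_le_mul_of_nonneg_left hZX hs0
    have h5 : (s.card : ℝ) * (1 / X ^ 3) ≤ s.card * (r / X ^ 3) := by
      apply mul_le_mul_of_nonneg_left _ hs0
      exact div_le_div_of_nonneg_right hr1 (by positivity)
    have h6 : (s.card : ℝ) * (22 * r / X ^ 3) ≤ s.card * (1 / X) :=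
      mul_le_mul_of_nonneg_left hXX hs0
    have h7 : (s.card : ℝ) / 2 * (1 / X) ≤ ((s \ B).card : ℝ) * (1 / X) :=
      mul_le_mul_of_nonneg_right ht1 (by positivity)
    have e2 : (s.card : ℝ) * (22 * r / X ^ 3) =
        2 * (s.card * (10 * r / X ^ 3)) + 2 * (s.card * (r / X ^ 3)) := by ring
    have e3 : (s.card : ℝ) * (1 / X) = 2 * (s.card / 2 * (1 / X)) := by ring
    linarith)
  obtain ⟨his, hiB⟩ := Finset.mem_sdiff.1 hi
  apply hiB
  rw [hBdef, Finset.mem_union]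
  by_cases h : ∃ j, |a i j| ≤ ((⌊X⌋₊ : ℕ) : ℤ)
  · obtain ⟨j, hj⟩ := h
    exact Or.inr (Finset.mem_biUnion.2 ⟨j, Finset.mem_univ _, Finset.mem_filter.2 ⟨his, hj⟩⟩)
  · left
    push Not at h
    refine Finset.mem_filter.2 ⟨his, fun j k hk q hq => ?_⟩
    refine ap_step Z δ X P u (a i) (hXZ.trans_le hZP) ?_ (κ₀ * (τ / 32) * ff Z) (ha i his) h ?_ j k hk q hq
    · intro p hp hpX
      exact hu' p hp.one_lt.le (hpX.trans hXδ)
    · intro j m hm
      have hcmp : κ₀ * (τ / 32) * ff Z ≤ κ₀ * ff Y + 1 := by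
        have h5 := (hff.2 Y le_rfl (by
          calc Y ≤ Z ^ (2 : ℝ) := Real.rpow_le_rpow_of_exponent_le hZ1.le (by linarith)
            _ = Z ^ 2 := by norm_num)).1
        calc κ₀ * (τ / 32) * ff Z = κ₀ * (τ / 32 * ff Z) := by ring
          _ ≤ κ₀ * ff Y := mul_le_mul_of_nonneg_left h5 hκ₀.le
          _ ≤ _ := by linarith
      obtain ⟨p, hp, hpX, hpd⟩ := hgood j m (hm.trans hcmp)
      refine ⟨p, hp, hpX.trans ?_, hpd⟩
      calc Y ^ (1 / 10 : ℝ) ≤ Y ^ (1 : ℝ) := Real.rpow_le_rpow_of_exponent_le hY1 (by norm_num)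
        _ = Y := Real.rpow_one Y
        _ ≤ X := hYX

end Pool.Agent.T2h81.LD
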