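import Pool.Agent.T2h81.LD.M2
import Pool.Agent.N825.FC.Fin

set_option autoImplicit false
set_option linter.unusedSectionVars false
set_option linter.unusedVariables false
set_option maxHeartbeats 4000000

/-! # Families of classes modulo a prime with small Fourier coefficients -/

namespace Pool.Agent.T2h81.LD

open Finset Filter
open Pool.Agent.N825.FC (rep eqd rep_le)
open Pool.Agent.W147.PS (ff ev_pow)

open scoped Classical

lemma rep_neg_one {P : ℕ} [NeZero P] (x : ZMod P) : rep (-1) x = (x.val : ℤ) := by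
  unfold rep
  simp

/-- the least residues are well distributed -/
theorem four_level (r : ℕ) (hr : 1 ≤ r) (c : ℝ) (hc : 0 < c) (hc1 : c ≤ 1) : ∃ P₀ : ℝ,
    ∀ (P : ℕ) [Fact P.Prime], P₀ ≤ P →
    ∀ (ι : Type) (s : Finset ι) (v : ι → Fin r → ZMod P),
    (∀ h : Fin r → ZMod P, h ≠ 0 →
      ‖∑ i ∈ s, (ZMod.stdAddChar (∑ j, h j * v i j) : ℂ)‖ ≤ s.card * (P : ℝ) ^ (-c)) →
    (∀ q : ℕ, 1 ≤ q → (q : ℝ) ≤ (P : ℝ) ^ (c / 2) → Nat.Coprime P q) ∧
    (∀ q : ℕ, 1 ≤ q → (q : ℝ) ≤ (P : ℝ) ^ (c / 2) → ∀ ρ : Fin r → ℤ,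
      |((s.filter (fun i => ∀ j, (q : ℤ) ∣ ((v i j).val : ℤ) - ρ j)).card : ℝ) -
        s.card / (q : ℝ) ^ r| ≤ s.card * (P : ℝ) ^ (-(c / 2))) := by
  have hr1 : (1 : ℝ) ≤ r := by exact_mod_cast hr
  have hr0 : (0 : ℝ) < r := by linarith
  have hlogr : ∀ᶠ Z : ℝ in atTop, (2 + Real.log Z) ^ r ≤ Z ^ (c / 4) := by
    have h := (isLittleO_log_rpow_atTop (show (0 : ℝ) < c / (8 * r) by positivity)).def
      (show (0 : ℝ) < 1 by norm_num)
    filter_upwards [h, ev_pow 0 (c / (8 * r)) 2 (by positivity),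
      ev_pow (c / (8 * r)) (c / (4 * r)) 2 (by
        rw [div_lt_div_iff₀ (by positivity) (by positivity)]
        nlinarith), eventually_ge_atTop (1 : ℝ)] with Z h1 h2 h3 hZ1
    rw [Real.norm_eq_abs, abs_of_nonneg (Real.log_nonneg hZ1), Real.norm_eq_abs,
      abs_of_nonneg (Real.rpow_nonneg (by linarith) _), one_mul] at h1
    rw [Real.rpow_zero, mul_one] at h2
    have h4 : 2 + Real.log Z ≤ Z ^ (c / (4 * r)) := by linarith
    calc (2 + Real.log Z) ^ r ≤ (Z ^ (c / (4 * r))) ^ r :=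
          pow_le_pow_left₀ (by have := Real.log_nonneg hZ1; linarith) h4 r
      _ = Z ^ (c / 4) := by
          rw [← Real.rpow_natCast, ← Real.rpow_mul (by linarith)]
          congr 1
          field_simp
  obtain ⟨P₀, hP₀⟩ := eventually_atTop.1 (hlogr.and ((ev_pow (-(3 * c / 4)) (-(c / 2)) 2
    (by linarith)).and ((ev_pow (-1) (-(c / 2)) (2 * r) (by linarith)).and
    (eventually_ge_atTop (2 : ℝ)))))
  refine ⟨P₀, ?_⟩
  intro P _ hPP ι s v hv
  have hPprime : P.Prime := Fact.out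
  obtain ⟨hlog, e1, e2, hP2⟩ := hP₀ P hPP
  have hP0 : (0 : ℝ) < P := by linarith
  have hP1 : (1 : ℝ) ≤ P := by linarith
  have hcop : ∀ q : ℕ, 1 ≤ q → (q : ℝ) ≤ (P : ℝ) ^ (c / 2) → Nat.Coprime P q := by
    intro q hq hqP
    have h2 : (P : ℝ) ^ (c / 2) < (P : ℝ) ^ (1 : ℝ) :=
      Real.rpow_lt_rpow_of_exponent_lt (by linarith) (by linarith)
    rw [Real.rpow_one] at h2
    have h3 : (q : ℝ) < P := by linarith
    have h4 : q < P := by exact_mod_cast h3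
    exact (Nat.Prime.coprime_iff_not_dvd hPprime).2 fun h => absurd (Nat.le_of_dvd hq h) (by omega)
  refine ⟨hcop, fun q hq hqP ρ => ?_⟩
  have h1 := eqd P s r v (s.card * (P : ℝ) ^ (-c)) hv (by positivity) (fun _ => -1) P le_rfl q hq
    (hcop q hq hqP) ρ
  have h2 : (s.filter fun i => ∀ j, rep ((fun _ : Fin r => (-1 : ℤ)) j) (v i j) ≤
      (fun _ : Fin r => (-1 : ℤ)) j + (P : ℤ) ∧
      (q : ℤ) ∣ rep ((fun _ : Fin r => (-1 : ℤ)) j) (v i j) - ρ j) =
      s.filter (fun i => ∀ j, (q : ℤ) ∣ ((v i j).val : ℤ) - ρ j) := by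
    apply Finset.filter_congr
    intro i _
    apply forall_congr'
    intro j
    constructor
    · rintro ⟨_, h⟩
      rwa [rep_neg_one] at h
    · intro h
      refine ⟨rep_le _ _, ?_⟩
      rwa [rep_neg_one]
  rw [h2] at h1
  have h3 : ((P : ℝ) / P / q) ^ r = 1 / (q : ℝ) ^ r := by
    rw [div_self hP0.ne', one_div, inv_pow, one_div]
  rw [h3, mul_one_div] at h1
  refine h1.trans ?_
  have a1 : (P : ℝ) ^ (-c) * (2 + Real.log P) ^ r ≤ (P : ℝ) ^ (-(3 * c / 4)) := by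
    calc (P : ℝ) ^ (-c) * (2 + Real.log P) ^ r ≤ (P : ℝ) ^ (-c) * (P : ℝ) ^ (c / 4) :=
          mul_le_mul_of_nonneg_left hlog (by positivity)
      _ = (P : ℝ) ^ (-(3 * c / 4)) := by
          rw [← Real.rpow_add hP0]; congr 1; ring
  have a2 : (r : ℝ) / P = r * (P : ℝ) ^ (-1 : ℝ) := by
    rw [Real.rpow_neg_one]; rfl
  have a3 : s.card * (P : ℝ) ^ (-c) * (2 + Real.log P) ^ r + s.card * (r / P) =
      s.card * ((P : ℝ) ^ (-c) * (2 + Real.log P) ^ r + r / P) := by ring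
  rw [a3]
  apply mul_le_mul_of_nonneg_left _ (Nat.cast_nonneg _)
  rw [a2]
  linarith

/-- all primes in the class `a` modulo `P` are larger than `y` -/
def LateC (P : ℕ) (y : ℝ) (a : ZMod P) : Prop := ∀ q : ℕ, q.Prime → (q : ZMod P) = a → y < q

lemma late_of (P : ℕ) [NeZero P] (y K : ℝ) (a : ZMod P) (hy : y ≤ K * P)
    (h : ∀ k : ℕ, (k : ℝ) ≤ K → ∀ q : ℕ, q.Prime → (q : ℤ) ≠ (a.val : ℤ) + k * P) :
    LateC P y a := by
  intro q hq hqa
  by_contra hcon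
  push Not at hcon
  have hP : 0 < P := Nat.pos_of_ne_zero (NeZero.ne P)
  have hP0 : (0 : ℝ) < P := by exact_mod_cast hP
  have h1 : a.val = q % P := by rw [← hqa, ZMod.val_natCast]
  refine h (q / P) ?_ q hq ?_
  · have h2 : ((q / P : ℕ) : ℝ) * P ≤ q := by exact_mod_cast Nat.div_mul_le_self q P
    have h3 : ((q / P : ℕ) : ℝ) * P ≤ K * P := by linarith
    exact le_of_mul_le_mul_right h3 hP0
  · rw [h1]
    have h2 := Nat.mod_add_div q P
    have h3 : (q : ℤ) = ((q % P + P * (q / P) : ℕ) : ℤ) := by rw [h2]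
    rw [h3]
    push_cast
    ring

/-- **the criterion** -/
theorem fam (r : ℕ) (hr : 1 ≤ r) (c : ℝ) (hc : 0 < c) (hc1 : c ≤ 1) : ∃ C κ : ℝ, 1 ≤ C ∧ 0 < κ ∧
    ∃ P₀ : ℝ, ∀ (P : ℕ) [Fact P.Prime], P₀ ≤ P →
    ∀ (ι : Type) (s : Finset ι) (v : ι → Fin r → ZMod P),
    (∀ h : Fin r → ZMod P, h ≠ 0 →
      ‖∑ i ∈ s, (ZMod.stdAddChar (∑ j, h j * v i j) : ℂ)‖ ≤ s.card * (P : ℝ) ^ (-c)) →
    (∀ lam : ℝ, 1 ≤ lam → Real.exp (C * lam) ≤ Real.log P →
      (s.card : ℝ) * Real.exp (-Real.exp (C * lam)) ≤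
        ((s.filter (fun i => ∀ j, LateC P (lam * P * Real.log P) (v i j))).card : ℝ)) ∧
    (s.card : ℝ) * (P : ℝ) ^ (-c) ≤
      ((s.filter (fun i => ∀ j, LateC P (κ * P * ff P) (v i j))).card : ℝ) := by
  obtain ⟨P₁, h1⟩ := four_level r hr c hc hc1
  obtain ⟨C, hC, hcr⟩ := ap_crit r hr (c / 2) (by linarith) (by linarith)
  obtain ⟨κ, hκ, hre⟩ := ap_rec r hr (c / 2) (by linarith) (by linarith)
  obtain ⟨P₂, h2⟩ := eventually_atTop.1 (hcr.and (hre.and (eventually_ge_atTop (2 : ℝ))))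
  refine ⟨C, κ, hC, hκ, max P₁ P₂, ?_⟩
  intro P _ hP ι s v hv
  obtain ⟨hcop, hlev⟩ := h1 P ((le_max_left _ _).trans hP) ι s v hv
  obtain ⟨g1, g2, hP2⟩ := h2 P ((le_max_right _ _).trans hP)
  have hP1 : (1 : ℝ) ≤ P := by linarith
  constructor
  · intro lam hlam hlamP
    refine (g1 lam hlam hlamP ι s (fun i j => ((v i j).val : ℤ)) P le_rfl
      (fun i _ j => Int.natCast_nonneg _) hcop hlev).trans ?_
    rw [Nat.cast_le]
    apply Finset.card_le_card
    intro i hi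
    obtain ⟨his, hi2⟩ := Finset.mem_filter.1 hi
    refine Finset.mem_filter.2 ⟨his, fun j => ?_⟩
    exact late_of P _ (lam * Real.log P) (v i j) (by linarith [mul_right_comm lam (P : ℝ) (Real.log P)])
      (fun k hk q hq => hi2 j k hk q hq)
  · refine le_trans ?_ ((g2 ι s (fun i j => ((v i j).val : ℤ)) P le_rfl
      (fun i _ j => Int.natCast_nonneg _) hcop hlev).trans ?_)
    · apply mul_le_mul_of_nonneg_left _ (Nat.cast_nonneg _)
      apply Real.rpow_le_rpow_of_exponent_le hP1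
      linarith
    rw [Nat.cast_le]
    apply Finset.card_le_card
    intro i hi
    obtain ⟨his, hi2⟩ := Finset.mem_filter.1 hi
    refine Finset.mem_filter.2 ⟨his, fun j => ?_⟩
    exact late_of P _ (κ * ff P) (v i j) (by linarith [mul_right_comm κ (P : ℝ) (ff P)])
      (fun k hk q hq => hi2 j k hk q hq)

end Pool.Agent.T2h81.LD
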