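import Pool.Agent.T2h81.LD.M4

set_option autoImplicit false
set_option linter.unusedSectionVars false
set_option linter.unusedVariables false
set_option maxHeartbeats 4000000

/-! # Families of classes modulo a prime with small Fourier coefficients: products and their inverses -/

namespace Pool.Agent.T2h81.LD

open Finset Filter
open Pool.Agent.N825.FC (conj_char)
open Pool.Agent.W147.PS (ev_pow)

open scoped Classical

/-- the mean square of the sums over `b` -/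
lemma kl_pars (P : ℕ) [Fact P.Prime] (hP : P ≠ 2) (B : Finset (ZMod P)) (β : ZMod P → ℂ)
    (hβ : ∀ b, ‖β b‖ ≤ 1) (k₀ k₁ : ZMod P) (hk : k₀ ≠ 0 ∨ k₁ ≠ 0) :
    ∑ a : ZMod P, ‖∑ b ∈ B, ZMod.stdAddChar (k₀ * (a * b) + k₁ * (a * b)⁻¹) * β b‖ ^ 2 ≤
      B.card * P + (B.card : ℝ) ^ 2 * (3 * Real.sqrt P) := by
  classical
  have h1 : ∀ a : ZMod P,
      ((‖∑ b ∈ B, ZMod.stdAddChar (k₀ * (a * b) + k₁ * (a * b)⁻¹) * β b‖ ^ 2 : ℝ) : ℂ) =
      ∑ w ∈ B ×ˢ B, (β w.1 * (starRingEnd ℂ) (β w.2)) *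
        ZMod.stdAddChar (k₀ * (w.1 - w.2) * a + k₁ * (w.1⁻¹ - w.2⁻¹) * a⁻¹) := by
    intro a
    have h2 := Complex.mul_conj (∑ b ∈ B, ZMod.stdAddChar (k₀ * (a * b) + k₁ * (a * b)⁻¹) * β b)
    rw [Complex.normSq_eq_norm_sq] at h2
    rw [← h2, map_sum, sum_mul_sum, sum_product]
    refine sum_congr rfl fun b _ => sum_congr rfl fun b' _ => ?_
    have e1 : k₀ * (b - b') * a + k₁ * (b⁻¹ - b'⁻¹) * a⁻¹ =
        (k₀ * (a * b) + k₁ * (a * b)⁻¹) + -(k₀ * (a * b') + k₁ * (a * b')⁻¹) := by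
      rw [mul_inv, mul_inv]
      ring
    have e2 : (ZMod.stdAddChar (k₀ * (b - b') * a + k₁ * (b⁻¹ - b'⁻¹) * a⁻¹) : ℂ) =
        ZMod.stdAddChar (k₀ * (a * b) + k₁ * (a * b)⁻¹) *
          ZMod.stdAddChar (-(k₀ * (a * b') + k₁ * (a * b')⁻¹)) := by
      rw [e1, AddChar.map_add_eq_mul]
    rw [map_mul (starRingEnd ℂ), conj_char]
    simp only
    rw [e2]
    ring
  have h3 : ((∑ a : ZMod P,
      ‖∑ b ∈ B, ZMod.stdAddChar (k₀ * (a * b) + k₁ * (a * b)⁻¹) * β b‖ ^ 2 : ℝ) : ℂ) =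
      ∑ w ∈ B ×ˢ B, (β w.1 * (starRingEnd ℂ) (β w.2)) *
        ∑ a : ZMod P, ZMod.stdAddChar (k₀ * (w.1 - w.2) * a + k₁ * (w.1⁻¹ - w.2⁻¹) * a⁻¹) := by
    push_cast
    push_cast at h1
    rw [sum_congr rfl fun a _ => h1 a, sum_comm]
    refine sum_congr rfl fun w _ => ?_
    rw [← mul_sum]
  have h4 : ‖((∑ a : ZMod P,
      ‖∑ b ∈ B, ZMod.stdAddChar (k₀ * (a * b) + k₁ * (a * b)⁻¹) * β b‖ ^ 2 : ℝ) : ℂ)‖ ≤
      B.card * P + (B.card : ℝ) ^ 2 * (3 * Real.sqrt P) := by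
    rw [h3]
    refine (norm_sum_le _ _).trans ?_
    have h5 : ∀ w ∈ B ×ˢ B, ‖(β w.1 * (starRingEnd ℂ) (β w.2)) *
        ∑ a : ZMod P, (ZMod.stdAddChar (k₀ * (w.1 - w.2) * a + k₁ * (w.1⁻¹ - w.2⁻¹) * a⁻¹) : ℂ)‖ ≤
        (if w.1 = w.2 then (P : ℝ) else 0) + 3 * Real.sqrt P := by
      intro w _
      rw [norm_mul, norm_mul, RCLike.norm_conj]
      have h6 : ‖β w.1‖ * ‖β w.2‖ ≤ 1 := mul_le_one₀ (hβ _) (norm_nonneg _) (hβ _)
      have h7 : ‖∑ a : ZMod P, (ZMod.stdAddChar (k₀ * (w.1 - w.2) * a +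
          k₁ * (w.1⁻¹ - w.2⁻¹) * a⁻¹) : ℂ)‖ ≤ (if w.1 = w.2 then (P : ℝ) else 0) + 3 * Real.sqrt P := by
        split_ifs with h
        · have h8 : ‖∑ a : ZMod P, (ZMod.stdAddChar (k₀ * (w.1 - w.2) * a +
              k₁ * (w.1⁻¹ - w.2⁻¹) * a⁻¹) : ℂ)‖ ≤ ∑ a : ZMod P, (1 : ℝ) :=
            (norm_sum_le _ _).trans (sum_le_sum fun a _ => (AddChar.norm_apply _ _).le)
          rw [Finset.sum_const, Finset.card_univ, ZMod.card, nsmul_eq_mul, mul_one] at h8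
          have := Real.sqrt_nonneg (P : ℝ)
          linarith
        · rw [zero_add]
          apply kl_bound P hP
          have h9 : w.1 - w.2 ≠ 0 := sub_ne_zero.2 h
          have h10 : w.1⁻¹ - w.2⁻¹ ≠ 0 := sub_ne_zero.2 fun h' => h (inv_injective h')
          rcases hk with hk | hk
          · exact Or.inl (mul_ne_zero hk h9)
          · exact Or.inr (mul_ne_zero hk h10)
      calc _ ≤ 1 * ‖∑ a : ZMod P, (ZMod.stdAddChar (k₀ * (w.1 - w.2) * a +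
          k₁ * (w.1⁻¹ - w.2⁻¹) * a⁻¹) : ℂ)‖ := mul_le_mul_of_nonneg_right h6 (norm_nonneg _)
        _ ≤ _ := by rw [one_mul]; exact h7
    refine (sum_le_sum h5).trans (le_of_eq ?_)
    rw [Finset.sum_add_distrib, Finset.sum_const, Finset.card_product, nsmul_eq_mul]
    have h6 : ∑ w ∈ B ×ˢ B, (if w.1 = w.2 then (P : ℝ) else 0) = B.card * P := by
      rw [sum_product]
      have h7 : ∀ b ∈ B, ∑ b' ∈ B, (if b = b' then (P : ℝ) else 0) = P := by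
        intro b hb
        rw [Finset.sum_ite_eq, if_pos hb]
      rw [Finset.sum_congr rfl h7, Finset.sum_const, nsmul_eq_mul]
    rw [h6]
    push_cast
    ring
  rw [Complex.norm_real, Real.norm_eq_abs] at h4
  exact (le_abs_self _).trans h4

/-- bilinear sums with products and their inverses -/
lemma kl_bilin (P : ℕ) [Fact P.Prime] (hP : P ≠ 2) (A B : Finset (ZMod P)) (γ β : ZMod P → ℂ)
    (hγ : ∀ a, ‖γ a‖ ≤ 1) (hβ : ∀ b, ‖β b‖ ≤ 1) (k₀ k₁ : ZMod P) (hk : k₀ ≠ 0 ∨ k₁ ≠ 0) :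
    ‖∑ a ∈ A, ∑ b ∈ B, γ a * (ZMod.stdAddChar (k₀ * (a * b) + k₁ * (a * b)⁻¹) * β b)‖ ^ 2 ≤
      A.card * (B.card * P + (B.card : ℝ) ^ 2 * (3 * Real.sqrt P)) := by
  classical
  have h1 : ‖∑ a ∈ A, ∑ b ∈ B, γ a * (ZMod.stdAddChar (k₀ * (a * b) + k₁ * (a * b)⁻¹) * β b)‖ ≤
      ∑ a ∈ A, ‖∑ b ∈ B, ZMod.stdAddChar (k₀ * (a * b) + k₁ * (a * b)⁻¹) * β b‖ := by
    refine (norm_sum_le _ _).trans (sum_le_sum fun a _ => ?_)
    rw [← mul_sum, norm_mul]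
    calc _ ≤ 1 * ‖∑ b ∈ B, ZMod.stdAddChar (k₀ * (a * b) + k₁ * (a * b)⁻¹) * β b‖ :=
          mul_le_mul_of_nonneg_right (hγ a) (norm_nonneg _)
      _ = _ := one_mul _
  have h2 : (∑ a ∈ A, ‖∑ b ∈ B, ZMod.stdAddChar (k₀ * (a * b) + k₁ * (a * b)⁻¹) * β b‖) ^ 2 ≤
      A.card * ∑ a ∈ A, ‖∑ b ∈ B, ZMod.stdAddChar (k₀ * (a * b) + k₁ * (a * b)⁻¹) * β b‖ ^ 2 :=
    sq_sum_le_card_mul_sum_sq
  have h3 : ∑ a ∈ A, ‖∑ b ∈ B, ZMod.stdAddChar (k₀ * (a * b) + k₁ * (a * b)⁻¹) * β b‖ ^ 2 ≤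
      ∑ a : ZMod P, ‖∑ b ∈ B, ZMod.stdAddChar (k₀ * (a * b) + k₁ * (a * b)⁻¹) * β b‖ ^ 2 :=
    sum_le_sum_of_subset_of_nonneg (subset_univ _) fun a _ _ => by positivity
  have h6 := kl_pars P hP B β hβ k₀ k₁ hk
  calc _ ≤ (∑ a ∈ A, ‖∑ b ∈ B, ZMod.stdAddChar (k₀ * (a * b) + k₁ * (a * b)⁻¹) * β b‖) ^ 2 :=
        pow_le_pow_left₀ (norm_nonneg _) h1 2
    _ ≤ A.card * ∑ a ∈ A, ‖∑ b ∈ B, ZMod.stdAddChar (k₀ * (a * b) + k₁ * (a * b)⁻¹) * β b‖ ^ 2 := h2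
    _ ≤ _ := mul_le_mul_of_nonneg_left (h3.trans h6) (Nat.cast_nonneg _)

/-- products of two sets and the inverses of the products -/
theorem bias_inverses (ε : ℝ) (hε : 0 < ε) (hε1 : ε ≤ 1) :
    ∃ P₀ : ℝ, ∀ (P : ℕ) [Fact P.Prime], P₀ ≤ P →
    ∀ A B : Finset (ZMod P), (P : ℝ) ^ (1 + ε) ≤ A.card * B.card →
    ∀ G K : Fin 2 → ZMod P → ZMod P, ∀ k : Fin 2 → ZMod P, k ≠ 0 →
    ‖∑ w ∈ A ×ˢ B, (ZMod.stdAddChar (∑ j : Fin 2, k j *
      ((if j = 0 then w.1 * w.2 else (w.1 * w.2)⁻¹) + G j w.1 + K j w.2)) : ℂ)‖ ≤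
      (A ×ˢ B).card * (P : ℝ) ^ (-(ε / 8)) := by
  obtain ⟨P₁, hP₁⟩ := eventually_atTop.1 ((eventually_ge_atTop (3 : ℝ)).and
    ((ev_pow (-ε) (-(ε / 4)) 2 (by linarith)).and (ev_pow (-(ε / 2)) (-(ε / 4)) 6 (by linarith))))
  refine ⟨P₁, ?_⟩
  -- the larger set first
  have main : ∀ (P : ℕ) [Fact P.Prime], P₁ ≤ P →
      ∀ A B : Finset (ZMod P), (P : ℝ) ^ (1 + ε) ≤ A.card * B.card → B.card ≤ A.card →
      ∀ G K : Fin 2 → ZMod P → ZMod P, ∀ k : Fin 2 → ZMod P, k ≠ 0 →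
      ‖∑ w ∈ A ×ˢ B, (ZMod.stdAddChar (∑ j : Fin 2, k j *
        ((if j = 0 then w.1 * w.2 else (w.1 * w.2)⁻¹) + G j w.1 + K j w.2)) : ℂ)‖ ≤
        (A ×ˢ B).card * (P : ℝ) ^ (-(ε / 8)) := by
    intro P _ hP A B hAB hBA G K k hk
    obtain ⟨hP3, hP4, hP5⟩ := hP₁ P hP
    have hP0 : (0 : ℝ) < P := by linarith
    have hP1 : (1 : ℝ) ≤ P := by linarith
    have hPne : P ≠ 2 := by
      rintro rfl
      norm_num at hP3
    have hk' : k 0 ≠ 0 ∨ k 1 ≠ 0 := by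
      by_contra hcon
      push Not at hcon
      apply hk
      funext j
      fin_cases j
      · exact hcon.1
      · exact hcon.2
    have hAB0 : (0 : ℝ) < A.card * B.card := lt_of_lt_of_le (Real.rpow_pos_of_pos hP0 _) hAB
    have hA0 : (0 : ℝ) < A.card := by
      rcases (Nat.cast_nonneg (α := ℝ) A.card).eq_or_lt with h | h
      · rw [← h, zero_mul] at hAB0
        exact absurd hAB0 (lt_irrefl _)
      · exact h
    have h1 := kl_bilin P hPne A B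
      (fun a => ZMod.stdAddChar (k 0 * G 0 a + k 1 * G 1 a))
      (fun b => ZMod.stdAddChar (k 0 * K 0 b + k 1 * K 1 b))
      (fun a => (AddChar.norm_apply _ _).le) (fun b => (AddChar.norm_apply _ _).le) (k 0) (k 1) hk'
    have h2 : ∑ w ∈ A ×ˢ B, (ZMod.stdAddChar (∑ j : Fin 2, k j *
        ((if j = 0 then w.1 * w.2 else (w.1 * w.2)⁻¹) + G j w.1 + K j w.2)) : ℂ) =
        ∑ a ∈ A, ∑ b ∈ B, ZMod.stdAddChar (k 0 * G 0 a + k 1 * G 1 a) *
          (ZMod.stdAddChar (k 0 * (a * b) + k 1 * (a * b)⁻¹) *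
            ZMod.stdAddChar (k 0 * K 0 b + k 1 * K 1 b)) := by
      rw [sum_product]
      refine sum_congr rfl fun a _ => sum_congr rfl fun b _ => ?_
      rw [← AddChar.map_add_eq_mul, ← AddChar.map_add_eq_mul]
      congr 1
      rw [Fin.sum_univ_two, if_pos rfl, if_neg (by decide)]
      ring
    rw [h2]
    refine le_of_sq_le_sq' ?_ (by positivity)
    refine h1.trans ?_
    rw [card_product]
    push_cast
    have h4 : ((P : ℝ) ^ (-(ε / 8))) ^ 2 = (P : ℝ) ^ (-(ε / 4)) := by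
      rw [← Real.rpow_natCast, ← Real.rpow_mul hP0.le]
      congr 1
      push_cast
      ring
    -- the first term
    have g1 : (P : ℝ) ≤ (A.card * B.card) * (P : ℝ) ^ (-ε) := by
      calc (P : ℝ) = (P : ℝ) ^ (1 + ε) * (P : ℝ) ^ (-ε) := by
            rw [← Real.rpow_add hP0]
            have : 1 + ε + -ε = 1 := by ring
            rw [this, Real.rpow_one]
        _ ≤ _ := mul_le_mul_of_nonneg_right hAB (by positivity)
    -- the second term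
    have g2 : Real.sqrt P ≤ A.card * (P : ℝ) ^ (-(ε / 2)) := by
      have a1 : (P : ℝ) ^ (1 + ε) ≤ (A.card : ℝ) ^ 2 := by
        refine hAB.trans ?_
        rw [sq]
        apply mul_le_mul_of_nonneg_left _ (Nat.cast_nonneg _)
        exact_mod_cast hBA
      have a2 : (P : ℝ) ^ ((1 + ε) / 2) ≤ A.card := by
        apply le_of_sq_le_sq' _ (Nat.cast_nonneg _)
        refine le_trans (le_of_eq ?_) a1
        rw [← Real.rpow_natCast, ← Real.rpow_mul hP0.le]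
        congr 1
        push_cast
        ring
      calc Real.sqrt P = (P : ℝ) ^ ((1 + ε) / 2) * (P : ℝ) ^ (-(ε / 2)) := by
            rw [← Real.rpow_add hP0, Real.sqrt_eq_rpow]
            congr 1
            ring
        _ ≤ _ := mul_le_mul_of_nonneg_right a2 (by positivity)
    have g3 : (A.card : ℝ) * (B.card * P) ≤ (A.card * B.card) ^ 2 * (P : ℝ) ^ (-ε) := by
      calc (A.card : ℝ) * (B.card * P) = (A.card * B.card) * P := by ring
        _ ≤ (A.card * B.card) * ((A.card * B.card) * (P : ℝ) ^ (-ε)) :=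
            mul_le_mul_of_nonneg_left g1 hAB0.le
        _ = _ := by ring
    have g4 : (A.card : ℝ) * ((B.card : ℝ) ^ 2 * (3 * Real.sqrt P)) ≤
        (A.card * B.card) ^ 2 * (3 * (P : ℝ) ^ (-(ε / 2))) := by
      calc (A.card : ℝ) * ((B.card : ℝ) ^ 2 * (3 * Real.sqrt P)) =
            (A.card * (B.card : ℝ) ^ 2 * 3) * Real.sqrt P := by ring
        _ ≤ (A.card * (B.card : ℝ) ^ 2 * 3) * (A.card * (P : ℝ) ^ (-(ε / 2))) :=
            mul_le_mul_of_nonneg_left g2 (by positivity)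
        _ = _ := by ring
    have g5 : (P : ℝ) ^ (-ε) + 3 * (P : ℝ) ^ (-(ε / 2)) ≤ (P : ℝ) ^ (-(ε / 4)) := by
      linarith
    calc (A.card : ℝ) * (B.card * P + (B.card : ℝ) ^ 2 * (3 * Real.sqrt P)) =
          A.card * (B.card * P) + A.card * ((B.card : ℝ) ^ 2 * (3 * Real.sqrt P)) := by ring
      _ ≤ (A.card * B.card) ^ 2 * (P : ℝ) ^ (-ε) +
          (A.card * B.card) ^ 2 * (3 * (P : ℝ) ^ (-(ε / 2))) := add_le_add g3 g4
      _ = (A.card * B.card) ^ 2 * ((P : ℝ) ^ (-ε) + 3 * (P : ℝ) ^ (-(ε / 2))) := by ring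
      _ ≤ (A.card * B.card) ^ 2 * (P : ℝ) ^ (-(ε / 4)) :=
          mul_le_mul_of_nonneg_left g5 (by positivity)
      _ = (A.card * B.card * (P : ℝ) ^ (-(ε / 8))) ^ 2 := by rw [← h4]; ring
  intro P _ hP A B hAB G K k hk
  rcases le_total B.card A.card with h | h
  · exact main P hP A B hAB h G K k hk
  · have h1 := main P hP B A (by rw [mul_comm]; exact hAB) h K G k hk
    have h2 : ∑ w ∈ A ×ˢ B, (ZMod.stdAddChar (∑ j : Fin 2, k j *
        ((if j = 0 then w.1 * w.2 else (w.1 * w.2)⁻¹) + G j w.1 + K j w.2)) : ℂ) =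
        ∑ w ∈ B ×ˢ A, (ZMod.stdAddChar (∑ j : Fin 2, k j *
        ((if j = 0 then w.1 * w.2 else (w.1 * w.2)⁻¹) + K j w.1 + G j w.2)) : ℂ) := by
      rw [sum_product, sum_product_right]
      refine sum_congr rfl fun a _ => sum_congr rfl fun b _ => ?_
      congr 1
      refine sum_congr rfl fun j _ => ?_
      simp only
      rw [mul_comm a b]
      ring
    rw [h2, card_product, mul_comm A.card B.card, ← card_product]
    exact h1

end Pool.Agent.T2h81.LD
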