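import Pool.Agent.T2h81.LD.G5

set_option autoImplicit false
set_option linter.unusedSectionVars false
set_option linter.unusedVariables false
set_option maxHeartbeats 4000000

/-! # Integers prime to the small primes -/

namespace Pool.Agent.T2h81.LD

open Finset Filter Pool.Agent.H256R2.SC Pool.Agent.Y831.RC Pool.Agent.T2h81.RF

open scoped Classical

/-- the elements of `V` not covered by the primes dividing `P`, in the class of `b` -/
noncomputable def sv (P : ℕ) (b : ℤ) (V : Finset ℤ) : Finset ℤ :=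
  V.filter (fun v => Int.gcd (b + v) P = 1)

/-- every integer is prime to `P` in the expected number of classes -/
theorem sum_sv (P : ℕ) (hP : 0 < P) (V : Finset ℤ) :
    ∑ b ∈ range P, (sv P (b : ℤ) V).card = V.card * P.totient := by
  unfold sv
  simp_rw [Finset.card_filter]
  rw [Finset.sum_comm]
  rw [← smul_eq_mul, ← Finset.sum_const]
  apply Finset.sum_congr rfl
  intro v _
  rw [← Finset.card_filter]
  have hPz : (0 : ℤ) < P := by exact_mod_cast hP
  obtain ⟨v', hv'⟩ : ∃ v' : ℕ, (v' : ℤ) = v % P := ⟨(v % P).toNat, Int.toNat_of_nonneg (Int.emod_nonneg _ hPz.ne')⟩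
  rw [← Nat.filter_coprime_Ico_eq_totient P v']
  apply Finset.card_bij (fun b _ => b + v')
  · intro b hb
    rw [Finset.mem_filter, Finset.mem_range] at hb
    rw [Finset.mem_filter, Finset.mem_Ico]
    refine ⟨⟨by omega, by omega⟩, ?_⟩
    have h1 : Int.gcd ((b : ℤ) + v) P = Int.gcd ((b : ℤ) + v') P := by
      rw [hv']
      rw [Int.gcd_comm, Int.gcd_comm _ (P : ℤ)]
      have h2 : (b : ℤ) + v = ((b : ℤ) + v % P) + P * (v / P) := by
        have := Int.emod_add_mul_ediv v P
        linarith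
      rw [h2]
      exact Int.gcd_add_mul_left_right ..
    have h3 := hb.2
    rw [h1] at h3
    have h4 : ((b : ℤ) + v') = ((b + v' : ℕ) : ℤ) := by push_cast; ring
    rw [h4, Int.gcd_natCast_natCast] at h3
    rw [Nat.coprime_comm]
    exact h3
  · intro b _ b' _ h
    omega
  · intro c hc
    rw [Finset.mem_filter, Finset.mem_Ico] at hc
    refine ⟨c - v', ?_, by omega⟩
    rw [Finset.mem_filter, Finset.mem_range]
    refine ⟨by omega, ?_⟩
    have h4 : (((c - v' : ℕ) : ℤ) + v') = ((c : ℕ) : ℤ) := by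
      have : v' ≤ c := hc.1.1
      push_cast [Nat.cast_sub this]
      ring
    have h1 : Int.gcd (((c - v' : ℕ) : ℤ) + v) P = Int.gcd (((c - v' : ℕ) : ℤ) + v') P := by
      rw [hv']
      rw [Int.gcd_comm, Int.gcd_comm _ (P : ℤ)]
      have h2 : ((c - v' : ℕ) : ℤ) + v = (((c - v' : ℕ) : ℤ) + v % P) + P * (v / P) := by
        have := Int.emod_add_mul_ediv v P
        linarith
      rw [h2]
      exact Int.gcd_add_mul_left_right ..
    rw [h1, h4, Int.gcd_natCast_natCast]
    exact hc.2.symm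

/-- the totient of the primorial -/
theorem tot_primorial (x : ℝ) (hx : 0 ≤ x) :
    ((primorial ⌊x⌋₊).totient : ℝ) = primorial ⌊x⌋₊ * WW x := by
  have h1 := Nat.totient_eq_mul_prod_factors (primorial ⌊x⌋₊)
  have h2 : ((primorial ⌊x⌋₊).totient : ℝ) =
      primorial ⌊x⌋₊ * ∏ p ∈ (primorial ⌊x⌋₊).primeFactors, (1 - (p : ℝ)⁻¹) := by
    have := congrArg (fun q : ℚ => (q : ℝ)) h1
    push_cast at this
    exact this
  rw [h2]
  congr 1
  unfold WW
  have h3 : (primorial ⌊x⌋₊).primeFactors = (Finset.Icc 1 ⌊x⌋₊).filter Nat.Prime := by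
    ext p
    rw [Nat.mem_primeFactors, Finset.mem_filter, Finset.mem_Icc]
    constructor
    · rintro ⟨h1, h2, _⟩
      exact ⟨⟨h1.one_lt.le, (h1.dvd_primorial_iff).1 h2⟩, h1⟩
    · rintro ⟨⟨_, h2⟩, h3⟩
      exact ⟨h3, (h3.dvd_primorial_iff).2 h2, (primorial_pos _).ne'⟩
  rw [h3]
  apply Finset.prod_congr rfl
  intro p _
  rw [one_div]



/-- the proportion of the integers without prime factors up to `L / 32` -/
theorem prop_small : ∃ C₄ L₁ : ℝ, 0 < C₄ ∧ 1600 ≤ L₁ ∧ ∀ L : ℝ, L₁ ≤ L →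
    WW (L / 32) ≤ C₄ / Real.log L ∧ 1 ≤ Real.log L := by
  obtain ⟨c, C, hc, hcC, hWb⟩ := WW_bounds
  have hC : 0 < C := hc.trans_le hcC
  refine ⟨2 * C, 1600, by positivity, le_rfl, ?_⟩
  intro L hL
  have hL0 : 0 < L := by linarith
  have h1 := (hWb (L / 32) (by linarith)).2
  have h3 : 1 ≤ Real.log L := by
    rw [Real.le_log_iff_exp_le hL0]
    have := Real.exp_one_lt_d9
    linarith
  have h2 : Real.log L ≤ 2 * Real.log (L / 32) := by
    have e1 : 2 * Real.log (L / 32) = Real.log ((L / 32) ^ 2) := by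
      rw [Real.log_pow]; push_cast; ring
    rw [e1]
    apply Real.log_le_log hL0
    nlinarith
  refine ⟨?_, h3⟩
  have h4 : 0 < Real.log L := by linarith
  rw [le_div_iff₀ h4]
  have h5 := (WW_pos (L / 32)).le
  nlinarith



end Pool.Agent.T2h81.LD
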